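import Mathlib

/-!
The absolute height does not depend on the number field.
-/

open Polynomial Finset NumberField Height

namespace MPd27c8d

section ext
variable (F K : Type*) [Field F] [NumberField F] [Field K] [NumberField K] [Algebra F K]

/-- Products over the infinite places as products over the complex embeddings. -/
lemma prod_inf_eq_prod_emb (h : InfinitePlace K → ℝ) :
    ∏ w : InfinitePlace K, h w ^ w.mult = ∏ φ : K →+* ℂ, h (InfinitePlace.mk φ) := by
  classical
  rw [← Finset.prod_fiberwise (s := (univ : Finset (K →+* ℂ)))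
    (g := fun φ => InfinitePlace.mk φ) (f := fun φ => h (InfinitePlace.mk φ))]
  apply Finset.prod_congr rfl
  intro w _
  rw [← InfinitePlace.card_filter_mk_eq w, ← Finset.prod_const]
  apply Finset.prod_congr rfl
  intro φ hφ
  rw [(Finset.mem_filter.mp hφ).2]

open Classical in
/-- The number of extensions of a complex embedding. -/
lemma card_extensions (ψ : F →+* ℂ) :
    ((univ : Finset (K →+* ℂ)).filter
      (fun φ : K →+* ℂ => φ.comp (algebraMap F K) = ψ)).card =
      Module.finrank F K := by
  let _ : Algebra F ℂ := ψ.toAlgebra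
  have h1 : Fintype.card (K →ₐ[F] ℂ) = Module.finrank F K := AlgHom.card F K ℂ
  rw [← h1, ← Fintype.card_subtype]
  apply Fintype.card_congr
  refine ⟨fun φ => { φ.1 with commutes' := fun x => ?_ }, fun φ => ⟨φ.toRingHom, ?_⟩,
    fun φ => ?_, fun φ => ?_⟩
  · exact RingHom.congr_fun φ.2 x
  · ext x; exact φ.commutes x
  · ext x; rfl
  · ext x; rfl

lemma prod_inf_ext (h : InfinitePlace F → ℝ) :
    ∏ w : InfinitePlace K, h (w.comap (algebraMap F K)) ^ w.mult =
      (∏ v : InfinitePlace F, h v ^ v.mult) ^ Module.finrank F K := by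
  classical
  rw [prod_inf_eq_prod_emb K (fun w => h (w.comap (algebraMap F K))), prod_inf_eq_prod_emb F h,
    ← Finset.prod_fiberwise (s := (univ : Finset (K →+* ℂ)))
    (g := fun φ : K →+* ℂ => φ.comp (algebraMap F K))
    (f := fun φ => h ((InfinitePlace.mk φ).comap (algebraMap F K))), ← Finset.prod_pow]
  apply Finset.prod_congr rfl
  intro ψ _
  rw [← card_extensions F K ψ, ← Finset.prod_const]
  apply Finset.prod_congr rfl
  intro φ hφ
  rw [InfinitePlace.comap_mk, (Finset.mem_filter.mp hφ).2]

/-- The multiplicative height of a tuple in an extension. -/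
theorem mulHeight_ext {ι : Type*} [Finite ι] [Nonempty ι] (x : ι → 𝓞 F) (hx : x ≠ 0) :
    mulHeight (fun i => algebraMap F K (x i : F)) =
      mulHeight (fun i => (x i : F)) ^ Module.finrank F K := by
  classical
  have hxF : (fun i => (x i : F)) ≠ 0 := by
    intro h; apply hx; funext i
    have := congrFun h i
    exact RingOfIntegers.ext (by simpa using this)
  set y : ι → 𝓞 K := fun i => algebraMap (𝓞 F) (𝓞 K) (x i) with hy
  have hyx : ∀ i, (y i : K) = algebraMap F K (x i : F) := by
    intro i; rfl
  have hy0 : y ≠ 0 := by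
    intro h; apply hxF; funext i
    have := congrFun h i
    have h2 : (y i : K) = 0 := by rw [this]; rfl
    rw [hyx] at h2
    simpa using h2
  have hyK : (fun i => (y i : K)) ≠ 0 := by
    intro h; apply hy0; funext i
    have := congrFun h i
    exact RingOfIntegers.ext (by simpa using this)
  have e1 := absNorm_mul_finprod_finitePlace_eq_one hx
  have e2 := absNorm_mul_finprod_finitePlace_eq_one hy0
  have hspan : Ideal.span (Set.range y) =
      (Ideal.span (Set.range x)).map (algebraMap (𝓞 F) (𝓞 K)) := by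
    rw [Ideal.map_span, ← Set.range_comp]; rfl
  rw [hspan, Ideal.absNorm_algebraMap, ← IsFractionRing.finrank_eq (𝓞 F) F (𝓞 K) K] at e2
  have hfun : (fun i => algebraMap F K (x i : F)) = fun i => (y i : K) := by
    funext i; rw [hyx]
  rw [hfun, NumberField.mulHeight_eq hyK, NumberField.mulHeight_eq hxF, mul_pow]
  congr 1
  · rw [← prod_inf_ext F K (fun v => ⨆ i, v (x i : F))]
    apply Finset.prod_congr rfl
    intro w _
    congr 1
  · have h1 : ((Ideal.absNorm (Ideal.span (Set.range x)) : ℝ) ^ Module.finrank F K) ≠ 0 := by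
      intro h
      rw [Nat.cast_pow, h, zero_mul] at e2
      exact zero_ne_one e2
    have h3 := congrArg (fun t => t ^ Module.finrank F K) e1
    simp only [mul_pow, one_pow] at h3
    rw [Nat.cast_pow] at e2
    exact mul_left_cancel₀ h1 (e2.trans h3.symm)

/-- The logarithmic height of an element in an extension. -/
theorem logHeight₁_ext (x : F) :
    logHeight₁ (algebraMap F K x) = Module.finrank F K * logHeight₁ x := by
  rcases IsFractionRing.div_surjective (𝓞 F) x with ⟨a, b, hb, rfl⟩
  have hb0 : b ≠ 0 := nonZeroDivisors.ne_zero hb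
  have hx : (![a, b] : Fin 2 → 𝓞 F) ≠ 0 := by
    intro h; exact hb0 (congrFun h 1)
  have h := mulHeight_ext F K ![a, b] hx
  rw [logHeight₁_eq_log_mulHeight₁, logHeight₁_eq_log_mulHeight₁, map_div₀,
    mulHeight₁_div_eq_mulHeight, mulHeight₁_div_eq_mulHeight, ← Real.log_pow]
  congr 1
  convert h using 2
  · funext i; fin_cases i <;> rfl
  · congr 1
    funext i; fin_cases i <;> rfl

end ext

/-- Mathlib's absolute logarithmic height can be computed in any number field. -/
theorem absLogHeight_eq {K : Type*} [Field K] [NumberField K] {E : Type*} [Field E] [CharZero E]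
    (φ : K →+* E) (x : K) :
    NumberField.absLogHeight₁ (φ x) = logHeight₁ x / (Module.finrank ℚ K : ℝ) := by
  classical
  have hxK : IsIntegral ℚ x := Algebra.IsIntegral.isIntegral x
  let φ' : K →ₐ[ℚ] E := φ.toRatAlgHom
  have hφ' : ∀ y, φ' y = φ y := fun y => rfl
  have hx : IsIntegral ℚ (φ x) := by
    rw [← hφ']; exact hxK.map φ'
  have : FiniteDimensional ℚ (IntermediateField.adjoin ℚ {φ x}) :=
    IntermediateField.adjoin.finiteDimensional hx
  have hNF : NumberField (IntermediateField.adjoin ℚ {φ x}) := {}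
  have hmin : minpoly ℚ (φ x) = minpoly ℚ x := by
    rw [← hφ']; exact minpoly.algHom_eq φ' φ'.injective x
  have hroot : x ∈ (minpoly ℚ (φ x)).aroots K := by
    rw [mem_aroots, hmin]
    exact ⟨minpoly.ne_zero hxK, minpoly.aeval ℚ x⟩
  let θ : IntermediateField.adjoin ℚ {φ x} →ₐ[ℚ] K :=
    (IntermediateField.algHomAdjoinIntegralEquiv ℚ hx).symm ⟨x, hroot⟩
  have hθ : θ (IntermediateField.AdjoinSimple.gen ℚ (φ x)) = x :=
    IntermediateField.algHomAdjoinIntegralEquiv_symm_apply_gen ℚ hx ⟨x, hroot⟩
  let _ : Algebra (IntermediateField.adjoin ℚ {φ x}) K := θ.toRingHom.toAlgebra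
  have hst : IsScalarTower ℚ (IntermediateField.adjoin ℚ {φ x}) K :=
    IsScalarTower.of_algebraMap_eq fun q => (θ.commutes q).symm
  have h := logHeight₁_ext (IntermediateField.adjoin ℚ {φ x}) K
    (IntermediateField.AdjoinSimple.gen ℚ (φ x))
  have h2 : algebraMap (IntermediateField.adjoin ℚ {φ x}) K
    (IntermediateField.AdjoinSimple.gen ℚ (φ x)) = x := hθ
  rw [h2] at h
  have h3 : Module.finrank ℚ (IntermediateField.adjoin ℚ {φ x}) *
      Module.finrank (IntermediateField.adjoin ℚ {φ x}) K = Module.finrank ℚ K :=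
    Module.finrank_mul_finrank ℚ (IntermediateField.adjoin ℚ {φ x}) K
  have h4 : (0 : ℝ) < Module.finrank ℚ K := by exact_mod_cast Module.finrank_pos
  have h5 : (Module.finrank ℚ (IntermediateField.adjoin ℚ {φ x}) : ℝ) *
      Module.finrank (IntermediateField.adjoin ℚ {φ x}) K = Module.finrank ℚ K := by
    exact_mod_cast h3
  rw [NumberField.absLogHeight₁, NumberField.absMulHeight₁, dif_pos hx,
    Real.log_rpow (mulHeight₁_pos _), ← logHeight₁_eq_log_mulHeight₁, h, ← h5]
  have h6 : (Module.finrank ℚ (IntermediateField.adjoin ℚ {φ x}) : ℝ) ≠ 0 := by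
    intro h0; rw [h0, zero_mul] at h5; linarith
  have h7 : (Module.finrank (IntermediateField.adjoin ℚ {φ x}) K : ℝ) ≠ 0 := by
    intro h0; rw [h0, mul_zero] at h5; linarith
  field_simp

end MPd27c8d
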