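import Mathlib

/-!
Finite places: if `d + 1` points are pairwise far apart, one of them escapes fast.
-/

open Polynomial Finset

namespace MPd27c8d

/-- A product over a finite set is at least `D * m ^ (card - 1)` when all factors are at least `m`
and one factor is at least `D`. -/
lemma prod_low {ι : Type*} [DecidableEq ι] (s : Finset ι) (F : ι → ℝ) (m D : ℝ) (hm : 0 ≤ m)
    (hF : ∀ i ∈ s, m ≤ F i) {k : ι} (hk : k ∈ s) (hD : D ≤ F k) (hD0 : 0 ≤ D) :
    D * m ^ (s.card - 1) ≤ ∏ i ∈ s, F i := by
  rw [← Finset.mul_prod_erase s F hk]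
  have h1 : m ^ (s.card - 1) ≤ ∏ i ∈ s.erase k, F i := by
    rw [← Finset.card_erase_of_mem hk, ← Finset.prod_const]
    apply Finset.prod_le_prod
    · intro i _; exact hm
    · intro i hi; exact hF i (Finset.mem_of_mem_erase hi)
  apply mul_le_mul hD h1 (by positivity) (hD0.trans hD)

/-- Strict version of `prod_low`. -/
lemma prod_low_strict {ι : Type*} [DecidableEq ι] (s : Finset ι) (F : ι → ℝ) (m D : ℝ)
    (hm : 0 < m) (hF : ∀ i ∈ s, m < F i) {k : ι} (hk : k ∈ s) (hD : D ≤ F k) (hD0 : 0 < D)
    (hs : 2 ≤ s.card) :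
    D * m ^ (s.card - 1) < ∏ i ∈ s, F i := by
  rw [← Finset.mul_prod_erase s F hk]
  have h1 : m ^ (s.card - 1) < ∏ i ∈ s.erase k, F i := by
    rw [← Finset.card_erase_of_mem hk, ← Finset.prod_const]
    apply Finset.prod_lt_prod_of_nonempty
    · intro i _; exact hm
    · intro i hi; exact hF i (Finset.mem_of_mem_erase hi)
    · rw [← Finset.card_pos, Finset.card_erase_of_mem hk]; omega
  have h2 : 0 < ∏ i ∈ s.erase k, F i := lt_trans (by positivity) h1
  calc D * m ^ (s.card - 1) < D * ∏ i ∈ s.erase k, F i := mul_lt_mul_of_pos_left h1 hD0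
    _ ≤ F k * ∏ i ∈ s.erase k, F i := mul_le_mul_of_nonneg_right hD h2.le

/-- Ultrametric Lagrange interpolation: the leading coefficient is controlled by the values at
`d + 1` nodes. -/
lemma lagr_step {L : Type*} [Field L] (v : AbsoluteValue L ℝ) (hv : IsNonarchimedean v)
    (f : L[X]) (d : ℕ) (hd : f.natDegree = d) (hd1 : 1 ≤ d) (u : Fin (d + 1) → L)
    (hu : Function.Injective u) (w : L) :
    ∃ j, v f.leadingCoeff * ∏ k ∈ univ.erase j, v (u j - u k) ≤ v (f.eval (u j) - w) := by
  classical
  have hP : (f - C w).degree < ((univ : Finset (Fin (d + 1))).card : ℕ) := by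
    rw [Finset.card_univ, Fintype.card_fin]
    apply lt_of_le_of_lt (Polynomial.degree_sub_le f (C w))
    rw [max_lt_iff]
    constructor
    · apply lt_of_le_of_lt Polynomial.degree_le_natDegree
      rw [hd]; exact_mod_cast Nat.lt_succ_self d
    · apply lt_of_le_of_lt Polynomial.degree_C_le
      exact_mod_cast Nat.succ_pos d
  have h := Lagrange.coeff_eq_sum (s := (univ : Finset (Fin (d + 1)))) (v := u)
    (hu.injOn) hP
  rw [Finset.card_univ, Fintype.card_fin, Nat.add_sub_cancel, coeff_sub, coeff_C,
    if_neg (by omega), sub_zero] at h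
  have hlc : f.coeff d = f.leadingCoeff := by rw [← hd]; rfl
  rw [hlc] at h
  obtain ⟨j, _, hj⟩ := IsNonarchimedean.finset_image_add_of_nonempty hv
    (fun i => (f - C w).eval (u i) / ∏ j ∈ univ.erase i, (u i - u j))
    (Finset.univ_nonempty (α := Fin (d + 1)))
  refine ⟨j, ?_⟩
  rw [← h] at hj
  have hpos : 0 < ∏ k ∈ univ.erase j, v (u j - u k) := by
    apply Finset.prod_pos
    intro k hk
    apply v.pos
    rw [sub_ne_zero]
    intro hh
    exact (Finset.ne_of_mem_erase hk) (hu hh).symm
  rw [map_div₀, map_prod, eval_sub, eval_C, le_div_iff₀ hpos] at hj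
  exact hj

/-- **Escape lemma at a finite place.** Let `nm x = κ * v x` be the absolute value scaled by the
`(d-1)`-th root of the absolute value of the leading coefficient. If `d + 1` points are pairwise at
scaled distance more than `m ≥ 1`, then the orbit of one of them escapes at speed `m ^ (d ^ n)`. -/
lemma na_escape {L : Type*} [Field L] (v : AbsoluteValue L ℝ) (hv : IsNonarchimedean v)
    (f : L[X]) (d : ℕ) (hd : f.natDegree = d) (hd2 : 2 ≤ d) (κ : ℝ) (hκ : 0 < κ)
    (hκd : κ ^ (d - 1) = v f.leadingCoeff) (z : Fin (d + 1) → L) (m : ℝ) (hm : 1 ≤ m)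
    (hz : ∀ i j, i ≠ j → m < κ * v (z i - z j)) :
    ∃ b, ∀ n, 1 ≤ n → m ^ (d ^ n) < κ * v ((fun x => f.eval x)^[n] (z b) - z 0) := by
  classical
  set nm : L → ℝ := fun x => κ * v x with hnm
  have nm_nonneg : ∀ x, 0 ≤ nm x := fun x => mul_nonneg hκ.le (v.nonneg x)
  have nm_sub_comm : ∀ x y, nm (x - y) = nm (y - x) := by
    intro x y; simp only [hnm]; rw [v.map_sub]
  have nm_tri : ∀ x y w, nm (x - w) ≤ max (nm (x - y)) (nm (y - w)) := by
    intro x y w
    have h := hv (x - y) (y - w)
    rw [sub_add_sub_cancel] at h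
    simp only [hnm]
    rw [← mul_max_of_nonneg _ _ hκ.le]
    exact mul_le_mul_of_nonneg_left h hκ.le
  have nm_zero : nm 0 = 0 := by simp [hnm]
  have hL : ∀ u : Fin (d + 1) → L, Function.Injective u → ∀ w : L,
      ∃ j, ∏ k ∈ univ.erase j, nm (u j - u k) ≤ nm (f.eval (u j) - w) := by
    intro u hu w
    obtain ⟨j, hj⟩ := lagr_step v hv f d hd (by omega) u hu w
    refine ⟨j, ?_⟩
    simp only [hnm]
    rw [Finset.prod_mul_distrib, Finset.prod_const, Finset.card_erase_of_mem (Finset.mem_univ j),
      Finset.card_univ, Fintype.card_fin, Nat.add_sub_cancel]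
    have hdd : κ ^ d = κ * κ ^ (d - 1) := by
      rw [← pow_succ']; congr 1; omega
    rw [hdd, hκd, mul_assoc]
    exact mul_le_mul_of_nonneg_left hj hκ.le
  have hzi : Function.Injective z := by
    intro i j hij
    by_contra hne
    have h := hz i j hne
    rw [hij, sub_self, map_zero, mul_zero] at h
    linarith
  -- the diameter of the set of points
  obtain ⟨⟨i0, j0⟩, -, hmax⟩ := Finset.exists_max_image
    ((univ : Finset (Fin (d + 1))) ×ˢ (univ : Finset (Fin (d + 1))))
    (fun p => nm (z p.1 - z p.2)) ⟨(0, 0), by simp⟩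
  set D0 := nm (z i0 - z j0) with hD0
  have hD0le : ∀ i j, nm (z i - z j) ≤ D0 := fun i j => hmax (i, j) (by simp)
  have h01 : (0 : Fin (d + 1)) ≠ Fin.last d := by
    intro h
    have := congrArg Fin.val h
    simp at this
    omega
  have hmD0 : m < D0 := lt_of_lt_of_le (hz 0 (Fin.last d) h01) (hD0le _ _)
  have hfar : ∀ j, ∃ k, k ≠ j ∧ D0 ≤ nm (z j - z k) := by
    intro j
    have h := nm_tri (z i0) (z j) (z j0)
    rcases le_max_iff.mp h with h | h
    · refine ⟨i0, ?_, ?_⟩
      · rintro rfl
        rw [sub_self, nm_zero] at h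
        linarith
      · rw [nm_sub_comm]; exact h
    · refine ⟨j0, ?_, h⟩
      rintro rfl
      rw [sub_self, nm_zero] at h
      linarith
  have hcard : ∀ j : Fin (d + 1), (univ.erase j).card = d := by
    intro j
    rw [Finset.card_erase_of_mem (Finset.mem_univ j), Finset.card_univ, Fintype.card_fin,
      Nat.add_sub_cancel]
  have hprod : ∀ j, D0 * m ^ (d - 1) < ∏ k ∈ univ.erase j, nm (z j - z k) := by
    intro j
    obtain ⟨k, hk, hk2⟩ := hfar j
    have := prod_low_strict (univ.erase j) (fun k => nm (z j - z k)) m D0 (by linarith)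
      (fun i hi => hz j i (Finset.ne_of_mem_erase hi).symm)
      (Finset.mem_erase.mpr ⟨hk, Finset.mem_univ _⟩) hk2 (by linarith)
      (by rw [hcard]; exact hd2)
    rwa [hcard] at this
  -- the images
  obtain ⟨a, -, ha⟩ := Finset.exists_max_image (univ : Finset (Fin (d + 1)))
    (fun j => nm (f.eval (z j) - f.eval (z 0))) ⟨0, by simp⟩
  set D1 := nm (f.eval (z a) - f.eval (z 0)) with hD1
  have hD1le : ∀ j, nm (f.eval (z j) - f.eval (z 0)) ≤ D1 := fun j => ha j (by simp)
  have hD01 : D0 * m ^ (d - 1) < D1 := by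
    obtain ⟨j, hj⟩ := hL z hzi (f.eval (z 0))
    exact (hprod j).trans_le (hj.trans (hD1le j))
  have hmp : (1 : ℝ) ≤ m ^ (d - 1) := one_le_pow₀ hm
  have hD0D1 : D0 < D1 := by
    have : D0 * 1 ≤ D0 * m ^ (d - 1) := mul_le_mul_of_nonneg_left hmp (by linarith)
    linarith
  -- the escaping point
  obtain ⟨b, hb1, hb2⟩ : ∃ b, D1 ≤ nm (f.eval (z b) - z 0) ∧
      nm (f.eval (z 0) - z 0) ≤ nm (f.eval (z b) - z 0) := by
    have htri := nm_tri (f.eval (z a)) (z 0) (f.eval (z 0))
    rw [nm_sub_comm (z 0) (f.eval (z 0))] at htri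
    rcases le_total (nm (f.eval (z 0) - z 0)) (nm (f.eval (z a) - z 0)) with h | h
    · refine ⟨a, ?_, h⟩
      exact htri.trans (max_le le_rfl h)
    · refine ⟨0, ?_, le_rfl⟩
      exact htri.trans (max_le h le_rfl)
  set r := nm (f.eval (z b) - z 0) with hr
  have hstep : ∀ y, r ≤ nm (y - z 0) → nm (y - z 0) ^ d ≤ nm (f.eval y - z 0) := by
    intro y hy
    set ρ := nm (y - z 0) with hρ
    have hρD1 : D1 ≤ ρ := hb1.trans hy
    have hρ1 : 1 < ρ := by linarith
    have hk : ∀ k, ρ ≤ nm (y - z k) := by
      intro k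
      have h := nm_tri y (z k) (z 0)
      rcases le_max_iff.mp h with h | h
      · exact h
      · have h1 := hD0le k 0
        linarith
    set u : Fin (d + 1) → L := Function.update z (Fin.last d) y with hu
    have hul : u (Fin.last d) = y := by simp [hu]
    have hun : ∀ i, i ≠ Fin.last d → u i = z i := by
      intro i hi; simp [hu, hi]
    have hui : Function.Injective u := by
      intro i j hij
      by_contra hne
      by_cases hi : i = Fin.last d
      · subst hi
        have hj : j ≠ Fin.last d := fun h => hne h.symm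
        rw [hul, hun j hj] at hij
        have := hk j
        rw [hij, sub_self, nm_zero] at this
        linarith
      · by_cases hj : j = Fin.last d
        · subst hj
          rw [hul, hun i hi] at hij
          have := hk i
          rw [← hij, sub_self, nm_zero] at this
          linarith
        · rw [hun i hi, hun j hj] at hij
          exact hne (hzi hij)
    obtain ⟨j, hj⟩ := hL u hui (f.eval (z 0))
    have hlt : ρ < ρ ^ d := by
      calc ρ = ρ ^ 1 := (pow_one ρ).symm
        _ < ρ ^ d := pow_lt_pow_right₀ hρ1 (by omega)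
    by_cases hjl : j = Fin.last d
    · subst hjl
      rw [hul] at hj
      have h1 : ρ ^ d ≤ ∏ k ∈ univ.erase (Fin.last d), nm (y - u k) := by
        have : ρ ^ d = ∏ k ∈ univ.erase (Fin.last d), ρ := by
          rw [Finset.prod_const, Finset.card_erase_of_mem (Finset.mem_univ _), Finset.card_univ,
            Fintype.card_fin, Nat.add_sub_cancel]
        rw [this]
        apply Finset.prod_le_prod
        · intro i _; linarith
        · intro i hi
          rw [hun i (Finset.ne_of_mem_erase hi)]
          exact hk i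
      have h2 : ρ ^ d ≤ nm (f.eval y - f.eval (z 0)) := h1.trans hj
      have h3 := nm_tri (f.eval y) (z 0) (f.eval (z 0))
      rcases le_max_iff.mp (h2.trans h3) with h | h
      · exact h
      · rw [nm_sub_comm] at h
        linarith
    · exfalso
      rw [hun j hjl] at hj
      have h1 : ρ * m ^ (d - 1) < ∏ k ∈ univ.erase j, nm (z j - u k) := by
        have := prod_low_strict (univ.erase j) (fun k => nm (z j - u k)) m ρ (by linarith) ?_
          (k := Fin.last d) (Finset.mem_erase.mpr ⟨fun h => hjl h.symm, Finset.mem_univ _⟩) ?_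
          (by linarith) (by rw [hcard]; exact hd2)
        · rwa [hcard] at this
        · intro i hi
          by_cases hil : i = Fin.last d
          · subst hil
            rw [hul, nm_sub_comm]
            exact (by linarith : m < ρ).trans_le (hk j)
          · rw [hun i hil]
            exact hz j i (Finset.ne_of_mem_erase hi).symm
        · rw [hul, nm_sub_comm]; exact hk j
      have h2 : ρ * 1 ≤ ρ * m ^ (d - 1) := mul_le_mul_of_nonneg_left hmp (by linarith)
      have h3 := hj.trans (hD1le j)
      linarith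
  have hrm : m ^ d < r := by
    have h1 : m ^ d = m * m ^ (d - 1) := by
      rw [← pow_succ']; congr 1; omega
    have h2 : m * m ^ (d - 1) ≤ D0 * m ^ (d - 1) :=
      mul_le_mul_of_nonneg_right hmD0.le (by linarith)
    rw [h1]; linarith
  have hr1 : 1 ≤ r := by linarith
  refine ⟨b, ?_⟩
  have key : ∀ n, r ≤ nm ((fun x => f.eval x)^[n + 1] (z b) - z 0) ∧
      (m ^ d) ^ (d ^ n) < nm ((fun x => f.eval x)^[n + 1] (z b) - z 0) := by
    intro n
    induction n with
    | zero =>
      refine ⟨?_, ?_⟩
      · simp only [zero_add, Function.iterate_one]; exact le_rfl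
      · simp only [zero_add, Function.iterate_one, pow_zero, pow_one]; exact hrm
    | succ n ih =>
      have h := hstep _ ih.1
      rw [← Function.iterate_succ_apply' (fun x => f.eval x) (n + 1) (z b)] at h
      refine ⟨?_, ?_⟩
      · refine ih.1.trans (le_trans ?_ h)
        exact le_self_pow₀ (hr1.trans ih.1) (by omega)
      · refine lt_of_lt_of_le ?_ h
        rw [pow_succ d n, pow_mul]
        exact pow_lt_pow_left₀ ih.2 (by positivity) (by omega)
  intro n hn
  obtain ⟨k, rfl⟩ : ∃ k, n = k + 1 := ⟨n - 1, by omega⟩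
  have h := (key k).2
  rw [← pow_mul, ← pow_succ'] at h
  exact h

/-- **Colouring lemma at a finite place.** If all orbits are small after `n` steps, the points can
be coloured with `d` colours so that points of one colour are at scaled distance at most `ρ`. -/
lemma na_coloring {L : Type*} [Field L] (v : AbsoluteValue L ℝ) (hv : IsNonarchimedean v)
    (f : L[X]) (d : ℕ) (hd : f.natDegree = d) (hd2 : 2 ≤ d) (κ : ℝ) (hκ : 0 < κ)
    (hκd : κ ^ (d - 1) = v f.leadingCoeff) {ι : Type*} [Fintype ι] (z : ι → L) (ρ : ℝ)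
    (hρ : 1 ≤ ρ) (n : ℕ) (hn : 1 ≤ n)
    (hz : ∀ i j, κ * v ((fun x => f.eval x)^[n] (z i) - z j) ≤ ρ ^ (d ^ n)) :
    ∃ χ : ι → Fin d, ∀ i j, χ i = χ j → κ * v (z i - z j) ≤ ρ := by
  classical
  let Q : Finset ι → Prop := fun S => ∀ i ∈ S, ∀ j ∈ S, i ≠ j → ρ < κ * v (z i - z j)
  obtain ⟨S, hS, hSmax⟩ := Finset.exists_max_image ((univ : Finset (Finset ι)).filter Q)
    Finset.card ⟨∅, by simp [Q]⟩
  have hSQ : Q S := (Finset.mem_filter.mp hS).2
  have hcov : ∀ i, ∃ s ∈ S, κ * v (z i - z s) ≤ ρ := by
    intro i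
    by_contra hcon
    push Not at hcon
    have hiS : i ∉ S := by
      intro hi
      have := hcon i hi
      rw [sub_self, map_zero, mul_zero] at this
      linarith
    have hQ : Q (insert i S) := by
      intro a ha b hb hab
      rcases Finset.mem_insert.mp ha with h1 | h1
      · subst h1
        rcases Finset.mem_insert.mp hb with h2 | h2
        · exact absurd h2.symm hab
        · exact hcon b h2
      · rcases Finset.mem_insert.mp hb with h2 | h2
        · subst h2
          rw [v.map_sub]; exact hcon a h1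
        · exact hSQ a h1 b h2 hab
    have := hSmax (insert i S) (Finset.mem_filter.mpr ⟨Finset.mem_univ _, hQ⟩)
    rw [Finset.card_insert_of_notMem hiS] at this
    omega
  have hcard : S.card ≤ d := by
    by_contra hcon
    push Not at hcon
    obtain ⟨T, hTS, hT⟩ := Finset.exists_subset_card_eq (s := S) (n := d + 1) (by omega)
    let e := (T.equivFinOfCardEq hT).symm
    obtain ⟨b, hb⟩ := na_escape v hv f d hd hd2 κ hκ hκd (fun i => z (e i)) ρ hρ (by
      intro i j hij
      apply hSQ _ (hTS (e i).2) _ (hTS (e j).2)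
      intro h
      exact hij (e.injective (Subtype.ext h)))
    exact absurd (hb n hn) (not_lt.mpr (hz _ _))
  obtain ⟨emb⟩ : Nonempty (S ↪ Fin d) := by
    apply Function.Embedding.nonempty_of_card_le
    rw [Fintype.card_coe, Fintype.card_fin]; exact hcard
  choose s hsS hs using hcov
  refine ⟨fun i => emb ⟨s i, hsS i⟩, ?_⟩
  intro i j hij
  have hss : s i = s j := congrArg Subtype.val (emb.injective hij)
  have h1 := hs i
  have h2 := hs j
  rw [← hss] at h2
  have h := hv (z i - z (s i)) (z (s i) - z j)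
  rw [sub_add_sub_cancel] at h
  calc κ * v (z i - z j) ≤ κ * max (v (z i - z (s i))) (v (z (s i) - z j)) :=
        mul_le_mul_of_nonneg_left h hκ.le
    _ = max (κ * v (z i - z (s i))) (κ * v (z (s i) - z j)) := mul_max_of_nonneg _ _ hκ.le
    _ ≤ ρ := max_le h1 (by rw [v.map_sub]; exact h2)

end MPd27c8d
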