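import Mathlib
import Pool.Agent.Lib.MP_d27c8d_nt.LocalNA

/-!
Infinite places: points of small height are covered by `d` discs of scaled radius `4 exp (2 Γ)`.
-/

open Polynomial Finset

namespace MPd27c8d

/-- A complex polynomial of degree `d` takes each value `d` times. -/
lemma exists_preimages (f : ℂ[X]) (d : ℕ) (hd : f.natDegree = d) (hd1 : 1 ≤ d) (p : ℂ) :
    ∃ w : Fin d → ℂ, ∀ z, f.eval z - p = f.leadingCoeff * ∏ i, (z - w i) := by
  set q : ℂ[X] := f - C p with hq
  have hqd : q.natDegree = d := by rw [hq, natDegree_sub_C, hd]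
  have hqlc : q.leadingCoeff = f.leadingCoeff := by
    rw [leadingCoeff, hqd, hq, coeff_sub, coeff_C, if_neg (by omega), sub_zero, ← hd]; rfl
  have hs : q.Splits := IsAlgClosed.splits q
  have hcard : q.roots.card = d := by rw [← hqd]; exact hs.natDegree_eq_card_roots.symm
  have hprod := hs.eq_prod_roots
  have hlen : q.roots.toList.length = d := by rw [Multiset.length_toList, hcard]
  refine ⟨fun i => q.roots.toList.get (i.cast hlen.symm), ?_⟩
  intro z
  have h1 : f.eval z - p = q.eval z := by rw [hq, eval_sub, eval_C]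
  rw [h1]
  conv_lhs => rw [hprod]
  rw [eval_mul, eval_C, hqlc]
  congr 1
  rw [eval_multiset_prod, Multiset.map_map]
  have h2 : (fun x => eval z x) ∘ (fun a => X - C a) = fun a => z - a := by
    funext a; simp
  rw [h2]
  conv_lhs => rw [← Multiset.coe_toList q.roots]
  rw [Multiset.map_coe, Multiset.prod_coe]
  rw [← List.prod_ofFn]
  congr 1
  apply List.ext_get
  · simp [hlen]
  · intro n h1 h2
    simp

/-- **Colouring lemma at an infinite place.** -/
lemma arch_coloring (f : ℂ[X]) (d : ℕ) (hd : f.natDegree = d) (hd2 : 2 ≤ d) (κ : ℝ) (hκ : 0 < κ)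
    (hκd : κ ^ (d - 1) = ‖f.leadingCoeff‖) :
    ∃ p : ℂ, ∀ (N : ℕ) (z : Fin N → ℂ) (Γ : ℝ), 0 ≤ Γ → ∀ n, 1 ≤ n →
      (∀ i, κ * ‖(fun x => f.eval x)^[n] (z i) - p‖ ≤ Real.exp (d ^ n * Γ)) →
      ∃ χ : Fin N → Fin d, ∀ i j, χ i = χ j → κ * ‖z i - z j‖ ≤ 8 * Real.exp (2 * Γ) := by
  classical
  -- a fixed point
  obtain ⟨p, hp⟩ : ∃ p : ℂ, f.eval p = p := by
    have hdeg : (f - X).degree ≠ 0 := by
      have h1 : (X : ℂ[X]).degree < f.degree := by
        rw [degree_X, degree_eq_natDegree (by rintro rfl; simp at hd; omega), hd]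
        exact_mod_cast hd2
      rw [degree_sub_eq_left_of_degree_lt h1, degree_eq_natDegree
        (by rintro rfl; simp at hd; omega), hd]
      exact_mod_cast (by omega : d ≠ 0)
    obtain ⟨p, hp⟩ := IsAlgClosed.exists_root (f - X) hdeg
    refine ⟨p, ?_⟩
    rw [IsRoot.def, eval_sub, eval_X] at hp
    exact sub_eq_zero.mp hp
  refine ⟨p, ?_⟩
  obtain ⟨w, hw⟩ := exists_preimages f d hd (by omega) p
  set nm : ℂ → ℝ := fun x => κ * ‖x‖ with hnm
  have nm_nonneg : ∀ x, 0 ≤ nm x := fun x => mul_nonneg hκ.le (norm_nonneg x)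
  have nm_tri : ∀ x y u, nm (x - u) ≤ nm (x - y) + nm (y - u) := by
    intro x y u
    simp only [hnm]
    rw [← mul_add]
    exact mul_le_mul_of_nonneg_left (norm_sub_le_norm_sub_add_norm_sub x y u) hκ.le
  have nm_comm : ∀ x y, nm (x - y) = nm (y - x) := by
    intro x y; simp only [hnm]; rw [norm_sub_rev]
  have nm_zero : nm 0 = 0 := by simp [hnm]
  have hfac : ∀ z, nm (f.eval z - p) = ∏ i, nm (z - w i) := by
    intro z
    simp only [hnm]
    rw [hw z, norm_mul, norm_prod, ← hκd, Finset.prod_mul_distrib, Finset.prod_const,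
      Finset.card_univ, Fintype.card_fin, ← mul_assoc]
    congr 1
    rw [← pow_succ']; congr 1; omega
  have hlc : f.leadingCoeff ≠ 0 := by
    intro h
    rw [h, norm_zero] at hκd
    exact absurd hκd (pow_pos hκ _).ne'
  obtain ⟨i1, hi1⟩ : ∃ i1, w i1 = p := by
    have h := hw p
    rw [hp, sub_self] at h
    have h2 := (mul_eq_zero.mp h.symm).resolve_left hlc
    obtain ⟨i, -, hi⟩ := Finset.prod_eq_zero_iff.mp h2
    exact ⟨i, (sub_eq_zero.mp hi).symm⟩
  obtain ⟨i2, -, hi2⟩ := Finset.exists_max_image (univ : Finset (Fin d))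
    (fun i => nm (w i - p)) ⟨i1, by simp⟩
  set D := nm (w i2 - p) with hD
  have hDle : ∀ i, nm (w i - p) ≤ D := fun i => hi2 i (by simp)
  have hD0 : 0 ≤ D := nm_nonneg _
  -- escape
  have hesc1 : ∀ z, 2 * D ≤ nm (z - p) → 4 ≤ nm (z - p) →
      2 * (nm (z - p) / 2) ^ d ≤ nm (f.eval z - p) := by
    intro z h1 h2
    rw [hfac]
    have h3 := prod_low (univ : Finset (Fin d)) (fun i => nm (z - w i)) (nm (z - p) / 2)
      (nm (z - p)) (by linarith) (by
        intro i _
        have := nm_tri z (w i) p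
        have := hDle i
        show nm (z - p) / 2 ≤ nm (z - w i)
        linarith) (k := i1) (Finset.mem_univ _) (by rw [hi1]) (by linarith)
    rw [Finset.card_univ, Fintype.card_fin] at h3
    refine le_trans (le_of_eq ?_) h3
    have h4 : (nm (z - p) / 2) ^ d = (nm (z - p) / 2) * (nm (z - p) / 2) ^ (d - 1) := by
      rw [← pow_succ']; congr 1; omega
    rw [h4]; ring
  have hesc : ∀ z, 2 * D ≤ nm (z - p) → 4 ≤ nm (z - p) → ∀ n,
      2 * (nm (z - p) / 2) ^ (d ^ n) ≤ nm ((fun x => f.eval x)^[n] z - p) := by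
    intro z h1 h2 n
    induction n with
    | zero => simp only [pow_zero, pow_one, Function.iterate_zero, id]; linarith
    | succ n ih =>
      rw [Function.iterate_succ_apply']
      set y := (fun x => f.eval x)^[n] z with hy
      have h3 : nm (z - p) ≤ nm (y - p) := by
        refine le_trans ?_ ih
        have h4 : nm (z - p) / 2 ≤ (nm (z - p) / 2) ^ (d ^ n) :=
          le_self_pow₀ (by linarith) (pow_ne_zero _ (by omega))
        linarith
      have h5 := hesc1 y (h1.trans h3) (h2.trans h3)
      refine le_trans ?_ h5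
      rw [pow_succ d n, pow_mul]
      have h6 : (nm (z - p) / 2) ^ (d ^ n) ≤ nm (y - p) / 2 := by linarith
      have h7 := pow_le_pow_left₀ (by positivity) h6 d
      linarith
  intro N z Γ hΓ n hn hz
  have hcov : ∀ i, ∃ c, nm (z i - w c) ≤ 4 * Real.exp (2 * Γ) := by
    intro i
    have hzi : nm ((fun x => f.eval x)^[n] (z i) - p) ≤ Real.exp (d ^ n * Γ) := hz i
    have he1 : 1 ≤ Real.exp (2 * Γ) := Real.one_le_exp (by linarith)
    rcases le_or_gt D 2 with hD2 | hD2
    · refine ⟨i1, ?_⟩
      rw [hi1]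
      by_cases h4 : nm (z i - p) ≤ 4
      · linarith
      · push Not at h4
        have h5 := (hesc (z i) (by linarith) h4.le n).trans hzi
        have h6 : Real.exp (d ^ n * Γ) = (Real.exp Γ) ^ (d ^ n) := by
          rw [← Real.exp_nat_mul]; push_cast; rfl
        rw [h6] at h5
        have h7 : (nm (z i - p) / 2) ^ (d ^ n) ≤ (Real.exp Γ) ^ (d ^ n) := by
          have : 0 ≤ (nm (z i - p) / 2) ^ (d ^ n) := by
            have := nm_nonneg (z i - p); positivity
          linarith
        have h8 := le_of_pow_le_pow_left₀ (pow_ne_zero _ (by omega)) (Real.exp_pos _).le h7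
        have h9 : Real.exp Γ ≤ Real.exp (2 * Γ) := Real.exp_le_exp.mpr (by linarith)
        linarith
    · -- `u = nm (f (z i) - p)`
      have he2 : 1 ≤ Real.exp (d * Γ) := Real.one_le_exp (by positivity)
      have hu : nm (f.eval (z i) - p) ≤ 2 * D * Real.exp (d * Γ) := by
        by_contra hcon
        push Not at hcon
        have h1 : 2 * D ≤ nm (f.eval (z i) - p) := by
          have : 2 * D * 1 ≤ 2 * D * Real.exp (d * Γ) :=
            mul_le_mul_of_nonneg_left he2 (by linarith)
          linarith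
        obtain ⟨k, rfl⟩ : ∃ k, n = k + 1 := ⟨n - 1, by omega⟩
        rw [Function.iterate_succ_apply] at hzi
        have h5 := (hesc (f.eval (z i)) h1 (by linarith) k).trans hzi
        have h6 : Real.exp ((d : ℝ) ^ (k + 1) * Γ) = (Real.exp (d * Γ)) ^ (d ^ k) := by
          rw [← Real.exp_nat_mul]; congr 1; push_cast; ring
        rw [h6] at h5
        have h7 : (nm (f.eval (z i) - p) / 2) ^ (d ^ k) ≤ (Real.exp (d * Γ)) ^ (d ^ k) := by
          have : 0 ≤ (nm (f.eval (z i) - p) / 2) ^ (d ^ k) := by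
            have := nm_nonneg (f.eval (z i) - p); positivity
          linarith
        have h8 := le_of_pow_le_pow_left₀ (pow_ne_zero _ (by omega)) (Real.exp_pos _).le h7
        have h9 : 2 * 2 * Real.exp (d * Γ) ≤ 2 * D * Real.exp (d * Γ) := by
          apply mul_le_mul_of_nonneg_right _ (Real.exp_pos _).le
          linarith
        have := Real.exp_pos (d * Γ)
        linarith
      obtain ⟨i0, hi0⟩ : ∃ i0, D / 2 ≤ nm (z i - w i0) := by
        have h := nm_tri (w i2) (z i) p
        rcases le_total (D / 2) (nm (z i - p)) with h1 | h1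
        · exact ⟨i1, by rw [hi1]; exact h1⟩
        · refine ⟨i2, ?_⟩
          rw [nm_comm]
          linarith
      by_contra hcon
      push Not at hcon
      have hM : 0 < 4 * Real.exp (2 * Γ) := by positivity
      have h1 : (D / 2) * (4 * Real.exp (2 * Γ)) ^ (d - 1) < ∏ c, nm (z i - w c) := by
        have := prod_low_strict (univ : Finset (Fin d)) (fun c => nm (z i - w c))
          (4 * Real.exp (2 * Γ)) (D / 2) hM (fun c _ => hcon c) (k := i0) (Finset.mem_univ _)
          hi0 (by linarith) (by rw [Finset.card_univ, Fintype.card_fin]; exact hd2)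
        rwa [Finset.card_univ, Fintype.card_fin] at this
      rw [← hfac] at h1
      have h2 : 4 * Real.exp (d * Γ) ≤ (4 * Real.exp (2 * Γ)) ^ (d - 1) := by
        rw [mul_pow, ← Real.exp_nat_mul]
        apply mul_le_mul
        · exact le_self_pow₀ (by norm_num) (by omega)
        · apply Real.exp_le_exp.mpr
          have h3 : (d : ℝ) ≤ ((d - 1 : ℕ) : ℝ) * 2 := by
            have : d ≤ (d - 1) * 2 := by omega
            exact_mod_cast this
          nlinarith
        · positivity
        · positivity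
      have h3 : (D / 2) * (4 * Real.exp (d * Γ)) ≤ (D / 2) * (4 * Real.exp (2 * Γ)) ^ (d - 1) :=
        mul_le_mul_of_nonneg_left h2 (by linarith)
      linarith
  choose c hc using hcov
  refine ⟨c, ?_⟩
  intro i j hij
  have h1 := hc i
  have h2 := hc j
  rw [← hij] at h2
  have h3 := nm_tri (z i) (w (c i)) (z j)
  rw [nm_comm (w (c i)) (z j)] at h3
  show nm (z i - z j) ≤ _
  linarith

end MPd27c8d
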