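import Mathlib
import Pool.Agent.Lib.MP_d27c8d_nt.LocalNA
import Pool.Agent.Lib.MP_d27c8d_nt.LocalArch

/-!
Assembly of the local colouring lemmas with the product formula.
-/

open Polynomial Finset NumberField Height Real

namespace MPd27c8d

variable {K : Type*} [Field K] [NumberField K]

/-- Finite places where `x` does not have absolute value one (empty for `x = 0`). -/
lemma exists_support (x : K) : ∃ T : Finset (FinitePlace K), ∀ v, v ∉ T → (v x = 1 ∨ x = 0) := by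
  by_cases hx : x = 0
  · exact ⟨∅, fun v _ => Or.inr hx⟩
  · have hfin : (Function.mulSupport fun w : FinitePlace K => w x).Finite :=
      FinitePlace.hasFiniteMulSupport hx
    refine ⟨hfin.toFinset, fun v hv => Or.inl ?_⟩
    by_contra h
    apply hv
    rw [Set.Finite.mem_toFinset]
    exact h

/-- The logarithmic product formula. -/
lemma log_product_formula {x : K} (hx : x ≠ 0) (T : Finset (FinitePlace K))
    (hT : ∀ v, v ∉ T → (v x = 1 ∨ x = 0)) :
    ∑ v : InfinitePlace K, (v.mult : ℝ) * log (v x) + ∑ v ∈ T, log (v x) = 0 := by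
  have h := prod_abs_eq_one hx
  have h1 : ∏ᶠ w : FinitePlace K, w x = ∏ v ∈ T, v x := by
    apply finprod_eq_prod_of_mulSupport_subset
    intro v hv
    by_contra hvT
    rcases hT v (by simpa using hvT) with h1 | h1
    · exact hv h1
    · exact hx h1
  rw [h1] at h
  have h2 := congrArg log h
  rw [log_one, log_mul, log_prod, log_prod] at h2
  · rw [← h2]
    congr 1
    apply Finset.sum_congr rfl
    intro v _
    rw [log_pow]
  · intro v _; exact (FinitePlace.pos_iff.mpr hx).ne'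
  · intro v _; exact pow_ne_zero _ (InfinitePlace.pos_iff.mpr hx).ne'
  · exact Finset.prod_ne_zero_iff.mpr fun v _ => pow_ne_zero _ (InfinitePlace.pos_iff.mpr hx).ne'
  · exact Finset.prod_ne_zero_iff.mpr fun v _ => (FinitePlace.pos_iff.mpr hx).ne'

/-- The logarithmic height as a finite sum. -/
lemma logHeight_eq_sum (x : K) (T : Finset (FinitePlace K))
    (hT : ∀ v, v ∉ T → (v x = 1 ∨ x = 0)) :
    logHeight₁ x = ∑ v : InfinitePlace K, (v.mult : ℝ) * log⁺ (v x) + ∑ v ∈ T, log⁺ (v x) := by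
  rw [NumberField.logHeight₁_eq]
  congr 1
  apply finsum_eq_sum_of_support_subset
  intro v hv
  by_contra hvT
  apply hv
  show log⁺ (v x) = 0
  rcases hT v (by simpa using hvT) with h1 | h1
  · rw [h1]; simp
  · rw [h1]; simp

/-- Local inequality at a finite place. -/
lemma fin_local (f : K[X]) (d : ℕ) (hd : f.natDegree = d) (hd2 : 2 ≤ d) (v : FinitePlace K)
    (N : ℕ) (z : Fin N → K) (b : K) (hb : b ≠ 0) (M : ℕ) (hM : M ≠ 0)
    (hna : ∀ (χ : Fin N → Fin d) (ρ : ℝ), (∀ i j, χ i = χ j → v (z i - z j) ≤ ρ) →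
      v b * v (M : K) ≤ ρ) (n : ℕ) (hn : 1 ≤ n) :
    log (v f.leadingCoeff) / ((d : ℝ) - 1) + log (v b) + log (v (M : K)) ≤
      (log⁺ (v f.leadingCoeff) / ((d : ℝ) - 1) + ∑ i, log⁺ (v ((fun x => f.eval x)^[n] (z i))) +
        ∑ i, log⁺ (v (z i))) / (d : ℝ) ^ n := by
  have hlc : f.leadingCoeff ≠ 0 := by
    rw [Ne, leadingCoeff_eq_zero]; rintro rfl; simp at hd; omega
  have hvlc : 0 < v f.leadingCoeff := FinitePlace.pos_iff.mpr hlc
  have hd1 : (0 : ℝ) < (d : ℝ) - 1 := by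
    have : (2 : ℝ) ≤ d := by exact_mod_cast hd2
    linarith
  set κ := exp (log (v f.leadingCoeff) / ((d : ℝ) - 1)) with hκ
  have hκ0 : 0 < κ := exp_pos _
  have hκd : κ ^ (d - 1) = v f.leadingCoeff := by
    rw [hκ, ← exp_nat_mul]
    have : ((d - 1 : ℕ) : ℝ) = (d : ℝ) - 1 := by
      rw [Nat.cast_sub (by omega)]; simp
    rw [this, mul_div_cancel₀ _ hd1.ne', exp_log hvlc]
  set B := log⁺ (v f.leadingCoeff) / ((d : ℝ) - 1) +
    ∑ i, log⁺ (v ((fun x => f.eval x)^[n] (z i))) + ∑ i, log⁺ (v (z i)) with hB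
  have hB1 : ∀ i j, log⁺ (v f.leadingCoeff) / ((d : ℝ) - 1) +
      log⁺ (v ((fun x => f.eval x)^[n] (z i))) + log⁺ (v (z j)) ≤ B := by
    intro i j
    have h1 : log⁺ (v ((fun x => f.eval x)^[n] (z i))) ≤
        ∑ i, log⁺ (v ((fun x => f.eval x)^[n] (z i))) :=
      Finset.single_le_sum (f := fun i => log⁺ (v ((fun x => f.eval x)^[n] (z i))))
        (fun _ _ => posLog_nonneg) (Finset.mem_univ i)
    have h2 : log⁺ (v (z j)) ≤ ∑ i, log⁺ (v (z i)) :=
      Finset.single_le_sum (f := fun i => log⁺ (v (z i)))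
        (fun _ _ => posLog_nonneg) (Finset.mem_univ j)
    rw [hB]; linarith
  have hBn : 0 ≤ B := by
    rw [hB]
    have h1 : 0 ≤ log⁺ (v f.leadingCoeff) / ((d : ℝ) - 1) := div_nonneg posLog_nonneg hd1.le
    have h2 : 0 ≤ ∑ i, log⁺ (v ((fun x => f.eval x)^[n] (z i))) :=
      Finset.sum_nonneg fun _ _ => posLog_nonneg
    have h3 : 0 ≤ ∑ i, log⁺ (v (z i)) := Finset.sum_nonneg fun _ _ => posLog_nonneg
    linarith
  have hdn : (0 : ℝ) < (d : ℝ) ^ n := by positivity
  set ρ := exp (B / (d : ℝ) ^ n) with hρ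
  have hρ1 : 1 ≤ ρ := one_le_exp (by positivity)
  have hρn : ρ ^ (d ^ n) = exp B := by
    rw [hρ, ← exp_nat_mul]; congr 1; push_cast; field_simp
  have hle_exp : ∀ x : ℝ, 0 ≤ x → x ≤ exp (log⁺ x) := by
    intro x hx
    rcases eq_or_lt_of_le hx with h | h
    · rw [← h]; exact (exp_pos _).le
    · calc x = exp (log x) := (exp_log h).symm
        _ ≤ exp (log⁺ x) := exp_le_exp.mpr (by rw [posLog]; exact le_max_right _ _)
  have hκle : κ ≤ exp (log⁺ (v f.leadingCoeff) / ((d : ℝ) - 1)) := by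
    rw [hκ]
    apply exp_le_exp.mpr
    apply div_le_div_of_nonneg_right _ hd1.le
    rw [posLog]; exact le_max_right _ _
  have hv : IsNonarchimedean v.val := fun x y => FinitePlace.add_le v x y
  obtain ⟨χ, hχ⟩ := na_coloring v.val hv f d hd hd2 κ hκ0 hκd z ρ hρ1 n hn (by
    intro i j
    rw [hρn]
    set y := (fun x => f.eval x)^[n] (z i) with hy
    have h1 : v.val (y - z j) ≤ max (v y) (v (z j)) := by
      have := hv y (-z j)
      rw [← sub_eq_add_neg, v.val.map_neg] at this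
      exact this
    have h2 : max (v y) (v (z j)) ≤ exp (log⁺ (v y) + log⁺ (v (z j))) := by
      apply max_le
      · refine (hle_exp _ (apply_nonneg v y)).trans (exp_le_exp.mpr ?_)
        have : 0 ≤ log⁺ (v (z j)) := posLog_nonneg
        linarith
      · refine (hle_exp _ (apply_nonneg v (z j))).trans (exp_le_exp.mpr ?_)
        have : 0 ≤ log⁺ (v y) := posLog_nonneg
        linarith
    calc κ * v.val (y - z j) ≤ exp (log⁺ (v f.leadingCoeff) / ((d : ℝ) - 1)) *
          exp (log⁺ (v y) + log⁺ (v (z j))) := by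
          apply mul_le_mul hκle (h1.trans h2) (v.val.nonneg _) (exp_pos _).le
      _ = exp (log⁺ (v f.leadingCoeff) / ((d : ℝ) - 1) + log⁺ (v y) + log⁺ (v (z j))) := by
          rw [← exp_add]; congr 1; ring
      _ ≤ exp B := exp_le_exp.mpr (hB1 i j))
  have h3 := hna χ (ρ / κ) (by
    intro i j hij
    rw [le_div_iff₀ hκ0, mul_comm]
    exact hχ i j hij)
  rw [le_div_iff₀ hκ0] at h3
  have hvb : 0 < v b := FinitePlace.pos_iff.mpr hb
  have hvM : 0 < v (M : K) := FinitePlace.pos_iff.mpr (by exact_mod_cast hM)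
  have h4 := log_le_log (by positivity) h3
  rw [log_mul (by positivity) hκ0.ne', log_mul hvb.ne' hvM.ne', hκ, log_exp, hρ, log_exp] at h4
  linarith

/-- Iterating a polynomial commutes with a field embedding. -/
lemma map_iterate {L E : Type*} [Field L] [Field E] (φ : L →+* E) (f : L[X]) (n : ℕ) (x : L) :
    (fun y => (f.map φ).eval y)^[n] (φ x) = φ ((fun y => f.eval y)^[n] x) := by
  induction n with
  | zero => rfl
  | succ n ih =>
    rw [Function.iterate_succ_apply', Function.iterate_succ_apply', ih]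
    exact eval_map_apply _ _

/-- Local inequality at an infinite place. -/
lemma inf_local (f : K[X]) (d : ℕ) (hd : f.natDegree = d) (hd2 : 2 ≤ d) (v : InfinitePlace K) :
    ∃ C : ℝ, 0 ≤ C ∧ ∀ (N : ℕ) (z : Fin N → K) (b : K), b ≠ 0 → ∀ (lam : ℝ), 0 < lam →
    (∀ (χ : Fin N → Fin d) (ρ : ℝ), (∀ i j, χ i = χ j → v (z i - z j) ≤ ρ) →
      v b * lam ≤ ρ) → ∀ n, 1 ≤ n →
    log (v f.leadingCoeff) / ((d : ℝ) - 1) + log (v b) + log lam ≤
      log 8 + 2 * ((log⁺ (v f.leadingCoeff) / ((d : ℝ) - 1) + C +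
        ∑ i, log⁺ (v ((fun x => f.eval x)^[n] (z i)))) / (d : ℝ) ^ n) := by
  have hlc : f.leadingCoeff ≠ 0 := by
    rw [Ne, leadingCoeff_eq_zero]; rintro rfl; simp at hd; omega
  have hvlc : 0 < v f.leadingCoeff := InfinitePlace.pos_iff.mpr hlc
  have hd1 : (0 : ℝ) < (d : ℝ) - 1 := by
    have : (2 : ℝ) ≤ d := by exact_mod_cast hd2
    linarith
  set κ := exp (log (v f.leadingCoeff) / ((d : ℝ) - 1)) with hκ
  have hκ0 : 0 < κ := exp_pos _
  set g : ℂ[X] := f.map v.embedding with hg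
  have hgd : g.natDegree = d := by rw [hg, natDegree_map, hd]
  have hglc : ‖g.leadingCoeff‖ = v f.leadingCoeff := by
    rw [hg, leadingCoeff_map, InfinitePlace.norm_embedding_eq]
  have hκd : κ ^ (d - 1) = ‖g.leadingCoeff‖ := by
    rw [hκ, ← exp_nat_mul, hglc]
    have : ((d - 1 : ℕ) : ℝ) = (d : ℝ) - 1 := by
      rw [Nat.cast_sub (by omega)]; simp
    rw [this, mul_div_cancel₀ _ hd1.ne', exp_log hvlc]
  obtain ⟨p, hp⟩ := arch_coloring g d hgd hd2 κ hκ0 hκd
  refine ⟨log 2 + log⁺ ‖p‖, add_nonneg (log_nonneg (by norm_num)) posLog_nonneg, ?_⟩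
  intro N z b hb lam hlam har n hn
  set B := log⁺ (v f.leadingCoeff) / ((d : ℝ) - 1) + (log 2 + log⁺ ‖p‖) +
    ∑ i, log⁺ (v ((fun x => f.eval x)^[n] (z i))) with hB
  have hB1 : ∀ i, log⁺ (v f.leadingCoeff) / ((d : ℝ) - 1) + (log 2 + log⁺ ‖p‖) +
      log⁺ (v ((fun x => f.eval x)^[n] (z i))) ≤ B := by
    intro i
    have h1 : log⁺ (v ((fun x => f.eval x)^[n] (z i))) ≤
        ∑ i, log⁺ (v ((fun x => f.eval x)^[n] (z i))) :=
      Finset.single_le_sum (f := fun i => log⁺ (v ((fun x => f.eval x)^[n] (z i))))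
        (fun _ _ => posLog_nonneg) (Finset.mem_univ i)
    rw [hB]; linarith
  have hBn : 0 ≤ B := by
    rw [hB]
    have h1 : 0 ≤ log⁺ (v f.leadingCoeff) / ((d : ℝ) - 1) := div_nonneg posLog_nonneg hd1.le
    have h2 : 0 ≤ ∑ i, log⁺ (v ((fun x => f.eval x)^[n] (z i))) :=
      Finset.sum_nonneg fun _ _ => posLog_nonneg
    have h3 : 0 ≤ log 2 := log_nonneg (by norm_num)
    have h4 : 0 ≤ log⁺ ‖p‖ := posLog_nonneg
    linarith
  have hdn : (0 : ℝ) < (d : ℝ) ^ n := by positivity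
  have hle_exp : ∀ x : ℝ, 0 ≤ x → x ≤ exp (log⁺ x) := by
    intro x hx
    rcases eq_or_lt_of_le hx with h | h
    · rw [← h]; exact (exp_pos _).le
    · calc x = exp (log x) := (exp_log h).symm
        _ ≤ exp (log⁺ x) := exp_le_exp.mpr (by rw [posLog]; exact le_max_right _ _)
  have hκle : κ ≤ exp (log⁺ (v f.leadingCoeff) / ((d : ℝ) - 1)) := by
    rw [hκ]
    apply exp_le_exp.mpr
    apply div_le_div_of_nonneg_right _ hd1.le
    rw [posLog]; exact le_max_right _ _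
  obtain ⟨χ, hχ⟩ := hp N (fun i => v.embedding (z i)) (B / (d : ℝ) ^ n) (by positivity) n hn (by
    intro i
    rw [mul_div_cancel₀ _ hdn.ne']
    show κ * ‖(fun x => (f.map v.embedding).eval x)^[n] (v.embedding (z i)) - p‖ ≤ exp B
    rw [map_iterate]
    set y := (fun x => f.eval x)^[n] (z i) with hy
    have h1 : ‖v.embedding y - p‖ ≤ v y + ‖p‖ := by
      refine (norm_sub_le _ _).trans ?_
      rw [InfinitePlace.norm_embedding_eq]
    have e1 : 1 ≤ exp (log⁺ (v y)) := one_le_exp posLog_nonneg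
    have e2 : 1 ≤ exp (log⁺ ‖p‖) := one_le_exp posLog_nonneg
    have h2 : v y + ‖p‖ ≤ 2 * (exp (log⁺ (v y)) * exp (log⁺ ‖p‖)) := by
      have a1 := hle_exp (v y) (apply_nonneg v y)
      have a2 := hle_exp ‖p‖ (norm_nonneg p)
      nlinarith
    calc κ * ‖v.embedding y - p‖ ≤ exp (log⁺ (v f.leadingCoeff) / ((d : ℝ) - 1)) *
          (2 * (exp (log⁺ (v y)) * exp (log⁺ ‖p‖))) := by
          apply mul_le_mul hκle (h1.trans h2) (norm_nonneg _) (exp_pos _).le
      _ = exp (log⁺ (v f.leadingCoeff) / ((d : ℝ) - 1) + (log 2 + log⁺ ‖p‖) + log⁺ (v y)) := by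
          rw [exp_add, exp_add, exp_add, exp_log (by norm_num)]; ring
      _ ≤ exp B := exp_le_exp.mpr (hB1 i))
  have h3 := har χ (8 * exp (2 * (B / (d : ℝ) ^ n)) / κ) (by
    intro i j hij
    rw [le_div_iff₀ hκ0, mul_comm]
    have h := hχ i j hij
    rw [← map_sub, InfinitePlace.norm_embedding_eq] at h
    exact h)
  rw [le_div_iff₀ hκ0] at h3
  have hvb : 0 < v b := InfinitePlace.pos_iff.mpr hb
  have h4 := log_le_log (by positivity) h3
  rw [log_mul (by positivity) hκ0.ne', log_mul hvb.ne' hlam.ne', hκ, log_exp,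
    log_mul (by norm_num) (exp_pos _).ne', log_exp] at h4
  linarith

/-- **Global inequality**: the product formula applied to the local inequalities. -/
theorem global_ineq (f : K[X]) (d : ℕ) (hd : f.natDegree = d) (hd2 : 2 ≤ d)
    (N : ℕ) (z : Fin N → K) (b : K) (hb : b ≠ 0) (M : ℕ) (hM : M ≠ 0) (lam : ℝ) (hlam : 0 < lam)
    (hna : ∀ (v : FinitePlace K) (χ : Fin N → Fin d) (ρ : ℝ),
      (∀ i j, χ i = χ j → v (z i - z j) ≤ ρ) → v b * v (M : K) ≤ ρ)
    (har : ∀ (v : InfinitePlace K) (χ : Fin N → Fin d) (ρ : ℝ),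
      (∀ i j, χ i = χ j → v (z i - z j) ≤ ρ) → v b * lam ≤ ρ) :
    ∃ E : ℝ, ∀ n, 1 ≤ n → (Module.finrank ℚ K : ℝ) * log (lam / (8 * M)) ≤
      (2 * ∑ i, logHeight₁ ((fun x => f.eval x)^[n] (z i)) + E) / (d : ℝ) ^ n := by
  classical
  have hlc : f.leadingCoeff ≠ 0 := by
    rw [Ne, leadingCoeff_eq_zero]; rintro rfl; simp at hd; omega
  have hd1 : (0 : ℝ) < (d : ℝ) - 1 := by
    have : (2 : ℝ) ≤ d := by exact_mod_cast hd2
    linarith
  have hMK : (M : K) ≠ 0 := by exact_mod_cast hM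
  choose C hC0 hC using fun v : InfinitePlace K => inf_local f d hd hd2 v
  refine ⟨2 * (logHeight₁ f.leadingCoeff / ((d : ℝ) - 1) + ∑ i, logHeight₁ (z i) +
    ∑ v : InfinitePlace K, (v.mult : ℝ) * C v), ?_⟩
  intro n hn
  have hdn : (0 : ℝ) < (d : ℝ) ^ n := by positivity
  choose S hS using fun x : K => exists_support x
  set y : Fin N → K := fun i => (fun x => f.eval x)^[n] (z i) with hy
  set T : Finset (FinitePlace K) := S f.leadingCoeff ∪ S b ∪ S (M : K) ∪
    (univ.biUnion fun i => S (z i)) ∪ (univ.biUnion fun i => S (y i)) with hT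
  have hTlc : ∀ v, v ∉ T → (v f.leadingCoeff = 1 ∨ f.leadingCoeff = 0) := by
    intro v hv; apply hS; intro h; apply hv; simp [hT, h]
  have hTb : ∀ v, v ∉ T → (v b = 1 ∨ b = 0) := by
    intro v hv; apply hS; intro h; apply hv; simp [hT, h]
  have hTM : ∀ v, v ∉ T → (v (M : K) = 1 ∨ (M : K) = 0) := by
    intro v hv; apply hS; intro h; apply hv; simp [hT, h]
  have hTz : ∀ i, ∀ v, v ∉ T → (v (z i) = 1 ∨ z i = 0) := by
    intro i v hv; apply hS; intro h; apply hv
    simp only [hT, Finset.mem_union, Finset.mem_biUnion, Finset.mem_univ, true_and]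
    exact Or.inl (Or.inr ⟨i, h⟩)
  have hTy : ∀ i, ∀ v, v ∉ T → (v (y i) = 1 ∨ y i = 0) := by
    intro i v hv; apply hS; intro h; apply hv
    simp only [hT, Finset.mem_union, Finset.mem_biUnion, Finset.mem_univ, true_and]
    exact Or.inr ⟨i, h⟩
  -- sums over the infinite places
  have h1 : ∑ v : InfinitePlace K, (v.mult : ℝ) *
      (log (v f.leadingCoeff) / ((d : ℝ) - 1) + log (v b) + log lam) ≤
      ∑ v : InfinitePlace K, (v.mult : ℝ) * (log 8 + 2 * ((log⁺ (v f.leadingCoeff) /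
        ((d : ℝ) - 1) + C v + ∑ i, log⁺ (v (y i))) / (d : ℝ) ^ n)) := by
    apply Finset.sum_le_sum
    intro v _
    exact mul_le_mul_of_nonneg_left (hC v N z b hb lam hlam (har v) n hn) (Nat.cast_nonneg _)
  have h2 : ∑ v ∈ T, (log (v f.leadingCoeff) / ((d : ℝ) - 1) + log (v b) + log (v (M : K))) ≤
      ∑ v ∈ T, ((log⁺ (v f.leadingCoeff) / ((d : ℝ) - 1) + ∑ i, log⁺ (v (y i)) +
        ∑ i, log⁺ (v (z i))) / (d : ℝ) ^ n) := by
    apply Finset.sum_le_sum
    intro v _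
    exact fin_local f d hd hd2 v N z b hb M hM (hna v) n hn
  -- product formulas
  have p1 := log_product_formula hlc T hTlc
  have p2 := log_product_formula hb T hTb
  have p3 := log_product_formula hMK T hTM
  have hinfM : ∀ v : InfinitePlace K, v (M : K) = (M : ℝ) := by
    intro v
    rw [← InfinitePlace.norm_embedding_eq, map_natCast]
    simp
  have hsm : ∑ v : InfinitePlace K, (v.mult : ℝ) = (Module.finrank ℚ K : ℝ) := by
    rw [← InfinitePlace.sum_mult_eq (K := K)]; push_cast; rfl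
  have p3' : ∑ v ∈ T, log (v (M : K)) = - ((Module.finrank ℚ K : ℝ) * log M) := by
    have : ∑ v : InfinitePlace K, (v.mult : ℝ) * log (v (M : K)) =
        (Module.finrank ℚ K : ℝ) * log M := by
      rw [← hsm, Finset.sum_mul]
      apply Finset.sum_congr rfl
      intro v _
      rw [hinfM]
    linarith
  -- heights
  have q1 := logHeight_eq_sum f.leadingCoeff T hTlc
  have q2 : ∀ i, logHeight₁ (z i) = ∑ v : InfinitePlace K, (v.mult : ℝ) * log⁺ (v (z i)) +
      ∑ v ∈ T, log⁺ (v (z i)) := fun i => logHeight_eq_sum (z i) T (hTz i)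
  have q3 : ∀ i, logHeight₁ (y i) = ∑ v : InfinitePlace K, (v.mult : ℝ) * log⁺ (v (y i)) +
      ∑ v ∈ T, log⁺ (v (y i)) := fun i => logHeight_eq_sum (y i) T (hTy i)
  -- left-hand sides
  have l1 : ∑ v : InfinitePlace K, (v.mult : ℝ) *
      (log (v f.leadingCoeff) / ((d : ℝ) - 1) + log (v b) + log lam) =
      (∑ v : InfinitePlace K, (v.mult : ℝ) * log (v f.leadingCoeff)) / ((d : ℝ) - 1) +
      ∑ v : InfinitePlace K, (v.mult : ℝ) * log (v b) + (Module.finrank ℚ K : ℝ) * log lam := by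
    rw [← hsm, Finset.sum_mul, Finset.sum_div, ← Finset.sum_add_distrib,
      ← Finset.sum_add_distrib]
    apply Finset.sum_congr rfl
    intro v _; ring
  have l2 : ∑ v ∈ T, (log (v f.leadingCoeff) / ((d : ℝ) - 1) + log (v b) + log (v (M : K))) =
      (∑ v ∈ T, log (v f.leadingCoeff)) / ((d : ℝ) - 1) + ∑ v ∈ T, log (v b) +
      ∑ v ∈ T, log (v (M : K)) := by
    rw [Finset.sum_div, ← Finset.sum_add_distrib, ← Finset.sum_add_distrib]
  -- right-hand sides
  set A := ∑ v : InfinitePlace K, (v.mult : ℝ) * log⁺ (v f.leadingCoeff) with hA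
  set A' := ∑ v ∈ T, log⁺ (v f.leadingCoeff) with hA'
  set Y := ∑ i, ∑ v : InfinitePlace K, (v.mult : ℝ) * log⁺ (v (y i)) with hY
  set Y' := ∑ i, ∑ v ∈ T, log⁺ (v (y i)) with hY'
  set Z := ∑ i, ∑ v : InfinitePlace K, (v.mult : ℝ) * log⁺ (v (z i)) with hZ
  set Z' := ∑ i, ∑ v ∈ T, log⁺ (v (z i)) with hZ'
  set CC := ∑ v : InfinitePlace K, (v.mult : ℝ) * C v with hCC
  have r1 : ∑ v : InfinitePlace K, (v.mult : ℝ) * (log 8 + 2 * ((log⁺ (v f.leadingCoeff) /
        ((d : ℝ) - 1) + C v + ∑ i, log⁺ (v (y i))) / (d : ℝ) ^ n)) =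
      (Module.finrank ℚ K : ℝ) * log 8 + 2 * ((A / ((d : ℝ) - 1) + CC + Y) / (d : ℝ) ^ n) := by
    have hYc : Y = ∑ v : InfinitePlace K, (v.mult : ℝ) * ∑ i, log⁺ (v (y i)) := by
      rw [hY, Finset.sum_comm]
      apply Finset.sum_congr rfl
      intro v _; rw [Finset.mul_sum]
    rw [hYc, hA, hCC, ← hsm, Finset.sum_mul, Finset.sum_div, ← Finset.sum_add_distrib,
      ← Finset.sum_add_distrib, Finset.sum_div, Finset.mul_sum, ← Finset.sum_add_distrib]
    apply Finset.sum_congr rfl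
    intro v _; ring
  have r2 : ∑ v ∈ T, ((log⁺ (v f.leadingCoeff) / ((d : ℝ) - 1) + ∑ i, log⁺ (v (y i)) +
        ∑ i, log⁺ (v (z i))) / (d : ℝ) ^ n) = (A' / ((d : ℝ) - 1) + Y' + Z') / (d : ℝ) ^ n := by
    rw [← Finset.sum_div, Finset.sum_add_distrib, Finset.sum_add_distrib, ← Finset.sum_div,
      hY', hZ', Finset.sum_comm, Finset.sum_comm (s := T)]
  rw [l1, r1] at h1
  rw [l2, r2, p3'] at h2
  have sy : ∑ i, logHeight₁ (y i) = Y + Y' := by
    rw [hY, hY', ← Finset.sum_add_distrib]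
    exact Finset.sum_congr rfl fun i _ => q3 i
  have sz : ∑ i, logHeight₁ (z i) = Z + Z' := by
    rw [hZ, hZ', ← Finset.sum_add_distrib]
    exact Finset.sum_congr rfl fun i _ => q2 i
  have hlogs : log (lam / (8 * M)) = log lam - log 8 - log M := by
    rw [log_div hlam.ne' (by positivity), log_mul (by norm_num) (by positivity)]; ring
  show (Module.finrank ℚ K : ℝ) * log (lam / (8 * M)) ≤ (2 * ∑ i, logHeight₁ (y i) +
    2 * (logHeight₁ f.leadingCoeff / ((d : ℝ) - 1) + ∑ i, logHeight₁ (z i) + CC)) / (d : ℝ) ^ n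
  rw [sy, sz, q1, hlogs]
  have hY'0 : 0 ≤ Y' := Finset.sum_nonneg fun _ _ => Finset.sum_nonneg fun _ _ => posLog_nonneg
  have hZ'0 : 0 ≤ Z' := Finset.sum_nonneg fun _ _ => Finset.sum_nonneg fun _ _ => posLog_nonneg
  have hZ0 : 0 ≤ Z := Finset.sum_nonneg fun _ _ => Finset.sum_nonneg fun _ _ =>
    mul_nonneg (Nat.cast_nonneg _) posLog_nonneg
  have hA'0 : 0 ≤ A' / ((d : ℝ) - 1) :=
    div_nonneg (Finset.sum_nonneg fun _ _ => posLog_nonneg) hd1.le
  have e1 : (∑ v : InfinitePlace K, (v.mult : ℝ) * log (v f.leadingCoeff)) / ((d : ℝ) - 1) +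
      (∑ v ∈ T, log (v f.leadingCoeff)) / ((d : ℝ) - 1) = 0 := by
    rw [← add_div, p1, zero_div]
  have e2 : (A' / ((d : ℝ) - 1) + Y' + Z') / (d : ℝ) ^ n ≤
      2 * ((A' / ((d : ℝ) - 1) + Y' + (Z + Z')) / (d : ℝ) ^ n) := by
    rw [← mul_div_assoc]
    apply div_le_div_of_nonneg_right _ hdn.le
    linarith
  have e3 : (2 * (Y + Y') + 2 * ((A + A') / ((d : ℝ) - 1) + (Z + Z') + CC)) / (d : ℝ) ^ n =
      2 * ((A / ((d : ℝ) - 1) + CC + Y) / (d : ℝ) ^ n) +
      2 * ((A' / ((d : ℝ) - 1) + Y' + (Z + Z')) / (d : ℝ) ^ n) := by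
    ring
  rw [e3]
  linarith

end MPd27c8d
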