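import Mathlib
import Pool.Agent.Lib.MP_d27c8d_nt.Global
import Pool.Agent.Lib.MP_d27c8d_nt.Ext

/-!
Existence of the canonical height of a polynomial.
-/

open Polynomial Finset NumberField Height Real

namespace MPd27c8d

lemma le_exp_posLog {x : ℝ} (hx : 0 ≤ x) : x ≤ exp (log⁺ x) := by
  rcases eq_or_lt_of_le hx with h | h
  · rw [← h]; exact (exp_pos _).le
  · calc x = exp (log x) := (exp_log h).symm
      _ ≤ exp (log⁺ x) := exp_le_exp.mpr (by rw [posLog]; exact le_max_right _ _)

lemma log_le_posLog (x : ℝ) : log x ≤ log⁺ x := by rw [posLog]; exact le_max_right _ _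

/-- Local comparison of `log⁺ |f z|` and `d log⁺ |z|`. -/
lemma tate_local {L : Type*} [Field L] (v : AbsoluteValue L ℝ)
    (f : L[X]) (d : ℕ) (hd : f.natDegree = d) (hd1 : 1 ≤ d) (c t : ℝ) (hc : 1 ≤ c) (ht : 1 ≤ t)
    (hsum : ∀ (s : Finset ℕ) (x : ℕ → L) (B : ℝ), s ⊆ range (d + 1) → 0 ≤ B →
      (∀ i ∈ s, v (x i) ≤ B) → v (∑ i ∈ s, x i) ≤ c * B)
    (hlow : ∀ y w : L, v w < v y / t → v y / t ≤ v (y + w)) (z : L) :
    |log⁺ (v (f.eval z)) - d * log⁺ (v z)| ≤
      ∑ i ∈ range (d + 1), log⁺ (v (f.coeff i)) + log⁺ (v f.leadingCoeff⁻¹) +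
        d * ∑ i ∈ range (d + 1), log⁺ (v (f.coeff i / f.leadingCoeff)) +
        (log c + log t + d * (log c + log t)) := by
  have hlc : f.leadingCoeff ≠ 0 := by
    rw [Ne, leadingCoeff_eq_zero]; rintro rfl; simp at hd; omega
  have hva : 0 < v f.leadingCoeff := v.pos hlc
  have hcoeff : f.coeff d = f.leadingCoeff := by rw [← hd]; rfl
  set S1 := ∑ i ∈ range (d + 1), log⁺ (v (f.coeff i)) with hS1
  set S2 := ∑ i ∈ range (d + 1), log⁺ (v (f.coeff i / f.leadingCoeff)) with hS2
  have hS10 : 0 ≤ S1 := Finset.sum_nonneg fun _ _ => posLog_nonneg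
  have hS20 : 0 ≤ S2 := Finset.sum_nonneg fun _ _ => posLog_nonneg
  have hlc0 : 0 ≤ log c := log_nonneg hc
  have hlt0 : 0 ≤ log t := log_nonneg ht
  have hinv0 : 0 ≤ log⁺ (v f.leadingCoeff⁻¹) := posLog_nonneg
  have hdd : (0 : ℝ) ≤ d := Nat.cast_nonneg d
  have heval : f.eval z = ∑ i ∈ range (d + 1), f.coeff i * z ^ i := by
    rw [eval_eq_sum_range, hd]
  have hz0 : 0 ≤ v z := v.nonneg z
  have he1 : 1 ≤ exp (log⁺ (v z)) := one_le_exp posLog_nonneg
  have hvf0 : 0 ≤ v (f.eval z) := v.nonneg _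
  rw [abs_le]
  constructor
  · -- lower bound
    by_cases hA : v z ≤ c * t * exp S2
    · have h1 : log⁺ (v z) ≤ log c + log t + S2 := by
        have h2 : log⁺ (v z) ≤ log⁺ (c * t * exp S2) := posLog_le_posLog hz0 hA
        have h3 : log⁺ (c * t * exp S2) = log c + log t + S2 := by
          have h4 : 1 ≤ c * t * exp S2 := by
            have : 1 ≤ c * t := by nlinarith
            have : 1 ≤ exp S2 := one_le_exp hS20
            nlinarith
          rw [posLog_eq_log (by rwa [abs_of_nonneg (by linarith)]),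
            log_mul (by positivity) (exp_pos _).ne', log_mul (by positivity) (by positivity),
            log_exp]
        linarith
      have h2 : (d : ℝ) * log⁺ (v z) ≤ d * (log c + log t + S2) :=
        mul_le_mul_of_nonneg_left h1 hdd
      have h3 : 0 ≤ log⁺ (v (f.eval z)) := posLog_nonneg
      nlinarith
    · push Not at hA
      have hct : 1 ≤ c * t := by nlinarith
      have hE : 1 ≤ exp S2 := one_le_exp hS20
      have hz1 : 1 < v z := by nlinarith
      have hsplit : f.eval z = f.leadingCoeff * z ^ d + ∑ i ∈ range d, f.coeff i * z ^ i := by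
        rw [heval, Finset.sum_range_succ, hcoeff, add_comm]
      have hB : ∀ i ∈ range d, v (f.coeff i * z ^ i) ≤
          v f.leadingCoeff * exp S2 * v z ^ (d - 1) := by
        intro i hi
        have hi' : i < d := Finset.mem_range.mp hi
        rw [map_mul, map_pow]
        have h1 : v (f.coeff i) = v f.leadingCoeff * v (f.coeff i / f.leadingCoeff) := by
          rw [map_div₀, mul_div_cancel₀ _ hva.ne']
        have h2 : v (f.coeff i / f.leadingCoeff) ≤ exp S2 := by
          refine (le_exp_posLog (v.nonneg _)).trans (exp_le_exp.mpr ?_)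
          exact Finset.single_le_sum (f := fun i => log⁺ (v (f.coeff i / f.leadingCoeff)))
            (fun _ _ => posLog_nonneg) (Finset.mem_range.mpr (by omega))
        rw [h1]
        have h3 : v z ^ i ≤ v z ^ (d - 1) := pow_le_pow_right₀ hz1.le (by omega)
        have h4 := v.nonneg (f.coeff i / f.leadingCoeff)
        gcongr
      have h5 := hsum (range d) (fun i => f.coeff i * z ^ i)
        (v f.leadingCoeff * exp S2 * v z ^ (d - 1)) (Finset.range_subset_range.mpr (by omega))
        (by positivity) hB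
      have hpow : v z ^ d = v z * v z ^ (d - 1) := by
        rw [← pow_succ']; congr 1; omega
      have h6 : v (∑ i ∈ range d, f.coeff i * z ^ i) < v (f.leadingCoeff * z ^ d) / t := by
        refine lt_of_le_of_lt h5 ?_
        rw [lt_div_iff₀ (by linarith), map_mul, map_pow, hpow]
        have h7 : 0 < v f.leadingCoeff * v z ^ (d - 1) := by positivity
        calc c * (v f.leadingCoeff * exp S2 * v z ^ (d - 1)) * t
            = (c * t * exp S2) * (v f.leadingCoeff * v z ^ (d - 1)) := by ring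
          _ < v z * (v f.leadingCoeff * v z ^ (d - 1)) := mul_lt_mul_of_pos_right hA h7
          _ = v f.leadingCoeff * (v z * v z ^ (d - 1)) := by ring
      have h8 := hlow _ _ h6
      rw [← hsplit, map_mul, map_pow] at h8
      have h9 := log_le_log (by positivity) h8
      rw [log_div (by positivity) (by positivity), log_mul (by positivity) (by positivity),
        log_pow] at h9
      have h10 : log⁺ (v z) = log (v z) :=
        posLog_eq_log (by rw [abs_of_nonneg hz0]; exact hz1.le)
      have h11 : - log (v f.leadingCoeff) ≤ log⁺ (v f.leadingCoeff⁻¹) := by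
        rw [map_inv₀, ← log_inv]; exact log_le_posLog _
      have h12 := log_le_posLog (v (f.eval z))
      rw [h10]
      have h13 : 0 ≤ (d : ℝ) * S2 := by positivity
      have h14 : 0 ≤ (d : ℝ) * (log c + log t) := by positivity
      linarith
  · -- upper bound
    have hB : ∀ i ∈ range (d + 1), v (f.coeff i * z ^ i) ≤ exp S1 * exp (log⁺ (v z)) ^ d := by
      intro i hi
      have hi' : i < d + 1 := Finset.mem_range.mp hi
      rw [map_mul, map_pow]
      have h2 : v (f.coeff i) ≤ exp S1 := by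
        refine (le_exp_posLog (v.nonneg _)).trans (exp_le_exp.mpr ?_)
        exact Finset.single_le_sum (f := fun i => log⁺ (v (f.coeff i)))
          (fun _ _ => posLog_nonneg) hi
      have h3 : v z ^ i ≤ exp (log⁺ (v z)) ^ d :=
        (pow_le_pow_left₀ hz0 (le_exp_posLog hz0) i).trans (pow_le_pow_right₀ he1 (by omega))
      have h4 := v.nonneg (f.coeff i)
      gcongr
    have h5 := hsum (range (d + 1)) (fun i => f.coeff i * z ^ i) _ (Finset.Subset.refl _)
      (by positivity) hB
    rw [← heval] at h5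
    have h6 : log⁺ (v (f.eval z)) ≤ log⁺ (c * (exp S1 * exp (log⁺ (v z)) ^ d)) :=
      posLog_le_posLog hvf0 h5
    have h7 : log⁺ (c * (exp S1 * exp (log⁺ (v z)) ^ d)) =
        log c + (S1 + d * log⁺ (v z)) := by
      have h8 : 1 ≤ c * (exp S1 * exp (log⁺ (v z)) ^ d) := by
        have h9 : 1 ≤ exp S1 := one_le_exp hS10
        have h10 : 1 ≤ exp (log⁺ (v z)) ^ d := one_le_pow₀ he1
        have h11 : 1 ≤ exp S1 * exp (log⁺ (v z)) ^ d := by nlinarith
        nlinarith
      rw [posLog_eq_log (by rwa [abs_of_nonneg (by linarith)]),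
        log_mul (by positivity) (by positivity), log_mul (by positivity) (by positivity), log_exp,
        log_pow, log_exp]
    have h13 : 0 ≤ (d : ℝ) * S2 := by positivity
    have h14 : 0 ≤ (d : ℝ) * (log c + log t) := by positivity
    linarith

variable {K : Type*} [Field K] [NumberField K]

/-- Global comparison: `h (f z) = d h z + O(1)`. -/
theorem tate_global (f : K[X]) (d : ℕ) (hd : f.natDegree = d) (hd1 : 1 ≤ d) :
    ∃ C : ℝ, ∀ z : K, |logHeight₁ (f.eval z) - d * logHeight₁ z| ≤ C := by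
  classical
  have hlc : f.leadingCoeff ≠ 0 := by
    rw [Ne, leadingCoeff_eq_zero]; rintro rfl; simp at hd; omega
  set κ : ℝ := log (d + 1) + log 2 + d * (log (d + 1) + log 2) with hκ
  refine ⟨∑ i ∈ range (d + 1), logHeight₁ (f.coeff i) + logHeight₁ f.leadingCoeff⁻¹ +
    d * ∑ i ∈ range (d + 1), logHeight₁ (f.coeff i / f.leadingCoeff) +
    (Module.finrank ℚ K : ℝ) * κ, ?_⟩
  intro z
  choose S hS using fun x : K => exists_support x
  set T : Finset (FinitePlace K) := S f.leadingCoeff⁻¹ ∪ S z ∪ S (f.eval z) ∪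
    ((range (d + 1)).biUnion fun i => S (f.coeff i)) ∪
    ((range (d + 1)).biUnion fun i => S (f.coeff i / f.leadingCoeff)) with hT
  have hTlc : ∀ v, v ∉ T → (v f.leadingCoeff⁻¹ = 1 ∨ f.leadingCoeff⁻¹ = 0) := by
    intro v hv; apply hS; intro h; apply hv; simp [hT, h]
  have hTz : ∀ v, v ∉ T → (v z = 1 ∨ z = 0) := by
    intro v hv; apply hS; intro h; apply hv; simp [hT, h]
  have hTf : ∀ v, v ∉ T → (v (f.eval z) = 1 ∨ f.eval z = 0) := by
    intro v hv; apply hS; intro h; apply hv; simp [hT, h]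
  have hTc : ∀ i ∈ range (d + 1), ∀ v, v ∉ T → (v (f.coeff i) = 1 ∨ f.coeff i = 0) := by
    intro i hi v hv; apply hS; intro h; apply hv
    simp only [hT, Finset.mem_union, Finset.mem_biUnion]
    exact Or.inl (Or.inr ⟨i, hi, h⟩)
  have hTq : ∀ i ∈ range (d + 1), ∀ v, v ∉ T → (v (f.coeff i / f.leadingCoeff) = 1 ∨
      f.coeff i / f.leadingCoeff = 0) := by
    intro i hi v hv; apply hS; intro h; apply hv
    simp only [hT, Finset.mem_union, Finset.mem_biUnion]
    exact Or.inr ⟨i, hi, h⟩
  rw [logHeight_eq_sum _ T hTf, logHeight_eq_sum _ T hTz, logHeight_eq_sum _ T hTlc,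
    Finset.sum_congr rfl (fun i hi => logHeight_eq_sum _ T (hTc i hi)),
    Finset.sum_congr rfl (fun i hi => logHeight_eq_sum _ T (hTq i hi))]
  have hfin : ∀ v ∈ T, |log⁺ (v (f.eval z)) - d * log⁺ (v z)| ≤
      ∑ i ∈ range (d + 1), log⁺ (v (f.coeff i)) + log⁺ (v f.leadingCoeff⁻¹) +
        d * ∑ i ∈ range (d + 1), log⁺ (v (f.coeff i / f.leadingCoeff)) := by
    intro v _
    have h := tate_local v.val f d hd hd1 1 1 le_rfl le_rfl ?_ ?_ z
    · simp only [log_one, add_zero, mul_zero] at h
      exact h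
    · intro s x B _ hB hx
      rw [one_mul]
      rcases s.eq_empty_or_nonempty with rfl | hne
      · simpa using hB
      · obtain ⟨b, hb, hb2⟩ := IsNonarchimedean.finset_image_add_of_nonempty
          (f := v.val) (fun x y => FinitePlace.add_le v x y) x hne
        exact hb2.trans (hx b hb)
    · intro y w hw
      rw [div_one] at hw ⊢
      have h1 : y = (y + w) + (-w) := by ring
      have h2 := FinitePlace.add_le v (y + w) (-w)
      rw [← h1] at h2
      rcases le_max_iff.mp h2 with h | h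
      · exact h
      · exfalso
        have h3 : v (-w) = v w := v.val.map_neg w
        rw [h3] at h
        exact absurd h (not_le.mpr hw)
  have hinf : ∀ v : InfinitePlace K, |log⁺ (v (f.eval z)) - d * log⁺ (v z)| ≤
      ∑ i ∈ range (d + 1), log⁺ (v (f.coeff i)) + log⁺ (v f.leadingCoeff⁻¹) +
        d * ∑ i ∈ range (d + 1), log⁺ (v (f.coeff i / f.leadingCoeff)) + κ := by
    intro v
    have h := tate_local v.val f d hd hd1 (d + 1) 2 (by simp) (by norm_num) ?_ ?_ z
    · exact h
    · intro s x B hs hB hx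
      refine (v.val.sum_le s x).trans ?_
      calc ∑ i ∈ s, v.val (x i) ≤ ∑ i ∈ s, B := Finset.sum_le_sum hx
        _ = s.card * B := by rw [Finset.sum_const, nsmul_eq_mul]
        _ ≤ (d + 1) * B := by
          apply mul_le_mul_of_nonneg_right _ hB
          have := Finset.card_le_card hs
          rw [Finset.card_range] at this
          exact_mod_cast this
    · intro y w hw
      have h1 : y = (y + w) + (-w) := by ring
      have h2 := v.val.add_le (y + w) (-w)
      rw [← h1, v.val.map_neg] at h2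
      linarith
  have hsm : ∑ v : InfinitePlace K, (v.mult : ℝ) = (Module.finrank ℚ K : ℝ) := by
    rw [← InfinitePlace.sum_mult_eq (K := K)]; push_cast; rfl
  have e1 : ∑ v : InfinitePlace K, (v.mult : ℝ) * log⁺ (v (f.eval z)) +
      ∑ v ∈ T, log⁺ (v (f.eval z)) - d * (∑ v : InfinitePlace K, (v.mult : ℝ) * log⁺ (v z) +
      ∑ v ∈ T, log⁺ (v z)) =
      ∑ v : InfinitePlace K, (v.mult : ℝ) * (log⁺ (v (f.eval z)) - d * log⁺ (v z)) +
      ∑ v ∈ T, (log⁺ (v (f.eval z)) - d * log⁺ (v z)) := by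
    rw [mul_add, Finset.mul_sum, Finset.mul_sum, Finset.sum_sub_distrib]
    have : ∑ v : InfinitePlace K, (v.mult : ℝ) * (log⁺ (v (f.eval z)) - d * log⁺ (v z)) =
        ∑ v : InfinitePlace K, (v.mult : ℝ) * log⁺ (v (f.eval z)) -
        ∑ v : InfinitePlace K, (d : ℝ) * ((v.mult : ℝ) * log⁺ (v z)) := by
      rw [← Finset.sum_sub_distrib]
      exact Finset.sum_congr rfl fun v _ => by ring
    rw [this]; ring
  rw [e1]
  refine (abs_add_le _ _).trans ?_
  have e2 := (Finset.abs_sum_le_sum_abs (fun v : InfinitePlace K =>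
    (v.mult : ℝ) * (log⁺ (v (f.eval z)) - d * log⁺ (v z))) univ)
  have e3 := (Finset.abs_sum_le_sum_abs (fun v : FinitePlace K =>
    (log⁺ (v (f.eval z)) - d * log⁺ (v z))) T)
  have e4 : ∑ v : InfinitePlace K, |(v.mult : ℝ) * (log⁺ (v (f.eval z)) - d * log⁺ (v z))| ≤
      ∑ v : InfinitePlace K, (v.mult : ℝ) * (∑ i ∈ range (d + 1), log⁺ (v (f.coeff i)) +
        log⁺ (v f.leadingCoeff⁻¹) +
        d * ∑ i ∈ range (d + 1), log⁺ (v (f.coeff i / f.leadingCoeff)) + κ) := by
    apply Finset.sum_le_sum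
    intro v _
    rw [abs_mul, abs_of_nonneg (Nat.cast_nonneg _)]
    exact mul_le_mul_of_nonneg_left (hinf v) (Nat.cast_nonneg _)
  have e5 : ∑ v ∈ T, |log⁺ (v (f.eval z)) - d * log⁺ (v z)| ≤
      ∑ v ∈ T, (∑ i ∈ range (d + 1), log⁺ (v (f.coeff i)) + log⁺ (v f.leadingCoeff⁻¹) +
        d * ∑ i ∈ range (d + 1), log⁺ (v (f.coeff i / f.leadingCoeff))) :=
    Finset.sum_le_sum hfin
  have e6 : ∑ v : InfinitePlace K, (v.mult : ℝ) * (∑ i ∈ range (d + 1), log⁺ (v (f.coeff i)) +
        log⁺ (v f.leadingCoeff⁻¹) +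
        d * ∑ i ∈ range (d + 1), log⁺ (v (f.coeff i / f.leadingCoeff)) + κ) =
      ∑ i ∈ range (d + 1), ∑ v : InfinitePlace K, (v.mult : ℝ) * log⁺ (v (f.coeff i)) +
      ∑ v : InfinitePlace K, (v.mult : ℝ) * log⁺ (v f.leadingCoeff⁻¹) +
      d * ∑ i ∈ range (d + 1), ∑ v : InfinitePlace K,
        (v.mult : ℝ) * log⁺ (v (f.coeff i / f.leadingCoeff)) +
      (Module.finrank ℚ K : ℝ) * κ := by
    rw [← hsm, Finset.sum_mul, Finset.sum_comm, Finset.sum_comm (s := range (d + 1)) (t := univ)
      (f := fun i (v : InfinitePlace K) =>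
        (v.mult : ℝ) * log⁺ (v (f.coeff i / f.leadingCoeff))), Finset.mul_sum,
      ← Finset.sum_add_distrib, ← Finset.sum_add_distrib, ← Finset.sum_add_distrib]
    apply Finset.sum_congr rfl
    intro v _
    rw [← Finset.mul_sum, ← Finset.mul_sum]; ring
  have e7 : ∑ v ∈ T, (∑ i ∈ range (d + 1), log⁺ (v (f.coeff i)) + log⁺ (v f.leadingCoeff⁻¹) +
        d * ∑ i ∈ range (d + 1), log⁺ (v (f.coeff i / f.leadingCoeff))) =
      ∑ i ∈ range (d + 1), ∑ v ∈ T, log⁺ (v (f.coeff i)) + ∑ v ∈ T, log⁺ (v f.leadingCoeff⁻¹) +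
      d * ∑ i ∈ range (d + 1), ∑ v ∈ T, log⁺ (v (f.coeff i / f.leadingCoeff)) := by
    rw [Finset.sum_add_distrib, Finset.sum_add_distrib, Finset.sum_comm,
      Finset.sum_comm (s := range (d + 1)) (t := T)
      (f := fun i (v : FinitePlace K) => log⁺ (v (f.coeff i / f.leadingCoeff))), Finset.mul_sum]
  rw [Finset.sum_add_distrib, Finset.sum_add_distrib]
  rw [e6] at e4
  rw [e7] at e5
  linarith

end MPd27c8d
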