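import Mathlib
import Pool.Agent.Lib.MP_d27c8d_nt.Tate

/-!
The canonical height of a polynomial over the algebraic closure of the rationals.
-/

open Polynomial Finset NumberField Height Real Filter Topology

namespace MPd27c8d

/-- The field of algebraic numbers. -/
abbrev Qbar : Type := AlgebraicClosure ℚ

lemma isIntegral_qbar (x : Qbar) : IsIntegral ℚ x := by
  have h : @IsIntegral ℚ (AlgebraicClosure ℚ) _ _ (AlgebraicClosure.instAlgebra ℚ) x :=
    (AlgebraicClosure.isAlgebraic ℚ).isAlgebraic x |>.isIntegral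
  obtain ⟨p, hp, hp2⟩ := h
  refine ⟨p, hp, ?_⟩
  have e : (@algebraMap ℚ (AlgebraicClosure ℚ) _ _ (AlgebraicClosure.instAlgebra ℚ)) =
      algebraMap ℚ Qbar := Subsingleton.elim _ _
  rw [← e]
  exact hp2

/-- The canonical height `lim h (f^n z) / (deg f)^n` of a polynomial `f` over the algebraic
numbers, `h` being Mathlib's absolute logarithmic Weil height. -/
noncomputable def canonicalHeight (f : Qbar[X]) (z : Qbar) : ℝ :=
  limUnder atTop (fun n : ℕ =>
    NumberField.absLogHeight₁ ((fun x => f.eval x)^[n] z) / (f.natDegree : ℝ) ^ n)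

lemma tate_limit (u : ℕ → ℝ) (C : ℝ) (d : ℕ) (hd : 2 ≤ d)
    (h : ∀ n, |u (n + 1) - d * u n| ≤ C) :
    ∃ H : ℝ, Tendsto (fun n => u n / (d : ℝ) ^ n) atTop (𝓝 H) := by
  have hd0 : (0 : ℝ) < d := by exact_mod_cast (by omega : 0 < d)
  have hd2 : (2 : ℝ) ≤ d := by exact_mod_cast hd
  have hr : (1 / (d : ℝ)) < 1 := by
    rw [div_lt_one hd0]; linarith
  have hc : CauchySeq (fun n => u n / (d : ℝ) ^ n) := by
    apply cauchySeq_of_le_geometric (1 / (d : ℝ)) (C / d) hr
    intro n
    rw [Real.dist_eq, abs_sub_comm]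
    have h1 : u (n + 1) / (d : ℝ) ^ (n + 1) - u n / (d : ℝ) ^ n =
        (u (n + 1) - d * u n) / (d : ℝ) ^ (n + 1) := by
      rw [pow_succ]; field_simp
    rw [h1, abs_div, abs_of_pos (by positivity : (0 : ℝ) < (d : ℝ) ^ (n + 1))]
    calc |u (n + 1) - d * u n| / (d : ℝ) ^ (n + 1) ≤ C / (d : ℝ) ^ (n + 1) :=
          div_le_div_of_nonneg_right (h n) (by positivity)
      _ = C / d * (1 / (d : ℝ)) ^ n := by
          rw [one_div, inv_pow, pow_succ]; field_simp
  exact cauchySeq_tendsto_of_complete hc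

/-- A polynomial and finitely many algebraic numbers live over a number field. -/
lemma exists_numberField (f : Qbar[X]) (A : Finset Qbar) :
    ∃ K : IntermediateField ℚ Qbar, FiniteDimensional ℚ K ∧ (∀ a ∈ A, a ∈ K) ∧
      ∃ f' : K[X], f'.map (algebraMap K Qbar) = f := by
  classical
  have hfin : ((f.coeffs ∪ A : Finset Qbar) : Set Qbar).Finite := Finset.finite_toSet _
  refine ⟨IntermediateField.adjoin ℚ ((f.coeffs ∪ A : Finset Qbar) : Set Qbar), ?_, ?_, ?_⟩
  · apply IntermediateField.finiteDimensional_adjoin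
    intro x _
    exact isIntegral_qbar x
  · intro a ha
    apply IntermediateField.subset_adjoin
    simp [ha]
  · have : f ∈ Polynomial.lifts (algebraMap
        (IntermediateField.adjoin ℚ ((f.coeffs ∪ A : Finset Qbar) : Set Qbar)) Qbar) := by
      rw [Polynomial.lifts_iff_coeff_lifts]
      intro n
      by_cases h0 : f.coeff n = 0
      · rw [h0]; exact ⟨0, map_zero _⟩
      · have hmem : f.coeff n ∈ IntermediateField.adjoin ℚ
            ((f.coeffs ∪ A : Finset Qbar) : Set Qbar) := by
          apply IntermediateField.subset_adjoin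
          simp [Polynomial.coeff_mem_coeffs h0]
        exact ⟨⟨f.coeff n, hmem⟩, rfl⟩
    exact (Polynomial.mem_lifts f).mp this

variable {K : Type*} [Field K] [NumberField K]

/-- Computing the canonical height in a number field. -/
theorem tendsto_of_lift (f : K[X]) (φ : K →+* Qbar) (hd : 2 ≤ f.natDegree) (z : K) :
    Tendsto (fun n : ℕ => logHeight₁ ((fun x => f.eval x)^[n] z) /
      (Module.finrank ℚ K : ℝ) / (f.natDegree : ℝ) ^ n) atTop
      (𝓝 (canonicalHeight (f.map φ) (φ z))) := by
  obtain ⟨C, hC⟩ := tate_global f f.natDegree rfl (by omega)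
  have hfr : (0 : ℝ) < Module.finrank ℚ K := by exact_mod_cast Module.finrank_pos
  obtain ⟨H, hH⟩ := tate_limit (fun n => logHeight₁ ((fun x => f.eval x)^[n] z) /
    (Module.finrank ℚ K : ℝ)) (C / (Module.finrank ℚ K : ℝ)) f.natDegree hd (by
      intro n
      have h := hC ((fun x => f.eval x)^[n] z)
      rw [Function.iterate_succ_apply', ← mul_div_assoc, ← sub_div, abs_div, abs_of_pos hfr]
      exact div_le_div_of_nonneg_right h hfr.le)
  have heq : (fun n : ℕ => NumberField.absLogHeight₁
      ((fun x => (f.map φ).eval x)^[n] (φ z)) / ((f.map φ).natDegree : ℝ) ^ n) =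
      (fun n : ℕ => logHeight₁ ((fun x => f.eval x)^[n] z) /
      (Module.finrank ℚ K : ℝ) / (f.natDegree : ℝ) ^ n) := by
    funext n
    rw [map_iterate, absLogHeight_eq, natDegree_map]
  have : canonicalHeight (f.map φ) (φ z) = H := by
    rw [canonicalHeight, heq]
    exact hH.limUnder_eq
  rw [this]
  exact hH

/-- The defining limit of the canonical height exists for every polynomial of degree at
least two and every algebraic number. -/
theorem tendsto_canonicalHeight (f : Qbar[X]) (hd : 2 ≤ f.natDegree) (z : Qbar) :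
    Tendsto (fun n : ℕ => NumberField.absLogHeight₁ ((fun x => f.eval x)^[n] z) /
      (f.natDegree : ℝ) ^ n) atTop (𝓝 (canonicalHeight f z)) := by
  obtain ⟨K, hK, hA, f', hf'⟩ := exists_numberField f {z}
  have : NumberField K := {}
  have hz : z ∈ K := hA z (by simp)
  have h := tendsto_of_lift f' (algebraMap K Qbar) (by rw [← hf', natDegree_map] at hd; exact hd)
    ⟨z, hz⟩
  have hz2 : algebraMap K Qbar ⟨z, hz⟩ = z := rfl
  rw [hf', hz2] at h
  refine h.congr ?_
  intro n
  have h1 := map_iterate (algebraMap K Qbar) f' n ⟨z, hz⟩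
  rw [hf', hz2] at h1
  rw [h1, absLogHeight_eq, ← hf', natDegree_map]

lemma absLogHeight_nonneg (z : Qbar) : 0 ≤ NumberField.absLogHeight₁ z := by
  obtain ⟨K, hK, hA, -⟩ := exists_numberField 0 {z}
  have : NumberField K := {}
  have h := absLogHeight_eq (algebraMap K Qbar) ⟨z, hA z (by simp)⟩
  have hz2 : algebraMap K Qbar ⟨z, hA z (by simp)⟩ = z := rfl
  rw [hz2] at h
  rw [h]
  exact div_nonneg (zero_le_logHeight₁ _) (Nat.cast_nonneg _)

theorem canonicalHeight_nonneg (f : Qbar[X]) (hd : 2 ≤ f.natDegree) (z : Qbar) :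
    0 ≤ canonicalHeight f z := by
  apply ge_of_tendsto' (tendsto_canonicalHeight f hd z)
  intro n
  exact div_nonneg (absLogHeight_nonneg _) (by positivity)

end MPd27c8d
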