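import Mathlib
import Pool.Agent.Lib.MP_d27c8d_nt.Canon

/-!
From the global inequality to lower bounds for sums of canonical heights.
-/

open Polynomial Finset NumberField Height Real Filter Topology

namespace MPd27c8d

variable {K : Type*} [Field K] [NumberField K]

/-- The limit form of the global inequality. -/
theorem K_bound (f : K[X]) (φ : K →+* Qbar) (d : ℕ) (hd : f.natDegree = d) (hd2 : 2 ≤ d)
    (N : ℕ) (z : Fin N → K) (b : K) (hb : b ≠ 0) (M : ℕ) (hM : M ≠ 0) (lam : ℝ) (hlam : 0 < lam)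
    (hna : ∀ (v : FinitePlace K) (χ : Fin N → Fin d) (ρ : ℝ),
      (∀ i j, χ i = χ j → v (z i - z j) ≤ ρ) → v b * v (M : K) ≤ ρ)
    (har : ∀ (v : InfinitePlace K) (χ : Fin N → Fin d) (ρ : ℝ),
      (∀ i j, χ i = χ j → v (z i - z j) ≤ ρ) → v b * lam ≤ ρ) :
    log (lam / (8 * M)) ≤ 2 * ∑ i, canonicalHeight (f.map φ) (φ (z i)) := by
  obtain ⟨E, hE⟩ := global_ineq f d hd hd2 N z b hb M hM lam hlam hna har
  have hfr : (0 : ℝ) < Module.finrank ℚ K := by exact_mod_cast Module.finrank_pos
  have hd1 : (1 : ℝ) < d := by exact_mod_cast (by omega : 1 < d)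
  have h1 : Tendsto (fun n : ℕ => 2 * ∑ i, logHeight₁ ((fun x => f.eval x)^[n] (z i)) /
      (Module.finrank ℚ K : ℝ) / (d : ℝ) ^ n + E / (Module.finrank ℚ K : ℝ) / (d : ℝ) ^ n) atTop
      (𝓝 (2 * ∑ i, canonicalHeight (f.map φ) (φ (z i)) + 0)) := by
    apply Tendsto.add
    · apply Tendsto.const_mul
      apply tendsto_finsetSum
      intro i _
      have := tendsto_of_lift f φ (by omega) (z i)
      rwa [hd] at this
    · have h2 : Tendsto (fun n : ℕ => (1 / (d : ℝ)) ^ n) atTop (𝓝 0) :=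
        tendsto_pow_atTop_nhds_zero_of_lt_one (by positivity)
          (by rw [div_lt_one (by linarith)]; exact hd1)
      have h3 := h2.const_mul (E / (Module.finrank ℚ K : ℝ))
      rw [mul_zero] at h3
      refine h3.congr fun n => ?_
      rw [one_div, inv_pow]; rfl
  rw [add_zero] at h1
  apply ge_of_tendsto h1
  filter_upwards [eventually_ge_atTop 1] with n hn
  have h4 := hE n hn
  have h5 : log (lam / (8 * M)) ≤
      (2 * ∑ i, logHeight₁ ((fun x => f.eval x)^[n] (z i)) + E) / (d : ℝ) ^ n /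
        (Module.finrank ℚ K : ℝ) := by
    rw [le_div_iff₀ hfr, mul_comm]; exact h4
  refine h5.trans (le_of_eq ?_)
  rw [← Finset.sum_div, ← Finset.sum_div]
  field_simp

/-- Integers have absolute value at most one at a finite place. -/
lemma fin_int_le_one (v : FinitePlace K) (n : ℤ) : v (n : K) ≤ 1 := by
  have h : IsNonarchimedean v.val := fun x y => FinitePlace.add_le v x y
  exact h.apply_intCast_le_one (f := v.val)

/-- Bezout at a finite place. -/
lemma fin_bezout (v : FinitePlace K) (y : K) (ρ : ℝ) (m n k a b : ℤ) (h : k = a * m + b * n)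
    (hm : v y * v (m : K) ≤ ρ) (hn : v y * v (n : K) ≤ ρ) : v y * v (k : K) ≤ ρ := by
  have h1 : (k : K) = (a : K) * (m : K) + (b : K) * (n : K) := by
    rw [h]; push_cast; ring
  have h2 := FinitePlace.add_le v ((a : K) * (m : K)) ((b : K) * (n : K))
  rw [← h1, map_mul, map_mul] at h2
  have hy : 0 ≤ v y := apply_nonneg v y
  have ha := fin_int_le_one v a
  have hb := fin_int_le_one v b
  have hm0 : 0 ≤ v (m : K) := apply_nonneg v _
  have hn0 : 0 ≤ v (n : K) := apply_nonneg v _
  rcases le_max_iff.mp h2 with h3 | h3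
  · calc v y * v (k : K) ≤ v y * (v (a : K) * v (m : K)) := mul_le_mul_of_nonneg_left h3 hy
      _ ≤ v y * (1 * v (m : K)) := by gcongr
      _ = v y * v (m : K) := by ring
      _ ≤ ρ := hm
  · calc v y * v (k : K) ≤ v y * (v (b : K) * v (n : K)) := mul_le_mul_of_nonneg_left h3 hy
      _ ≤ v y * (1 * v (n : K)) := by gcongr
      _ = v y * v (n : K) := by ring
      _ ≤ ρ := hn

/-- The four nodes. -/
def nodes4 : Fin 4 → ℤ := ![0, 1, 18, 38]

lemma fin2_cases (a b c : Fin 2) (h : a ≠ b) : c = a ∨ c = b := by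
  revert a b c; decide

/-- Four-point theorem over a number field. -/
theorem four_K (f : K[X]) (φ : K →+* Qbar) (hd : f.natDegree = 2) (x y : K) (hy : y ≠ 0) :
    log (9 / 8) ≤ 2 * ∑ i, canonicalHeight (f.map φ) (φ (x + (nodes4 i : K) * y)) := by
  have key : ∀ i j : Fin 4, (x + (nodes4 i : K) * y) - (x + (nodes4 j : K) * y) =
      y * ((nodes4 i - nodes4 j : ℤ) : K) := by
    intro i j; push_cast; ring
  have h := K_bound f φ 2 hd le_rfl 4 (fun i => x + (nodes4 i : K) * y) y hy 2 (by norm_num) 18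
    (by norm_num) ?_ ?_
  · have h2 : (18 : ℝ) / (8 * ((2 : ℕ) : ℝ)) = 9 / 8 := by norm_num
    rw [h2] at h
    exact h
  · intro v χ ρ hχ
    have hp : ∀ i j : Fin 4, χ i = χ j → v y * v ((nodes4 i - nodes4 j : ℤ) : K) ≤ ρ := by
      intro i j hij
      have := hχ i j hij
      rwa [key, map_mul] at this
    have h2 : ((2 : ℕ) : K) = ((2 : ℤ) : K) := by norm_num
    rw [h2]
    by_cases h01 : χ 1 = χ 0
    · -- difference 1
      have h1 := hp 1 0 h01
      exact fin_bezout v y ρ _ _ 2 2 0 (by simp [nodes4]) h1 h1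
    · rcases fin2_cases (χ 1) (χ 0) (χ 2) h01 with h21 | h20
      · rcases fin2_cases (χ 1) (χ 0) (χ 3) h01 with h31 | h30
        · exact fin_bezout v y ρ _ _ 2 11 (-5) (by simp [nodes4]) (hp 2 1 h21) (hp 3 1 h31)
        · exact fin_bezout v y ρ _ _ 2 18 (-8) (by simp [nodes4]) (hp 2 1 h21) (hp 3 0 h30)
      · rcases fin2_cases (χ 1) (χ 0) (χ 3) h01 with h31 | h30
        · exact fin_bezout v y ρ _ _ 2 (-4) 2 (by simp [nodes4]) (hp 2 0 h20) (hp 3 1 h31)
        · exact fin_bezout v y ρ _ _ 2 (-2) 1 (by simp [nodes4]) (hp 2 0 h20) (hp 3 0 h30)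
  · intro v χ ρ hχ
    have hy0 : 0 ≤ v y := apply_nonneg v y
    have hint : ∀ n : ℤ, v (n : K) = |(n : ℝ)| := by
      intro n
      rw [← InfinitePlace.norm_embedding_eq, map_intCast, Complex.norm_intCast]
    have hp : ∀ i j : Fin 4, χ i = χ j → v y * |((nodes4 i - nodes4 j : ℤ) : ℝ)| ≤ ρ := by
      intro i j hij
      have := hχ i j hij
      rwa [key, map_mul, hint] at this
    have hfin : ∀ i j : Fin 4, χ i = χ j → (18 : ℝ) ≤ |((nodes4 i - nodes4 j : ℤ) : ℝ)| →
        v y * 18 ≤ ρ := by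
      intro i j hij h18
      exact (mul_le_mul_of_nonneg_left h18 hy0).trans (hp i j hij)
    by_cases h01 : χ 1 = χ 0
    · by_cases h20 : χ 2 = χ 0
      · exact hfin 2 0 h20 (by simp [nodes4])
      · by_cases h30 : χ 3 = χ 0
        · exact hfin 3 0 h30 (by simp [nodes4]; norm_num)
        · rcases fin2_cases (χ 2) (χ 0) (χ 3) h20 with h | h
          · exact hfin 3 2 h (by simp [nodes4]; norm_num)
          · exact absurd h h30
    · rcases fin2_cases (χ 1) (χ 0) (χ 2) h01 with h21 | h20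
      · rcases fin2_cases (χ 1) (χ 0) (χ 3) h01 with h31 | h30
        · exact hfin 3 1 h31 (by simp [nodes4]; norm_num)
        · exact hfin 3 0 h30 (by simp [nodes4]; norm_num)
      · exact hfin 2 0 h20 (by simp [nodes4])

/-- Lifting a polynomial with coefficients in an intermediate field. -/
lemma poly_lift (F : IntermediateField ℚ Qbar) (f : Qbar[X]) (h : ∀ a ∈ f.coeffs, a ∈ F) :
    ∃ f' : F[X], f'.map (algebraMap F Qbar) = f := by
  have : f ∈ Polynomial.lifts (algebraMap F Qbar) := by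
    rw [Polynomial.lifts_iff_coeff_lifts]
    intro n
    by_cases h0 : f.coeff n = 0
    · rw [h0]; exact ⟨0, map_zero _⟩
    · exact ⟨⟨f.coeff n, h _ (Polynomial.coeff_mem_coeffs h0)⟩, rfl⟩
  exact (Polynomial.mem_lifts f).mp this

/-- **Four-point theorem.** -/
theorem four_points (f : Qbar[X]) (hd : f.natDegree = 2) (x y : Qbar) (hy : y ≠ 0) :
    log (9 / 8) / 2 ≤ canonicalHeight f x + canonicalHeight f (x + y) +
      canonicalHeight f (x + 18 * y) + canonicalHeight f (x + 38 * y) := by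
  classical
  obtain ⟨F, hF, hA, f', hf'⟩ := exists_numberField f ({x, y} : Finset Qbar)
  have : NumberField F := {}
  have hx : x ∈ F := hA x (by simp)
  have hyF : y ∈ F := hA y (by simp)
  have hy' : (⟨y, hyF⟩ : F) ≠ 0 := by
    intro h; exact hy (congrArg Subtype.val h)
  have h := four_K f' (algebraMap F Qbar) (by rw [← hf', natDegree_map] at hd; exact hd)
    ⟨x, hx⟩ ⟨y, hyF⟩ hy'
  rw [hf', Fin.sum_univ_four] at h
  simp only [nodes4, Matrix.cons_val, map_add, map_mul, map_intCast] at h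
  have e1 : algebraMap F Qbar ⟨x, hx⟩ = x := rfl
  have e2 : algebraMap F Qbar ⟨y, hyF⟩ = y := rfl
  rw [e1, e2] at h
  push_cast at h
  rw [zero_mul, add_zero, one_mul] at h
  linarith

end MPd27c8d
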