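import Mathlib

/-!
Integer matrices with bounded entries, maximal minors, and good matrices.
-/

open Finset Classical

namespace MPd27c8d

/-- Vectors with entries of absolute value at most `H`. -/
noncomputable def boxV (H r : ℕ) : Finset (Fin r → ℤ) :=
  Fintype.piFinset fun _ => Finset.Icc (-(H : ℤ)) (H : ℤ)

/-- Matrices with entries of absolute value at most `H`. -/
noncomputable def boxM (H n r : ℕ) : Finset (Fin n → Fin r → ℤ) :=
  Fintype.piFinset fun _ => boxV H r

/-- The maximal minor of an `(r+1) × r` matrix obtained by omitting row `i`. -/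
def minorRow {r : ℕ} (E : Fin (r + 1) → Fin r → ℤ) (i : Fin (r + 1)) : ℤ :=
  Matrix.det (Matrix.of fun a b : Fin r => E (i.succAbove a) b)

/-- Goodness of a matrix with respect to all colourings of its rows with `d` colours. -/
def GoodMatrix (d : ℕ) {n r : ℕ} (C : Fin n → Fin r → ℤ) (M : ℕ) (L : ℝ) : Prop :=
  ∀ χ : Fin n → Fin d,
    (∀ k, ∃ w : Fin n → Fin n → ℤ, (∀ i j, χ i ≠ χ j → w i j = 0) ∧
      ∀ l, ∑ i, ∑ j, w i j * (C i l - C j l) = if l = k then (M : ℤ) else 0) ∧
    (∀ k, ∃ w : Fin n → Fin n → ℝ, (∀ i j, χ i ≠ χ j → w i j = 0) ∧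
      (∀ l, ∑ i, ∑ j, w i j * ((C i l - C j l : ℤ) : ℝ) = if l = k then 1 else 0) ∧
      (∑ i, ∑ j, |w i j|) * L ≤ 1)

end MPd27c8d
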