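import Mathlib
import Pool.Agent.Lib.MP_d27c8d_nt.DenseDefs

/-!
Counting tools: one coordinate at a time.
-/

open Finset Classical

namespace MPd27c8d

lemma mem_boxV {H r : ℕ} {X : Fin r → ℤ} : X ∈ boxV H r ↔ ∀ l, |X l| ≤ H := by
  simp only [boxV, Fintype.mem_piFinset, Finset.mem_Icc, abs_le]

lemma card_Icc_box (H : ℕ) : ((Finset.Icc (-(H : ℤ)) (H : ℤ)).card : ℝ) = 2 * (H : ℝ) + 1 := by
  rw [Int.card_Icc]
  have : ((H : ℤ) + 1 - -(H : ℤ)).toNat = 2 * H + 1 := by omega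
  rw [this]; push_cast; ring

lemma card_boxV (H r : ℕ) : ((boxV H r).card : ℝ) = (2 * (H : ℝ) + 1) ^ r := by
  rw [boxV, Fintype.card_piFinset]
  simp only [Finset.prod_const, Finset.card_univ, Fintype.card_fin]
  rw [Nat.cast_pow, card_Icc_box]

/-- Counting by one coordinate. -/
lemma coord_count (H r : ℕ) (l0 : Fin r) (P : (Fin r → ℤ) → Prop) [DecidablePred P] (κ : ℝ)
    (hκ : ∀ X ∈ boxV H r,
      (((Finset.Icc (-(H : ℤ)) (H : ℤ)).filter fun a => P (Function.update X l0 a)).card : ℝ) ≤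
        κ) :
    (((boxV H r).filter P).card : ℝ) * (2 * (H : ℝ) + 1) ≤ κ * (2 * (H : ℝ) + 1) ^ r := by
  set S := Finset.Icc (-(H : ℤ)) (H : ℤ) with hS
  have h1 : ∑ p ∈ boxV H r ×ˢ S, (if P (Function.update p.1 l0 p.2) then (1 : ℝ) else 0) =
      ∑ p ∈ boxV H r ×ˢ S, (if P p.1 then (1 : ℝ) else 0) := by
    have hmem : ∀ p ∈ boxV H r ×ˢ S,
        (Function.update p.1 l0 p.2, p.1 l0) ∈ boxV H r ×ˢ S := by
      intro p hp
      rw [Finset.mem_product] at hp ⊢
      simp only [boxV, Fintype.mem_piFinset] at hp ⊢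
      refine ⟨fun l => ?_, hp.1 l0⟩
      by_cases hl : l = l0
      · subst hl; rw [Function.update_self]; exact hp.2
      · rw [Function.update_of_ne hl]; exact hp.1 l
    apply Finset.sum_nbij' (fun p => (Function.update p.1 l0 p.2, p.1 l0))
      (fun p => (Function.update p.1 l0 p.2, p.1 l0)) hmem hmem
    · intro p _
      simp
    · intro p _
      simp
    · intro p _
      rfl
  have h2 : ∑ p ∈ boxV H r ×ˢ S, (if P p.1 then (1 : ℝ) else 0) =
      (((boxV H r).filter P).card : ℝ) * (2 * (H : ℝ) + 1) := by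
    rw [Finset.sum_product_right]
    rw [Finset.sum_congr rfl (fun a _ => Finset.sum_boole (fun x => P x) (boxV H r)),
      Finset.sum_const, nsmul_eq_mul, card_Icc_box, mul_comm]
  have h3 : ∑ p ∈ boxV H r ×ˢ S, (if P (Function.update p.1 l0 p.2) then (1 : ℝ) else 0) ≤
      κ * (2 * (H : ℝ) + 1) ^ r := by
    rw [Finset.sum_product]
    calc ∑ X ∈ boxV H r, ∑ a ∈ S, (if P (Function.update X l0 a) then (1 : ℝ) else 0) ≤
          ∑ _X ∈ boxV H r, κ := by
          apply Finset.sum_le_sum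
          intro X hX
          have := hκ X hX
          rw [Finset.sum_boole]
          exact this
      _ = κ * (2 * (H : ℝ) + 1) ^ r := by
          rw [Finset.sum_const, nsmul_eq_mul, card_boxV, mul_comm]
  rw [← h2, ← h1]
  exact h3

/-- A set of integers of diameter at most `D` has at most `D + 1` elements. -/
lemma card_le_of_diam (T : Finset ℤ) (D : ℝ) (hD : 0 ≤ D)
    (h : ∀ a ∈ T, ∀ b ∈ T, ((a : ℝ) - b) ≤ D) : (T.card : ℝ) ≤ D + 1 := by
  rcases T.eq_empty_or_nonempty with rfl | hne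
  · simp; linarith
  · have hsub : T ⊆ Finset.Icc (T.min' hne) (T.max' hne) := by
      intro x hx
      rw [Finset.mem_Icc]
      exact ⟨Finset.min'_le T x hx, Finset.le_max' T x hx⟩
    have h1 := Finset.card_le_card hsub
    rw [Int.card_Icc] at h1
    have h2 := h (T.max' hne) (T.max'_mem hne) (T.min' hne) (T.min'_mem hne)
    have h3 : T.min' hne ≤ T.max' hne := Finset.min'_le T _ (T.max'_mem hne)
    have h4 : (T.card : ℤ) ≤ T.max' hne + 1 - T.min' hne := by omega
    have h5 : (T.card : ℝ) ≤ (T.max' hne : ℝ) + 1 - (T.min' hne : ℝ) := by exact_mod_cast h4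
    linarith

/-- LEMMA V2 (size of a linear form). -/
theorem vec_size (r κ : ℕ) (θ₁ : ℝ) (hθ₁ : 0 < θ₁) (δ : ℝ) (hδ : 0 < δ) :
    ∃ θ : ℝ, 0 < θ ∧ ∃ H₀ : ℕ, ∀ H : ℕ, H₀ ≤ H → ∀ w t : Fin r → ℤ,
      (∃ l, θ₁ * (2 * (H : ℝ) + 1) ^ κ ≤ |(w l : ℝ)|) →
      (((boxV H r).filter (fun X => ¬ θ * (2 * (H : ℝ) + 1) ^ (κ + 1) ≤
        |((∑ l, w l * (X l - t l) : ℤ) : ℝ)|)).card : ℝ) ≤ δ * (2 * (H : ℝ) + 1) ^ r := by
  refine ⟨δ * θ₁ / 4, by positivity, ⌈2 / δ⌉₊, ?_⟩
  intro H hH w t ⟨l0, hl0⟩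
  set N : ℝ := 2 * (H : ℝ) + 1 with hN
  have hN1 : 1 ≤ N := by rw [hN]; have : (0 : ℝ) ≤ H := Nat.cast_nonneg _; linarith
  have hN0 : 0 < N := by linarith
  have hNδ : 1 ≤ δ / 2 * N := by
    have h1 : 2 / δ ≤ (H : ℝ) := (Nat.le_ceil _).trans (by exact_mod_cast hH)
    rw [div_le_iff₀ hδ] at h1
    have : (0 : ℝ) ≤ H := Nat.cast_nonneg _
    rw [hN]; nlinarith
  have hw0 : 0 < |(w l0 : ℝ)| := lt_of_lt_of_le (by positivity) hl0
  have key := coord_count H r l0
    (fun X => ¬ δ * θ₁ / 4 * N ^ (κ + 1) ≤ |((∑ l, w l * (X l - t l) : ℤ) : ℝ)|)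
    (δ / 2 * N + 1) (by
      intro X hX
      apply card_le_of_diam _ _ (by positivity)
      intro a ha b hb
      rw [Finset.mem_filter] at ha hb
      have hsum : ∀ a : ℤ, (∑ l, w l * (Function.update X l0 a l - t l)) =
          w l0 * a + (∑ l, w l * (Function.update X l0 0 l - t l)) := by
        intro a
        rw [← Finset.add_sum_erase _ _ (mem_univ l0), ← Finset.add_sum_erase univ
          (fun l => w l * (Function.update X l0 0 l - t l)) (mem_univ l0)]
        have : ∑ l ∈ univ.erase l0, w l * (Function.update X l0 a l - t l) =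
            ∑ l ∈ univ.erase l0, w l * (Function.update X l0 0 l - t l) := by
          apply Finset.sum_congr rfl
          intro l hl
          rw [Function.update_of_ne (Finset.ne_of_mem_erase hl),
            Function.update_of_ne (Finset.ne_of_mem_erase hl)]
        rw [this, Function.update_self, Function.update_self]
        ring
      obtain ⟨-, ha2⟩ := ha
      obtain ⟨-, hb2⟩ := hb
      rw [not_le, hsum] at ha2 hb2
      set c := (∑ l, w l * (Function.update X l0 0 l - t l)) with hc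
      push_cast at ha2 hb2
      rw [abs_lt] at ha2 hb2
      have h1 : |(w l0 : ℝ) * ((a : ℝ) - b)| ≤ 2 * (δ * θ₁ / 4 * N ^ (κ + 1)) := by
        rw [abs_le]
        constructor <;> nlinarith [ha2.1, ha2.2, hb2.1, hb2.2]
      rw [abs_mul] at h1
      have h2 : (a : ℝ) - b ≤ |(a : ℝ) - b| := le_abs_self _
      have h3 : θ₁ * N ^ κ * |(a : ℝ) - b| ≤ θ₁ * N ^ κ * (δ / 2 * N) := by
        calc θ₁ * N ^ κ * |(a : ℝ) - b| ≤ |(w l0 : ℝ)| * |(a : ℝ) - b| :=
              mul_le_mul_of_nonneg_right hl0 (abs_nonneg _)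
          _ ≤ 2 * (δ * θ₁ / 4 * N ^ (κ + 1)) := h1
          _ = θ₁ * N ^ κ * (δ / 2 * N) := by rw [pow_succ]; ring
      have h4 := le_of_mul_le_mul_left h3 (by positivity)
      linarith)
  have h5 : (δ / 2 * N + 1) * N ^ r ≤ (δ * N ^ r) * N := by
    have h6 : 0 < N ^ r := by positivity
    nlinarith
  have h7 := key.trans h5
  rw [← hN] at h7
  exact le_of_mul_le_mul_right h7 hN0

end MPd27c8d
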