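import Mathlib
import Pool.Agent.Lib.MP_d27c8d_nt.CountV

/-!
Counting pairs of vectors for which two linear forms have a large common divisor.
-/

open Finset Classical

namespace MPd27c8d

/-- A linear form as a function of one coordinate. -/
lemma form_update {r : ℕ} (w t X : Fin r → ℤ) (l0 : Fin r) (a : ℤ) :
    (∑ l, w l * (Function.update X l0 a l - t l)) =
      w l0 * a + (∑ l, w l * (Function.update X l0 0 l - t l)) := by
  rw [← Finset.add_sum_erase _ _ (mem_univ l0), ← Finset.add_sum_erase univ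
    (fun l => w l * (Function.update X l0 0 l - t l)) (mem_univ l0)]
  have : ∑ l ∈ univ.erase l0, w l * (Function.update X l0 a l - t l) =
      ∑ l ∈ univ.erase l0, w l * (Function.update X l0 0 l - t l) := by
    apply Finset.sum_congr rfl
    intro l hl
    rw [Function.update_of_ne (Finset.ne_of_mem_erase hl),
      Function.update_of_ne (Finset.ne_of_mem_erase hl)]
  rw [this, Function.update_self, Function.update_self]
  ring

/-- Integers in a residue class. -/
lemma card_residue (T : Finset ℤ) (g : ℕ) (hg : 0 < g) (D : ℝ) (hD : 0 ≤ D)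
    (h : ∀ a ∈ T, ∀ b ∈ T, (g : ℤ) ∣ a - b) (h2 : ∀ a ∈ T, ∀ b ∈ T, ((a : ℝ) - b) ≤ D) :
    (T.card : ℝ) ≤ D / g + 1 := by
  have hgR : (0 : ℝ) < g := by exact_mod_cast hg
  rcases T.eq_empty_or_nonempty with rfl | hne
  · simp; positivity
  · set m := T.min' hne with hm
    have hmT : m ∈ T := T.min'_mem hne
    have hdiv : ∀ a ∈ T, (g : ℤ) * ((a - m) / g) = a - m := fun a ha =>
      Int.mul_ediv_cancel' (h a ha m hmT)
    have hinj : Set.InjOn (fun a => (a - m) / (g : ℤ)) (T : Set ℤ) := by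
      intro a ha b hb hab
      have h3 := hdiv a ha
      have h4 := hdiv b hb
      have h5 : (a - m) / (g : ℤ) = (b - m) / g := hab
      rw [h5, h4] at h3
      omega
    rw [← Finset.card_image_of_injOn hinj]
    apply card_le_of_diam _ _ (by positivity)
    intro x hx y hy
    obtain ⟨a, ha, rfl⟩ := Finset.mem_image.mp hx
    obtain ⟨b, hb, rfl⟩ := Finset.mem_image.mp hy
    rw [le_div_iff₀ hgR]
    have h3 := hdiv a ha
    have h4 := hdiv b hb
    have h5 : ((((a - m) / (g : ℤ) : ℤ) : ℝ) - (((b - m) / (g : ℤ) : ℤ) : ℝ)) * g =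
        (a : ℝ) - b := by
      have h6 : ((g : ℤ) * ((a - m) / g) - (g : ℤ) * ((b - m) / g)) = a - b := by
        rw [h3, h4]; ring
      have h7 := congrArg (fun z : ℤ => (z : ℝ)) h6
      simp only [Int.cast_sub, Int.cast_mul, Int.cast_natCast] at h7
      rw [← h7]; ring
    have h8 := h2 a ha b hb
    rw [h5]; exact h8

/-- Cancelling a factor which is not too divisible. -/
lemma pow_dvd_cancel (p : ℕ) (hp : p.Prime) (e j : ℕ) (w z : ℤ) (h1 : ¬ (p : ℤ) ^ (e + 1) ∣ w)
    (h2 : (p : ℤ) ^ (e + j) ∣ w * z) : (p : ℤ) ^ j ∣ z := by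
  have hpZ : Prime (p : ℤ) := Nat.prime_iff_prime_int.mp hp
  induction e generalizing w with
  | zero =>
    rw [zero_add] at h2
    rw [zero_add, pow_one] at h1
    exact hpZ.pow_dvd_of_dvd_mul_left j h1 h2
  | succ e ih =>
    by_cases hw : (p : ℤ) ∣ w
    · obtain ⟨w', rfl⟩ := hw
      apply ih w'
      · intro h
        apply h1
        rw [pow_succ' (p : ℤ) (e + 1)]
        exact mul_dvd_mul_left _ h
      · have h3 : (p : ℤ) * (p : ℤ) ^ (e + j) ∣ (p : ℤ) * (w' * z) := by
          have : (p : ℤ) * (p : ℤ) ^ (e + j) = (p : ℤ) ^ (e + 1 + j) := by ring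
          rw [this, ← mul_assoc]; exact h2
        exact (mul_dvd_mul_iff_left hpZ.ne_zero).mp h3
    · have h3 := hpZ.pow_dvd_of_dvd_mul_left (e + 1 + j) hw h2
      exact (pow_dvd_pow _ (by omega)).trans h3

/-- Number of vectors with a linear form divisible by a prime power. -/
lemma count_dvd (H r : ℕ) (w t : Fin r → ℤ) (p : ℕ) (hp : p.Prime) (e j : ℕ) (l0 : Fin r)
    (h1 : ¬ (p : ℤ) ^ (e + 1) ∣ w l0) :
    (((boxV H r).filter fun X => (p : ℤ) ^ (e + j) ∣ ∑ l, w l * (X l - t l)).card : ℝ) *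
      (2 * (H : ℝ) + 1) ≤ (2 * (H : ℝ) / (p ^ j : ℕ) + 1) * (2 * (H : ℝ) + 1) ^ r := by
  apply coord_count H r l0
  intro X _
  apply card_residue _ _ (pow_pos hp.pos j) _ (by positivity)
  · intro a ha b hb
    rw [Finset.mem_filter] at ha hb
    have h3 := dvd_sub ha.2 hb.2
    rw [form_update, form_update w t X l0 b] at h3
    have h4 : w l0 * a + (∑ l, w l * (Function.update X l0 0 l - t l)) -
        (w l0 * b + (∑ l, w l * (Function.update X l0 0 l - t l))) = w l0 * (a - b) := by ring
    rw [h4] at h3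
    have h5 := pow_dvd_cancel p hp e j (w l0) (a - b) h1 h3
    exact_mod_cast h5
  · intro a ha b hb
    rw [Finset.mem_filter, Finset.mem_Icc] at ha hb
    have h3 : a - b ≤ 2 * (H : ℤ) := by omega
    have h4 : ((a - b : ℤ) : ℝ) ≤ ((2 * (H : ℤ) : ℤ) : ℝ) := by exact_mod_cast h3
    push_cast at h4
    exact h4

/-- Number of vectors where a nonzero linear form vanishes. -/
lemma count_zero (H r : ℕ) (w t : Fin r → ℤ) (l0 : Fin r) (h1 : w l0 ≠ 0) :
    (((boxV H r).filter fun X => ∑ l, w l * (X l - t l) = 0).card : ℝ) *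
      (2 * (H : ℝ) + 1) ≤ 1 * (2 * (H : ℝ) + 1) ^ r := by
  apply coord_count H r l0
  intro X _
  have h2 := card_le_of_diam ((Finset.Icc (-(H : ℤ)) (H : ℤ)).filter fun a =>
    ∑ l, w l * (Function.update X l0 a l - t l) = 0) 0 le_rfl (by
    intro a ha b hb
    rw [Finset.mem_filter] at ha hb
    have h3 := ha.2
    have h4 := hb.2
    rw [form_update] at h3 h4
    have h5 : w l0 * (a - b) = 0 := by linarith
    rcases mul_eq_zero.mp h5 with h | h
    · exact absurd h h1
    · have : a = b := by omega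
      rw [this, sub_self])
  linarith

end MPd27c8d
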