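import Mathlib
import Pool.Agent.Lib.MP_d27c8d_nt.CountG

/-!
The gcd of two random values of a linear form.
-/

open Finset Classical

namespace MPd27c8d

/-- If `M₁ G!` is not in the ideal generated by `x`, `y` then a large prime power divides both. -/
lemma bad_pair (M₁ G : ℕ) (hM₁ : 0 < M₁) (hG : 1 ≤ G) (x y : ℤ)
    (h : ¬ ∃ a b : ℤ, a * x + b * y = ((M₁ * G.factorial : ℕ) : ℤ)) :
    x = 0 ∨ ∃ p : ℕ, p.Prime ∧ ∃ j, 1 ≤ j ∧ G < p ^ j ∧ p ^ (j - 1) ≤ G ∧
      (p : ℤ) ^ (M₁.factorization p + j) ∣ x ∧ (p : ℤ) ^ (M₁.factorization p + j) ∣ y := by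
  by_cases hx : x = 0
  · exact Or.inl hx
  right
  have hD : ¬ Int.gcd x y ∣ M₁ * G.factorial := by
    rintro ⟨c, hc⟩
    apply h
    refine ⟨Int.gcdA x y * c, Int.gcdB x y * c, ?_⟩
    have h1 := Int.gcd_eq_gcd_ab x y
    rw [hc]
    push_cast
    rw [h1]
    ring
  rw [Nat.dvd_iff_prime_pow_dvd_dvd] at hD
  push Not at hD
  obtain ⟨p, k, hp, hk1, hk2⟩ := hD
  set e := M₁.factorization p with he
  have hpe : p ^ e ∣ M₁ := Nat.ordProj_dvd M₁ p
  have hek : e < k := by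
    by_contra hcon
    push Not at hcon
    apply hk2
    exact (pow_dvd_pow p hcon).trans (hpe.trans (Dvd.intro _ rfl))
  have hKG : G < p ^ (k - e) := by
    by_contra hcon
    push Not at hcon
    apply hk2
    have h1 : p ^ (k - e) ∣ G.factorial := Nat.dvd_factorial (pow_pos hp.pos _) hcon
    have h2 : p ^ k = p ^ e * p ^ (k - e) := by rw [← pow_add]; congr 1; omega
    rw [h2]
    exact mul_dvd_mul hpe h1
  have hex : ∃ j, G < p ^ j := ⟨_, hKG⟩
  set j := Nat.find hex with hj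
  have hj1 : G < p ^ j := Nat.find_spec hex
  have hjK : j ≤ k - e := Nat.find_min' hex hKG
  have hj0 : 1 ≤ j := by
    by_contra hcon
    have : j = 0 := by omega
    rw [this, pow_zero] at hj1
    omega
  have hjm : p ^ (j - 1) ≤ G := by
    have := Nat.find_min hex (m := j - 1) (by omega)
    omega
  refine ⟨p, hp, j, hj0, hj1, hjm, ?_, ?_⟩
  · have h1 : (p : ℤ) ^ (e + j) ∣ ((Int.gcd x y : ℕ) : ℤ) := by
      have : p ^ (e + j) ∣ Int.gcd x y := (pow_dvd_pow p (by omega)).trans hk1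
      exact_mod_cast this
    exact h1.trans (Int.gcd_dvd_left x y)
  · have h1 : (p : ℤ) ^ (e + j) ∣ ((Int.gcd x y : ℕ) : ℤ) := by
      have : p ^ (e + j) ∣ Int.gcd x y := (pow_dvd_pow p (by omega)).trans hk1
      exact_mod_cast this
    exact h1.trans (Int.gcd_dvd_right x y)

/-- A sum of inverse squares. -/
lemma sum_inv_max (G : ℕ) (hG : 1 ≤ G) (n : ℕ) :
    ∑ p ∈ Finset.Icc 1 n, (1 : ℝ) / (max (G : ℝ) p) ^ 2 ≤ 2 / G := by
  have hGR : (1 : ℝ) ≤ G := by exact_mod_cast hG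
  have h1 : ∀ n, n ≤ G → ∑ p ∈ Finset.Icc 1 n, (1 : ℝ) / (max (G : ℝ) p) ^ 2 ≤ n / (G : ℝ) ^ 2
      := by
    intro n hn
    have : ∀ p ∈ Finset.Icc 1 n, (1 : ℝ) / (max (G : ℝ) p) ^ 2 = 1 / (G : ℝ) ^ 2 := by
      intro p hp
      rw [Finset.mem_Icc] at hp
      rw [max_eq_left]
      exact_mod_cast (by omega : p ≤ G)
    rw [Finset.sum_congr rfl this, Finset.sum_const, Nat.card_Icc, nsmul_eq_mul]
    apply le_of_eq
    have : n + 1 - 1 = n := by omega
    rw [this]; ring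
  have h2 : ∀ k, ∑ p ∈ Finset.Icc 1 (G + k), (1 : ℝ) / (max (G : ℝ) p) ^ 2 ≤
      2 / G - 1 / (G + k : ℕ) := by
    intro k
    induction k with
    | zero =>
      refine (h1 G le_rfl).trans (le_of_eq ?_)
      rw [add_zero]
      field_simp
      norm_num
    | succ k ih =>
      rw [← add_assoc, Finset.sum_Icc_succ_top (by omega)]
      have h3 : max (G : ℝ) ((G + k + 1 : ℕ) : ℝ) = ((G + k + 1 : ℕ) : ℝ) := by
        apply max_eq_right
        exact_mod_cast (by omega : G ≤ G + k + 1)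
      rw [h3]
      have hx : (1 : ℝ) ≤ (G + k : ℕ) := by exact_mod_cast (by omega : 1 ≤ G + k)
      have h4 : ((G + k + 1 : ℕ) : ℝ) = ((G + k : ℕ) : ℝ) + 1 := by push_cast; ring
      rw [h4]
      set x : ℝ := ((G + k : ℕ) : ℝ) with hxdef
      have h5 : 1 / (x + 1) ^ 2 ≤ 1 / x - 1 / (x + 1) := by
        have hx0 : 0 < x := by linarith
        have : 1 / x - 1 / (x + 1) = 1 / (x * (x + 1)) := by field_simp; ring
        rw [this]
        apply one_div_le_one_div_of_le (by positivity)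
        nlinarith
      linarith
  rcases le_total n G with h | h
  · refine (h1 n h).trans ?_
    have hn : (n : ℝ) ≤ G := by exact_mod_cast h
    rw [div_le_div_iff₀ (by positivity) (by positivity)]
    nlinarith
  · obtain ⟨k, rfl⟩ := Nat.exists_eq_add_of_le h
    have := h2 k
    have h3 : (0 : ℝ) ≤ 1 / ((G + k : ℕ) : ℝ) := by positivity
    linarith

/-- Few large primes divide a nonzero integer. -/
lemma card_large_primes (x : ℤ) (hx : x ≠ 0) (N : ℝ) (hN : 1 < N) (B : ℕ)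
    (hB : |(x : ℝ)| ≤ N ^ B) :
    (x.natAbs.primeFactors.filter fun p : ℕ => N < (p : ℝ)).card ≤ B := by
  set P := x.natAbs.primeFactors.filter fun p : ℕ => N < (p : ℝ) with hP
  have hx0 : x.natAbs ≠ 0 := by omega
  have h1 : ∏ p ∈ P, p ∣ x.natAbs :=
    (Finset.prod_dvd_prod_of_subset _ _ _ (Finset.filter_subset _ _)).trans
      (Nat.prod_primeFactors_dvd _)
  have h2 : ∏ p ∈ P, p ≤ x.natAbs := Nat.le_of_dvd (by omega) h1
  have h3 : N ^ P.card ≤ ∏ p ∈ P, (p : ℝ) := by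
    rw [← Finset.prod_const]
    apply Finset.prod_le_prod
    · intro _ _; linarith
    · intro p hp
      exact (Finset.mem_filter.mp hp).2.le
  have h4 : (∏ p ∈ P, (p : ℝ)) ≤ |(x : ℝ)| := by
    have h5 : ((∏ p ∈ P, p : ℕ) : ℝ) ≤ (x.natAbs : ℝ) := by exact_mod_cast h2
    push_cast at h5
    rw [Nat.cast_natAbs, Int.cast_abs] at h5
    exact h5
  have h6 : N ^ P.card ≤ N ^ B := h3.trans (h4.trans hB)
  exact (pow_le_pow_iff_right₀ hN).mp h6

end MPd27c8d
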