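import Mathlib
import Pool.Agent.Lib.MP_d27c8d_nt.CountG2

/-!
Two random values of a linear form: the counting theorem.
-/

open Finset Classical

namespace MPd27c8d

/-- The linear form. -/
def lform {r : ℕ} (w t X : Fin r → ℤ) : ℤ := ∑ l, w l * (X l - t l)

/-- Case B: one prime. -/
lemma count_B (H r M₁ G : ℕ) (hM₁ : 0 < M₁) (hG : 1 ≤ G) (w t t' : Fin r → ℤ)
    (hw : ∃ u : Fin r → ℤ, ∑ l, u l * w l = (M₁ : ℤ)) (p : ℕ) :
    (((boxV H r ×ˢ boxV H r).filter (fun q => p.Prime ∧ ∃ j, 1 ≤ j ∧ G < p ^ j ∧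
      p ^ (j - 1) ≤ G ∧ p ^ j ≤ 2 * H + 1 ∧
      (p : ℤ) ^ (M₁.factorization p + j) ∣ lform w t q.1 ∧
      (p : ℤ) ^ (M₁.factorization p + j) ∣ lform w t' q.2)).card : ℝ) ≤
      4 * (1 / (max (G : ℝ) p) ^ 2) * (2 * (H : ℝ) + 1) ^ (2 * r) := by
  set N : ℝ := 2 * (H : ℝ) + 1 with hN
  have hH0 : (0 : ℝ) ≤ H := Nat.cast_nonneg _
  have hN0 : 0 < N := by rw [hN]; linarith
  by_cases hex : p.Prime ∧ ∃ j, 1 ≤ j ∧ G < p ^ j ∧ p ^ (j - 1) ≤ G ∧ p ^ j ≤ 2 * H + 1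
  · obtain ⟨hp, j, hj1, hjG, hjm, hjN⟩ := hex
    set e := M₁.factorization p with he
    -- a coordinate which is not too divisible
    obtain ⟨l0, hl0⟩ : ∃ l0, ¬ (p : ℤ) ^ (e + 1) ∣ w l0 := by
      by_contra hcon
      push Not at hcon
      obtain ⟨u, hu⟩ := hw
      have h1 : (p : ℤ) ^ (e + 1) ∣ (M₁ : ℤ) := by
        rw [← hu]
        exact Finset.dvd_sum fun l _ => Dvd.dvd.mul_left (hcon l) _
      have h2 : p ^ (e + 1) ∣ M₁ := by exact_mod_cast h1
      have h3 := (hp.pow_dvd_iff_le_factorization (by omega)).mp h2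
      omega
    have hc1 := count_dvd H r w t p hp e j l0 hl0
    have hc2 := count_dvd H r w t' p hp e j l0 hl0
    rw [← hN] at hc1 hc2
    set P : Finset (Fin r → ℤ) := (boxV H r).filter fun X => (p : ℤ) ^ (e + j) ∣
      ∑ l, w l * (X l - t l) with hP
    set Q : Finset (Fin r → ℤ) := (boxV H r).filter fun X => (p : ℤ) ^ (e + j) ∣
      ∑ l, w l * (X l - t' l) with hQ
    have hsub : (boxV H r ×ˢ boxV H r).filter (fun q => p.Prime ∧ ∃ j, 1 ≤ j ∧ G < p ^ j ∧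
        p ^ (j - 1) ≤ G ∧ p ^ j ≤ 2 * H + 1 ∧
        (p : ℤ) ^ (e + j) ∣ lform w t q.1 ∧ (p : ℤ) ^ (e + j) ∣ lform w t' q.2) ⊆ P ×ˢ Q := by
      intro q hq
      rw [Finset.mem_filter, Finset.mem_product] at hq
      obtain ⟨⟨hq1, hq2⟩, -, j', hj1', hjG', hjm', -, hd1, hd2⟩ := hq
      have hjj : j' = j := by
        have h1 : p ^ (j' - 1) < p ^ j := lt_of_le_of_lt hjm' hjG
        have h2 : p ^ (j - 1) < p ^ j' := lt_of_le_of_lt hjm hjG'
        have h3 := (Nat.pow_lt_pow_iff_right hp.one_lt).mp h1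
        have h4 := (Nat.pow_lt_pow_iff_right hp.one_lt).mp h2
        omega
      subst hjj
      rw [Finset.mem_product, hP, hQ, Finset.mem_filter, Finset.mem_filter]
      exact ⟨⟨hq1, hd1⟩, hq2, hd2⟩
    have hcard : (((boxV H r ×ˢ boxV H r).filter (fun q => p.Prime ∧ ∃ j, 1 ≤ j ∧ G < p ^ j ∧
        p ^ (j - 1) ≤ G ∧ p ^ j ≤ 2 * H + 1 ∧
        (p : ℤ) ^ (e + j) ∣ lform w t q.1 ∧ (p : ℤ) ^ (e + j) ∣ lform w t' q.2)).card : ℝ) ≤
        (P.card : ℝ) * Q.card := by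
      have := Finset.card_le_card hsub
      rw [Finset.card_product] at this
      exact_mod_cast this
    refine hcard.trans ?_
    set g : ℝ := ((p ^ j : ℕ) : ℝ) with hg
    have hgG : (G : ℝ) ≤ g := by rw [hg]; exact_mod_cast hjG.le
    have hgp : (p : ℝ) ≤ g := by
      rw [hg]
      have : p ≤ p ^ j := Nat.le_self_pow (by omega) p
      exact_mod_cast this
    have hG1 : (1 : ℝ) ≤ G := by exact_mod_cast hG
    have hg0 : 0 < g := by linarith
    have hgN : g ≤ N := by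
      rw [hg, hN]; exact_mod_cast hjN
    have hmax : max (G : ℝ) p ≤ g := max_le hgG hgp
    have hmax0 : 0 < max (G : ℝ) p := lt_of_lt_of_le (by linarith) (le_max_left _ _)
    have hK : 2 * (H : ℝ) / g + 1 ≤ 2 * N / g := by
      rw [le_div_iff₀ hg0, add_mul, div_mul_cancel₀ _ hg0.ne']
      rw [hN] at hgN ⊢; linarith
    have hNr : (0 : ℝ) < N ^ r := by positivity
    have hP1 : (P.card : ℝ) * N ≤ 2 * N / g * N ^ r :=
      hc1.trans (mul_le_mul_of_nonneg_right hK hNr.le)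
    have hQ1 : (Q.card : ℝ) * N ≤ 2 * N / g * N ^ r :=
      hc2.trans (mul_le_mul_of_nonneg_right hK hNr.le)
    have hP2 : (P.card : ℝ) ≤ 2 / g * N ^ r := by
      have : (P.card : ℝ) * N ≤ (2 / g * N ^ r) * N := by
        refine hP1.trans (le_of_eq ?_); ring
      exact le_of_mul_le_mul_right this hN0
    have hQ2 : (Q.card : ℝ) ≤ 2 / g * N ^ r := by
      have : (Q.card : ℝ) * N ≤ (2 / g * N ^ r) * N := by
        refine hQ1.trans (le_of_eq ?_); ring
      exact le_of_mul_le_mul_right this hN0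
    calc (P.card : ℝ) * Q.card ≤ (2 / g * N ^ r) * (2 / g * N ^ r) :=
          mul_le_mul hP2 hQ2 (Nat.cast_nonneg _) (by positivity)
      _ = 4 * (1 / g ^ 2) * N ^ (2 * r) := by rw [two_mul, pow_add]; ring
      _ ≤ 4 * (1 / (max (G : ℝ) p) ^ 2) * N ^ (2 * r) := by
          apply mul_le_mul_of_nonneg_right _ (by positivity)
          apply mul_le_mul_of_nonneg_left _ (by norm_num)
          apply one_div_le_one_div_of_le (by positivity)
          exact pow_le_pow_left₀ hmax0.le hmax 2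
  · rw [Finset.filter_false_of_mem]
    · rw [Finset.card_empty, Nat.cast_zero]
      have hG1 : (1 : ℝ) ≤ G := by exact_mod_cast hG
      have hmax0 : 0 < max (G : ℝ) p := lt_of_lt_of_le (by linarith) (le_max_left _ _)
      positivity
    · rintro q _ ⟨hp, j, h1, h2, h3, h4, -⟩
      exact hex ⟨hp, j, h1, h2, h3, h4⟩

/-- Case C: for fixed first vector, large primes. -/
lemma count_C (H r M₁ : ℕ) (hM₁ : 0 < M₁) (hH : 1 ≤ H) (w t' : Fin r → ℤ)
    (hw : ∃ u : Fin r → ℤ, ∑ l, u l * w l = (M₁ : ℤ)) (x : ℤ) (hx : x ≠ 0) (B : ℕ)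
    (hB : |(x : ℝ)| ≤ (2 * (H : ℝ) + 1) ^ B) :
    (((boxV H r).filter (fun Y => ∃ p : ℕ, p.Prime ∧ 2 * H + 1 < p ∧
      (p : ℤ) ^ (M₁.factorization p + 1) ∣ x ∧
      (p : ℤ) ^ (M₁.factorization p + 1) ∣ lform w t' Y)).card : ℝ) * (2 * (H : ℝ) + 1) ≤
      2 * B * (2 * (H : ℝ) + 1) ^ r := by
  set N : ℝ := 2 * (H : ℝ) + 1 with hN
  have hH1 : (1 : ℝ) ≤ H := by exact_mod_cast hH
  have hN0 : 1 < N := by rw [hN]; linarith
  set P := x.natAbs.primeFactors.filter fun p : ℕ => N < (p : ℝ) with hP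
  have hPc : P.card ≤ B := card_large_primes x hx N hN0 B hB
  have hsub : (boxV H r).filter (fun Y => ∃ p : ℕ, p.Prime ∧ 2 * H + 1 < p ∧
      (p : ℤ) ^ (M₁.factorization p + 1) ∣ x ∧
      (p : ℤ) ^ (M₁.factorization p + 1) ∣ lform w t' Y) ⊆
      P.biUnion (fun p => (boxV H r).filter (fun Y =>
        (p : ℤ) ^ (M₁.factorization p + 1) ∣ ∑ l, w l * (Y l - t' l))) := by
    intro Y hY
    rw [Finset.mem_filter] at hY
    obtain ⟨hYb, p, hp, hpN, hdx, hdy⟩ := hY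
    rw [Finset.mem_biUnion]
    refine ⟨p, ?_, ?_⟩
    · rw [hP, Finset.mem_filter, Nat.mem_primeFactors]
      refine ⟨⟨hp, ?_, by omega⟩, ?_⟩
      · have h1 : (p : ℤ) ∣ x := (dvd_pow_self (p : ℤ) (by omega)).trans hdx
        exact Int.natCast_dvd.mp h1
      · rw [hN]; exact_mod_cast hpN
    · rw [Finset.mem_filter]
      exact ⟨hYb, hdy⟩
  have hone : ∀ p ∈ P, (((boxV H r).filter (fun Y =>
        (p : ℤ) ^ (M₁.factorization p + 1) ∣ ∑ l, w l * (Y l - t' l))).card : ℝ) * N ≤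
        2 * N ^ r := by
    intro p hpP
    rw [hP, Finset.mem_filter, Nat.mem_primeFactors] at hpP
    obtain ⟨⟨hp, -, -⟩, hpN⟩ := hpP
    obtain ⟨l0, hl0⟩ : ∃ l0, ¬ (p : ℤ) ^ (M₁.factorization p + 1) ∣ w l0 := by
      by_contra hcon
      push Not at hcon
      obtain ⟨u, hu⟩ := hw
      have h1 : (p : ℤ) ^ (M₁.factorization p + 1) ∣ (M₁ : ℤ) := by
        rw [← hu]
        exact Finset.dvd_sum fun l _ => Dvd.dvd.mul_left (hcon l) _
      have h2 : p ^ (M₁.factorization p + 1) ∣ M₁ := by exact_mod_cast h1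
      have h3 := (hp.pow_dvd_iff_le_factorization (by omega)).mp h2
      omega
    have h4 := count_dvd H r w t' p hp _ 1 l0 hl0
    rw [← hN] at h4
    refine h4.trans ?_
    apply mul_le_mul_of_nonneg_right _ (by positivity)
    have hp0 : (0 : ℝ) < p := by linarith
    rw [pow_one]
    have : 2 * (H : ℝ) / p ≤ 1 := by
      rw [div_le_one hp0]
      rw [hN] at hpN; linarith
    linarith
  have h1 := (Finset.card_le_card hsub).trans Finset.card_biUnion_le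
  have h2 : (((boxV H r).filter (fun Y => ∃ p : ℕ, p.Prime ∧ 2 * H + 1 < p ∧
      (p : ℤ) ^ (M₁.factorization p + 1) ∣ x ∧
      (p : ℤ) ^ (M₁.factorization p + 1) ∣ lform w t' Y)).card : ℝ) ≤
      ∑ p ∈ P, (((boxV H r).filter (fun Y =>
        (p : ℤ) ^ (M₁.factorization p + 1) ∣ ∑ l, w l * (Y l - t' l))).card : ℝ) := by
    refine le_trans (Nat.cast_le.mpr h1) ?_
    rw [Nat.cast_sum]
  calc _ ≤ (∑ p ∈ P, (((boxV H r).filter (fun Y =>
        (p : ℤ) ^ (M₁.factorization p + 1) ∣ ∑ l, w l * (Y l - t' l))).card : ℝ)) * N :=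
        mul_le_mul_of_nonneg_right h2 (by linarith)
    _ = ∑ p ∈ P, (((boxV H r).filter (fun Y =>
        (p : ℤ) ^ (M₁.factorization p + 1) ∣ ∑ l, w l * (Y l - t' l))).card : ℝ) * N := by
        rw [Finset.sum_mul]
    _ ≤ ∑ p ∈ P, 2 * N ^ r := Finset.sum_le_sum hone
    _ = P.card * (2 * N ^ r) := by rw [Finset.sum_const, nsmul_eq_mul]
    _ ≤ B * (2 * N ^ r) := by
        apply mul_le_mul_of_nonneg_right _ (by positivity)
        exact_mod_cast hPc
    _ = 2 * B * N ^ r := by ring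

end MPd27c8d
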