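import Mathlib
import Pool.Agent.Lib.MP_d27c8d_nt.CountG3

/-!
Two random values of a linear form: conclusion.
-/

open Finset Classical

namespace MPd27c8d

/-- LEMMA V1 (gcd of two linear forms). -/
theorem vec_gcd (r κ M₁ : ℕ) (hM₁ : 0 < M₁) (δ : ℝ) (hδ : 0 < δ) :
    ∃ M₂ : ℕ, 0 < M₂ ∧ ∃ H₀ : ℕ, ∀ H : ℕ, H₀ ≤ H → ∀ w t t' : Fin r → ℤ,
      (∃ u : Fin r → ℤ, ∑ l, u l * w l = (M₁ : ℤ)) →
      (∀ l, |(w l : ℝ)| ≤ (2 * (H : ℝ) + 1) ^ (κ + 1)) →
      (∀ l, |t l| ≤ H) → (∀ l, |t' l| ≤ H) →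
      (((boxV H r ×ˢ boxV H r).filter (fun p =>
        ¬ ∃ a b : ℤ, a * (∑ l, w l * (p.1 l - t l)) + b * (∑ l, w l * (p.2 l - t' l)) =
            (M₂ : ℤ))).card : ℝ) ≤ δ * (2 * (H : ℝ) + 1) ^ (2 * r) := by
  set G : ℕ := ⌈16 / δ⌉₊ + 1 with hG
  have hG1 : 1 ≤ G := by omega
  have hGR : 16 / δ ≤ (G : ℝ) := by
    rw [hG]; push_cast; linarith [Nat.le_ceil (16 / δ)]
  have hG0 : (0 : ℝ) < G := by exact_mod_cast (by omega : 0 < G)
  set B : ℕ := κ + 3 with hB
  refine ⟨M₁ * G.factorial, Nat.mul_pos hM₁ (Nat.factorial_pos _),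
    max (max (G ^ 2) (r + 1)) ⌈(2 * (2 * (B : ℝ) + 1)) / δ⌉₊, ?_⟩
  intro H hH w t t' hw hwb ht ht'
  have hH1 : G ^ 2 ≤ H := ((le_max_left _ _).trans (le_max_left _ _)).trans hH
  have hH2 : r + 1 ≤ H := ((le_max_right _ _).trans (le_max_left _ _)).trans hH
  have hH3 : (2 * (2 * (B : ℝ) + 1)) / δ ≤ (H : ℝ) :=
    (Nat.le_ceil _).trans (by exact_mod_cast (le_max_right _ _).trans hH)
  set N : ℝ := 2 * (H : ℝ) + 1 with hN
  have hHr : (1 : ℝ) ≤ H := by exact_mod_cast (by omega : 1 ≤ H)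
  have hN0 : 0 < N := by rw [hN]; linarith
  have hrN : (r : ℝ) ≤ N := by
    have : (r : ℝ) + 1 ≤ H := by exact_mod_cast hH2
    rw [hN]; linarith
  obtain ⟨l1, hl1⟩ : ∃ l, w l ≠ 0 := by
    by_contra hcon
    push Not at hcon
    obtain ⟨u, hu⟩ := hw
    simp only [hcon, mul_zero, Finset.sum_const_zero] at hu
    have : M₁ = 0 := by exact_mod_cast hu.symm
    omega
  -- the three bad sets
  set A := (boxV H r ×ˢ boxV H r).filter (fun q => lform w t q.1 = 0) with hA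
  set Bs : ℕ → Finset ((Fin r → ℤ) × (Fin r → ℤ)) := fun p =>
    (boxV H r ×ˢ boxV H r).filter (fun q => p.Prime ∧ ∃ j, 1 ≤ j ∧ G < p ^ j ∧
      p ^ (j - 1) ≤ G ∧ p ^ j ≤ 2 * H + 1 ∧
      (p : ℤ) ^ (M₁.factorization p + j) ∣ lform w t q.1 ∧
      (p : ℤ) ^ (M₁.factorization p + j) ∣ lform w t' q.2) with hBs
  set Cs := (boxV H r ×ˢ boxV H r).filter (fun q => lform w t q.1 ≠ 0 ∧
    ∃ p : ℕ, p.Prime ∧ 2 * H + 1 < p ∧
      (p : ℤ) ^ (M₁.factorization p + 1) ∣ lform w t q.1 ∧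
      (p : ℤ) ^ (M₁.factorization p + 1) ∣ lform w t' q.2) with hCs
  have hcover : (boxV H r ×ˢ boxV H r).filter (fun p =>
        ¬ ∃ a b : ℤ, a * (∑ l, w l * (p.1 l - t l)) + b * (∑ l, w l * (p.2 l - t' l)) =
            ((M₁ * G.factorial : ℕ) : ℤ)) ⊆ (A ∪ (Finset.Icc 1 (2 * H + 1)).biUnion Bs) ∪ Cs := by
    intro q hq
    rw [Finset.mem_filter] at hq
    obtain ⟨hqb, hqn⟩ := hq
    rcases bad_pair M₁ G hM₁ hG1 _ _ hqn with h0 | ⟨p, hp, j, hj1, hjG, hjm, hd1, hd2⟩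
    · rw [Finset.mem_union, Finset.mem_union, hA, Finset.mem_filter]
      exact Or.inl (Or.inl ⟨hqb, h0⟩)
    · by_cases h0 : lform w t q.1 = 0
      · rw [Finset.mem_union, Finset.mem_union, hA, Finset.mem_filter]
        exact Or.inl (Or.inl ⟨hqb, h0⟩)
      · by_cases hjN : p ^ j ≤ 2 * H + 1
        · rw [Finset.mem_union, Finset.mem_union, Finset.mem_biUnion]
          refine Or.inl (Or.inr ⟨p, ?_, ?_⟩)
          · rw [Finset.mem_Icc]
            have h1 : p ≤ p ^ j := Nat.le_self_pow (by omega) p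
            have h2 := hp.one_lt
            omega
          · rw [hBs]
            simp only [Finset.mem_filter]
            exact ⟨hqb, hp, j, hj1, hjG, hjm, hjN, hd1, hd2⟩
        · rw [Finset.mem_union, hCs, Finset.mem_filter]
          right
          have hj : j = 1 := by
            by_contra hne
            have h2 : p ≤ p ^ (j - 1) := Nat.le_self_pow (by omega) p
            have h3 : p ^ j = p ^ (j - 1) * p := by
              rw [← pow_succ]; congr 1; omega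
            have h4 : p ^ j ≤ G * G := by
              rw [h3]; exact Nat.mul_le_mul hjm (h2.trans hjm)
            have h5 : G * G = G ^ 2 := by ring
            omega
          subst hj
          rw [pow_one] at hjN
          exact ⟨hqb, h0, p, hp, by omega, hd1, hd2⟩
  -- size of A
  have hAc : (A.card : ℝ) * N ≤ N ^ (2 * r) := by
    have h1 : A = ((boxV H r).filter fun X => lform w t X = 0) ×ˢ boxV H r := by
      rw [hA]
      ext q
      simp only [Finset.mem_filter, Finset.mem_product]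
      tauto
    have h2 := count_zero H r w t l1 hl1
    rw [← hN, one_mul] at h2
    have h3 : (A.card : ℝ) = (((boxV H r).filter fun X => lform w t X = 0).card : ℝ) * N ^ r := by
      rw [h1, Finset.card_product]; push_cast; rw [card_boxV]
    rw [h3]
    calc (((boxV H r).filter fun X => lform w t X = 0).card : ℝ) * N ^ r * N =
        ((((boxV H r).filter fun X => lform w t X = 0).card : ℝ) * N) * N ^ r := by ring
      _ ≤ N ^ r * N ^ r := mul_le_mul_of_nonneg_right h2 (by positivity)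
      _ = N ^ (2 * r) := by rw [two_mul, pow_add]
  -- size of B
  have hBc : ((((Finset.Icc 1 (2 * H + 1)).biUnion Bs).card : ℕ) : ℝ) ≤
      8 / G * N ^ (2 * r) := by
    refine (Nat.cast_le.mpr Finset.card_biUnion_le).trans ?_
    rw [Nat.cast_sum]
    calc ∑ p ∈ Finset.Icc 1 (2 * H + 1), ((Bs p).card : ℝ) ≤
          ∑ p ∈ Finset.Icc 1 (2 * H + 1), 4 * (1 / (max (G : ℝ) p) ^ 2) * N ^ (2 * r) :=
          Finset.sum_le_sum fun p _ => count_B H r M₁ G hM₁ hG1 w t t' hw p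
      _ = 4 * (∑ p ∈ Finset.Icc 1 (2 * H + 1), (1 / (max (G : ℝ) p) ^ 2)) * N ^ (2 * r) := by
          rw [Finset.mul_sum, Finset.sum_mul]
      _ ≤ 4 * (2 / G) * N ^ (2 * r) := by
          apply mul_le_mul_of_nonneg_right _ (by positivity)
          apply mul_le_mul_of_nonneg_left (sum_inv_max G hG1 _) (by norm_num)
      _ = 8 / G * N ^ (2 * r) := by ring
  -- size of C
  have hCc : (Cs.card : ℝ) * N ≤ 2 * B * N ^ (2 * r) := by
    have hfx : ∀ X ∈ boxV H r, (((boxV H r).filter (fun Y => lform w t X ≠ 0 ∧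
        ∃ p : ℕ, p.Prime ∧ 2 * H + 1 < p ∧
        (p : ℤ) ^ (M₁.factorization p + 1) ∣ lform w t X ∧
        (p : ℤ) ^ (M₁.factorization p + 1) ∣ lform w t' Y)).card : ℝ) * N ≤ 2 * B * N ^ r := by
      intro X hX
      by_cases h0 : lform w t X = 0
      · rw [Finset.filter_false_of_mem]
        · rw [Finset.card_empty, Nat.cast_zero, zero_mul]; positivity
        · intro Y _ hY
          exact hY.1 h0
      · have hbd : |((lform w t X : ℤ) : ℝ)| ≤ N ^ B := by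
          rw [lform]
          push_cast
          refine (Finset.abs_sum_le_sum_abs _ _).trans ?_
          have hterm : ∀ l ∈ (univ : Finset (Fin r)), |(w l : ℝ) * ((X l : ℝ) - (t l : ℝ))| ≤
              N ^ (κ + 1) * N := by
            intro l _
            rw [abs_mul]
            apply mul_le_mul (hwb l) _ (abs_nonneg _) (by positivity)
            have h1 : |X l| ≤ (H : ℤ) := (mem_boxV.mp hX) l
            have h2 := ht l
            have h3 : |X l - t l| ≤ 2 * (H : ℤ) := by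
              rw [abs_le] at h1 h2 ⊢
              constructor <;> omega
            have h4 : |((X l - t l : ℤ) : ℝ)| ≤ 2 * (H : ℝ) := by
              rw [← Int.cast_abs]; exact_mod_cast h3
            push_cast at h4
            rw [hN]; linarith
          refine (Finset.sum_le_sum hterm).trans ?_
          rw [Finset.sum_const, Finset.card_univ, Fintype.card_fin, nsmul_eq_mul]
          calc (r : ℝ) * (N ^ (κ + 1) * N) ≤ N * (N ^ (κ + 1) * N) :=
                mul_le_mul_of_nonneg_right hrN (by positivity)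
            _ = N ^ B := by rw [hB]; ring
        have h1 := count_C H r M₁ hM₁ (by omega) w t' hw _ h0 B hbd
        rw [← hN] at h1
        refine le_trans ?_ h1
        apply mul_le_mul_of_nonneg_right _ hN0.le
        apply Nat.cast_le.mpr
        apply Finset.card_le_card
        intro Y hY
        rw [Finset.mem_filter] at hY ⊢
        exact ⟨hY.1, hY.2.2⟩
    have h1 : (Cs.card : ℝ) = ∑ X ∈ boxV H r, (((boxV H r).filter (fun Y => lform w t X ≠ 0 ∧
        ∃ p : ℕ, p.Prime ∧ 2 * H + 1 < p ∧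
        (p : ℤ) ^ (M₁.factorization p + 1) ∣ lform w t X ∧
        (p : ℤ) ^ (M₁.factorization p + 1) ∣ lform w t' Y)).card : ℝ) := by
      have h2 : (Cs.card : ℝ) = ∑ q ∈ boxV H r ×ˢ boxV H r, (if (lform w t q.1 ≠ 0 ∧
        ∃ p : ℕ, p.Prime ∧ 2 * H + 1 < p ∧
        (p : ℤ) ^ (M₁.factorization p + 1) ∣ lform w t q.1 ∧
        (p : ℤ) ^ (M₁.factorization p + 1) ∣ lform w t' q.2) then (1 : ℝ) else 0) := by
        rw [hCs, Finset.sum_boole]
      rw [h2, Finset.sum_product]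
      apply Finset.sum_congr rfl
      intro X _
      rw [Finset.sum_boole]
    rw [h1, Finset.sum_mul]
    refine (Finset.sum_le_sum hfx).trans (le_of_eq ?_)
    rw [Finset.sum_const, nsmul_eq_mul, card_boxV, ← hN, two_mul r, pow_add]
    ring
  -- conclusion
  have h1 : (((boxV H r ×ˢ boxV H r).filter (fun p =>
        ¬ ∃ a b : ℤ, a * (∑ l, w l * (p.1 l - t l)) + b * (∑ l, w l * (p.2 l - t' l)) =
            ((M₁ * G.factorial : ℕ) : ℤ))).card : ℝ) ≤
      (A.card : ℝ) + (((Finset.Icc 1 (2 * H + 1)).biUnion Bs).card : ℝ) + (Cs.card : ℝ) := by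
    have h2 := Finset.card_le_card hcover
    have h3 := Finset.card_union_le (A ∪ (Finset.Icc 1 (2 * H + 1)).biUnion Bs) Cs
    have h4 := Finset.card_union_le A ((Finset.Icc 1 (2 * H + 1)).biUnion Bs)
    have h5 := h2.trans (h3.trans (Nat.add_le_add_right h4 _))
    exact_mod_cast h5
  refine h1.trans ?_
  have hNp : (0 : ℝ) < N ^ (2 * r) := by positivity
  have hA2 : (A.card : ℝ) ≤ 1 / N * N ^ (2 * r) := by
    rw [one_div, inv_mul_eq_div, le_div_iff₀ hN0]; exact hAc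
  have hC2 : (Cs.card : ℝ) ≤ 2 * B / N * N ^ (2 * r) := by
    rw [div_mul_eq_mul_div, le_div_iff₀ hN0]; exact hCc
  have hG3 : 8 / (G : ℝ) ≤ δ / 2 := by
    rw [div_le_iff₀ hδ] at hGR
    rw [div_le_iff₀ hG0]; linarith
  have hN3 : (2 * B + 1) / N ≤ δ / 2 := by
    rw [div_le_iff₀ hδ] at hH3
    rw [div_le_iff₀ hN0, hN]
    nlinarith
  have hsum : 1 / N + 8 / G + 2 * B / N ≤ δ := by
    have : 1 / N + 2 * B / N = (2 * B + 1) / N := by ring
    linarith
  calc (A.card : ℝ) + (((Finset.Icc 1 (2 * H + 1)).biUnion Bs).card : ℝ) + (Cs.card : ℝ) ≤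
        1 / N * N ^ (2 * r) + 8 / G * N ^ (2 * r) + 2 * B / N * N ^ (2 * r) := by linarith
    _ = (1 / N + 8 / G + 2 * B / N) * N ^ (2 * r) := by ring
    _ ≤ δ * N ^ (2 * r) := mul_le_mul_of_nonneg_right hsum hNp.le

/-- LEMMA V. -/
theorem vec_count (r κ M₁ : ℕ) (hM₁ : 0 < M₁) (θ₁ : ℝ) (hθ₁ : 0 < θ₁) (δ : ℝ) (hδ : 0 < δ) :
    ∃ M₂ : ℕ, 0 < M₂ ∧ ∃ θ : ℝ, 0 < θ ∧ ∃ H₀ : ℕ, ∀ H : ℕ, H₀ ≤ H → ∀ w t t' : Fin r → ℤ,
      (∃ u : Fin r → ℤ, ∑ l, u l * w l = (M₁ : ℤ)) →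
      (∃ l, θ₁ * (2 * (H : ℝ) + 1) ^ κ ≤ |(w l : ℝ)|) →
      (∀ l, |(w l : ℝ)| ≤ (2 * (H : ℝ) + 1) ^ (κ + 1)) →
      (∀ l, |t l| ≤ H) → (∀ l, |t' l| ≤ H) →
      (((boxV H r ×ˢ boxV H r).filter (fun p =>
        ¬ ((∃ a b : ℤ, a * (∑ l, w l * (p.1 l - t l)) + b * (∑ l, w l * (p.2 l - t' l)) =
            (M₂ : ℤ)) ∧
          θ * (2 * (H : ℝ) + 1) ^ (κ + 1) ≤ |((∑ l, w l * (p.1 l - t l) : ℤ) : ℝ)|))).card : ℝ)
        ≤ δ * (2 * (H : ℝ) + 1) ^ (2 * r) := by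
  obtain ⟨M₂, hM₂, H₁, h1⟩ := vec_gcd r κ M₁ hM₁ (δ / 2) (by positivity)
  obtain ⟨θ, hθ, H₂, h2⟩ := vec_size r κ θ₁ hθ₁ (δ / 2) (by positivity)
  refine ⟨M₂, hM₂, θ, hθ, max H₁ H₂, ?_⟩
  intro H hH w t t' hu hlow hup ht ht'
  have k1 := h1 H ((le_max_left _ _).trans hH) w t t' hu hup ht ht'
  have k2 := h2 H ((le_max_right _ _).trans hH) w t hlow
  set N : ℝ := 2 * (H : ℝ) + 1 with hN
  have hsub : (boxV H r ×ˢ boxV H r).filter (fun p =>
        ¬ ((∃ a b : ℤ, a * (∑ l, w l * (p.1 l - t l)) + b * (∑ l, w l * (p.2 l - t' l)) =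
            (M₂ : ℤ)) ∧
          θ * N ^ (κ + 1) ≤ |((∑ l, w l * (p.1 l - t l) : ℤ) : ℝ)|)) ⊆
      ((boxV H r ×ˢ boxV H r).filter (fun p =>
        ¬ ∃ a b : ℤ, a * (∑ l, w l * (p.1 l - t l)) + b * (∑ l, w l * (p.2 l - t' l)) =
            (M₂ : ℤ))) ∪
      (((boxV H r).filter (fun X => ¬ θ * N ^ (κ + 1) ≤
        |((∑ l, w l * (X l - t l) : ℤ) : ℝ)|)) ×ˢ boxV H r) := by
    intro q hq
    rw [Finset.mem_filter] at hq
    obtain ⟨hqb, hqn⟩ := hq
    rw [Finset.mem_product] at hqb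
    simp only [Finset.mem_union, Finset.mem_filter, Finset.mem_product]
    by_cases h : ∃ a b : ℤ, a * (∑ l, w l * (q.1 l - t l)) + b * (∑ l, w l * (q.2 l - t' l)) =
            (M₂ : ℤ)
    · right
      exact ⟨⟨hqb.1, fun h' => hqn ⟨h, h'⟩⟩, hqb.2⟩
    · left
      exact ⟨hqb, h⟩
  have h3 := (Finset.card_le_card hsub).trans (Finset.card_union_le _ _)
  rw [Finset.card_product] at h3
  have h4 : (((boxV H r ×ˢ boxV H r).filter (fun p =>
        ¬ ((∃ a b : ℤ, a * (∑ l, w l * (p.1 l - t l)) + b * (∑ l, w l * (p.2 l - t' l)) =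
            (M₂ : ℤ)) ∧
          θ * N ^ (κ + 1) ≤ |((∑ l, w l * (p.1 l - t l) : ℤ) : ℝ)|))).card : ℝ) ≤
      (((boxV H r ×ˢ boxV H r).filter (fun p =>
        ¬ ∃ a b : ℤ, a * (∑ l, w l * (p.1 l - t l)) + b * (∑ l, w l * (p.2 l - t' l)) =
            (M₂ : ℤ))).card : ℝ) +
      (((boxV H r).filter (fun X => ¬ θ * N ^ (κ + 1) ≤
        |((∑ l, w l * (X l - t l) : ℤ) : ℝ)|)).card : ℝ) * (boxV H r).card := by
    have h5 := (Nat.cast_le (α := ℝ)).mpr h3
    rw [Nat.cast_add, Nat.cast_mul] at h5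
    exact h5
  rw [card_boxV, ← hN] at h4
  have h5 : (((boxV H r).filter (fun X => ¬ θ * N ^ (κ + 1) ≤
        |((∑ l, w l * (X l - t l) : ℤ) : ℝ)|)).card : ℝ) * N ^ r ≤
      δ / 2 * N ^ r * N ^ r := mul_le_mul_of_nonneg_right k2 (by positivity)
  have h6 : δ / 2 * N ^ r * N ^ r = δ / 2 * N ^ (2 * r) := by rw [two_mul, pow_add]; ring
  linarith

end MPd27c8d
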