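import Mathlib
import Pool.Agent.Lib.MP_d27c8d_nt.DenseDefs

/-!
Good matrices for the quadratic family.
-/

open Finset

namespace MPd27c8d

/-- Goodness of an `(r+2) × r` matrix with respect to all choices of signs. -/
def GoodQuad {r : ℕ} (C : Fin (r + 2) → Fin r → ℤ) (M : ℕ) (L : ℝ) : Prop :=
  ∀ s : Fin (r + 1) → ℤ, (∀ i, s i = 1 ∨ s i = -1) →
    (∀ k, ∃ w : Fin (r + 1) → ℤ,
      ∀ l, ∑ i, w i * (C i.succ l - s i * C 0 l) = if l = k then (M : ℤ) else 0) ∧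
    (∀ k, ∃ w : Fin (r + 1) → ℝ,
      (∀ l, ∑ i, w i * ((C i.succ l - s i * C 0 l : ℤ) : ℝ) = if l = k then 1 else 0) ∧
      (∑ i, |w i|) * L ≤ 1)

end MPd27c8d
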