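import Mathlib
import Pool.Agent.Lib.MP_d27c8d_nt.QuadDefs

/-!
From `StarGood` to `GoodMatrix` and `GoodQuad`.
-/

open Finset

namespace MPd27c8d

/-- The rows of the matrix generate, with bounded real coefficients. -/
def CoreGood {r : ℕ} (E : Fin (r + 1) → Fin r → ℤ) (M : ℕ) (L : ℝ) : Prop :=
  (∀ k, ∃ w : Fin (r + 1) → ℤ, ∀ l, ∑ i, w i * E i l = if l = k then (M : ℤ) else 0) ∧
  (∀ k, ∃ w : Fin (r + 1) → ℝ, (∀ l, ∑ i, w i * (E i l : ℝ) = if l = k then 1 else 0) ∧
    (∑ i, |w i|) * L ≤ 1)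

/-- All matrices formed by `r + 1` rows of `C` minus `±` other rows are good. -/
def StarGood {n r : ℕ} (C : Fin n → Fin r → ℤ) (M : ℕ) (L : ℝ) : Prop :=
  ∀ (s ρ : Fin (r + 1) → Fin n) (σ : Fin (r + 1) → ℤ), Function.Injective s →
    (∀ a b, ρ a ≠ s b) → (∀ a, σ a = 1 ∨ σ a = -1) →
    CoreGood (fun a l => C (s a) l - σ a * C (ρ a) l) M L

lemma StarGood.comp {n n' r : ℕ} {C : Fin n → Fin r → ℤ} {M : ℕ} {L : ℝ} (h : StarGood C M L)
    (e : Fin n' → Fin n) (he : Function.Injective e) : StarGood (fun i => C (e i)) M L := by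
  intro s ρ σ hs hρ hσ
  exact h (fun a => e (s a)) (fun a => e (ρ a)) σ (he.comp hs)
    (fun a b hab => hρ a b (he hab)) hσ

/-- Roots of colour classes. -/
lemma exists_color_roots (d r n : ℕ) (hn : d + r < n) (χ : Fin n → Fin d) :
    ∃ s ρ : Fin (r + 1) → Fin n, Function.Injective s ∧ (∀ a, χ (s a) = χ (ρ a)) ∧
      ∀ a b, ρ a ≠ s b := by
  classical
  have hroot : ∀ i : Fin n, ∃ j : Fin n, χ j = χ i := fun i => ⟨i, rfl⟩
  -- a root for each colour
  let root : Fin d → Fin n := fun c => if h : ∃ j, χ j = c then h.choose else ⟨0, by omega⟩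
  have hr : ∀ i, χ (root (χ i)) = χ i := by
    intro i
    have h : ∃ j, χ j = χ i := ⟨i, rfl⟩
    simp only [root]
    rw [dif_pos h]
    exact h.choose_spec
  let R : Finset (Fin n) := univ.image root
  have hR : R.card ≤ d := by
    refine Finset.card_image_le.trans ?_
    simp
  have hc : r + 1 ≤ (univ \ R).card := by
    have h1 : (univ \ R).card = n - R.card := by
      rw [Finset.card_sdiff_of_subset (Finset.subset_univ _), Finset.card_univ, Fintype.card_fin]
    omega
  obtain ⟨T, hTS, hT⟩ := Finset.exists_subset_card_eq hc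
  let e := (T.equivFinOfCardEq hT).symm
  refine ⟨fun a => (e a : Fin n), fun a => root (χ (e a)), ?_, ?_, ?_⟩
  · intro a b hab
    exact e.injective (Subtype.ext hab)
  · intro a
    exact (hr _).symm
  · intro a b hab
    have h1 := Finset.mem_sdiff.mp (hTS (e b).2)
    apply h1.2
    have h2 : root (χ (e a : Fin n)) = (e b : Fin n) := hab
    rw [← h2]
    exact Finset.mem_image_of_mem _ (mem_univ _)

lemma sum_pair {F : Type*} [CommRing F] {n m : ℕ} (s ρ : Fin m → Fin n) (w : Fin m → F)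
    (g : Fin n → Fin n → F) :
    ∑ i, ∑ j, (∑ a, if i = s a ∧ j = ρ a then w a else 0) * g i j = ∑ a, w a * g (s a) (ρ a) := by
  classical
  have h1 : ∀ i j, (∑ a, if i = s a ∧ j = ρ a then w a else 0) * g i j =
      ∑ a, if i = s a ∧ j = ρ a then w a * g i j else 0 := by
    intro i j
    rw [Finset.sum_mul]
    apply Finset.sum_congr rfl
    intro a _
    split_ifs <;> ring
  simp only [h1]
  rw [Finset.sum_congr rfl (fun i _ => Finset.sum_comm), Finset.sum_comm]
  apply Finset.sum_congr rfl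
  intro a _
  rw [Finset.sum_eq_single (s a), Finset.sum_eq_single (ρ a)]
  · simp
  · intro j _ hj
    rw [if_neg (fun h => hj h.2)]
  · intro h; exact absurd (mem_univ _) h
  · intro i _ hi
    apply Finset.sum_eq_zero
    intro j _
    rw [if_neg (fun h => hi h.1)]
  · intro h; exact absurd (mem_univ _) h

theorem StarGood.goodMatrix {n r : ℕ} {C : Fin n → Fin r → ℤ} {M : ℕ} {L : ℝ} (hL : 0 ≤ L)
    (h : StarGood C M L) (d : ℕ) (hn : d + r < n) : GoodMatrix d C M L := by
  classical
  intro χ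
  obtain ⟨s, ρ, hs, hχ, hρ⟩ := exists_color_roots d r n hn χ
  obtain ⟨h1, h2⟩ := h s ρ (fun _ => 1) hs hρ (fun _ => Or.inl rfl)
  have hsupp : ∀ {F : Type} [CommRing F] (w : Fin (r + 1) → F) (i j : Fin n), χ i ≠ χ j →
      (∑ a, if i = s a ∧ j = ρ a then w a else 0) = 0 := by
    intro F _ w i j hij
    apply Finset.sum_eq_zero
    intro a _
    rw [if_neg]
    rintro ⟨rfl, rfl⟩
    exact hij (hχ a)
  constructor
  · intro k
    obtain ⟨w, hw⟩ := h1 k
    refine ⟨fun i j => ∑ a, if i = s a ∧ j = ρ a then w a else 0, hsupp w, ?_⟩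
    intro l
    rw [sum_pair s ρ w (fun i j => C i l - C j l), ← hw l]
    apply Finset.sum_congr rfl
    intro a _
    simp only [one_mul]
  · intro k
    obtain ⟨w, hw, hwL⟩ := h2 k
    refine ⟨fun i j => ∑ a, if i = s a ∧ j = ρ a then w a else 0, hsupp w, ?_, ?_⟩
    · intro l
      rw [sum_pair s ρ w (fun i j => ((C i l - C j l : ℤ) : ℝ)), ← hw l]
      apply Finset.sum_congr rfl
      intro a _
      simp only [one_mul]
    · refine le_trans ?_ hwL
      apply mul_le_mul_of_nonneg_right _ hL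
      have h3 := sum_pair s ρ (fun a => |w a|) (fun _ _ => (1 : ℝ))
      simp only [mul_one] at h3
      rw [← h3]
      apply Finset.sum_le_sum
      intro i _
      apply Finset.sum_le_sum
      intro j _
      refine (Finset.abs_sum_le_sum_abs _ _).trans (Finset.sum_le_sum fun a _ => ?_)
      split_ifs
      · exact le_rfl
      · rw [abs_zero]

theorem StarGood.goodQuad {r : ℕ} {C : Fin (r + 2) → Fin r → ℤ} {M : ℕ} {L : ℝ}
    (h : StarGood C M L) : GoodQuad C M L := by
  intro s hs
  exact h Fin.succ (fun _ => 0) s (Fin.succ_injective _) (fun a b => (Fin.succ_ne_zero b).symm) hs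

end MPd27c8d
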