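import Mathlib
import Pool.Agent.Lib.MP_d27c8d_nt.CountV
import Pool.Agent.Lib.MP_d27c8d_nt.Star

/-!
Counting matrices: conditioning on rows and union bound.
-/

open Finset Classical

namespace MPd27c8d

lemma card_boxM (H n r : ℕ) : ((boxM H n r).card : ℝ) = (2 * (H : ℝ) + 1) ^ (n * r) := by
  rw [boxM, Fintype.card_piFinset]
  simp only [Finset.prod_const, Finset.card_univ, Fintype.card_fin]
  rw [Nat.cast_pow, card_boxV, ← pow_mul, mul_comm r n]

lemma mem_boxM {H n r : ℕ} {C : Fin n → Fin r → ℤ} : C ∈ boxM H n r ↔ ∀ i, C i ∈ boxV H r := by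
  rw [boxM, Fintype.mem_piFinset]

/-- Counting by a block of rows. -/
lemma block_count (H n m r : ℕ) (s : Fin m → Fin n) (hs : Function.Injective s)
    (P : (Fin n → Fin r → ℤ) → Prop) [DecidablePred P] (κ : ℝ)
    (hκ : ∀ C ∈ boxM H n r,
      (((boxM H m r).filter fun X => P (Function.extend s X C)).card : ℝ) ≤ κ) :
    (((boxM H n r).filter P).card : ℝ) * (2 * (H : ℝ) + 1) ^ (m * r) ≤
      κ * (2 * (H : ℝ) + 1) ^ (n * r) := by
  have hext : ∀ (X : Fin m → Fin r → ℤ) (C : Fin n → Fin r → ℤ) a,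
      Function.extend s X C (s a) = X a := fun X C a => hs.extend_apply X C a
  have hext' : ∀ (X : Fin m → Fin r → ℤ) (C : Fin n → Fin r → ℤ) i, (¬ ∃ a, s a = i) →
      Function.extend s X C i = C i := fun X C i h => Function.extend_apply' X C i h
  have h1 : ∑ p ∈ boxM H n r ×ˢ boxM H m r,
        (if P (Function.extend s p.2 p.1) then (1 : ℝ) else 0) =
      ∑ p ∈ boxM H n r ×ˢ boxM H m r, (if P p.1 then (1 : ℝ) else 0) := by
    have hmem : ∀ p ∈ boxM H n r ×ˢ boxM H m r,
        (Function.extend s p.2 p.1, fun a => p.1 (s a)) ∈ boxM H n r ×ˢ boxM H m r := by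
      intro p hp
      rw [Finset.mem_product, mem_boxM, mem_boxM] at hp ⊢
      refine ⟨fun i => ?_, fun a => hp.1 (s a)⟩
      by_cases hi : ∃ a, s a = i
      · obtain ⟨a, rfl⟩ := hi
        change Function.extend s p.2 p.1 (s a) ∈ _
        rw [hext]; exact hp.2 a
      · change Function.extend s p.2 p.1 i ∈ _
        rw [hext' _ _ _ hi]; exact hp.1 i
    have hinv : ∀ p : (Fin n → Fin r → ℤ) × (Fin m → Fin r → ℤ),
        (Function.extend s (fun a => p.1 (s a)) (Function.extend s p.2 p.1),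
          fun a => Function.extend s p.2 p.1 (s a)) = p := by
      intro p
      apply Prod.ext
      · funext i
        by_cases hi : ∃ a, s a = i
        · obtain ⟨a, rfl⟩ := hi
          change Function.extend s (fun a => p.1 (s a)) _ (s a) = _
          rw [hext]
        · change Function.extend s (fun a => p.1 (s a)) _ i = _
          rw [hext' _ _ _ hi, hext' _ _ _ hi]
      · funext a
        change Function.extend s p.2 p.1 (s a) = _
        rw [hext]
    apply Finset.sum_nbij' (fun p => (Function.extend s p.2 p.1, fun a => p.1 (s a)))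
      (fun p => (Function.extend s p.2 p.1, fun a => p.1 (s a))) hmem hmem
    · intro p _
      exact hinv p
    · intro p _
      exact hinv p
    · intro p _
      rfl
  have h2 : ∑ p ∈ boxM H n r ×ˢ boxM H m r, (if P p.1 then (1 : ℝ) else 0) =
      (((boxM H n r).filter P).card : ℝ) * (2 * (H : ℝ) + 1) ^ (m * r) := by
    rw [Finset.sum_product_right]
    rw [Finset.sum_congr rfl (fun a _ => Finset.sum_boole (fun x => P x) (boxM H n r)),
      Finset.sum_const, nsmul_eq_mul, card_boxM, mul_comm]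
  have h3 : ∑ p ∈ boxM H n r ×ˢ boxM H m r,
        (if P (Function.extend s p.2 p.1) then (1 : ℝ) else 0) ≤
      κ * (2 * (H : ℝ) + 1) ^ (n * r) := by
    rw [Finset.sum_product]
    calc ∑ C ∈ boxM H n r, ∑ X ∈ boxM H m r, (if P (Function.extend s X C) then (1 : ℝ) else 0) ≤
          ∑ _C ∈ boxM H n r, κ := by
          apply Finset.sum_le_sum
          intro C hC
          have := hκ C hC
          rw [Finset.sum_boole]
          exact this
      _ = κ * (2 * (H : ℝ) + 1) ^ (n * r) := by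
          rw [Finset.sum_const, nsmul_eq_mul, card_boxM, mul_comm]
  rw [← h2, ← h1]
  exact h3

/-- Statement of LEMMA W. -/
def MinorsCount : Prop := ∀ (r : ℕ) (δ : ℝ), 0 < δ →
    ∃ M : ℕ, 0 < M ∧ ∃ θ : ℝ, 0 < θ ∧ ∃ H₀ : ℕ, ∀ H : ℕ, H₀ ≤ H →
      ∀ t : Fin (r + 1) → Fin r → ℤ, (∀ i l, |t i l| ≤ H) →
      (((boxM H (r + 1) r).filter (fun X =>
        ¬ ((∃ u : Fin (r + 1) → ℤ, ∑ i, u i * minorRow (fun i l => X i l - t i l) i = (M : ℤ)) ∧
          ∃ i, θ * (2 * (H : ℝ) + 1) ^ r ≤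
            |((minorRow (fun i l => X i l - t i l) i : ℤ) : ℝ)|))).card : ℝ)
        ≤ δ * (2 * (H : ℝ) + 1) ^ ((r + 1) * r)

/-- Statement of LEMMA X. -/
def CoreOfMinors : Prop := ∀ (r : ℕ) (E : Fin (r + 1) → Fin r → ℤ) (M : ℕ) (N θ : ℝ), 0 < N →
    0 < θ → (∀ i l, |(E i l : ℝ)| ≤ N) →
    (∃ u : Fin (r + 1) → ℤ, ∑ i, u i * minorRow E i = (M : ℤ)) →
    (∃ i, θ * N ^ r ≤ |(minorRow E i : ℝ)|) →
    CoreGood E M (θ * N / (r.factorial : ℝ))

lemma CoreGood.mono {r : ℕ} {E : Fin (r + 1) → Fin r → ℤ} {M : ℕ} {L L' : ℝ} (h : L' ≤ L)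
    (hg : CoreGood E M L) : CoreGood E M L' := by
  refine ⟨hg.1, fun k => ?_⟩
  obtain ⟨w, hw, hwL⟩ := hg.2 k
  refine ⟨w, hw, le_trans ?_ hwL⟩
  exact mul_le_mul_of_nonneg_left h (Finset.sum_nonneg fun _ _ => abs_nonneg _)

theorem star_count_of (hW : MinorsCount) (hX : CoreOfMinors) (n r : ℕ) (B : ℝ) (δ : ℝ)
    (hδ : 0 < δ) :
    ∃ M : ℕ, 0 < M ∧ ∃ H₀ : ℕ, ∀ H : ℕ, H₀ ≤ H →
      (((boxM H n r).filter (fun C => ¬ StarGood C M (B * M))).card : ℝ) ≤
        δ * (2 * (H : ℝ) + 1) ^ (n * r) := by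
  set I : Finset (((Fin (r + 1) → Fin n) × (Fin (r + 1) → Fin n)) × (Fin (r + 1) → ℤ)) :=
    univ ×ˢ (Fintype.piFinset fun _ : Fin (r + 1) => ({1, -1} : Finset ℤ)) with hI
  have hIpos : (0 : ℝ) < (I.card : ℝ) + 1 := by positivity
  obtain ⟨M, hM, θ, hθ, H₁, hcount⟩ := hW r (δ / ((I.card : ℝ) + 1)) (by positivity)
  refine ⟨M, hM, max H₁ ⌈B * M * (r.factorial : ℝ) / θ⌉₊, ?_⟩
  intro H hH
  have hH1 : H₁ ≤ H := (le_max_left _ _).trans hH
  have hH2 : B * M * (r.factorial : ℝ) / θ ≤ (H : ℝ) :=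
    (Nat.le_ceil _).trans (by exact_mod_cast (le_max_right _ _).trans hH)
  set N : ℝ := 2 * (H : ℝ) + 1 with hN
  have hH0 : (0 : ℝ) ≤ H := Nat.cast_nonneg _
  have hN0 : 0 < N := by rw [hN]; linarith
  have hfac : (0 : ℝ) < (r.factorial : ℝ) := by exact_mod_cast Nat.factorial_pos r
  have hL : B * M ≤ θ * N / (r.factorial : ℝ) := by
    rw [le_div_iff₀ hfac]
    rw [div_le_iff₀ hθ] at hH2
    rw [hN]; nlinarith
  -- one triple
  have hone : ∀ p ∈ I, (((boxM H n r).filter (fun C =>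
      Function.Injective p.1.1 ∧ (∀ a b, p.1.2 a ≠ p.1.1 b) ∧
        ¬ CoreGood (fun a l => C (p.1.1 a) l - p.2 a * C (p.1.2 a) l) M (B * M))).card : ℝ) ≤
      δ / ((I.card : ℝ) + 1) * N ^ (n * r) := by
    rintro ⟨⟨s, ρ⟩, σ⟩ hp
    simp only
    by_cases hs : Function.Injective s ∧ ∀ a b, ρ a ≠ s b
    · obtain ⟨hs, hρ⟩ := hs
      have hσ : ∀ a, σ a = 1 ∨ σ a = -1 := by
        intro a
        rw [hI, Finset.mem_product, Fintype.mem_piFinset] at hp
        have := hp.2 a
        simpa using this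
      have key := block_count H n (r + 1) r s hs
        (fun C => Function.Injective s ∧ (∀ a b, ρ a ≠ s b) ∧
          ¬ CoreGood (fun a l => C (s a) l - σ a * C (ρ a) l) M (B * M))
        (δ / ((I.card : ℝ) + 1) * N ^ ((r + 1) * r)) (by
          intro C hC
          rw [mem_boxM] at hC
          have ht : ∀ (i : Fin (r + 1)) (l : Fin r), |σ i * C (ρ i) l| ≤ H := by
            intro i l
            rw [abs_mul]
            have h1 : |σ i| = 1 := by rcases hσ i with h | h <;> rw [h] <;> norm_num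
            rw [h1, one_mul]
            exact (mem_boxV.mp (hC (ρ i))) l
          refine le_trans ?_ (hcount H hH1 (fun a l => σ a * C (ρ a) l) ht)
          refine Nat.cast_le.mpr (Finset.card_le_card ?_)
          intro X hXm
          rw [Finset.mem_filter] at hXm ⊢
          refine ⟨hXm.1, fun hminor => hXm.2.2.2 ?_⟩
          have hXC : (fun a l => Function.extend s X C (s a) l -
              σ a * Function.extend s X C (ρ a) l) =
              fun a l => X a l - σ a * C (ρ a) l := by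
            funext a l
            rw [hs.extend_apply, Function.extend_apply' X C (ρ a)
              (by rintro ⟨b, hb⟩; exact hρ a b hb.symm)]
          rw [hXC]
          apply CoreGood.mono hL
          apply hX r _ M N θ hN0 hθ _ hminor.1 hminor.2
          intro i l
          have h1 : |X i l| ≤ (H : ℤ) := (mem_boxV.mp ((mem_boxM.mp hXm.1) i)) l
          have h2 := ht i l
          have h3 : |X i l - σ i * C (ρ i) l| ≤ 2 * (H : ℤ) := by
            rw [abs_le] at h1 h2 ⊢
            constructor <;> omega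
          have h4 : |((X i l - σ i * C (ρ i) l : ℤ) : ℝ)| ≤ 2 * (H : ℝ) := by
            rw [← Int.cast_abs]; exact_mod_cast h3
          rw [hN]; linarith)
      have hNp : (0 : ℝ) < N ^ ((r + 1) * r) := by positivity
      have h5 : (((boxM H n r).filter (fun C => Function.Injective s ∧ (∀ a b, ρ a ≠ s b) ∧
          ¬ CoreGood (fun a l => C (s a) l - σ a * C (ρ a) l) M (B * M))).card : ℝ) *
            N ^ ((r + 1) * r) ≤ (δ / ((I.card : ℝ) + 1) * N ^ (n * r)) * N ^ ((r + 1) * r) := by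
        refine key.trans (le_of_eq ?_)
        ring
      exact le_of_mul_le_mul_right h5 hNp
    · rw [Finset.filter_false_of_mem]
      · rw [Finset.card_empty, Nat.cast_zero]
        positivity
      · intro C _ hC
        exact hs ⟨hC.1, hC.2.1⟩
  -- union
  have hsub : (boxM H n r).filter (fun C => ¬ StarGood C M (B * M)) ⊆
      I.biUnion (fun p => (boxM H n r).filter (fun C =>
      Function.Injective p.1.1 ∧ (∀ a b, p.1.2 a ≠ p.1.1 b) ∧
        ¬ CoreGood (fun a l => C (p.1.1 a) l - p.2 a * C (p.1.2 a) l) M (B * M))) := by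
    intro C hC
    rw [Finset.mem_filter] at hC
    obtain ⟨hCb, hCn⟩ := hC
    rw [StarGood] at hCn
    push Not at hCn
    obtain ⟨s, ρ, σ, hs, hρ, hσ, hbad⟩ := hCn
    rw [Finset.mem_biUnion]
    refine ⟨((s, ρ), σ), ?_, ?_⟩
    · rw [hI, Finset.mem_product, Fintype.mem_piFinset]
      refine ⟨mem_univ _, fun a => ?_⟩
      simpa using hσ a
    · rw [Finset.mem_filter]
      exact ⟨hCb, hs, hρ, hbad⟩
  have h1 := (Finset.card_le_card hsub).trans Finset.card_biUnion_le
  have h2 : (((boxM H n r).filter (fun C => ¬ StarGood C M (B * M))).card : ℝ) ≤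
      ∑ p ∈ I, δ / ((I.card : ℝ) + 1) * N ^ (n * r) := by
    refine le_trans (Nat.cast_le.mpr h1) ?_
    rw [Nat.cast_sum]
    exact Finset.sum_le_sum hone
  refine h2.trans ?_
  rw [Finset.sum_const, nsmul_eq_mul]
  have h3 : (I.card : ℝ) * (δ / ((I.card : ℝ) + 1)) ≤ δ := by
    rw [mul_div_assoc', div_le_iff₀ hIpos]
    nlinarith
  have h4 : (0 : ℝ) ≤ N ^ (n * r) := by positivity
  calc (I.card : ℝ) * (δ / ((I.card : ℝ) + 1) * N ^ (n * r)) =
      ((I.card : ℝ) * (δ / ((I.card : ℝ) + 1))) * N ^ (n * r) := by ring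
    _ ≤ δ * N ^ (n * r) := mul_le_mul_of_nonneg_right h3 h4

end MPd27c8d
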