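import Mathlib
import Pool.Agent.Lib.MP_d27c8d_nt.CountG4
import Pool.Agent.Lib.MP_d27c8d_nt.CountY

/-!
Maximal minors of random matrices.
-/

open Finset Classical

namespace MPd27c8d

/-- Laplace expansion along the last row. -/
lemma det_last_row {r : ℕ} (A : Matrix (Fin (r + 1)) (Fin (r + 1)) ℤ) :
    A.det = ∑ j : Fin (r + 1), ((-1) ^ (r + (j : ℕ)) * minorRow (fun l a => A a.castSucc l) j) *
      A (Fin.last r) j := by
  rw [Matrix.det_succ_row A (Fin.last r)]
  apply Finset.sum_congr rfl
  intro j _
  have h1 : minorRow (fun l a => A a.castSucc l) j =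
      (A.submatrix (Fin.last r).succAbove j.succAbove).det := by
    rw [minorRow, ← Matrix.det_transpose]
    congr 1
    ext a b
    simp [Matrix.transpose_apply, Matrix.of_apply, Matrix.submatrix_apply, Fin.succAbove_last]
  rw [h1, Fin.val_last]
  ring

/-- The transpose of the first `r` rows. -/
def firstT {r : ℕ} (E : Fin (r + 2) → Fin (r + 1) → ℤ) : Fin (r + 1) → Fin r → ℤ :=
  fun l a => E a.castSucc.castSucc l

lemma minor_last {r : ℕ} (E : Fin (r + 2) → Fin (r + 1) → ℤ) :
    minorRow E (Fin.last (r + 1)) =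
      ∑ j : Fin (r + 1), ((-1) ^ (r + (j : ℕ)) * minorRow (firstT E) j) * E (Fin.last r).castSucc j := by
  rw [minorRow, det_last_row]
  apply Finset.sum_congr rfl
  intro j _
  simp only [Matrix.of_apply, Fin.succAbove_last]
  rfl

lemma minor_prev {r : ℕ} (E : Fin (r + 2) → Fin (r + 1) → ℤ) :
    minorRow E (Fin.last r).castSucc =
      ∑ j : Fin (r + 1), ((-1) ^ (r + (j : ℕ)) * minorRow (firstT E) j) * E (Fin.last (r + 1)) j := by
  rw [minorRow, det_last_row]
  have h1 : (Fin.last r).castSucc.succAbove (Fin.last r) = Fin.last (r + 1) := by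
    rw [Fin.succAbove_castSucc_self]; rfl
  have h2 : ∀ a : Fin r, (Fin.last r).castSucc.succAbove a.castSucc = a.castSucc.castSucc := by
    intro a
    rw [Fin.succAbove_of_castSucc_lt]
    rw [Fin.castSucc_lt_castSucc_iff]
    exact Fin.castSucc_lt_last a
  apply Finset.sum_congr rfl
  intro j _
  simp only [Matrix.of_apply, h1, h2]
  rfl

/-- The condition on the maximal minors. -/
def MinorGood {r : ℕ} (E : Fin (r + 1) → Fin r → ℤ) (M : ℕ) (L : ℝ) : Prop :=
  (∃ u : Fin (r + 1) → ℤ, ∑ i, u i * minorRow E i = (M : ℤ)) ∧ ∃ i, L ≤ |(minorRow E i : ℝ)|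

lemma minorRow_le {r : ℕ} (E : Fin (r + 1) → Fin r → ℤ) (x : ℝ)
    (hE : ∀ i l, |(E i l : ℝ)| ≤ x) (i : Fin (r + 1)) :
    |(minorRow E i : ℝ)| ≤ (r.factorial : ℝ) * x ^ r := by
  have h := Matrix.det_le (A := Matrix.of fun a b : Fin r => ((E (i.succAbove a) b : ℤ) : ℝ))
    (abv := AbsoluteValue.abs) (x := x) (by
      intro a b
      exact hE _ _)
  rw [Fintype.card_fin, nsmul_eq_mul] at h
  have h2 : (minorRow E i : ℝ) =
      (Matrix.of fun a b : Fin r => ((E (i.succAbove a) b : ℤ) : ℝ)).det := by
    exact RingHom.map_det (Int.castRingHom ℝ) (Matrix.of fun a b : Fin r => E (i.succAbove a) b)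
  rw [h2]
  exact h

/-- Transposition of boxes. -/
lemma card_transpose (H n r : ℕ) (P : (Fin n → Fin r → ℤ) → Prop) [DecidablePred P] :
    ((boxM H r n).filter fun Y => P (fun l a => Y a l)).card = ((boxM H n r).filter P).card := by
  apply Finset.card_bij' (fun Y _ => fun l a => Y a l) (fun X _ => fun a l => X l a)
  · intro Y hY
    rw [Finset.mem_filter] at hY ⊢
    obtain ⟨hY1, hY2⟩ := hY
    rw [mem_boxM] at hY1
    refine ⟨?_, hY2⟩
    rw [mem_boxM]
    intro i
    rw [mem_boxV]
    intro l
    exact (mem_boxV.mp (hY1 l)) i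
  · intro X hX
    rw [Finset.mem_filter] at hX ⊢
    obtain ⟨hX1, hX2⟩ := hX
    rw [mem_boxM] at hX1
    refine ⟨?_, hX2⟩
    rw [mem_boxM]
    intro i
    rw [mem_boxV]
    intro l
    exact (mem_boxV.mp (hX1 l)) i
  · intro Y _; rfl
  · intro X _; rfl

/-- The induction step for one value of the parameters. -/
lemma minors_step (r M₁ M₂ : ℕ) (θ₁ θ δ : ℝ) (H : ℕ) (hδ : 0 < δ)
    (hfac : r.factorial ≤ 2 * H + 1)
    (t : Fin (r + 2) → Fin (r + 1) → ℤ) (ht : ∀ i l, |t i l| ≤ H)
    (hIH : ∀ t : Fin (r + 1) → Fin r → ℤ, (∀ i l, |t i l| ≤ H) →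
      (((boxM H (r + 1) r).filter (fun X =>
        ¬ MinorGood (fun i l => X i l - t i l) M₁ (θ₁ * (2 * (H : ℝ) + 1) ^ r))).card : ℝ)
        ≤ δ / 2 * (2 * (H : ℝ) + 1) ^ ((r + 1) * r))
    (hvec : ∀ w t t' : Fin (r + 1) → ℤ,
      (∃ u : Fin (r + 1) → ℤ, ∑ l, u l * w l = (M₁ : ℤ)) →
      (∃ l, θ₁ * (2 * (H : ℝ) + 1) ^ r ≤ |(w l : ℝ)|) →
      (∀ l, |(w l : ℝ)| ≤ (2 * (H : ℝ) + 1) ^ (r + 1)) →
      (∀ l, |t l| ≤ H) → (∀ l, |t' l| ≤ H) →
      (((boxV H (r + 1) ×ˢ boxV H (r + 1)).filter (fun p =>
        ¬ ((∃ a b : ℤ, a * (∑ l, w l * (p.1 l - t l)) + b * (∑ l, w l * (p.2 l - t' l)) =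
            (M₂ : ℤ)) ∧
          θ * (2 * (H : ℝ) + 1) ^ (r + 1) ≤ |((∑ l, w l * (p.1 l - t l) : ℤ) : ℝ)|))).card : ℝ)
        ≤ δ / 2 * (2 * (H : ℝ) + 1) ^ (2 * (r + 1))) :
    (((boxM H (r + 2) (r + 1)).filter (fun X =>
        ¬ MinorGood (fun i l => X i l - t i l) M₂ (θ * (2 * (H : ℝ) + 1) ^ (r + 1)))).card : ℝ)
        ≤ δ * (2 * (H : ℝ) + 1) ^ ((r + 2) * (r + 1)) := by
  set N : ℝ := 2 * (H : ℝ) + 1 with hN
  have hH0 : (0 : ℝ) ≤ H := Nat.cast_nonneg _
  have hN0 : 0 < N := by rw [hN]; linarith
  -- goodness of the first rows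
  set F : (Fin (r + 2) → Fin (r + 1) → ℤ) → Prop := fun X =>
    MinorGood (firstT (fun i l => X i l - t i l)) M₁ (θ₁ * N ^ r) with hF
  -- part 1: the first rows are bad
  have hpart1 : (((boxM H (r + 2) (r + 1)).filter (fun X => ¬ F X)).card : ℝ) ≤
      δ / 2 * N ^ ((r + 2) * (r + 1)) := by
    have hs : Function.Injective (fun a : Fin r => (a.castSucc.castSucc : Fin (r + 2))) :=
      fun a b h => Fin.castSucc_injective _ (Fin.castSucc_injective _ h)
    have key := block_count H (r + 2) r (r + 1) (fun a => a.castSucc.castSucc) hs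
      (fun X => ¬ F X) (δ / 2 * N ^ ((r + 1) * r)) (by
        intro C _
        have h1 : ∀ Y : Fin r → Fin (r + 1) → ℤ,
            firstT (fun i l => Function.extend (fun a : Fin r => (a.castSucc.castSucc : Fin (r + 2)))
              Y C i l - t i l) = fun l a => (fun l a => Y a l) l a -
                (fun l a => t a.castSucc.castSucc l) l a := by
          intro Y
          funext l a
          rw [firstT, hs.extend_apply]
        have h2 := hIH (fun l a => t a.castSucc.castSucc l) (fun l a => ht _ _)
        rw [← card_transpose H (r + 1) r (fun X => ¬ MinorGood (fun i l => X i l -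
          (fun l a => t a.castSucc.castSucc l) i l) M₁ (θ₁ * N ^ r))] at h2
        refine le_trans (Nat.cast_le.mpr (Finset.card_le_card ?_)) h2
        intro Y hY
        rw [Finset.mem_filter] at hY ⊢
        refine ⟨hY.1, fun hg => hY.2 ?_⟩
        rw [hF]
        simp only
        rw [h1 Y]
        exact hg)
    rw [← hN] at key
    have h3 : (0 : ℝ) < N ^ (r * (r + 1)) := by positivity
    have h4 : (((boxM H (r + 2) (r + 1)).filter (fun X => ¬ F X)).card : ℝ) * N ^ (r * (r + 1)) ≤
        (δ / 2 * N ^ ((r + 2) * (r + 1))) * N ^ (r * (r + 1)) := by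
      refine key.trans (le_of_eq ?_)
      rw [mul_comm (r + 1) r]; ring
    exact le_of_mul_le_mul_right h4 h3
  -- part 2: the first rows are good
  have hpart2 : (((boxM H (r + 2) (r + 1)).filter (fun X => F X ∧
      ¬ MinorGood (fun i l => X i l - t i l) M₂ (θ * N ^ (r + 1)))).card : ℝ) ≤
      δ / 2 * N ^ ((r + 2) * (r + 1)) := by
    set s : Fin 2 → Fin (r + 2) := ![(Fin.last r).castSucc, Fin.last (r + 1)] with hs
    have hs0 : s 0 = (Fin.last r).castSucc := rfl
    have hs1 : s 1 = Fin.last (r + 1) := rfl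
    have hne : (Fin.last r).castSucc ≠ Fin.last (r + 1) := (Fin.castSucc_lt_last _).ne
    have hsi : Function.Injective s := by
      intro a b hab
      fin_cases a <;> fin_cases b
      · rfl
      · exact absurd hab hne
      · exact absurd hab.symm hne
      · rfl
    have hsr : ∀ a : Fin r, ¬ ∃ b, s b = (a.castSucc.castSucc : Fin (r + 2)) := by
      rintro a ⟨b, hb⟩
      fin_cases b
      · have h1 : (Fin.last r).castSucc = (a.castSucc.castSucc : Fin (r + 2)) := hb
        have h2 := Fin.castSucc_injective _ h1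
        exact (Fin.castSucc_lt_last a).ne h2.symm
      · have h1 : Fin.last (r + 1) = (a.castSucc.castSucc : Fin (r + 2)) := hb
        exact (Fin.castSucc_lt_last _).ne h1.symm
    have key := block_count H (r + 2) 2 (r + 1) s hsi
      (fun X => F X ∧ ¬ MinorGood (fun i l => X i l - t i l) M₂ (θ * N ^ (r + 1)))
      (δ / 2 * N ^ (2 * (r + 1))) (by
        intro C hC
        -- first rows do not change
        have hfirst : ∀ X : Fin 2 → Fin (r + 1) → ℤ,
            firstT (fun i l => Function.extend s X C i l - t i l) =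
              firstT (fun i l => C i l - t i l) := by
          intro X
          funext l a
          rw [firstT, firstT, Function.extend_apply' X C _ (hsr a)]
        by_cases hFC : F C
        · -- apply the vector lemma
          set w : Fin (r + 1) → ℤ := fun j =>
            (-1) ^ (r + (j : ℕ)) * minorRow (firstT (fun i l => C i l - t i l)) j with hw
          have hsq : ∀ j : Fin (r + 1), ((-1 : ℤ) ^ (r + (j : ℕ))) * (-1) ^ (r + (j : ℕ)) = 1 := by
            intro j
            rw [← pow_add, ← two_mul, pow_mul]; norm_num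
          have habs : ∀ j, |(w j : ℝ)| =
              |(minorRow (firstT (fun i l => C i l - t i l)) j : ℝ)| := by
            intro j
            rw [hw]
            push_cast
            rw [abs_mul, abs_pow, abs_neg, abs_one, one_pow, one_mul]
          obtain ⟨⟨u, hu⟩, ⟨l0, hl0⟩⟩ := hFC
          have h1 := hvec w (t (Fin.last r).castSucc) (t (Fin.last (r + 1)))
            ⟨fun j => (-1) ^ (r + (j : ℕ)) * u j, by
              rw [← hu]
              apply Finset.sum_congr rfl
              intro j _
              rw [hw]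
              have := hsq j
              linear_combination (u j * minorRow (firstT (fun i l => C i l - t i l)) j) * this⟩
            ⟨l0, by rw [habs]; exact hl0⟩
            (by
              intro l
              rw [habs]
              have hb := minorRow_le (firstT (fun i l => C i l - t i l)) N (by
                intro i a
                have h2 : |C a.castSucc.castSucc i| ≤ (H : ℤ) :=
                  (mem_boxV.mp ((mem_boxM.mp hC) _)) i
                have h3 := ht a.castSucc.castSucc i
                have h4 : |C a.castSucc.castSucc i - t a.castSucc.castSucc i| ≤ 2 * (H : ℤ) := by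
                  rw [abs_le] at h2 h3 ⊢
                  constructor <;> omega
                have h5 : |((C a.castSucc.castSucc i - t a.castSucc.castSucc i : ℤ) : ℝ)| ≤
                    2 * (H : ℝ) := by
                  rw [← Int.cast_abs]; exact_mod_cast h4
                change |((C a.castSucc.castSucc i - t a.castSucc.castSucc i : ℤ) : ℝ)| ≤ N
                rw [hN]; linarith) l
              refine hb.trans ?_
              rw [pow_succ' N r]
              apply mul_le_mul_of_nonneg_right _ (by positivity)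
              rw [hN]; exact_mod_cast hfac)
            (ht _) (ht _)
          refine le_trans (Nat.cast_le.mpr ?_) h1
          apply Finset.card_le_card_of_injOn (fun X => (X 0, X 1))
          · intro X hX
            rw [Finset.mem_coe, Finset.mem_filter] at hX ⊢
            obtain ⟨hXb, -, hXn⟩ := hX
            rw [mem_boxM] at hXb
            refine ⟨Finset.mem_product.mpr ⟨hXb 0, hXb 1⟩, ?_⟩
            rintro ⟨⟨a, b, hab⟩, hsize⟩
            apply hXn
            have e0 : Function.extend s X C (Fin.last r).castSucc = X 0 := hsi.extend_apply X C 0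
            have e1 : Function.extend s X C (Fin.last (r + 1)) = X 1 := hsi.extend_apply X C 1
            have m1 : minorRow (fun i l => Function.extend s X C i l - t i l)
                (Fin.last (r + 1)) = ∑ l, w l * (X 0 l - t (Fin.last r).castSucc l) := by
              rw [minor_last, hfirst, e0]
            have m2 : minorRow (fun i l => Function.extend s X C i l - t i l)
                (Fin.last r).castSucc = ∑ l, w l * (X 1 l - t (Fin.last (r + 1)) l) := by
              rw [minor_prev, hfirst, e1]
            refine ⟨⟨fun i => if i = Fin.last (r + 1) then a else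
              if i = (Fin.last r).castSucc then b else 0, ?_⟩, ⟨Fin.last (r + 1), ?_⟩⟩
            · rw [← hab, ← m1, ← m2]
              rw [← Finset.add_sum_erase _ _ (mem_univ (Fin.last (r + 1))),
                ← Finset.add_sum_erase _ _ (Finset.mem_erase.mpr ⟨hne, mem_univ _⟩)]
              beta_reduce
              rw [if_pos rfl, if_neg hne, if_pos rfl]
              rw [Finset.sum_eq_zero, add_zero]
              intro i hi
              rw [Finset.mem_erase, Finset.mem_erase] at hi
              rw [if_neg hi.2.1, if_neg hi.1, zero_mul]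
            · rw [m1]; exact hsize
          · intro X _ Y _ hXY
            have h2 := Prod.mk.inj hXY
            funext i
            fin_cases i
            · exact h2.1
            · exact h2.2
        · rw [Finset.filter_false_of_mem]
          · rw [Finset.card_empty, Nat.cast_zero]; positivity
          · intro X _ hX
            apply hFC
            have h1 := hX.1
            rw [hF] at h1 ⊢
            simp only at h1 ⊢
            rw [hfirst X] at h1
            exact h1)
    rw [← hN] at key
    have h3 : (0 : ℝ) < N ^ (2 * (r + 1)) := by positivity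
    have h4 : (((boxM H (r + 2) (r + 1)).filter (fun X => F X ∧
        ¬ MinorGood (fun i l => X i l - t i l) M₂ (θ * N ^ (r + 1)))).card : ℝ) *
          N ^ (2 * (r + 1)) ≤ (δ / 2 * N ^ ((r + 2) * (r + 1))) * N ^ (2 * (r + 1)) := by
      refine key.trans (le_of_eq ?_)
      ring
    exact le_of_mul_le_mul_right h4 h3
  -- union
  have hsub : (boxM H (r + 2) (r + 1)).filter (fun X =>
        ¬ MinorGood (fun i l => X i l - t i l) M₂ (θ * N ^ (r + 1))) ⊆
      (boxM H (r + 2) (r + 1)).filter (fun X => ¬ F X) ∪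
      (boxM H (r + 2) (r + 1)).filter (fun X => F X ∧
      ¬ MinorGood (fun i l => X i l - t i l) M₂ (θ * N ^ (r + 1))) := by
    intro X hX
    rw [Finset.mem_filter] at hX
    rw [Finset.mem_union, Finset.mem_filter, Finset.mem_filter]
    by_cases h : F X
    · exact Or.inr ⟨hX.1, h, hX.2⟩
    · exact Or.inl ⟨hX.1, h⟩
  have h1 := (Finset.card_le_card hsub).trans (Finset.card_union_le _ _)
  have h2 := (Nat.cast_le (α := ℝ)).mpr h1
  rw [Nat.cast_add] at h2
  linarith

/-- LEMMA W (maximal minors). -/
theorem minors_count' (r : ℕ) : ∀ (δ : ℝ), 0 < δ →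
    ∃ M : ℕ, 0 < M ∧ ∃ θ : ℝ, 0 < θ ∧ ∃ H₀ : ℕ, ∀ H : ℕ, H₀ ≤ H →
      ∀ t : Fin (r + 1) → Fin r → ℤ, (∀ i l, |t i l| ≤ H) →
      (((boxM H (r + 1) r).filter (fun X =>
        ¬ MinorGood (fun i l => X i l - t i l) M (θ * (2 * (H : ℝ) + 1) ^ r))).card : ℝ)
        ≤ δ * (2 * (H : ℝ) + 1) ^ ((r + 1) * r) := by
  induction r with
  | zero =>
    intro δ hδ
    refine ⟨1, one_pos, 1, one_pos, 0, ?_⟩
    intro H _ t _
    rw [Finset.filter_false_of_mem]
    · rw [Finset.card_empty, Nat.cast_zero]; positivity
    · intro X _ hX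
      apply hX
      have h1 : ∀ i, minorRow (fun i l => X i l - t i l) i = 1 := by
        intro i
        rw [minorRow, Matrix.det_fin_zero]
      refine ⟨⟨fun _ => 1, ?_⟩, ⟨0, ?_⟩⟩
      · simp [h1]
      · rw [h1]; simp
  | succ r ih =>
    intro δ hδ
    obtain ⟨M₁, hM₁, θ₁, hθ₁, H₁, h1⟩ := ih (δ / 2) (by positivity)
    obtain ⟨M₂, hM₂, θ, hθ, H₂, h2⟩ := vec_count (r + 1) r M₁ hM₁ θ₁ hθ₁ (δ / 2) (by positivity)
    refine ⟨M₂, hM₂, θ, hθ, max (max H₁ H₂) r.factorial, ?_⟩
    intro H hH t ht
    have hH1 : H₁ ≤ H := ((le_max_left _ _).trans (le_max_left _ _)).trans hH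
    have hH2 : H₂ ≤ H := ((le_max_right _ _).trans (le_max_left _ _)).trans hH
    have hH3 : r.factorial ≤ H := (le_max_right _ _).trans hH
    exact minors_step r M₁ M₂ θ₁ θ δ H hδ (by omega) t ht (h1 H hH1) (h2 H hH2)

theorem minorsCount : MinorsCount := by
  intro r δ hδ
  obtain ⟨M, hM, θ, hθ, H₀, h⟩ := minors_count' r δ hδ
  refine ⟨M, hM, θ, hθ, H₀, fun H hH t ht =>
    le_trans (Nat.cast_le.mpr (Finset.card_le_card ?_)) (h H hH t ht)⟩
  intro X hX
  rw [Finset.mem_filter] at hX ⊢
  exact hX

end MPd27c8d
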