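import Mathlib
import Pool.Agent.Lib.MP_d27c8d_nt.DenseDefs

/-!
Rows of a matrix and Cramer's rule (written by helper84).
-/

open Finset Classical

namespace MPd27c8d

/-- Row `k` of the adjugate of the submatrix omitting row `i`, extended by zero. -/
noncomputable def adjW {r : ℕ} (E : Fin (r + 1) → Fin r → ℤ) (i : Fin (r + 1)) (k : Fin r) :
    Fin (r + 1) → ℤ :=
  Fin.insertNth (α := fun _ => ℤ) i 0
    (fun a => Matrix.adjugate (Matrix.of fun a b : Fin r => E (i.succAbove a) b) k a)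

theorem adjW_sum {r : ℕ} (E : Fin (r + 1) → Fin r → ℤ) (i : Fin (r + 1)) (k l : Fin r) :
    ∑ j, adjW E i k j * E j l = if l = k then minorRow E i else 0 := by
  rw [Fin.sum_univ_succAbove _ i]
  have h0 : adjW E i k i = 0 := by simp [adjW]
  have h1 : ∀ a : Fin r, adjW E i k (i.succAbove a) =
      Matrix.adjugate (Matrix.of fun a b : Fin r => E (i.succAbove a) b) k a := by
    intro a
    simp [adjW]
  rw [h0, zero_mul, zero_add]
  simp only [h1]
  have h2 := congrFun (congrFun
    (Matrix.adjugate_mul (Matrix.of fun a b : Fin r => E (i.succAbove a) b)) k) l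
  rw [Matrix.mul_apply] at h2
  simp only [Matrix.of_apply, Matrix.smul_apply, smul_eq_mul, Matrix.one_apply] at h2
  rw [h2]
  unfold minorRow
  by_cases hlk : l = k
  · subst hlk; simp
  · rw [if_neg hlk, if_neg (fun h => hlk h.symm), mul_zero]

theorem adjW_bound {r : ℕ} (E : Fin (r + 1) → Fin r → ℤ) (N : ℝ) (hN : 0 < N)
    (hE : ∀ i l, |(E i l : ℝ)| ≤ N) (i : Fin (r + 1)) (k : Fin r) :
    ∑ j, |(adjW E i k j : ℝ)| ≤ (r.factorial : ℝ) * N ^ (r - 1) := by
  rw [Fin.sum_univ_succAbove _ i]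
  have h0 : adjW E i k i = 0 := by simp [adjW]
  rw [h0, Int.cast_zero, abs_zero, zero_add]
  obtain _ | s := r
  · exact k.elim0
  have h1 : ∀ a : Fin (s + 1), |(adjW E i k (i.succAbove a) : ℝ)| ≤ (s.factorial : ℝ) * N ^ s := by
    intro a
    have h2 : adjW E i k (i.succAbove a) =
        Matrix.adjugate (Matrix.of fun a b : Fin (s + 1) => E (i.succAbove a) b) k a := by
      simp [adjW]
    rw [h2, Matrix.adjugate_fin_succ_eq_det_submatrix]
    push_cast
    rw [abs_mul, abs_pow, abs_neg, abs_one, one_pow, one_mul]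
    have h4 := Matrix.det_le (abv := (AbsoluteValue.abs : AbsoluteValue ℝ ℝ)) (x := N)
      (A := ((Matrix.of fun a b : Fin (s + 1) =>
          E (i.succAbove a) b).submatrix a.succAbove k.succAbove).map fun x => (x : ℝ))
      (fun a b => by simpa using hE _ _)
    simpa using h4
  calc ∑ a, |(adjW E i k (i.succAbove a) : ℝ)| ≤ ∑ _a : Fin (s + 1), (s.factorial : ℝ) * N ^ s :=
        Finset.sum_le_sum fun a _ => h1 a
    _ = ((s + 1).factorial : ℝ) * N ^ (s + 1 - 1) := by
        rw [Finset.sum_const, Finset.card_univ, Fintype.card_fin, nsmul_eq_mul,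
          Nat.factorial_succ]
        push_cast
        ring

/-- LEMMA X (Cramer). -/
theorem core_of_minors (r : ℕ) (E : Fin (r + 1) → Fin r → ℤ) (M : ℕ) (N θ : ℝ) (hN : 0 < N)
    (hθ : 0 < θ) (hE : ∀ i l, |(E i l : ℝ)| ≤ N)
    (h1 : ∃ u : Fin (r + 1) → ℤ, ∑ i, u i * minorRow E i = (M : ℤ))
    (h2 : ∃ i, θ * N ^ r ≤ |(minorRow E i : ℝ)|) :
    (∀ k, ∃ w : Fin (r + 1) → ℤ, ∀ l, ∑ i, w i * E i l = if l = k then (M : ℤ) else 0) ∧
    (∀ k, ∃ w : Fin (r + 1) → ℝ, (∀ l, ∑ i, w i * (E i l : ℝ) = if l = k then 1 else 0) ∧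
      (∑ i, |w i|) * (θ * N / (r.factorial : ℝ)) ≤ 1) := by
  constructor
  · intro k
    obtain ⟨u, hu⟩ := h1
    refine ⟨fun j => ∑ i, u i * adjW E i k j, fun l => ?_⟩
    have h3 : ∑ j, (∑ i, u i * adjW E i k j) * E j l =
        ∑ i, u i * ∑ j, adjW E i k j * E j l := by
      simp only [Finset.sum_mul, Finset.mul_sum]
      rw [Finset.sum_comm]
      exact Finset.sum_congr rfl fun i _ => Finset.sum_congr rfl fun j _ => by ring
    rw [h3]
    simp only [adjW_sum]
    by_cases hlk : l = k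
    · simp only [if_pos hlk, hu]
    · simp [hlk]
  · intro k
    obtain ⟨i, hi⟩ := h2
    have hpos : 0 < |(minorRow E i : ℝ)| := lt_of_lt_of_le (by positivity) hi
    have hne : (minorRow E i : ℝ) ≠ 0 := abs_pos.1 hpos
    refine ⟨fun j => (adjW E i k j : ℝ) / (minorRow E i : ℝ), fun l => ?_, ?_⟩
    · have h3 : ∑ j, (adjW E i k j : ℝ) / (minorRow E i : ℝ) * (E j l : ℝ) =
          ((∑ j, adjW E i k j * E j l : ℤ) : ℝ) / (minorRow E i : ℝ) := by
        push_cast
        rw [Finset.sum_div]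
        exact Finset.sum_congr rfl fun j _ => by ring
      rw [h3, adjW_sum]
      by_cases hlk : l = k
      · simp only [if_pos hlk]
        exact div_self hne
      · simp [hlk]
    · have h4 : ∑ j, |(adjW E i k j : ℝ) / (minorRow E i : ℝ)| =
          (∑ j, |(adjW E i k j : ℝ)|) / |(minorRow E i : ℝ)| := by
        rw [Finset.sum_div]
        exact Finset.sum_congr rfl fun j _ => abs_div _ _
      rw [h4]
      have hr : 0 < r := Nat.pos_of_ne_zero (by rintro rfl; exact k.elim0)
      have hfac : (0 : ℝ) < (r.factorial : ℝ) := by exact_mod_cast r.factorial_pos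
      have h5 := adjW_bound E N hN hE i k
      have hpow : N ^ r = N ^ (r - 1) * N := by
        rw [← pow_succ, Nat.sub_add_cancel hr]
      rw [div_mul_div_comm, div_le_one (by positivity)]
      calc (∑ j, |(adjW E i k j : ℝ)|) * (θ * N)
          ≤ ((r.factorial : ℝ) * N ^ (r - 1)) * (θ * N) :=
            mul_le_mul_of_nonneg_right h5 (by positivity)
        _ = (θ * N ^ r) * (r.factorial : ℝ) := by rw [hpow]; ring
        _ ≤ |(minorRow E i : ℝ)| * (r.factorial : ℝ) :=
            mul_le_mul_of_nonneg_right hi hfac.le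

end MPd27c8d
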