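import Mathlib
import Pool.Agent.Lib.MP_d27c8d_nt.Apply

/-!
Polynomial progressions.
-/

open Polynomial Finset NumberField Height Real Filter Topology

namespace MPd27c8d

/-- Pigeonhole: among more than `d * m` points coloured with `d` colours, `m + 1` have the same
colour. -/
lemma mono_block (n d m : ℕ) (h : d * m < n) (χ : Fin n → Fin d) :
    ∃ e : Fin (m + 1) → Fin n, Function.Injective e ∧ ∀ i j, χ (e i) = χ (e j) := by
  classical
  obtain ⟨c, hc⟩ := Fintype.exists_lt_card_fiber_of_mul_lt_card χ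
    (n := m) (by rw [Fintype.card_fin, Fintype.card_fin]; exact h)
  obtain ⟨T, hTS, hT⟩ := Finset.exists_subset_card_eq
    (s := (univ : Finset (Fin n)).filter (fun x => χ x = c)) (n := m + 1) (by omega)
  let e := (T.equivFinOfCardEq hT).symm
  refine ⟨fun i => (e i : Fin n), ?_, ?_⟩
  · intro i j hij
    exact e.injective (Subtype.ext hij)
  · intro i j
    have h1 := (Finset.mem_filter.mp (hTS (e i).2)).2
    have h2 := (Finset.mem_filter.mp (hTS (e j).2)).2
    rw [h1, h2]

/-- Archimedean Lagrange interpolation. -/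
lemma lagr_arch {L : Type*} [Field L] (v : AbsoluteValue L ℝ) (g : L[X]) (m : ℕ)
    (hg : g.natDegree = m) (hm : 1 ≤ m) (u : Fin (m + 1) → L) (hu : Function.Injective u)
    (w : L) (ρ q : ℝ) (hq : 1 ≤ q) (hρ : ∀ j, v (g.eval (u j) - w) ≤ ρ)
    (hq2 : ∀ i j, i ≠ j → q ≤ v (u i - u j)) :
    v g.leadingCoeff ≤ (m + 1) * ρ / q := by
  classical
  have hP : (g - C w).degree < ((univ : Finset (Fin (m + 1))).card : ℕ) := by
    rw [Finset.card_univ, Fintype.card_fin]
    apply lt_of_le_of_lt (Polynomial.degree_sub_le g (C w))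
    rw [max_lt_iff]
    constructor
    · apply lt_of_le_of_lt Polynomial.degree_le_natDegree
      rw [hg]; exact_mod_cast Nat.lt_succ_self m
    · apply lt_of_le_of_lt Polynomial.degree_C_le
      exact_mod_cast Nat.succ_pos m
  have h := Lagrange.coeff_eq_sum (s := (univ : Finset (Fin (m + 1)))) (v := u)
    (hu.injOn) hP
  rw [Finset.card_univ, Fintype.card_fin, Nat.add_sub_cancel, coeff_sub, coeff_C,
    if_neg (by omega), sub_zero] at h
  have hlc : g.coeff m = g.leadingCoeff := by rw [← hg]; rfl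
  rw [hlc] at h
  have hρ0 : 0 ≤ ρ := (v.nonneg _).trans (hρ 0)
  rw [h]
  refine (v.sum_le _ _).trans ?_
  have hterm : ∀ i ∈ (univ : Finset (Fin (m + 1))),
      v ((g - C w).eval (u i) / ∏ j ∈ univ.erase i, (u i - u j)) ≤ ρ / q := by
    intro i _
    rw [map_div₀, map_prod, eval_sub, eval_C]
    have h1 : q ≤ ∏ j ∈ univ.erase i, v (u i - u j) := by
      have h2 : q ^ m ≤ ∏ j ∈ univ.erase i, v (u i - u j) := by
        have h3 : q ^ m = ∏ j ∈ univ.erase i, q := by
          rw [Finset.prod_const, Finset.card_erase_of_mem (Finset.mem_univ _), Finset.card_univ,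
            Fintype.card_fin, Nat.add_sub_cancel]
        rw [h3]
        apply Finset.prod_le_prod
        · intro _ _; linarith
        · intro j hj
          exact hq2 i j (Finset.ne_of_mem_erase hj).symm
      exact (le_self_pow₀ hq (by omega)).trans h2
    have hq0 : 0 < q := by linarith
    exact div_le_div₀ hρ0 (hρ i) hq0 h1
  refine (Finset.sum_le_sum hterm).trans (le_of_eq ?_)
  rw [Finset.sum_const, Finset.card_univ, Fintype.card_fin, nsmul_eq_mul]
  push_cast; ring

/-- The nodes `0, 1, ..., r d` and `0, q, 2 q, ..., r d q`. -/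
def nodeVal (n q : ℕ) (i : Fin ((n + 1) + (n + 1))) : ℕ :=
  Fin.append (fun i : Fin (n + 1) => (i : ℕ)) (fun i : Fin (n + 1) => q * (i : ℕ)) i

lemma nodeVal_left (n q : ℕ) (i : Fin (n + 1)) :
    nodeVal n q (Fin.castAdd (n + 1) i) = (i : ℕ) := by
  rw [nodeVal, Fin.append_left]

lemma nodeVal_right (n q : ℕ) (i : Fin (n + 1)) :
    nodeVal n q (Fin.natAdd (n + 1) i) = q * (i : ℕ) := by
  rw [nodeVal, Fin.append_right]

variable {K : Type*} [Field K] [NumberField K]

/-- Polynomial progressions over a number field. -/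
theorem prog_K (f : K[X]) (φ : K →+* Qbar) (d r : ℕ) (hd : f.natDegree = d) (hd2 : 2 ≤ d)
    (g : K[X]) (hg1 : 1 ≤ g.natDegree) (hgr : g.natDegree ≤ r) :
    log 2 ≤ 2 * ∑ i : Fin ((r * d + 1) + (r * d + 1)), canonicalHeight (f.map φ)
      (φ (g.eval ((nodeVal (r * d) (16 * (r + 1) * ((r * d).factorial) ^ r) i : ℕ) : K))) := by
  set n := r * d with hn
  set M := (n.factorial) ^ r with hM
  set q := 16 * (r + 1) * M with hq
  have hM0 : M ≠ 0 := pow_ne_zero _ (Nat.factorial_ne_zero _)
  have hM1 : 1 ≤ M := Nat.one_le_iff_ne_zero.mpr hM0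
  have hq1 : 1 ≤ q := by
    rw [hq]; exact Nat.one_le_iff_ne_zero.mpr (by positivity)
  set b := g.leadingCoeff with hb
  have hb0 : b ≠ 0 := by
    rw [hb, Ne, leadingCoeff_eq_zero]; rintro rfl; simp at hg1
  have hm : d * g.natDegree < n + 1 := by
    rw [hn]
    have : d * g.natDegree ≤ d * r := Nat.mul_le_mul_left d hgr
    rw [mul_comm r d]; omega
  have hr0 : (0 : ℝ) < (r : ℝ) + 1 := by positivity
  have h := K_bound f φ d hd hd2 ((n + 1) + (n + 1))
    (fun i => g.eval ((nodeVal n q i : ℕ) : K)) b hb0 M hM0 ((q : ℝ) / (r + 1)) (by positivity)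
    ?_ ?_
  · have h2 : (q : ℝ) / (r + 1) / (8 * M) = 2 := by
      rw [hq]; push_cast; field_simp; norm_num
    rw [h2] at h
    exact h
  · intro v χ ρ hχ
    obtain ⟨e, he, hmono⟩ := mono_block (n + 1) d g.natDegree hm
      (fun i => χ (Fin.castAdd (n + 1) i))
    have hv : IsNonarchimedean v.val := fun x y => FinitePlace.add_le v x y
    obtain ⟨j, hj⟩ := lagr_step v.val hv g g.natDegree rfl hg1
      (fun i => (((e i : Fin (n + 1)) : ℕ) : K)) (by
        intro i j hij
        apply he; apply Fin.ext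
        have hij' : (((e i : Fin (n + 1)) : ℕ) : K) = (((e j : Fin (n + 1)) : ℕ) : K) := hij
        exact_mod_cast hij') (g.eval (((e 0 : Fin (n + 1)) : ℕ) : K))
    have h1 : v (g.eval (((e j : Fin (n + 1)) : ℕ) : K) -
        g.eval (((e 0 : Fin (n + 1)) : ℕ) : K)) ≤ ρ := by
      have := hχ (Fin.castAdd (n + 1) (e j)) (Fin.castAdd (n + 1) (e 0)) (hmono j 0)
      rwa [nodeVal_left, nodeVal_left] at this
    refine le_trans ?_ (hj.trans h1)
    apply mul_le_mul_of_nonneg_left _ (v.val.nonneg _)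
    -- `v M ≤ ∏ ...`
    have hfac : ∀ k ∈ univ.erase j, v ((n.factorial : ℕ) : K) ≤
        v.val ((((e j : Fin (n + 1)) : ℕ) : K) - (((e k : Fin (n + 1)) : ℕ) : K)) := by
      intro k hk
      have hne : e j ≠ e k := fun h => (Finset.ne_of_mem_erase hk) (he h).symm
      have hdvd : (((e j : Fin (n + 1)) : ℕ) : ℤ) - (((e k : Fin (n + 1)) : ℕ) : ℤ) ∣
          ((n.factorial : ℕ) : ℤ) := by
        rw [← Int.natAbs_dvd_natAbs]
        apply Nat.dvd_factorial
        · rw [Int.natAbs_pos]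
          intro h0
          apply hne; apply Fin.ext; omega
        · have h1 := (e j).2
          have h2 := (e k).2
          omega
      obtain ⟨t, ht⟩ := hdvd
      have h2 : ((n.factorial : ℕ) : K) = ((((e j : Fin (n + 1)) : ℕ) : K) -
          (((e k : Fin (n + 1)) : ℕ) : K)) * (t : K) := by
        have := congrArg (fun a : ℤ => (a : K)) ht
        push_cast at this
        exact this
      rw [h2, map_mul]
      exact mul_le_of_le_one_right (v.val.nonneg _) (fin_int_le_one v t)
    have h3 : v ((n.factorial : ℕ) : K) ^ g.natDegree ≤ ∏ k ∈ univ.erase j,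
        v.val ((((e j : Fin (n + 1)) : ℕ) : K) - (((e k : Fin (n + 1)) : ℕ) : K)) := by
      have h4 : v ((n.factorial : ℕ) : K) ^ g.natDegree =
          ∏ k ∈ univ.erase j, v ((n.factorial : ℕ) : K) := by
        rw [Finset.prod_const, Finset.card_erase_of_mem (Finset.mem_univ _), Finset.card_univ,
          Fintype.card_fin, Nat.add_sub_cancel]
      rw [h4]
      exact Finset.prod_le_prod (fun _ _ => apply_nonneg v _) hfac
    refine le_trans ?_ h3
    rw [hM, Nat.cast_pow, map_pow]
    apply pow_le_pow_of_le_one (apply_nonneg v _) _ hgr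
    have := fin_int_le_one v ((n.factorial : ℕ) : ℤ)
    exact_mod_cast this
  · intro v χ ρ hχ
    obtain ⟨e, he, hmono⟩ := mono_block (n + 1) d g.natDegree hm
      (fun i => χ (Fin.natAdd (n + 1) i))
    have hint : ∀ k : ℤ, v (k : K) = |(k : ℝ)| := by
      intro k
      rw [← InfinitePlace.norm_embedding_eq, map_intCast, Complex.norm_intCast]
    have hdiff : ∀ i j, i ≠ j → (q : ℝ) ≤ v.val (((q * ((e i : Fin (n + 1)) : ℕ) : ℕ) : K) -
        ((q * ((e j : Fin (n + 1)) : ℕ) : ℕ) : K)) := by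
      intro i j hij
      have h1 : (((q * ((e i : Fin (n + 1)) : ℕ) : ℕ) : K) -
        ((q * ((e j : Fin (n + 1)) : ℕ) : ℕ) : K)) =
        (((q : ℤ) * ((((e i : Fin (n + 1)) : ℕ) : ℤ) - (((e j : Fin (n + 1)) : ℕ) : ℤ)) : ℤ) :
          K) := by push_cast; ring
      rw [h1]
      have h2 := hint ((q : ℤ) * ((((e i : Fin (n + 1)) : ℕ) : ℤ) -
        (((e j : Fin (n + 1)) : ℕ) : ℤ)))
      have h3 : v.val (((q : ℤ) * ((((e i : Fin (n + 1)) : ℕ) : ℤ) -
        (((e j : Fin (n + 1)) : ℕ) : ℤ)) : ℤ) : K) = _ := h2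
      rw [h3, Int.cast_mul, abs_mul]
      have h4 : (1 : ℝ) ≤ |(((((e i : Fin (n + 1)) : ℕ) : ℤ) -
        (((e j : Fin (n + 1)) : ℕ) : ℤ) : ℤ) : ℝ)| := by
        have hne : e i ≠ e j := fun h => hij (he h)
        have h5 : (((e i : Fin (n + 1)) : ℕ) : ℤ) - (((e j : Fin (n + 1)) : ℕ) : ℤ) ≠ 0 := by
          intro h0
          apply hne; apply Fin.ext; omega
        have h6 := Int.one_le_abs h5
        exact_mod_cast h6
      have h7 : |((q : ℤ) : ℝ)| = (q : ℝ) := by simp
      rw [h7]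
      have h8 : (0 : ℝ) ≤ (q : ℝ) := Nat.cast_nonneg _
      nlinarith
    have h1 := lagr_arch v.val g g.natDegree rfl hg1
      (fun i => ((q * ((e i : Fin (n + 1)) : ℕ) : ℕ) : K)) (by
        intro i j hij
        apply he; apply Fin.ext
        have hij' : ((q * ((e i : Fin (n + 1)) : ℕ) : ℕ) : K) =
          ((q * ((e j : Fin (n + 1)) : ℕ) : ℕ) : K) := hij
        have h2 : q * ((e i : Fin (n + 1)) : ℕ) = q * ((e j : Fin (n + 1)) : ℕ) := by
          exact_mod_cast hij'
        exact Nat.eq_of_mul_eq_mul_left (by omega) h2)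
      (g.eval (((q * ((e 0 : Fin (n + 1)) : ℕ) : ℕ) : K))) ρ q (by exact_mod_cast hq1) (by
        intro j
        have := hχ (Fin.natAdd (n + 1) (e j)) (Fin.natAdd (n + 1) (e 0)) (hmono j 0)
        rwa [nodeVal_right, nodeVal_right] at this) hdiff
    have hρ0 : 0 ≤ ρ := by
      have := hχ (Fin.natAdd (n + 1) (e 0)) (Fin.natAdd (n + 1) (e 0)) rfl
      rwa [sub_self, map_zero] at this
    have hq0 : (0 : ℝ) < q := by exact_mod_cast (by omega : 0 < q)
    have h2 : v b ≤ (g.natDegree + 1) * ρ / q := h1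
    have h3 : ((g.natDegree : ℝ) + 1) ≤ r + 1 := by
      have : (g.natDegree : ℝ) ≤ r := by exact_mod_cast hgr
      linarith
    calc v b * (q / (r + 1)) ≤ ((g.natDegree + 1) * ρ / q) * (q / (r + 1)) := by gcongr
      _ = ((g.natDegree + 1) / (r + 1)) * ρ := by field_simp
      _ ≤ 1 * ρ := by
        apply mul_le_mul_of_nonneg_right _ hρ0
        rw [div_le_one hr0]; exact h3
      _ = ρ := one_mul ρ

end MPd27c8d
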