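import Mathlib
import Pool.Agent.Lib.MP_d27c8d_nt.Prog

/-!
Polynomial progressions over the algebraic numbers.
-/

open Polynomial Finset NumberField Height Real Filter Topology

namespace MPd27c8d

/-- Sums over the nodes are at most twice the sum over an initial segment. -/
lemma sum_nodeVal_le (n q : ℕ) (hq : 1 ≤ q) (F : ℕ → ℝ) (hF : ∀ j, 0 ≤ F j) :
    ∑ i : Fin ((n + 1) + (n + 1)), F (nodeVal n q i) ≤
      2 * ∑ j ∈ range (q * n + 1), F j := by
  rw [Fin.sum_univ_add]
  simp only [nodeVal_left, nodeVal_right]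
  have h1 : ∑ i : Fin (n + 1), F (i : ℕ) ≤ ∑ j ∈ range (q * n + 1), F j := by
    rw [Fin.sum_univ_eq_sum_range (fun j => F j) (n + 1)]
    apply Finset.sum_le_sum_of_subset_of_nonneg
    · apply Finset.range_subset_range.mpr
      have : n ≤ q * n := Nat.le_mul_of_pos_left n hq
      omega
    · intro j _ _; exact hF j
  have h2 : ∑ i : Fin (n + 1), F (q * (i : ℕ)) ≤ ∑ j ∈ range (q * n + 1), F j := by
    rw [Fin.sum_univ_eq_sum_range (fun j => F (q * j)) (n + 1)]
    have h3 : ∑ j ∈ range (n + 1), F (q * j) = ∑ j ∈ (range (n + 1)).image (fun j => q * j),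
        F j := by
      rw [Finset.sum_image]
      intro x _ y _ hxy
      exact Nat.eq_of_mul_eq_mul_left (by omega) hxy
    rw [h3]
    apply Finset.sum_le_sum_of_subset_of_nonneg
    · intro x hx
      obtain ⟨j, hj, rfl⟩ := Finset.mem_image.mp hx
      rw [Finset.mem_range] at hj ⊢
      have : q * j ≤ q * n := Nat.mul_le_mul_left q (by omega)
      omega
    · intro j _ _; exact hF j
  linarith

/-- Two polynomials over the algebraic numbers live over a number field. -/
lemma exists_numberField₂ (f g : Qbar[X]) (A : Finset Qbar) :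
    ∃ K : IntermediateField ℚ Qbar, FiniteDimensional ℚ K ∧ (∀ a ∈ A, a ∈ K) ∧
      (∃ f' : K[X], f'.map (algebraMap K Qbar) = f) ∧
      ∃ g' : K[X], g'.map (algebraMap K Qbar) = g := by
  classical
  obtain ⟨K, hK, hA, hf⟩ := exists_numberField f (A ∪ g.coeffs)
  exact ⟨K, hK, fun a ha => hA a (by simp [ha]), hf,
    poly_lift K g (fun a ha => hA a (by simp [ha]))⟩

/-- The length used for polynomial progressions. -/
def progLen (d r : ℕ) : ℕ := (16 * (r + 1) * ((r * d).factorial) ^ r) * (r * d)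

theorem prog_Q (f : Qbar[X]) (d r : ℕ) (hd : f.natDegree = d) (hd2 : 2 ≤ d)
    (g : Qbar[X]) (hg1 : 1 ≤ g.natDegree) (hgr : g.natDegree ≤ r) :
    log 2 / 4 ≤ ∑ j ∈ range (progLen d r + 1), canonicalHeight f (g.eval (j : Qbar)) := by
  obtain ⟨K, hK, -, ⟨f', hf'⟩, g', hg'⟩ := exists_numberField₂ f g ∅
  have : NumberField K := {}
  have h := prog_K f' (algebraMap K Qbar) d r (by rw [← hf', natDegree_map] at hd; exact hd) hd2
    g' (by rw [← hg', natDegree_map] at hg1; exact hg1)
    (by rw [← hg', natDegree_map] at hgr; exact hgr)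
  rw [hf'] at h
  have he : ∀ k : ℕ, algebraMap K Qbar (g'.eval (k : K)) = g.eval (k : Qbar) := by
    intro k
    rw [← hg', eval_map, ← eval₂_hom, map_natCast]
  simp only [he] at h
  have h2 := sum_nodeVal_le (r * d) (16 * (r + 1) * ((r * d).factorial) ^ r)
    (Nat.one_le_iff_ne_zero.mpr (by positivity))
    (fun j => canonicalHeight f (g.eval (j : Qbar)))
    (fun j => canonicalHeight_nonneg f (by omega) _)
  have h3 : (∑ i : Fin ((r * d + 1) + (r * d + 1)), canonicalHeight f
      (g.eval ((nodeVal (r * d) (16 * (r + 1) * ((r * d).factorial) ^ r) i : ℕ) : Qbar))) ≤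
      2 * ∑ j ∈ range (progLen d r + 1), canonicalHeight f (g.eval (j : Qbar)) := h2
  linarith

/-- Statement of the finite theorem of van der Waerden. -/
def FiniteVdW : Prop := ∀ m s : ℕ, 0 < m → ∃ L : ℕ, ∀ τ : ℕ → Fin m, ∃ a b : ℕ,
  0 < a ∧ a * s + b < L ∧ ∀ i, i ≤ s → τ (a * i + b) = τ b

theorem prog_vdw (hvdw : FiniteVdW) (d r m : ℕ) (hd : 2 ≤ d) (hm : 0 < m) :
    ∃ ℓ : ℕ, ∀ (f : Fin m → Qbar[X]) (τ : ℕ → Fin m) (g : Qbar[X]),
      (∀ i, (f i).natDegree = d) → 1 ≤ g.natDegree → g.natDegree ≤ r →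
      log 2 / 4 ≤ ∑ j ∈ range ℓ, canonicalHeight (f (τ j)) (g.eval (j : Qbar)) := by
  obtain ⟨L, hL⟩ := hvdw m (progLen d r) hm
  refine ⟨L, ?_⟩
  intro f τ g hf hg1 hgr
  obtain ⟨a, b, ha, hab, hτ⟩ := hL τ
  set g' : Qbar[X] := g.comp (C (a : Qbar) * X + C (b : Qbar)) with hg'
  have ha0 : (a : Qbar) ≠ 0 := by exact_mod_cast ha.ne'
  have hdeg : g'.natDegree = g.natDegree := by
    rw [hg', natDegree_comp, natDegree_linear ha0, mul_one]
  have h := prog_Q (f (τ b)) d r (hf _) hd g' (by rw [hdeg]; exact hg1) (by rw [hdeg]; exact hgr)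
  refine h.trans ?_
  have h1 : ∑ j ∈ range (progLen d r + 1), canonicalHeight (f (τ b)) (g'.eval (j : Qbar)) =
      ∑ j ∈ (range (progLen d r + 1)).image (fun j => a * j + b),
        canonicalHeight (f (τ j)) (g.eval (j : Qbar)) := by
    rw [Finset.sum_image]
    · apply Finset.sum_congr rfl
      intro j hj
      rw [hτ j (by rw [Finset.mem_range] at hj; omega)]
      congr 1
      rw [hg', eval_comp]
      simp
    · intro x _ y _ hxy
      have h2 : a * x = a * y := by
        have : a * x + b = a * y + b := hxy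
        omega
      exact Nat.eq_of_mul_eq_mul_left ha h2
  rw [h1]
  apply Finset.sum_le_sum_of_subset_of_nonneg
  · intro x hx
    obtain ⟨j, hj, rfl⟩ := Finset.mem_image.mp hx
    rw [Finset.mem_range] at hj ⊢
    have : a * j ≤ a * progLen d r := Nat.mul_le_mul_left a (by omega)
    omega
  · intro j _ _
    exact canonicalHeight_nonneg _ (by rw [hf]; exact hd) _

end MPd27c8d
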