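import Mathlib
import Pool.Agent.Lib.MP_d27c8d_nt.ProgQ

/-!
Polynomial progressions along arbitrary sequences of integers.
-/

open Polynomial Finset NumberField Height Real Filter Topology

namespace MPd27c8d

/-- The product of all differences of the nodes. -/
def nodeDisc {n : ℕ} (a : Fin n → ℤ) : ℕ :=
  ∏ p ∈ (univ : Finset (Fin n)).offDiag, (a p.1 - a p.2).natAbs

lemma nodeDisc_ne_zero {n : ℕ} (a : Fin n → ℤ) (ha : Function.Injective a) :
    nodeDisc a ≠ 0 := by
  rw [nodeDisc, Finset.prod_ne_zero_iff]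
  intro p hp
  rw [Finset.mem_offDiag] at hp
  intro h
  apply hp.2.2
  apply ha
  have := Int.natAbs_eq_zero.mp h
  omega

variable {K : Type*} [Field K] [NumberField K]

lemma fin_natAbs (v : FinitePlace K) (k : ℤ) : v ((k.natAbs : ℕ) : K) = v (k : K) := by
  rcases Int.natAbs_eq k with h | h
  · have h1 : ((k.natAbs : ℕ) : K) = (k : K) := by
      conv_rhs => rw [h]
      rw [Int.cast_natCast]
    rw [h1]
  · have h1 : ((k.natAbs : ℕ) : K) = -(k : K) := by
      have h2 : ((k.natAbs : ℕ) : ℤ) = -k := by omega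
      have h3 : (((k.natAbs : ℕ) : ℤ) : K) = ((-k : ℤ) : K) := by rw [h2]
      rw [Int.cast_natCast] at h3
      rw [h3, Int.cast_neg]
    rw [h1]
    exact v.val.map_neg (k : K)

/-- Products of differences at a finite place are at least the absolute value of the product
of all differences. -/
lemma fin_nodeDisc_le (v : FinitePlace K) {n m : ℕ} (a : Fin n → ℤ)
    (e : Fin (m + 1) → Fin n) (he : Function.Injective e) (j : Fin (m + 1)) :
    v ((nodeDisc a : ℕ) : K) ≤ ∏ k ∈ univ.erase j, v.val ((a (e j) : K) - (a (e k) : K)) := by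
  classical
  have h1 : v ((nodeDisc a : ℕ) : K) = ∏ p ∈ (univ : Finset (Fin n)).offDiag,
      v (((a p.1 - a p.2 : ℤ)) : K) := by
    rw [nodeDisc]
    push_cast
    rw [map_prod]
    apply Finset.prod_congr rfl
    intro p _
    have := fin_natAbs v (a p.1 - a p.2)
    push_cast at this
    rw [this]
  have h2 : ∏ k ∈ univ.erase j, v.val ((a (e j) : K) - (a (e k) : K)) =
      ∏ p ∈ (univ.erase j).image (fun k => (e j, e k)), v (((a p.1 - a p.2 : ℤ)) : K) := by
    rw [Finset.prod_image]
    · apply Finset.prod_congr rfl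
      intro k _
      have : (((a (e j) - a (e k) : ℤ)) : K) = (a (e j) : K) - (a (e k) : K) := by push_cast; rfl
      rw [this]; rfl
    · intro x _ y _ hxy
      exact he (Prod.mk.inj hxy).2
  have hsub : (univ.erase j).image (fun k => (e j, e k)) ⊆ (univ : Finset (Fin n)).offDiag := by
    intro p hp
    obtain ⟨k, hk, rfl⟩ := Finset.mem_image.mp hp
    rw [Finset.mem_offDiag]
    refine ⟨mem_univ _, mem_univ _, ?_⟩
    intro h
    exact (Finset.ne_of_mem_erase hk) (he h).symm
  rw [h1, h2, ← Finset.prod_sdiff hsub]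
  apply mul_le_of_le_one_left
  · exact Finset.prod_nonneg fun p _ => apply_nonneg v _
  · exact Finset.prod_le_one (fun p _ => apply_nonneg v _) (fun p _ => fin_int_le_one v _)

omit [NumberField K] in
lemma inf_int (v : InfinitePlace K) (k : ℤ) : v (k : K) = |(k : ℝ)| := by
  rw [← InfinitePlace.norm_embedding_eq, map_intCast, Complex.norm_intCast]

/-- Two blocks of nodes over a number field. -/
theorem seq_K (f : K[X]) (φ : K →+* Qbar) (d r n : ℕ) (hd : f.natDegree = d) (hd2 : 2 ≤ d)
    (g : K[X]) (hg1 : 1 ≤ g.natDegree) (hgr : g.natDegree ≤ r) (hn : d * r < n)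
    (a b : Fin n → ℤ) (ha : Function.Injective a) (q : ℝ) (hq1 : 1 ≤ q)
    (hb : ∀ i j, i ≠ j → q ≤ |((b i - b j : ℤ) : ℝ)|) :
    log (q / (r + 1) / (8 * (nodeDisc a : ℕ))) ≤
      2 * (∑ i, canonicalHeight (f.map φ) (φ (g.eval ((a i : ℤ) : K))) +
        ∑ i, canonicalHeight (f.map φ) (φ (g.eval ((b i : ℤ) : K)))) := by
  set M := nodeDisc a with hM
  have hM0 : M ≠ 0 := nodeDisc_ne_zero a ha
  set l := g.leadingCoeff with hl
  have hl0 : l ≠ 0 := by
    rw [hl, Ne, leadingCoeff_eq_zero]; rintro rfl; simp at hg1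
  have hm : d * g.natDegree < n := lt_of_le_of_lt (Nat.mul_le_mul_left d hgr) hn
  have hr0 : (0 : ℝ) < (r : ℝ) + 1 := by positivity
  have hinj : ∀ x y : ℤ, ((x : ℤ) : K) = ((y : ℤ) : K) → x = y := fun x y h => by exact_mod_cast h
  have hbinj : Function.Injective b := by
    intro i j hij
    by_contra hne
    have := hb i j hne
    rw [hij, sub_self] at this
    norm_num at this
    linarith
  have h := K_bound f φ d hd hd2 (n + n)
    (Fin.append (fun i => g.eval ((a i : ℤ) : K)) (fun i => g.eval ((b i : ℤ) : K)))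
    l hl0 M hM0 (q / (r + 1)) (by positivity) ?_ ?_
  · rw [Fin.sum_univ_add] at h
    simp only [Fin.append_left, Fin.append_right] at h
    exact h
  · intro v χ ρ hχ
    obtain ⟨e, he, hmono⟩ := mono_block n d g.natDegree hm
      (fun i => χ (Fin.castAdd n i))
    have hv : IsNonarchimedean v.val := fun x y => FinitePlace.add_le v x y
    obtain ⟨j, hj⟩ := lagr_step v.val hv g g.natDegree rfl hg1
      (fun i => ((a (e i) : ℤ) : K)) (by
        intro i j hij
        exact he (ha (hinj _ _ hij))) (g.eval ((a (e 0) : ℤ) : K))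
    have h1 : v (g.eval ((a (e j) : ℤ) : K) - g.eval ((a (e 0) : ℤ) : K)) ≤ ρ := by
      have := hχ (Fin.castAdd n (e j)) (Fin.castAdd n (e 0)) (hmono j 0)
      rwa [Fin.append_left, Fin.append_left] at this
    refine le_trans ?_ (hj.trans h1)
    exact mul_le_mul_of_nonneg_left (fin_nodeDisc_le v a e he j) (v.val.nonneg _)
  · intro v χ ρ hχ
    obtain ⟨e, he, hmono⟩ := mono_block n d g.natDegree hm
      (fun i => χ (Fin.natAdd n i))
    have hdiff : ∀ i j, i ≠ j → q ≤ v.val (((b (e i) : ℤ) : K) - ((b (e j) : ℤ) : K)) := by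
      intro i j hij
      have h1 := hb (e i) (e j) (fun h => hij (he h))
      have h2 := inf_int v (b (e i) - b (e j))
      have h3 : ((b (e i) - b (e j) : ℤ) : K) = ((b (e i) : ℤ) : K) - ((b (e j) : ℤ) : K) := by
        push_cast; rfl
      rw [h3] at h2
      have h4 : v.val (((b (e i) : ℤ) : K) - ((b (e j) : ℤ) : K)) = _ := h2
      rw [h4]
      exact h1
    have h1 := lagr_arch v.val g g.natDegree rfl hg1
      (fun i => ((b (e i) : ℤ) : K)) (by
        intro i j hij
        exact he (hbinj (hinj _ _ hij)))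
      (g.eval ((b (e 0) : ℤ) : K)) ρ q hq1 (by
        intro j
        have := hχ (Fin.natAdd n (e j)) (Fin.natAdd n (e 0)) (hmono j 0)
        rwa [Fin.append_right, Fin.append_right] at this) hdiff
    have hρ0 : 0 ≤ ρ := by
      have := hχ (Fin.natAdd n (e 0)) (Fin.natAdd n (e 0)) rfl
      rwa [sub_self, map_zero] at this
    have hq0 : (0 : ℝ) < q := by linarith
    have h2 : v l ≤ (g.natDegree + 1) * ρ / q := h1
    have h3 : ((g.natDegree : ℝ) + 1) ≤ r + 1 := by
      have : (g.natDegree : ℝ) ≤ r := by exact_mod_cast hgr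
      linarith
    calc v l * (q / (r + 1)) ≤ ((g.natDegree + 1) * ρ / q) * (q / (r + 1)) := by gcongr
      _ = ((g.natDegree + 1) / (r + 1)) * ρ := by field_simp
      _ ≤ 1 * ρ := by
        apply mul_le_mul_of_nonneg_right _ hρ0
        rw [div_le_one hr0]; exact h3
      _ = ρ := one_mul ρ

theorem seq_Q (f : Qbar[X]) (d r n : ℕ) (hd : f.natDegree = d) (hd2 : 2 ≤ d)
    (g : Qbar[X]) (hg1 : 1 ≤ g.natDegree) (hgr : g.natDegree ≤ r) (hn : d * r < n)
    (a b : Fin n → ℤ) (ha : Function.Injective a) (q : ℝ) (hq1 : 1 ≤ q)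
    (hb : ∀ i j, i ≠ j → q ≤ |((b i - b j : ℤ) : ℝ)|) :
    log (q / (r + 1) / (8 * (nodeDisc a : ℕ))) ≤
      2 * (∑ i, canonicalHeight f (g.eval ((a i : ℤ) : Qbar)) +
        ∑ i, canonicalHeight f (g.eval ((b i : ℤ) : Qbar))) := by
  obtain ⟨K, hK, -, ⟨f', hf'⟩, g', hg'⟩ := exists_numberField₂ f g ∅
  have : NumberField K := {}
  have h := seq_K f' (algebraMap K Qbar) d r n (by rw [← hf', natDegree_map] at hd; exact hd) hd2
    g' (by rw [← hg', natDegree_map] at hg1; exact hg1)
    (by rw [← hg', natDegree_map] at hgr; exact hgr) hn a b ha q hq1 hb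
  rw [hf'] at h
  have he : ∀ k : ℤ, algebraMap K Qbar (g'.eval (k : K)) = g.eval (k : Qbar) := by
    intro k
    rw [← hg', eval_map, ← eval₂_hom, map_intCast]
  simp only [he] at h
  exact h

end MPd27c8d
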