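import Mathlib
import Pool.Agent.Lib.MP_d27c8d_nt.ProgQ
import Pool.Agent.Lib.MP_d27c8d_nt.Seq
import Pool.Agent.Lib.MP_d27c8d_nt.DenseDefs

/-!
Linear spaces `x + C y` for a good integer matrix `C`.
-/

open Polynomial Finset NumberField Height Real Filter Topology

namespace MPd27c8d

/-- A coordinate of `y` as a combination of differences. -/
lemma combo {F : Type*} [CommRing F] {n r : ℕ} (w : Fin n → Fin n → F) (D : Fin n → Fin r → F)
    (z : Fin n → F) (y : Fin r → F) (m : F) (k : Fin r)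
    (hz : ∀ i j, z i - z j = ∑ l, (D i l - D j l) * y l)
    (hw : ∀ l, ∑ i, ∑ j, w i j * (D i l - D j l) = if l = k then m else 0) :
    m * y k = ∑ i, ∑ j, w i j * (z i - z j) := by
  have h1 : ∑ i, ∑ j, w i j * (z i - z j) =
      ∑ i, ∑ l, ∑ j, w i j * (D i l - D j l) * y l := by
    apply Finset.sum_congr rfl
    intro i _
    rw [Finset.sum_comm]
    apply Finset.sum_congr rfl
    intro j _
    rw [hz, Finset.mul_sum]
    apply Finset.sum_congr rfl
    intro l _
    ring
  rw [h1, Finset.sum_comm]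
  have h2 : ∀ l, ∑ i, ∑ j, w i j * (D i l - D j l) * y l = (if l = k then m else 0) * y l := by
    intro l
    rw [← hw l, Finset.sum_mul]
    apply Finset.sum_congr rfl
    intro i _
    rw [Finset.sum_mul]
  rw [Finset.sum_congr rfl (fun l _ => h2 l)]
  simp

/-- Nonarchimedean bound for a sum. -/
lemma na_sum_le {L : Type*} [Field L] (v : AbsoluteValue L ℝ) (hv : IsNonarchimedean v)
    {ι : Type*} (s : Finset ι) (g : ι → L) (ρ : ℝ) (hρ : 0 ≤ ρ) (h : ∀ i ∈ s, v (g i) ≤ ρ) :
    v (∑ i ∈ s, g i) ≤ ρ := by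
  classical
  induction s using Finset.induction_on with
  | empty => simpa using hρ
  | insert a s ha ih =>
    rw [Finset.sum_insert ha]
    refine (hv _ _).trans (max_le (h a (Finset.mem_insert_self _ _)) ?_)
    exact ih fun i hi => h i (Finset.mem_insert_of_mem hi)

variable {K : Type*} [Field K] [NumberField K]

/-- The linear space of a good matrix over a number field. -/
theorem matrix_K (f : K[X]) (φ : K →+* Qbar) (d r n : ℕ) (hd : f.natDegree = d) (hd2 : 2 ≤ d)
    (Cm : Fin n → Fin r → ℤ) (M : ℕ) (hM : M ≠ 0) (L : ℝ) (hL : 0 < L)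
    (hgood : GoodMatrix d Cm M L) (x : K) (y : Fin r → K) (hy : ∃ k, y k ≠ 0) :
    log (L / (8 * M)) ≤ 2 * ∑ i, canonicalHeight (f.map φ)
      (φ (x + ∑ l, ((Cm i l : ℤ) : K) * y l)) := by
  classical
  obtain ⟨k, hk⟩ := hy
  set z : Fin n → K := fun i => x + ∑ l, ((Cm i l : ℤ) : K) * y l with hz
  have hdiff : ∀ i j, z i - z j = ∑ l, (((Cm i l : ℤ) : K) - ((Cm j l : ℤ) : K)) * y l := by
    intro i j
    simp only [hz]
    rw [add_sub_add_left_eq_sub, ← Finset.sum_sub_distrib]
    apply Finset.sum_congr rfl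
    intro l _
    ring
  have hn0 : ∀ χ : Fin n → Fin d, (∃ i : Fin n, True) := by
    intro χ
    by_contra hcon
    obtain ⟨w, -, hw, -⟩ := (hgood χ).2 k
    have h1 := hw k
    rw [if_pos rfl] at h1
    have h2 : (univ : Finset (Fin n)) = ∅ := by
      apply Finset.eq_empty_of_forall_notMem
      intro i _
      exact hcon ⟨i, trivial⟩
    rw [h2] at h1
    simp at h1
  apply K_bound f φ d hd hd2 n z (y k) hk M hM L hL
  · intro v χ ρ hχ
    obtain ⟨i0, -⟩ := hn0 χ
    have hρ0 : 0 ≤ ρ := by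
      have := hχ i0 i0 rfl
      rwa [sub_self, map_zero] at this
    obtain ⟨w, hw0, hw⟩ := (hgood χ).1 k
    have hv : IsNonarchimedean v.val := fun x y => FinitePlace.add_le v x y
    have h1 : ((M : ℕ) : K) * y k = ∑ i, ∑ j, ((w i j : ℤ) : K) * (z i - z j) := by
      apply combo (fun i j => ((w i j : ℤ) : K)) (fun i l => ((Cm i l : ℤ) : K)) z y _ k hdiff
      intro l
      have h3 := congrArg (fun a : ℤ => (a : K)) (hw l)
      simp only [Int.cast_sum, Int.cast_mul, Int.cast_sub] at h3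
      rw [h3]
      split_ifs <;> simp
    have h2 : v (((M : ℕ) : K) * y k) ≤ ρ := by
      rw [h1]
      apply na_sum_le v.val hv _ _ ρ hρ0
      intro i _
      apply na_sum_le v.val hv _ _ ρ hρ0
      intro j _
      by_cases hij : χ i = χ j
      · have h4 : v.val (((w i j : ℤ) : K) * (z i - z j)) =
            v.val ((w i j : ℤ) : K) * v.val (z i - z j) := map_mul _ _ _
        rw [h4]
        have h5 : v.val (z i - z j) ≤ ρ := hχ i j hij
        have h6 : v.val ((w i j : ℤ) : K) ≤ 1 := fin_int_le_one v (w i j)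
        calc v.val ((w i j : ℤ) : K) * v.val (z i - z j) ≤ 1 * v.val (z i - z j) :=
              mul_le_mul_of_nonneg_right h6 (v.val.nonneg _)
          _ ≤ ρ := by rw [one_mul]; exact h5
      · rw [hw0 i j hij, Int.cast_zero, zero_mul, map_zero]
        exact hρ0
    rw [map_mul] at h2
    rw [mul_comm]; exact h2
  · intro v χ ρ hχ
    obtain ⟨i0, -⟩ := hn0 χ
    have hρ0 : 0 ≤ ρ := by
      have := hχ i0 i0 rfl
      rwa [sub_self, map_zero] at this
    obtain ⟨w, hw0, hw, hwL⟩ := (hgood χ).2 k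
    set e := v.embedding with he
    have hve : ∀ a : K, ‖e a‖ = v a := fun a => InfinitePlace.norm_embedding_eq v a
    have h1 : (1 : ℂ) * e (y k) = ∑ i, ∑ j, ((w i j : ℝ) : ℂ) * (e (z i) - e (z j)) := by
      apply combo (fun i j => ((w i j : ℝ) : ℂ)) (fun i l => ((Cm i l : ℤ) : ℂ))
        (fun i => e (z i)) (fun l => e (y l)) 1 k
      · intro i j
        rw [← map_sub, hdiff, map_sum]
        apply Finset.sum_congr rfl
        intro l _
        rw [map_mul, map_sub, map_intCast, map_intCast]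
      · intro l
        have h3 := congrArg (fun a : ℝ => (a : ℂ)) (hw l)
        simp only [Complex.ofReal_sum, Complex.ofReal_mul, Int.cast_sub, Complex.ofReal_sub,
          Complex.ofReal_intCast] at h3
        rw [h3]
        split_ifs <;> simp
    rw [one_mul] at h1
    have h2 : v (y k) ≤ (∑ i, ∑ j, |w i j|) * ρ := by
      rw [← hve, h1, Finset.sum_mul]
      refine (norm_sum_le _ _).trans (Finset.sum_le_sum fun i _ => ?_)
      rw [Finset.sum_mul]
      refine (norm_sum_le _ _).trans (Finset.sum_le_sum fun j _ => ?_)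
      rw [norm_mul, Complex.norm_real, Real.norm_eq_abs, ← map_sub, hve]
      by_cases hij : χ i = χ j
      · exact mul_le_mul_of_nonneg_left (hχ i j hij) (abs_nonneg _)
      · rw [hw0 i j hij, abs_zero, zero_mul, zero_mul]
    calc v (y k) * L ≤ ((∑ i, ∑ j, |w i j|) * ρ) * L := mul_le_mul_of_nonneg_right h2 hL.le
      _ = ((∑ i, ∑ j, |w i j|) * L) * ρ := by ring
      _ ≤ 1 * ρ := mul_le_mul_of_nonneg_right hwL hρ0
      _ = ρ := one_mul ρ

/-- The linear space of a good matrix over the algebraic numbers. -/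
theorem matrix_Q (f : Qbar[X]) (d r n : ℕ) (hd : f.natDegree = d) (hd2 : 2 ≤ d)
    (Cm : Fin n → Fin r → ℤ) (M : ℕ) (hM : M ≠ 0) (L : ℝ) (hL : 0 < L)
    (hgood : GoodMatrix d Cm M L) (x : Qbar) (y : Fin r → Qbar) (hy : y ≠ 0) :
    log (L / (8 * M)) ≤ 2 * ∑ i, canonicalHeight f (x + ∑ l, ((Cm i l : ℤ) : Qbar) * y l) := by
  classical
  obtain ⟨K, hK, hA, f', hf'⟩ := exists_numberField f ({x} ∪ univ.image y)
  have : NumberField K := {}
  have hx : x ∈ K := hA x (by simp)
  have hyK : ∀ l, y l ∈ K := fun l => hA _ (by simp)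
  obtain ⟨k, hk⟩ : ∃ k, y k ≠ 0 := by
    by_contra hcon
    push Not at hcon
    exact hy (funext hcon)
  have h := matrix_K f' (algebraMap K Qbar) d r n
    (by rw [← hf', natDegree_map] at hd; exact hd) hd2 Cm M hM L hL hgood ⟨x, hx⟩
    (fun l => ⟨y l, hyK l⟩) ⟨k, fun h0 => hk (congrArg Subtype.val h0)⟩
  rw [hf'] at h
  have he : ∀ i, algebraMap K Qbar ((⟨x, hx⟩ : K) + ∑ l, ((Cm i l : ℤ) : K) * ⟨y l, hyK l⟩) =
      x + ∑ l, ((Cm i l : ℤ) : Qbar) * y l := by
    intro i
    rw [map_add, map_sum]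
    congr 1
  simp only [he] at h
  exact h

end MPd27c8d
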