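import Mathlib
import Pool.Agent.Lib.MP_d27c8d_nt.Prog

/-!
Unicritical maps with moving parameters: local lemmas.
-/

open Polynomial Finset NumberField Height Real Filter Topology

namespace MPd27c8d

section roots
variable {L : Type*} [Field L] (d : ℕ) (ζ : Fin d → L)
  (hX : (X ^ d - 1 : L[X]) = ∏ i, (X - C (ζ i)))

include hX in
lemma root_pow (i : Fin d) : ζ i ^ d = 1 := by
  have h := congrArg (eval (ζ i)) hX
  rw [eval_prod, Finset.prod_eq_zero (Finset.mem_univ i) (by simp)] at h
  rw [eval_sub, eval_pow, eval_X, eval_one] at h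
  exact sub_eq_zero.mp h

include hX in
lemma pow_sub_pow_eq (y z : L) : y ^ d - z ^ d = ∏ i, (y - ζ i * z) := by
  by_cases hz : z = 0
  · subst hz
    rcases Nat.eq_zero_or_pos d with rfl | hd
    · exfalso
      rw [Finset.univ_eq_empty, Finset.prod_empty, pow_zero, sub_self] at hX
      exact zero_ne_one hX
    · rw [zero_pow (by omega), sub_zero]; simp
  · have h := congrArg (eval (y / z)) hX
    rw [eval_prod, eval_sub, eval_pow, eval_X, eval_one] at h
    simp only [eval_sub, eval_X, eval_C] at h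
    have h2 : y ^ d - z ^ d = z ^ d * ((y / z) ^ d - 1) := by
      rw [div_pow]; field_simp
    rw [h2, h]
    have h3 : z ^ d = ∏ _i : Fin d, z := by simp
    rw [h3, ← Finset.prod_mul_distrib]
    apply Finset.prod_congr rfl
    intro i _
    field_simp

include hX in
lemma prod_root_sub (i0 : Fin d) : ∏ i ∈ univ.erase i0, (ζ i0 - ζ i) = d * ζ i0 ^ (d - 1) := by
  have h1 : Lagrange.nodal univ ζ = (X ^ d - 1 : L[X]) := by
    rw [Lagrange.nodal_eq, hX]
  have h2 := Lagrange.eval_nodal_derivative_eval_node_eq (v := ζ) (Finset.mem_univ i0)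
  rw [Lagrange.eval_nodal, h1] at h2
  rw [← h2, derivative_sub, derivative_X_pow, derivative_one, sub_zero, eval_mul, eval_C,
    eval_pow, eval_X]

include hX in
lemma abv_root (v : AbsoluteValue L ℝ) (hd : d ≠ 0) (i : Fin d) : v (ζ i) = 1 := by
  have h := root_pow d ζ hX i
  have h2 : v (ζ i) ^ d = 1 := by rw [← map_pow, h, map_one]
  exact (pow_eq_one_iff_of_nonneg (v.nonneg _) hd).mp h2

include hX in
lemma prod_abv_root_sub (v : AbsoluteValue L ℝ) (hd : d ≠ 0) (i0 : Fin d) :
    ∏ i ∈ univ.erase i0, v (ζ i0 - ζ i) = v (d : L) := by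
  rw [← map_prod, prod_root_sub d ζ hX, map_mul, map_pow, abv_root d ζ hX v hd, one_pow, mul_one]

end roots

/-- Finite places, unicritical maps. -/
lemma uni_fin {L : Type*} [Field L] (v : AbsoluteValue L ℝ) (hv : IsNonarchimedean v)
    (d : ℕ) (hd2 : 2 ≤ d) (ζ : Fin d → L) (hX : (X ^ d - 1 : L[X]) = ∏ i, (X - C (ζ i)))
    (h z : L) (E : ℝ) (hE : 1 ≤ E) (n : ℕ) (hn : 2 ≤ n)
    (hz : v ((fun y => y ^ d + h)^[n] z) ≤ E ^ (d ^ n)) :
    ∃ i, v (d : L) * v ((z ^ d + h) - ζ i * z) ≤ E ^ (d ^ 2) := by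
  classical
  have hd0 : d ≠ 0 := by omega
  set f : L → L := fun y => y ^ d + h with hf
  have hvd : v (d : L) ≤ 1 := by
    have := hv.apply_intCast_le_one (f := v) (n := (d : ℤ))
    exact_mod_cast this
  have hvd0 : 0 ≤ v (d : L) := v.nonneg _
  -- ultrametric equality
  have hmax : ∀ x y : L, v y < v x → v (x + y) = v x := by
    intro x y hxy
    apply le_antisymm
    · exact (hv x y).trans (max_le le_rfl hxy.le)
    · have h1 := hv (x + y) (-y)
      rw [add_neg_cancel_right, v.map_neg] at h1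
      rcases le_max_iff.mp h1 with h2 | h2
      · exact h2
      · exact absurd h2 (not_le.mpr hxy)
  have hesc : ∀ y, 1 < v y → v h < v y ^ d → ∀ k, v (f^[k] y) = v y ^ (d ^ k) := by
    intro y h1 h2 k
    induction k with
    | zero => simp
    | succ k ih =>
      rw [Function.iterate_succ_apply']
      have h3 : v h < v ((f^[k] y) ^ d) := by
        rw [map_pow, ih, ← pow_mul]
        refine lt_of_lt_of_le h2 (pow_le_pow_right₀ h1.le ?_)
        exact Nat.le_mul_of_pos_left d (pow_pos (by omega) k)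
      have h4 : f (f^[k] y) = (f^[k] y) ^ d + h := rfl
      rw [h4, hmax _ _ h3, map_pow, ih, ← pow_mul, ← pow_succ]
  have hk : ∀ k, k ≤ n → (v (f^[k] z) ≤ 1 ∨ v (f^[k] z) ^ d ≤ v h ∨
      v (f^[k] z) ≤ E ^ (d ^ k)) := by
    intro k hkn
    by_contra hcon
    push Not at hcon
    obtain ⟨h1, h2, h3⟩ := hcon
    have h4 := hesc _ h1 h2 (n - k)
    rw [← Function.iterate_add_apply, Nat.sub_add_cancel hkn] at h4
    rw [h4] at hz
    have h5 : E ^ (d ^ n) = (E ^ (d ^ k)) ^ (d ^ (n - k)) := by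
      rw [← pow_mul, ← pow_add, Nat.add_sub_cancel' hkn]
    rw [h5] at hz
    exact absurd hz (not_le.mpr (pow_lt_pow_left₀ h3 (by positivity) (pow_ne_zero _ hd0)))
  have hk0 := hk 0 (by omega)
  have hk1 := hk 1 (by omega)
  have hk2 := hk 2 hn
  set w := z ^ d + h with hw
  have e0 : f^[0] z = z := rfl
  have e1 : f^[1] z = w := rfl
  have e2 : f^[2] z = w ^ d + h := rfl
  rw [e0, pow_zero, pow_one] at hk0
  rw [e1, pow_one] at hk1
  rw [e2] at hk2
  have hEd : E ≤ E ^ d := le_self_pow₀ hE hd0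
  have hEd2 : E ^ d ≤ E ^ (d ^ 2) := pow_le_pow_right₀ hE (by nlinarith)
  have hEd1 : 1 ≤ E ^ d := one_le_pow₀ hE
  have hfinish : v z ≤ E → v w ≤ E ^ d → ∃ i, v (d : L) * v (w - ζ i * z) ≤ E ^ (d ^ 2) := by
    intro h1 h2
    refine ⟨⟨0, by omega⟩, ?_⟩
    have h3 : v (w - ζ ⟨0, by omega⟩ * z) ≤ E ^ d := by
      have h4 := hv w (-(ζ ⟨0, by omega⟩ * z))
      rw [← sub_eq_add_neg, v.map_neg, map_mul, abv_root d ζ hX v hd0, one_mul] at h4
      exact h4.trans (max_le h2 (h1.trans hEd))
    calc v (d : L) * v (w - ζ ⟨0, by omega⟩ * z) ≤ 1 * E ^ d :=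
          mul_le_mul hvd h3 (v.nonneg _) zero_le_one
      _ ≤ E ^ (d ^ 2) := by rw [one_mul]; exact hEd2
  have hle1 : ∀ x : ℝ, 0 ≤ x → x ^ d ≤ 1 → x ≤ 1 := by
    intro x hx hx2
    by_contra hcon
    push Not at hcon
    exact absurd hx2 (not_le.mpr (one_lt_pow₀ hcon hd0))
  rcases le_or_gt (v h) 1 with hH | hH
  · -- `|h| ≤ 1`
    apply hfinish
    · rcases hk0 with h1 | h1 | h1
      · linarith
      · linarith [hle1 _ (v.nonneg z) (h1.trans hH)]
      · exact h1
    · rcases hk1 with h1 | h1 | h1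
      · linarith
      · linarith [hle1 _ (v.nonneg w) (h1.trans hH)]
      · exact h1
  · rcases lt_or_ge (v z ^ d) (v h) with ha | ha
    · -- `|z|^d < |h|`
      have hw1 : v w = v h := by
        rw [hw, add_comm, hmax h (z ^ d) (by rw [map_pow]; exact ha)]
      have hw2 : v w ≤ E ^ d := by
        rcases hk1 with h1 | h1 | h1
        · linarith
        · exfalso
          rw [hw1] at h1
          have : v h < v h ^ d := by
            calc v h = v h ^ 1 := (pow_one _).symm
              _ < v h ^ d := pow_lt_pow_right₀ hH (by omega)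
          linarith
        · exact h1
      apply hfinish _ hw2
      have h3 : v z ^ d ≤ E ^ d := by linarith
      exact le_of_pow_le_pow_left₀ hd0 (by linarith) h3
    · -- `|z|^d ≥ |h| > 1`
      have ha1 : 1 < v z := by
        by_contra hcon
        push Not at hcon
        have := pow_le_one₀ (v.nonneg z) hcon (n := d)
        linarith
      obtain ⟨i0, -, hi0⟩ := Finset.exists_min_image (univ : Finset (Fin d))
        (fun i => v (w - ζ i * z)) ⟨⟨0, by omega⟩, by simp⟩
      refine ⟨i0, ?_⟩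
      have hprod : v (w - ζ i0 * z) * (v (d : L) * v z ^ (d - 1)) ≤ v (w ^ d - z ^ d) := by
        rw [pow_sub_pow_eq d ζ hX w z, map_prod,
          ← Finset.mul_prod_erase univ (fun i => v (w - ζ i * z)) (Finset.mem_univ i0)]
        apply mul_le_mul_of_nonneg_left _ (v.nonneg _)
        rw [← prod_abv_root_sub d ζ hX v hd0 i0]
        have h1 : v z ^ (d - 1) = ∏ i ∈ univ.erase i0, v z := by
          rw [Finset.prod_const, Finset.card_erase_of_mem (Finset.mem_univ _), Finset.card_univ,
            Fintype.card_fin]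
        rw [h1, ← Finset.prod_mul_distrib]
        apply Finset.prod_le_prod
        · intro i _; exact mul_nonneg (v.nonneg _) (v.nonneg _)
        · intro i hi
          have h2 := hi0 i (Finset.mem_univ i)
          -- `|(ζ i0 - ζ i) z| ≤ max |w - ζ i z| |w - ζ i0 z|`
          have h3 : (ζ i0 - ζ i) * z = (w - ζ i * z) + -(w - ζ i0 * z) := by ring
          have h4 := hv (w - ζ i * z) (-(w - ζ i0 * z))
          rw [← h3, map_mul, v.map_neg] at h4
          exact h4.trans (max_le le_rfl h2)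
      have hww : w ^ d - z ^ d = (w ^ d + h) + (-w) := by rw [hw]; ring
      have hbw : v w ≤ v z * E ^ (d ^ 2) := by
        have hz0 : 0 ≤ v z := v.nonneg z
        have hE2 : 1 ≤ E ^ (d ^ 2) := one_le_pow₀ hE
        rcases hk1 with h1 | h1 | h1
        · nlinarith
        · have h2 : v w ≤ v z := le_of_pow_le_pow_left₀ hd0 hz0 (h1.trans ha)
          nlinarith
        · nlinarith
      have hbw' : v (w ^ d + h) ≤ v z * E ^ (d ^ 2) := by
        have hz0 : 0 ≤ v z := v.nonneg z
        have hE2 : 1 ≤ E ^ (d ^ 2) := one_le_pow₀ hE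
        rcases hk2 with h1 | h1 | h1
        · nlinarith
        · have h2 : v (w ^ d + h) ≤ v z := le_of_pow_le_pow_left₀ hd0 hz0 (h1.trans ha)
          nlinarith
        · nlinarith
      have hb : v (w ^ d - z ^ d) ≤ v z * E ^ (d ^ 2) := by
        rw [hww]
        refine (hv _ _).trans (max_le hbw' ?_)
        rw [v.map_neg]; exact hbw
      have h5 := hprod.trans hb
      have h6 : v z ≤ v z ^ (d - 1) := le_self_pow₀ ha1.le (by omega)
      have h7 : (v (d : L) * v (w - ζ i0 * z)) * v z ≤ v z * E ^ (d ^ 2) := by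
        calc (v (d : L) * v (w - ζ i0 * z)) * v z
            ≤ (v (d : L) * v (w - ζ i0 * z)) * v z ^ (d - 1) :=
              mul_le_mul_of_nonneg_left h6 (mul_nonneg hvd0 (v.nonneg _))
          _ = v (w - ζ i0 * z) * (v (d : L) * v z ^ (d - 1)) := by ring
          _ ≤ _ := h5
      have h8 : 0 < v z := by linarith
      rw [mul_comm (v z)] at h7
      exact le_of_mul_le_mul_right h7 h8

/-- Infinite places, unicritical maps. -/
lemma uni_inf {L : Type*} [Field L] (v : AbsoluteValue L ℝ)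
    (d : ℕ) (hd2 : 2 ≤ d) (hvd : v (d : L) = d) (ζ : Fin d → L)
    (hX : (X ^ d - 1 : L[X]) = ∏ i, (X - C (ζ i)))
    (h z : L) (E : ℝ) (hE : 1 ≤ E) (n : ℕ) (hn : 2 ≤ n)
    (hz : v ((fun y => y ^ d + h)^[n] z) ≤ E ^ (d ^ n)) :
    ∃ i, v ((z ^ d + h) - ζ i * z) ≤ 2 ^ (d + 1) * E ^ (d ^ 2) := by
  classical
  have hd0 : d ≠ 0 := by omega
  set f : L → L := fun y => y ^ d + h with hf
  have hlow : ∀ x y : L, v x - v y ≤ v (x + y) := by
    intro x y
    have h1 := v.add_le (x + y) (-y)
    rw [add_neg_cancel_right, v.map_neg] at h1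
    linarith
  have hesc : ∀ y, 2 ≤ v y → 2 * v h ≤ v y ^ d → ∀ k,
      2 * (v y / 2) ^ (d ^ k) ≤ v (f^[k] y) := by
    intro y h1 h2 k
    induction k with
    | zero => simp only [pow_zero, pow_one, Function.iterate_zero, id]; linarith
    | succ k ih =>
      rw [Function.iterate_succ_apply']
      set x := f^[k] y with hx
      have h3 : v y ≤ v x := by
        refine le_trans ?_ ih
        have h4 : v y / 2 ≤ (v y / 2) ^ (d ^ k) :=
          le_self_pow₀ (by linarith) (pow_ne_zero _ hd0)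
        linarith
      have h5 : v x ^ d / 2 ≤ v (f x) := by
        have h6 := hlow (x ^ d) h
        rw [map_pow] at h6
        have h7 : v y ^ d ≤ v x ^ d := pow_le_pow_left₀ (v.nonneg y) h3 d
        show v x ^ d / 2 ≤ v (x ^ d + h)
        linarith
      refine le_trans ?_ h5
      rw [pow_succ d k, pow_mul]
      have h8 : (v y / 2) ^ (d ^ k) ≤ v x / 2 := by linarith
      have h0 : 0 ≤ v y / 2 := by linarith
      have h9 := pow_le_pow_left₀ (pow_nonneg h0 _) h8 d
      have h10 : (v x / 2) ^ d ≤ v x ^ d / 4 := by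
        rw [div_pow]
        apply div_le_div_of_nonneg_left (pow_nonneg (v.nonneg x) d) (by norm_num)
        calc (4 : ℝ) = 2 ^ 2 := by norm_num
          _ ≤ 2 ^ d := pow_le_pow_right₀ (by norm_num) hd2
      linarith
  have hk : ∀ k, k ≤ n → (v (f^[k] z) < 2 ∨ v (f^[k] z) ^ d < 2 * v h ∨
      v (f^[k] z) ≤ 2 * E ^ (d ^ k)) := by
    intro k hkn
    by_contra hcon
    push Not at hcon
    obtain ⟨h1, h2, h3⟩ := hcon
    have h4 := hesc _ h1 h2 (n - k)
    rw [← Function.iterate_add_apply, Nat.sub_add_cancel hkn] at h4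
    have h5 : E ^ (d ^ n) = (E ^ (d ^ k)) ^ (d ^ (n - k)) := by
      rw [← pow_mul, ← pow_add, Nat.add_sub_cancel' hkn]
    rw [h5] at hz
    have h6 : E ^ (d ^ k) < v (f^[k] z) / 2 := by linarith
    have h7 := pow_lt_pow_left₀ h6 (by positivity) (pow_ne_zero (n - k) hd0)
    have h8 : 0 ≤ (v (f^[k] z) / 2) ^ (d ^ (n - k)) := by
      have := v.nonneg (f^[k] z); positivity
    linarith
  have hk0 := hk 0 (by omega)
  have hk1 := hk 1 (by omega)
  have hk2 := hk 2 hn
  set w := z ^ d + h with hw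
  have e0 : f^[0] z = z := rfl
  have e1 : f^[1] z = w := rfl
  have e2 : f^[2] z = w ^ d + h := rfl
  rw [e0, pow_zero, pow_one] at hk0
  rw [e1, pow_one] at hk1
  rw [e2] at hk2
  have hEd : E ≤ E ^ d := le_self_pow₀ hE hd0
  have hEd2 : E ^ d ≤ E ^ (d ^ 2) := pow_le_pow_right₀ hE (by nlinarith)
  have hEd1 : 1 ≤ E ^ d := one_le_pow₀ hE
  have h2d : (8 : ℝ) ≤ 2 ^ (d + 1) := by
    calc (8 : ℝ) = 2 ^ 3 := by norm_num
      _ ≤ 2 ^ (d + 1) := pow_le_pow_right₀ (by norm_num) (by omega)
  have hz0 : 0 ≤ v z := v.nonneg z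
  have hw0 : 0 ≤ v w := v.nonneg w
  have hfinish : v z ≤ 4 * E ^ d → v w ≤ 4 * E ^ d →
      ∃ i, v (w - ζ i * z) ≤ 2 ^ (d + 1) * E ^ (d ^ 2) := by
    intro h1 h2
    refine ⟨⟨0, by omega⟩, ?_⟩
    have h4 := v.add_le w (-(ζ ⟨0, by omega⟩ * z))
    rw [← sub_eq_add_neg, v.map_neg, map_mul, abv_root d ζ hX v hd0, one_mul] at h4
    have h5 : (8 : ℝ) * E ^ d ≤ 2 ^ (d + 1) * E ^ (d ^ 2) :=
      mul_le_mul h2d hEd2 (by linarith) (by positivity)
    linarith
  rcases le_or_gt (2 * v h) (4 ^ d) with hH | hH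
  · have hle4 : ∀ x : ℝ, 0 ≤ x → x ^ d < 2 * v h → x ≤ 4 := by
      intro x hx hx2
      by_contra hcon
      push Not at hcon
      have := pow_le_pow_left₀ (by norm_num : (0 : ℝ) ≤ 4) hcon.le d
      linarith
    apply hfinish
    · rcases hk0 with h1 | h1 | h1
      · linarith
      · linarith [hle4 _ hz0 h1]
      · linarith
    · rcases hk1 with h1 | h1 | h1
      · linarith
      · linarith [hle4 _ hw0 h1]
      · linarith
  · have h4d : (16 : ℝ) ≤ 4 ^ d := by
      calc (16 : ℝ) = 4 ^ 2 := by norm_num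
        _ ≤ 4 ^ d := pow_le_pow_right₀ (by norm_num) hd2
    have hH8 : 8 < v h := by linarith
    rcases lt_or_ge (v z ^ d) (v h / 2) with ha | ha
    · -- `|z|^d < |h|/2`
      have hw1 : v h / 2 < v w := by
        have h1 := hlow h (z ^ d)
        rw [map_pow, add_comm h] at h1
        linarith
      have hw2 : v w ≤ 2 * E ^ d := by
        rcases hk1 with h1 | h1 | h1
        · linarith
        · exfalso
          have h2 : (v h / 2) ^ d < 2 * v h :=
            lt_of_le_of_lt (pow_le_pow_left₀ (by linarith) hw1.le d) h1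
          have h3 : (v h / 2) ^ d = (v h / 2) ^ (d - 1) * (v h / 2) := by
            rw [← pow_succ]; congr 1; omega
          rw [h3] at h2
          have h4 : (v h / 2) ^ (d - 1) < 4 := by
            by_contra hcon
            push Not at hcon
            have : 4 * (v h / 2) ≤ (v h / 2) ^ (d - 1) * (v h / 2) :=
              mul_le_mul_of_nonneg_right hcon (by linarith)
            linarith
          have h5 : v h / 2 ≤ (v h / 2) ^ (d - 1) := le_self_pow₀ (by linarith) (by omega)
          linarith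
        · exact h1
      apply hfinish _ (by linarith)
      have h3 : v z ^ d ≤ (2 * E) ^ d := by
        rw [mul_pow]
        have : (2 : ℝ) ≤ 2 ^ d := le_self_pow₀ (by norm_num) hd0
        nlinarith
      have h4 := le_of_pow_le_pow_left₀ hd0 (by linarith) h3
      linarith
    · -- `|z|^d ≥ |h|/2`
      have ha1 : 1 < v z := by
        by_contra hcon
        push Not at hcon
        have := pow_le_one₀ hz0 hcon (n := d)
        linarith
      obtain ⟨i0, -, hi0⟩ := Finset.exists_min_image (univ : Finset (Fin d))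
        (fun i => v (w - ζ i * z)) ⟨⟨0, by omega⟩, by simp⟩
      refine ⟨i0, ?_⟩
      have hprod : v (w - ζ i0 * z) * (d * (v z / 2) ^ (d - 1)) ≤ v (w ^ d - z ^ d) := by
        rw [pow_sub_pow_eq d ζ hX w z, map_prod,
          ← Finset.mul_prod_erase univ (fun i => v (w - ζ i * z)) (Finset.mem_univ i0)]
        apply mul_le_mul_of_nonneg_left _ (v.nonneg _)
        rw [← hvd, ← prod_abv_root_sub d ζ hX v hd0 i0]
        have h1 : (v z / 2) ^ (d - 1) = ∏ i ∈ univ.erase i0, (v z / 2) := by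
          rw [Finset.prod_const, Finset.card_erase_of_mem (Finset.mem_univ _), Finset.card_univ,
            Fintype.card_fin]
        rw [h1, ← Finset.prod_mul_distrib]
        apply Finset.prod_le_prod
        · intro i _; exact mul_nonneg (v.nonneg _) (by linarith)
        · intro i hi
          have h2 := hi0 i (Finset.mem_univ i)
          have h3 : (ζ i0 - ζ i) * z = (w - ζ i * z) + -(w - ζ i0 * z) := by ring
          have h4 := v.add_le (w - ζ i * z) (-(w - ζ i0 * z))
          rw [← h3, map_mul, v.map_neg] at h4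
          linarith
      have hww : w ^ d - z ^ d = (w ^ d + h) + (-w) := by rw [hw]; ring
      have hE2 : 1 ≤ E ^ (d ^ 2) := one_le_pow₀ hE
      have hpow2 : 4 * v z ^ d ≤ (2 * v z) ^ d := by
        rw [mul_pow]
        have : (4 : ℝ) ≤ 2 ^ d := by
          calc (4 : ℝ) = 2 ^ 2 := by norm_num
            _ ≤ 2 ^ d := pow_le_pow_right₀ (by norm_num) hd2
        have h5 : 0 ≤ v z ^ d := by positivity
        nlinarith
      have hbnd : ∀ x : ℝ, 0 ≤ x → ∀ A : ℝ, 1 ≤ A → A ≤ E ^ (d ^ 2) →
          (x < 2 ∨ x ^ d < 2 * v h ∨ x ≤ 2 * A) → x ≤ 2 * (v z * E ^ (d ^ 2)) := by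
        intro x hx A hA1 hA2 hor
        rcases hor with h1 | h1 | h1
        · nlinarith
        · have h2 : x ^ d ≤ (2 * v z) ^ d := by linarith
          have h3 := le_of_pow_le_pow_left₀ hd0 (by linarith) h2
          nlinarith
        · nlinarith
      have hbw := hbnd (v w) hw0 (E ^ d) hEd1 hEd2 hk1
      have hbw' := hbnd (v (w ^ d + h)) (v.nonneg _) (E ^ (d ^ 2)) hE2 le_rfl hk2
      have hb : v (w ^ d - z ^ d) ≤ 4 * (v z * E ^ (d ^ 2)) := by
        rw [hww]
        refine (v.add_le _ _).trans ?_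
        rw [v.map_neg]; linarith
      have h5 := hprod.trans hb
      have h6 : v z / 2 ≤ (v z / 2) ^ (d - 1) ∨ v z / 2 < 1 := by
        rcases le_or_gt 1 (v z / 2) with h | h
        · exact Or.inl (le_self_pow₀ h (by omega))
        · exact Or.inr h
      have hm0 : 0 ≤ v (w - ζ i0 * z) := v.nonneg _
      have hdR : (2 : ℝ) ≤ d := by exact_mod_cast hd2
      -- `v z ^ (d-1) ≥ v z`
      have h7 : v z ≤ v z ^ (d - 1) := le_self_pow₀ ha1.le (by omega)
      have h8 : (v z / 2) ^ (d - 1) = v z ^ (d - 1) / 2 ^ (d - 1) := by rw [div_pow]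
      rw [h8] at h5
      have h9 : (0 : ℝ) < 2 ^ (d - 1) := by positivity
      have h10 : v (w - ζ i0 * z) * (2 * (v z / 2 ^ (d - 1))) ≤ 4 * (v z * E ^ (d ^ 2)) := by
        refine le_trans ?_ h5
        apply mul_le_mul_of_nonneg_left _ hm0
        apply mul_le_mul hdR _ (by positivity) (by positivity)
        exact div_le_div_of_nonneg_right h7 h9.le
      have h11 : v (w - ζ i0 * z) * v z ≤ (2 ^ (d - 1) * 2 * E ^ (d ^ 2)) * v z := by
        have h12 : v (w - ζ i0 * z) * (2 * (v z / 2 ^ (d - 1))) * (2 ^ (d - 1) / 2) =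
            v (w - ζ i0 * z) * v z := by
          field_simp
        rw [← h12]
        have h13 := mul_le_mul_of_nonneg_right h10 (by positivity : (0 : ℝ) ≤ 2 ^ (d - 1) / 2)
        refine h13.trans (le_of_eq ?_)
        ring
      have h14 := le_of_mul_le_mul_right h11 (by linarith)
      refine h14.trans ?_
      have h15 : (2 : ℝ) ^ (d - 1) * 2 = 2 ^ d := by
        rw [← pow_succ]; congr 1; omega
      rw [h15]
      have h16 : (2 : ℝ) ^ d ≤ 2 ^ (d + 1) := pow_le_pow_right₀ (by norm_num) (by omega)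
      exact mul_le_mul_of_nonneg_right h16 (by linarith)

end MPd27c8d
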