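import Mathlib
import Pool.Agent.Lib.MP_d27c8d_nt.Uni

/-!
Two points with small local heights for the same unicritical map.
-/

open Polynomial Finset NumberField Height Real Filter Topology

namespace MPd27c8d

/-- Finite places, two points. -/
lemma two_fin {L : Type*} [Field L] (v : AbsoluteValue L ℝ) (hv : IsNonarchimedean v)
    (d : ℕ) (hd2 : 2 ≤ d) (ζ : Fin d → L) (hX : (X ^ d - 1 : L[X]) = ∏ i, (X - C (ζ i)))
    (h z z' : L) (E : ℝ) (hE : 1 ≤ E) (n : ℕ) (hn : 1 ≤ n)
    (hz : v ((fun y => y ^ d + h)^[n] z) ≤ E ^ (d ^ n))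
    (hz' : v ((fun y => y ^ d + h)^[n] z') ≤ E ^ (d ^ n)) :
    ∃ i, v (d : L) * v (z' - ζ i * z) ≤ E ^ d := by
  classical
  have hd0 : d ≠ 0 := by omega
  set f : L → L := fun y => y ^ d + h with hf
  have hvd : v (d : L) ≤ 1 := by
    have := hv.apply_intCast_le_one (f := v) (n := (d : ℤ))
    exact_mod_cast this
  have hvd0 : 0 ≤ v (d : L) := v.nonneg _
  have hmax : ∀ x y : L, v y < v x → v (x + y) = v x := by
    intro x y hxy
    apply le_antisymm
    · exact (hv x y).trans (max_le le_rfl hxy.le)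
    · have h1 := hv (x + y) (-y)
      rw [add_neg_cancel_right, v.map_neg] at h1
      rcases le_max_iff.mp h1 with h2 | h2
      · exact h2
      · exact absurd h2 (not_le.mpr hxy)
  have hesc : ∀ y, 1 < v y → v h < v y ^ d → ∀ k, v (f^[k] y) = v y ^ (d ^ k) := by
    intro y h1 h2 k
    induction k with
    | zero => simp
    | succ k ih =>
      rw [Function.iterate_succ_apply']
      have h3 : v h < v ((f^[k] y) ^ d) := by
        rw [map_pow, ih, ← pow_mul]
        refine lt_of_lt_of_le h2 (pow_le_pow_right₀ h1.le ?_)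
        exact Nat.le_mul_of_pos_left d (pow_pos (by omega) k)
      have h4 : f (f^[k] y) = (f^[k] y) ^ d + h := rfl
      rw [h4, hmax _ _ h3, map_pow, ih, ← pow_mul, ← pow_succ]
  have hk : ∀ z, v (f^[n] z) ≤ E ^ (d ^ n) → ∀ k, k ≤ n → (v (f^[k] z) ≤ 1 ∨
      v (f^[k] z) ^ d ≤ v h ∨ v (f^[k] z) ≤ E ^ (d ^ k)) := by
    intro z hz k hkn
    by_contra hcon
    push Not at hcon
    obtain ⟨h1, h2, h3⟩ := hcon
    have h4 := hesc _ h1 h2 (n - k)
    rw [← Function.iterate_add_apply, Nat.sub_add_cancel hkn] at h4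
    rw [h4] at hz
    have h5 : E ^ (d ^ n) = (E ^ (d ^ k)) ^ (d ^ (n - k)) := by
      rw [← pow_mul, ← pow_add, Nat.add_sub_cancel' hkn]
    rw [h5] at hz
    exact absurd hz (not_le.mpr (pow_lt_pow_left₀ h3 (by positivity) (pow_ne_zero _ hd0)))
  have hk0 := hk z hz 0 (by omega)
  have hk1 := hk z hz 1 (by omega)
  have hk0' := hk z' hz' 0 (by omega)
  have hk1' := hk z' hz' 1 (by omega)
  have e0 : ∀ z, f^[0] z = z := fun z => rfl
  have e1 : ∀ z, f^[1] z = z ^ d + h := fun z => rfl
  rw [e0, pow_zero, pow_one] at hk0 hk0'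
  rw [e1, pow_one] at hk1 hk1'
  have hEd : E ≤ E ^ d := le_self_pow₀ hE hd0
  have hEd1 : 1 ≤ E ^ d := one_le_pow₀ hE
  have hfinish : v z ≤ E → v z' ≤ E → ∃ i, v (d : L) * v (z' - ζ i * z) ≤ E ^ d := by
    intro h1 h2
    refine ⟨⟨0, by omega⟩, ?_⟩
    have h3 : v (z' - ζ ⟨0, by omega⟩ * z) ≤ E := by
      have h4 := hv z' (-(ζ ⟨0, by omega⟩ * z))
      rw [← sub_eq_add_neg, v.map_neg, map_mul, abv_root d ζ hX v hd0, one_mul] at h4
      exact h4.trans (max_le h2 h1)
    calc v (d : L) * v (z' - ζ ⟨0, by omega⟩ * z) ≤ 1 * E :=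
          mul_le_mul hvd h3 (v.nonneg _) zero_le_one
      _ ≤ E ^ d := by rw [one_mul]; exact hEd
  have hle1 : ∀ x : ℝ, 0 ≤ x → x ^ d ≤ 1 → x ≤ 1 := by
    intro x hx hx2
    by_contra hcon
    push Not at hcon
    exact absurd hx2 (not_le.mpr (one_lt_pow₀ hcon hd0))
  -- if one point is small, `h` is small
  have hsmall : ∀ z : L, 1 < v h → (v (z ^ d + h) ≤ 1 ∨ v (z ^ d + h) ^ d ≤ v h ∨
      v (z ^ d + h) ≤ E ^ d) → v z ^ d < v h → v h ≤ E ^ d := by
    intro z hH hk1 ha
    have hw1 : v (z ^ d + h) = v h := by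
      rw [add_comm, hmax h (z ^ d) (by rw [map_pow]; exact ha)]
    rw [hw1] at hk1
    rcases hk1 with h1 | h1 | h1
    · linarith
    · exfalso
      have : v h < v h ^ d := by
        calc v h = v h ^ 1 := (pow_one _).symm
          _ < v h ^ d := pow_lt_pow_right₀ hH (by omega)
      linarith
    · exact h1
  have hbd : v h ≤ E ^ d → ∀ z : L, (v z ≤ 1 ∨ v z ^ d ≤ v h ∨ v z ≤ E) → v z ≤ E := by
    intro hh z hz
    rcases hz with h1 | h1 | h1
    · linarith
    · exact le_of_pow_le_pow_left₀ hd0 (by linarith) (h1.trans hh)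
    · exact h1
  rcases le_or_gt (v h) 1 with hH | hH
  · have hh : v h ≤ E ^ d := hH.trans hEd1
    exact hfinish (hbd hh z hk0) (hbd hh z' hk0')
  · rcases lt_or_ge (v z ^ d) (v h) with ha | ha
    · have hh := hsmall z hH hk1 ha
      exact hfinish (hbd hh z hk0) (hbd hh z' hk0')
    · rcases lt_or_ge (v z' ^ d) (v h) with ha' | ha'
      · have hh := hsmall z' hH hk1' ha'
        exact hfinish (hbd hh z hk0) (hbd hh z' hk0')
      · have ha1 : 1 < v z := by
          by_contra hcon
          push Not at hcon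
          have := pow_le_one₀ (v.nonneg z) hcon (n := d)
          linarith
        obtain ⟨i0, -, hi0⟩ := Finset.exists_min_image (univ : Finset (Fin d))
          (fun i => v (z' - ζ i * z)) ⟨⟨0, by omega⟩, by simp⟩
        refine ⟨i0, ?_⟩
        have hprod : v (z' - ζ i0 * z) * (v (d : L) * v z ^ (d - 1)) ≤ v (z' ^ d - z ^ d) := by
          rw [pow_sub_pow_eq d ζ hX z' z, map_prod,
            ← Finset.mul_prod_erase univ (fun i => v (z' - ζ i * z)) (Finset.mem_univ i0)]
          apply mul_le_mul_of_nonneg_left _ (v.nonneg _)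
          rw [← prod_abv_root_sub d ζ hX v hd0 i0]
          have h1 : v z ^ (d - 1) = ∏ i ∈ univ.erase i0, v z := by
            rw [Finset.prod_const, Finset.card_erase_of_mem (Finset.mem_univ _),
              Finset.card_univ, Fintype.card_fin]
          rw [h1, ← Finset.prod_mul_distrib]
          apply Finset.prod_le_prod
          · intro i _; exact mul_nonneg (v.nonneg _) (v.nonneg _)
          · intro i hi
            have h2 := hi0 i (Finset.mem_univ i)
            have h3 : (ζ i0 - ζ i) * z = (z' - ζ i * z) + -(z' - ζ i0 * z) := by ring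
            have h4 := hv (z' - ζ i * z) (-(z' - ζ i0 * z))
            rw [← h3, map_mul, v.map_neg] at h4
            exact h4.trans (max_le le_rfl h2)
        have hww : z' ^ d - z ^ d = (z' ^ d + h) + (-(z ^ d + h)) := by ring
        have hz0 : 0 ≤ v z := v.nonneg z
        have hb1 : ∀ w : L, (v w ≤ 1 ∨ v w ^ d ≤ v h ∨ v w ≤ E ^ d) → v w ≤ v z * E ^ d := by
          intro w hk
          rcases hk with h1 | h1 | h1
          · nlinarith
          · have h2 : v w ≤ v z := le_of_pow_le_pow_left₀ hd0 hz0 (h1.trans ha)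
            nlinarith
          · nlinarith
        have hb : v (z' ^ d - z ^ d) ≤ v z * E ^ d := by
          rw [hww]
          refine (hv _ _).trans (max_le (hb1 _ hk1') ?_)
          rw [v.map_neg]; exact hb1 _ hk1
        have h5 := hprod.trans hb
        have h6 : v z ≤ v z ^ (d - 1) := le_self_pow₀ ha1.le (by omega)
        have h7 : (v (d : L) * v (z' - ζ i0 * z)) * v z ≤ v z * E ^ d := by
          calc (v (d : L) * v (z' - ζ i0 * z)) * v z
              ≤ (v (d : L) * v (z' - ζ i0 * z)) * v z ^ (d - 1) :=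
                mul_le_mul_of_nonneg_left h6 (mul_nonneg hvd0 (v.nonneg _))
            _ = v (z' - ζ i0 * z) * (v (d : L) * v z ^ (d - 1)) := by ring
            _ ≤ _ := h5
        have h8 : 0 < v z := by linarith
        rw [mul_comm (v z)] at h7
        exact le_of_mul_le_mul_right h7 h8

/-- Infinite places, two points. -/
lemma two_inf {L : Type*} [Field L] (v : AbsoluteValue L ℝ)
    (d : ℕ) (hd2 : 2 ≤ d) (hvd : v (d : L) = d) (ζ : Fin d → L)
    (hX : (X ^ d - 1 : L[X]) = ∏ i, (X - C (ζ i)))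
    (h z z' : L) (E : ℝ) (hE : 1 ≤ E) (n : ℕ) (hn : 1 ≤ n)
    (hz : v ((fun y => y ^ d + h)^[n] z) ≤ E ^ (d ^ n))
    (hz' : v ((fun y => y ^ d + h)^[n] z') ≤ E ^ (d ^ n)) :
    ∃ i, v (z' - ζ i * z) ≤ 2 ^ (d + 1) * E ^ d := by
  classical
  have hd0 : d ≠ 0 := by omega
  set f : L → L := fun y => y ^ d + h with hf
  have hlow : ∀ x y : L, v x - v y ≤ v (x + y) := by
    intro x y
    have h1 := v.add_le (x + y) (-y)
    rw [add_neg_cancel_right, v.map_neg] at h1
    linarith
  have hesc : ∀ y, 2 ≤ v y → 2 * v h ≤ v y ^ d → ∀ k,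
      2 * (v y / 2) ^ (d ^ k) ≤ v (f^[k] y) := by
    intro y h1 h2 k
    induction k with
    | zero => simp only [pow_zero, pow_one, Function.iterate_zero, id]; linarith
    | succ k ih =>
      rw [Function.iterate_succ_apply']
      set x := f^[k] y with hx
      have h3 : v y ≤ v x := by
        refine le_trans ?_ ih
        have h4 : v y / 2 ≤ (v y / 2) ^ (d ^ k) :=
          le_self_pow₀ (by linarith) (pow_ne_zero _ hd0)
        linarith
      have h5 : v x ^ d / 2 ≤ v (f x) := by
        have h6 := hlow (x ^ d) h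
        rw [map_pow] at h6
        have h7 : v y ^ d ≤ v x ^ d := pow_le_pow_left₀ (v.nonneg y) h3 d
        show v x ^ d / 2 ≤ v (x ^ d + h)
        linarith
      refine le_trans ?_ h5
      rw [pow_succ d k, pow_mul]
      have h8 : (v y / 2) ^ (d ^ k) ≤ v x / 2 := by linarith
      have h0 : 0 ≤ v y / 2 := by linarith
      have h9 := pow_le_pow_left₀ (pow_nonneg h0 _) h8 d
      have h10 : (v x / 2) ^ d ≤ v x ^ d / 4 := by
        rw [div_pow]
        apply div_le_div_of_nonneg_left (pow_nonneg (v.nonneg x) d) (by norm_num)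
        calc (4 : ℝ) = 2 ^ 2 := by norm_num
          _ ≤ 2 ^ d := pow_le_pow_right₀ (by norm_num) hd2
      linarith
  have hk : ∀ z, v (f^[n] z) ≤ E ^ (d ^ n) → ∀ k, k ≤ n → (v (f^[k] z) < 2 ∨
      v (f^[k] z) ^ d < 2 * v h ∨ v (f^[k] z) ≤ 2 * E ^ (d ^ k)) := by
    intro z hz k hkn
    by_contra hcon
    push Not at hcon
    obtain ⟨h1, h2, h3⟩ := hcon
    have h4 := hesc _ h1 h2 (n - k)
    rw [← Function.iterate_add_apply, Nat.sub_add_cancel hkn] at h4
    have h5 : E ^ (d ^ n) = (E ^ (d ^ k)) ^ (d ^ (n - k)) := by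
      rw [← pow_mul, ← pow_add, Nat.add_sub_cancel' hkn]
    rw [h5] at hz
    have h6 : E ^ (d ^ k) < v (f^[k] z) / 2 := by linarith
    have h7 := pow_lt_pow_left₀ h6 (by positivity) (pow_ne_zero (n - k) hd0)
    have h8 : 0 ≤ (v (f^[k] z) / 2) ^ (d ^ (n - k)) := by
      have := v.nonneg (f^[k] z); positivity
    linarith
  have hk0 := hk z hz 0 (by omega)
  have hk1 := hk z hz 1 (by omega)
  have hk0' := hk z' hz' 0 (by omega)
  have hk1' := hk z' hz' 1 (by omega)
  have e0 : ∀ z, f^[0] z = z := fun z => rfl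
  have e1 : ∀ z, f^[1] z = z ^ d + h := fun z => rfl
  rw [e0, pow_zero, pow_one] at hk0 hk0'
  rw [e1, pow_one] at hk1 hk1'
  have hEd : E ≤ E ^ d := le_self_pow₀ hE hd0
  have hEd1 : 1 ≤ E ^ d := one_le_pow₀ hE
  have h2d : (8 : ℝ) ≤ 2 ^ (d + 1) := by
    calc (8 : ℝ) = 2 ^ 3 := by norm_num
      _ ≤ 2 ^ (d + 1) := pow_le_pow_right₀ (by norm_num) (by omega)
  have h4d : (16 : ℝ) ≤ 4 ^ d := by
    calc (16 : ℝ) = 4 ^ 2 := by norm_num
      _ ≤ 4 ^ d := pow_le_pow_right₀ (by norm_num) hd2
  have hz0 : 0 ≤ v z := v.nonneg z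
  have hz0' : 0 ≤ v z' := v.nonneg z'
  have hfinish : v z ≤ 4 * E → v z' ≤ 4 * E →
      ∃ i, v (z' - ζ i * z) ≤ 2 ^ (d + 1) * E ^ d := by
    intro h1 h2
    refine ⟨⟨0, by omega⟩, ?_⟩
    have h4 := v.add_le z' (-(ζ ⟨0, by omega⟩ * z))
    rw [← sub_eq_add_neg, v.map_neg, map_mul, abv_root d ζ hX v hd0, one_mul] at h4
    have h5 : (8 : ℝ) * E ≤ 2 ^ (d + 1) * E ^ d :=
      mul_le_mul h2d hEd (by linarith) (by positivity)
    linarith
  -- if one point is small, `h` is small
  have hsmall : ∀ z : L, 8 < v h → (v (z ^ d + h) < 2 ∨ v (z ^ d + h) ^ d < 2 * v h ∨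
      v (z ^ d + h) ≤ 2 * E ^ d) → v z ^ d < v h / 2 → v h ≤ 4 * E ^ d := by
    intro z hH8 hk1 ha
    have hw1 : v h / 2 < v (z ^ d + h) := by
      have h1 := hlow h (z ^ d)
      rw [map_pow, add_comm h] at h1
      linarith
    rcases hk1 with h1 | h1 | h1
    · linarith
    · exfalso
      have h2 : (v h / 2) ^ d < 2 * v h :=
        lt_of_le_of_lt (pow_le_pow_left₀ (by linarith) hw1.le d) h1
      have h3 : (v h / 2) ^ d = (v h / 2) ^ (d - 1) * (v h / 2) := by
        rw [← pow_succ]; congr 1; omega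
      rw [h3] at h2
      have h4 : (v h / 2) ^ (d - 1) < 4 := by
        by_contra hcon
        push Not at hcon
        have : 4 * (v h / 2) ≤ (v h / 2) ^ (d - 1) * (v h / 2) :=
          mul_le_mul_of_nonneg_right hcon (by linarith)
        linarith
      have h5 : v h / 2 ≤ (v h / 2) ^ (d - 1) := le_self_pow₀ (by linarith) (by omega)
      linarith
    · linarith
  have hbd : 2 * v h ≤ 4 ^ d * E ^ d → ∀ z : L, (v z < 2 ∨ v z ^ d < 2 * v h ∨ v z ≤ 2 * E) →
      v z ≤ 4 * E := by
    intro hh z hz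
    rcases hz with h1 | h1 | h1
    · linarith
    · rw [← mul_pow] at hh
      exact le_of_pow_le_pow_left₀ hd0 (by linarith) (h1.le.trans hh)
    · linarith
  rcases le_or_gt (2 * v h) (4 ^ d) with hH | hH
  · have hh : 2 * v h ≤ 4 ^ d * E ^ d := by nlinarith
    exact hfinish (hbd hh z hk0) (hbd hh z' hk0')
  · have hH8 : 8 < v h := by linarith
    rcases lt_or_ge (v z ^ d) (v h / 2) with ha | ha
    · have hh1 := hsmall z hH8 hk1 ha
      have hh : 2 * v h ≤ 4 ^ d * E ^ d := by nlinarith
      exact hfinish (hbd hh z hk0) (hbd hh z' hk0')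
    · rcases lt_or_ge (v z' ^ d) (v h / 2) with ha' | ha'
      · have hh1 := hsmall z' hH8 hk1' ha'
        have hh : 2 * v h ≤ 4 ^ d * E ^ d := by nlinarith
        exact hfinish (hbd hh z hk0) (hbd hh z' hk0')
      · have ha1 : 1 < v z := by
          by_contra hcon
          push Not at hcon
          have := pow_le_one₀ hz0 hcon (n := d)
          linarith
        obtain ⟨i0, -, hi0⟩ := Finset.exists_min_image (univ : Finset (Fin d))
          (fun i => v (z' - ζ i * z)) ⟨⟨0, by omega⟩, by simp⟩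
        refine ⟨i0, ?_⟩
        have hprod : v (z' - ζ i0 * z) * (d * (v z / 2) ^ (d - 1)) ≤ v (z' ^ d - z ^ d) := by
          rw [pow_sub_pow_eq d ζ hX z' z, map_prod,
            ← Finset.mul_prod_erase univ (fun i => v (z' - ζ i * z)) (Finset.mem_univ i0)]
          apply mul_le_mul_of_nonneg_left _ (v.nonneg _)
          rw [← hvd, ← prod_abv_root_sub d ζ hX v hd0 i0]
          have h1 : (v z / 2) ^ (d - 1) = ∏ i ∈ univ.erase i0, (v z / 2) := by
            rw [Finset.prod_const, Finset.card_erase_of_mem (Finset.mem_univ _),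
              Finset.card_univ, Fintype.card_fin]
          rw [h1, ← Finset.prod_mul_distrib]
          apply Finset.prod_le_prod
          · intro i _; exact mul_nonneg (v.nonneg _) (by linarith)
          · intro i hi
            have h2 := hi0 i (Finset.mem_univ i)
            have h3 : (ζ i0 - ζ i) * z = (z' - ζ i * z) + -(z' - ζ i0 * z) := by ring
            have h4 := v.add_le (z' - ζ i * z) (-(z' - ζ i0 * z))
            rw [← h3, map_mul, v.map_neg] at h4
            linarith
        have hww : z' ^ d - z ^ d = (z' ^ d + h) + (-(z ^ d + h)) := by ring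
        have hpow2 : 4 * v z ^ d ≤ (2 * v z) ^ d := by
          rw [mul_pow]
          have : (4 : ℝ) ≤ 2 ^ d := by
            calc (4 : ℝ) = 2 ^ 2 := by norm_num
              _ ≤ 2 ^ d := pow_le_pow_right₀ (by norm_num) hd2
          have h5 : 0 ≤ v z ^ d := by positivity
          nlinarith
        have hbnd : ∀ w : L, (v w < 2 ∨ v w ^ d < 2 * v h ∨ v w ≤ 2 * E ^ d) →
            v w ≤ 2 * (v z * E ^ d) := by
          intro w hor
          rcases hor with h1 | h1 | h1
          · nlinarith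
          · have h2 : v w ^ d ≤ (2 * v z) ^ d := by linarith
            have h3 := le_of_pow_le_pow_left₀ hd0 (by linarith) h2
            nlinarith
          · nlinarith
        have hb : v (z' ^ d - z ^ d) ≤ 4 * (v z * E ^ d) := by
          rw [hww]
          refine (v.add_le _ _).trans ?_
          rw [v.map_neg]
          have := hbnd _ hk1
          have := hbnd _ hk1'
          linarith
        have h5 := hprod.trans hb
        have hm0 : 0 ≤ v (z' - ζ i0 * z) := v.nonneg _
        have hdR : (2 : ℝ) ≤ d := by exact_mod_cast hd2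
        have h7 : v z ≤ v z ^ (d - 1) := le_self_pow₀ ha1.le (by omega)
        have h8 : (v z / 2) ^ (d - 1) = v z ^ (d - 1) / 2 ^ (d - 1) := by rw [div_pow]
        rw [h8] at h5
        have h9 : (0 : ℝ) < 2 ^ (d - 1) := by positivity
        have h10 : v (z' - ζ i0 * z) * (2 * (v z / 2 ^ (d - 1))) ≤ 4 * (v z * E ^ d) := by
          refine le_trans ?_ h5
          apply mul_le_mul_of_nonneg_left _ hm0
          apply mul_le_mul hdR _ (by positivity) (by positivity)
          exact div_le_div_of_nonneg_right h7 h9.le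
        have h11 : v (z' - ζ i0 * z) * v z ≤ (2 ^ (d - 1) * 2 * E ^ d) * v z := by
          have h12 : v (z' - ζ i0 * z) * (2 * (v z / 2 ^ (d - 1))) * (2 ^ (d - 1) / 2) =
              v (z' - ζ i0 * z) * v z := by
            field_simp
          rw [← h12]
          have h13 := mul_le_mul_of_nonneg_right h10 (by positivity : (0 : ℝ) ≤ 2 ^ (d - 1) / 2)
          refine h13.trans (le_of_eq ?_)
          ring
        have h14 := le_of_mul_le_mul_right h11 (by linarith)
        refine h14.trans ?_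
        have h15 : (2 : ℝ) ^ (d - 1) * 2 = 2 ^ d := by
          rw [← pow_succ]; congr 1; omega
        rw [h15]
        have h16 : (2 : ℝ) ^ d ≤ 2 ^ (d + 1) := pow_le_pow_right₀ (by norm_num) (by omega)
        exact mul_le_mul_of_nonneg_right h16 (by linarith)

end MPd27c8d
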