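import Mathlib
import Pool.Agent.Lib.MP_d27c8d_nt.Seq

/-!
Choice of blocks of nodes in an infinite sequence of integers, and the theorem for
polynomial progressions along such a sequence.
-/

open Polynomial Finset NumberField Height Real Filter Topology

namespace MPd27c8d

/-- Product of all differences of the first `N` terms of a sequence. -/
def seqDisc (c : ℕ → ℤ) (N : ℕ) : ℕ :=
  ∏ p ∈ (range N).offDiag, (c p.1 - c p.2).natAbs

lemma nodeDisc_le_seqDisc (c : ℕ → ℤ) (hc : Function.Injective c) (N n : ℕ) (e : Fin n → ℕ)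
    (he : Function.Injective e) (hN : ∀ i, e i < N) :
    nodeDisc (fun i => c (e i)) ≤ seqDisc c N := by
  classical
  rw [nodeDisc, seqDisc]
  have h1 : ∏ p ∈ (univ : Finset (Fin n)).offDiag, (c (e p.1) - c (e p.2)).natAbs =
      ∏ p ∈ ((univ : Finset (Fin n)).offDiag).image (fun p => (e p.1, e p.2)),
        (c p.1 - c p.2).natAbs := by
    rw [Finset.prod_image]
    intro x _ y _ hxy
    have h2 := (Prod.mk.inj hxy)
    exact Prod.ext (he h2.1) (he h2.2)
  rw [h1]
  apply Finset.prod_le_prod_of_subset_of_one_le'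
  · intro p hp
    obtain ⟨q, hq, rfl⟩ := Finset.mem_image.mp hp
    rw [Finset.mem_offDiag] at hq ⊢
    refine ⟨Finset.mem_range.mpr (hN _), Finset.mem_range.mpr (hN _), ?_⟩
    intro h; exact hq.2.2 (he h)
  · intro p hp _
    rw [Finset.mem_offDiag] at hp
    apply Nat.one_le_iff_ne_zero.mpr
    intro h
    apply hp.2.2
    apply hc
    have := Int.natAbs_eq_zero.mp h
    omega

/-- An infinite sequence of integers has terms far away from finitely many given ones. -/
lemma exists_far (c : ℕ → ℤ) (hc : Function.Injective c) (q : ℝ) (A : Finset ℤ) :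
    ∃ j, ∀ a ∈ A, q ≤ |((c j - a : ℤ) : ℝ)| := by
  classical
  by_contra hcon
  push Not at hcon
  obtain ⟨Q, hQ⟩ := exists_nat_gt q
  -- all terms lie in a finite set
  have hfin : Set.range c ⊆ ((A.biUnion fun a => Finset.Icc (a - Q) (a + Q) : Finset ℤ) :
      Set ℤ) := by
    rintro _ ⟨j, rfl⟩
    obtain ⟨a, ha, hlt⟩ := hcon j
    rw [Finset.mem_coe, Finset.mem_biUnion]
    refine ⟨a, ha, ?_⟩
    have h1 : |((c j - a : ℤ) : ℝ)| < (Q : ℝ) := hlt.trans hQ
    rw [← Int.cast_abs] at h1
    have h2 : |c j - a| < (Q : ℤ) := by exact_mod_cast h1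
    rw [abs_lt] at h2
    rw [Finset.mem_Icc]
    constructor <;> omega
  exact Set.infinite_range_of_injective hc ((Finset.finite_toSet _).subset hfin)

/-- Arbitrarily long blocks of terms with large mutual distances. -/
lemma exists_block (c : ℕ → ℤ) (hc : Function.Injective c) (q : ℝ) (hq : 0 < q) (s : ℕ) :
    ∃ e : Fin s → ℕ, Function.Injective e ∧
      ∀ i j, i ≠ j → q ≤ |((c (e i) - c (e j) : ℤ) : ℝ)| := by
  classical
  induction s with
  | zero => exact ⟨fun i => i.elim0, fun i => i.elim0, fun i => i.elim0⟩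
  | succ s ih =>
    obtain ⟨e, he, hd⟩ := ih
    obtain ⟨j0, hj0⟩ := exists_far c hc q (univ.image fun i => c (e i))
    have hj1 : ∀ i, q ≤ |((c j0 - c (e i) : ℤ) : ℝ)| := fun i =>
      hj0 _ (Finset.mem_image_of_mem _ (mem_univ _))
    have hne : ∀ i, j0 ≠ e i := by
      intro i h
      have := hj1 i
      rw [h, sub_self] at this
      norm_num at this
      linarith
    refine ⟨Fin.cons j0 e, ?_, ?_⟩
    · intro i j hij
      induction i using Fin.cases with
      | zero =>
        induction j using Fin.cases with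
        | zero => rfl
        | succ j =>
          rw [Fin.cons_zero, Fin.cons_succ] at hij
          exact absurd hij (hne j)
      | succ i =>
        induction j using Fin.cases with
        | zero =>
          rw [Fin.cons_zero, Fin.cons_succ] at hij
          exact absurd hij.symm (hne i)
        | succ j =>
          rw [Fin.cons_succ, Fin.cons_succ] at hij
          rw [he hij]
    · intro i j hij
      induction i using Fin.cases with
      | zero =>
        induction j using Fin.cases with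
        | zero => exact absurd rfl hij
        | succ j =>
          rw [Fin.cons_zero, Fin.cons_succ]
          exact hj1 j
      | succ i =>
        induction j using Fin.cases with
        | zero =>
          rw [Fin.cons_zero, Fin.cons_succ]
          have := hj1 i
          rw [← Int.cast_abs, abs_sub_comm, Int.cast_abs]
          exact this
        | succ j =>
          rw [Fin.cons_succ, Fin.cons_succ]
          exact hd i j (fun h => hij (by rw [h]))

/-- Two blocks of one colour, the second very spread out compared to the first. -/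
lemma exists_two_blocks (c : ℕ → ℤ) (hc : Function.Injective c) (n m : ℕ)
    (Q : ℝ) (hQ : 0 < Q) :
    ∃ ℓ : ℕ, ∀ τ : ℕ → Fin m, ∃ (t : Fin m) (e₁ e₂ : Fin n → ℕ),
      Function.Injective e₁ ∧ Function.Injective e₂ ∧ (∀ i, e₁ i < ℓ) ∧ (∀ i, e₂ i < ℓ) ∧
      (∀ i, τ (e₁ i) = t) ∧ (∀ i, τ (e₂ i) = t) ∧
      ∀ i j, i ≠ j → Q * (nodeDisc (fun i => c (e₁ i)) : ℕ) ≤
        |((c (e₂ i) - c (e₂ j) : ℤ) : ℝ)| := by
  classical
  have hdisc : ∀ N, 0 < seqDisc c N := by
    intro N
    apply Nat.pos_of_ne_zero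
    rw [seqDisc, Finset.prod_ne_zero_iff]
    intro p hp h
    rw [Finset.mem_offDiag] at hp
    apply hp.2.2
    apply hc
    have := Int.natAbs_eq_zero.mp h
    omega
  -- one step
  have hstep : ∀ N : ℕ, ∃ N' : ℕ, N ≤ N' ∧ ∃ e : Fin (m * n + 1) → ℕ, Function.Injective e ∧
      (∀ i, e i < N') ∧ ∀ i j, i ≠ j → Q * (seqDisc c N : ℕ) ≤
        |((c (e i) - c (e j) : ℤ) : ℝ)| := by
    intro N
    have h0 : (0 : ℝ) < Q * (seqDisc c N : ℕ) := by
      have := hdisc N
      have : (0 : ℝ) < (seqDisc c N : ℕ) := by exact_mod_cast this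
      positivity
    obtain ⟨e, he, hd⟩ := exists_block c hc (Q * (seqDisc c N : ℕ)) h0 (m * n + 1)
    refine ⟨N + (∑ i, (e i + 1)), Nat.le_add_right _ _, e, he, ?_, hd⟩
    intro i
    have : e i + 1 ≤ ∑ i, (e i + 1) :=
      Finset.single_le_sum (f := fun i => e i + 1) (fun _ _ => Nat.zero_le _) (mem_univ i)
    omega
  choose F hF1 E hE1 hE2 hE3 using hstep
  set L : ℕ → ℕ := fun k => F^[k] 0 with hL
  have hLs : ∀ k, L (k + 1) = F (L k) := by
    intro k; simp only [hL]; rw [Function.iterate_succ_apply']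
  have hLmono : Monotone L := by
    apply monotone_nat_of_le_succ
    intro k; rw [hLs]; exact hF1 _
  refine ⟨L (m + 1), ?_⟩
  intro τ
  -- a colour class in each block
  have hcol : ∀ k : ℕ, ∃ t : Fin m, ∃ e : Fin n → Fin (m * n + 1), Function.Injective e ∧
      ∀ i, τ (E (L k) (e i)) = t := by
    intro k
    obtain ⟨t, ht⟩ := Fintype.exists_lt_card_fiber_of_mul_lt_card
      (fun i : Fin (m * n + 1) => τ (E (L k) i)) (n := n)
      (by rw [Fintype.card_fin, Fintype.card_fin]; omega)
    obtain ⟨T, hTS, hT⟩ := Finset.exists_subset_card_eq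
      (s := (univ : Finset (Fin (m * n + 1))).filter (fun x => τ (E (L k) x) = t)) (n := n)
      (by omega)
    let e := (T.equivFinOfCardEq hT).symm
    refine ⟨t, fun i => (e i : Fin (m * n + 1)), ?_, ?_⟩
    · intro i j hij
      exact e.injective (Subtype.ext hij)
    · intro i
      exact (Finset.mem_filter.mp (hTS (e i).2)).2
  choose t e het hτ using hcol
  -- two blocks with the same colour
  obtain ⟨k, k', hkk, htt⟩ : ∃ k k' : Fin (m + 1), (k : ℕ) < k' ∧ t k = t k' := by
    obtain ⟨x, y, hxy, h⟩ := Fintype.exists_ne_map_eq_of_card_lt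
      (fun k : Fin (m + 1) => t k) (by simp)
    rcases lt_or_gt_of_ne (fun h => hxy (Fin.ext h) : (x : ℕ) ≠ y) with h1 | h1
    · exact ⟨x, y, h1, h⟩
    · exact ⟨y, x, h1, h.symm⟩
  have hk1 : L ((k : ℕ) + 1) ≤ L k' := hLmono hkk
  have hk2 : L ((k' : ℕ) + 1) ≤ L (m + 1) := hLmono (by have := k'.2; omega)
  have hlt1 : ∀ i, E (L k) (e k i) < L k' := fun i =>
    lt_of_lt_of_le (by rw [hLs] at hk1; exact hE2 (L k) (e k i)) (by rw [hLs] at hk1; exact hk1)
  have hlt2 : ∀ i, E (L k') (e k' i) < L (m + 1) := fun i =>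
    lt_of_lt_of_le (hE2 (L k') (e k' i)) (by rw [hLs] at hk2; exact hk2)
  have hinj1 : Function.Injective (fun i => E (L k) (e k i)) :=
    fun i j h => het k (hE1 (L k) h)
  have hinj2 : Function.Injective (fun i => E (L k') (e k' i)) :=
    fun i j h => het k' (hE1 (L k') h)
  refine ⟨t k, fun i => E (L k) (e k i), fun i => E (L k') (e k' i), hinj1, hinj2, ?_, hlt2,
    fun i => hτ k i, fun i => by rw [htt]; exact hτ k' i, ?_⟩
  · intro i
    exact lt_of_lt_of_le (hlt1 i) (hLmono (by have := k'.2; omega))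
  · intro i j hij
    have h1 := hE3 (L k') (e k' i) (e k' j) (fun h => hij (het k' h))
    refine le_trans ?_ h1
    apply mul_le_mul_of_nonneg_left _ hQ.le
    exact_mod_cast nodeDisc_le_seqDisc c hc (L k') n _ hinj1 hlt1

/-- A sum over a block is at most the sum over the initial segment. -/
lemma sum_block_le (n ℓ : ℕ) (e : Fin n → ℕ) (he : Function.Injective e) (hℓ : ∀ i, e i < ℓ)
    (F : ℕ → ℝ) (hF : ∀ j, 0 ≤ F j) : ∑ i, F (e i) ≤ ∑ j ∈ range ℓ, F j := by
  classical
  have h1 : ∑ i, F (e i) = ∑ j ∈ univ.image e, F j := by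
    rw [Finset.sum_image]
    intro x _ y _ h; exact he h
  rw [h1]
  apply Finset.sum_le_sum_of_subset_of_nonneg
  · intro x hx
    obtain ⟨i, _, rfl⟩ := Finset.mem_image.mp hx
    exact Finset.mem_range.mpr (hℓ i)
  · intro j _ _; exact hF j

/-- **Polynomial progressions along an infinite sequence of integers.** -/
theorem sequence_theorem (c : ℕ → ℤ) (hc : Function.Injective c) (d r m : ℕ) (A : ℝ)
    (hd : 2 ≤ d) :
    ∃ ℓ : ℕ, ∀ (f : Fin m → Qbar[X]) (τ : ℕ → Fin m) (g : Qbar[X]),
      (∀ i, (f i).natDegree = d) → 1 ≤ g.natDegree → g.natDegree ≤ r →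
      A ≤ ∑ j ∈ range ℓ, canonicalHeight (f (τ j)) (g.eval ((c j : ℤ) : Qbar)) := by
  set n := d * r + 1 with hn
  have hr0 : (0 : ℝ) < (r : ℝ) + 1 := by positivity
  set Q : ℝ := 8 * (r + 1) * exp (4 * |A|) with hQdef
  have hQ1 : 1 ≤ Q := by
    have h1 : 1 ≤ exp (4 * |A|) := one_le_exp (by positivity)
    have h2 : (0 : ℝ) ≤ r := Nat.cast_nonneg _
    rw [hQdef]; nlinarith
  have hQ0 : 0 < Q := by linarith
  obtain ⟨ℓ, hℓ⟩ := exists_two_blocks c hc n m Q hQ0
  refine ⟨ℓ, ?_⟩
  intro f τ g hf hg1 hgr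
  obtain ⟨t, e₁, e₂, he1, he2, hl1, hl2, ht1, ht2, hdist⟩ := hℓ τ
  have hnn : ∀ j, 0 ≤ canonicalHeight (f (τ j)) (g.eval ((c j : ℤ) : Qbar)) := fun j =>
    canonicalHeight_nonneg _ (by rw [hf]; exact hd) _
  have hM : (1 : ℝ) ≤ (nodeDisc (fun i => c (e₁ i)) : ℕ) := by
    have := Nat.one_le_iff_ne_zero.mpr (nodeDisc_ne_zero (fun i => c (e₁ i))
      (fun i j h => he1 (hc h)))
    exact_mod_cast this
  have h := seq_Q (f t) d r n (hf t) hd g hg1 hgr (by omega) (fun i => c (e₁ i))
    (fun i => c (e₂ i)) (fun i j h => he1 (hc h))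
    (Q * (nodeDisc (fun i => c (e₁ i)) : ℕ)) (by nlinarith) hdist
  have h1 : ∑ i, canonicalHeight (f t) (g.eval ((c (e₁ i) : ℤ) : Qbar)) ≤
      ∑ j ∈ range ℓ, canonicalHeight (f (τ j)) (g.eval ((c j : ℤ) : Qbar)) := by
    have h2 := sum_block_le n ℓ e₁ he1 hl1
      (fun j => canonicalHeight (f (τ j)) (g.eval ((c j : ℤ) : Qbar))) hnn
    simp only [ht1] at h2
    exact h2
  have h2 : ∑ i, canonicalHeight (f t) (g.eval ((c (e₂ i) : ℤ) : Qbar)) ≤
      ∑ j ∈ range ℓ, canonicalHeight (f (τ j)) (g.eval ((c j : ℤ) : Qbar)) := by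
    have h3 := sum_block_le n ℓ e₂ he2 hl2
      (fun j => canonicalHeight (f (τ j)) (g.eval ((c j : ℤ) : Qbar))) hnn
    simp only [ht2] at h3
    exact h3
  have h3 : Q * (nodeDisc (fun i => c (e₁ i)) : ℕ) / (r + 1) /
      (8 * (nodeDisc (fun i => c (e₁ i)) : ℕ)) = exp (4 * |A|) := by
    have : (nodeDisc (fun i => c (e₁ i)) : ℝ) ≠ 0 := by linarith
    rw [hQdef]; field_simp
  rw [h3, log_exp] at h
  have h4 := le_abs_self A
  linarith

end MPd27c8d
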