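import Mathlib
import Pool.Agent.Lib.MP_d27c8d_nt.Uni

/-!
Unicritical maps with moving parameters: global statement over a number field.
-/

open Polynomial Finset NumberField Height Real Filter Topology

namespace MPd27c8d

variable {K : Type*} [Field K] [NumberField K]

/-- Assembly with the product formula. -/
theorem assemble (N : ℕ) (y : Fin N → K) (b : K) (hb : b ≠ 0) (M : ℕ) (hM : M ≠ 0)
    (lam : ℝ) (hlam : 0 < lam) (c : ℝ)
    (hfin : ∀ v : FinitePlace K, log (v b) + log (v (M : K)) ≤ c * ∑ i, log⁺ (v (y i)))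
    (hinf : ∀ v : InfinitePlace K, log (v b) + log lam ≤ c * ∑ i, log⁺ (v (y i))) :
    (Module.finrank ℚ K : ℝ) * log (lam / M) ≤ c * ∑ i, logHeight₁ (y i) := by
  classical
  have hMK : (M : K) ≠ 0 := by exact_mod_cast hM
  choose S hS using fun x : K => exists_support x
  set T : Finset (FinitePlace K) := S b ∪ S (M : K) ∪ (univ.biUnion fun i => S (y i)) with hT
  have hTb : ∀ v, v ∉ T → (v b = 1 ∨ b = 0) := by
    intro v hv; apply hS; intro h; apply hv; simp [hT, h]
  have hTM : ∀ v, v ∉ T → (v (M : K) = 1 ∨ (M : K) = 0) := by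
    intro v hv; apply hS; intro h; apply hv; simp [hT, h]
  have hTy : ∀ i, ∀ v, v ∉ T → (v (y i) = 1 ∨ y i = 0) := by
    intro i v hv; apply hS; intro h; apply hv
    simp only [hT, Finset.mem_union, Finset.mem_biUnion, Finset.mem_univ, true_and]
    exact Or.inr ⟨i, h⟩
  have h1 : ∑ v : InfinitePlace K, (v.mult : ℝ) * (log (v b) + log lam) ≤
      ∑ v : InfinitePlace K, (v.mult : ℝ) * (c * ∑ i, log⁺ (v (y i))) :=
    Finset.sum_le_sum fun v _ => mul_le_mul_of_nonneg_left (hinf v) (Nat.cast_nonneg _)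
  have h2 : ∑ v ∈ T, (log (v b) + log (v (M : K))) ≤ ∑ v ∈ T, c * ∑ i, log⁺ (v (y i)) :=
    Finset.sum_le_sum fun v _ => hfin v
  have p2 := log_product_formula hb T hTb
  have p3 := log_product_formula hMK T hTM
  have hinfM : ∀ v : InfinitePlace K, v (M : K) = (M : ℝ) := by
    intro v
    rw [← InfinitePlace.norm_embedding_eq, map_natCast]
    simp
  have hsm : ∑ v : InfinitePlace K, (v.mult : ℝ) = (Module.finrank ℚ K : ℝ) := by
    rw [← InfinitePlace.sum_mult_eq (K := K)]; push_cast; rfl
  have p3' : ∑ v ∈ T, log (v (M : K)) = - ((Module.finrank ℚ K : ℝ) * log M) := by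
    have : ∑ v : InfinitePlace K, (v.mult : ℝ) * log (v (M : K)) =
        (Module.finrank ℚ K : ℝ) * log M := by
      rw [← hsm, Finset.sum_mul]
      apply Finset.sum_congr rfl
      intro v _
      rw [hinfM]
    linarith
  have l1 : ∑ v : InfinitePlace K, (v.mult : ℝ) * (log (v b) + log lam) =
      ∑ v : InfinitePlace K, (v.mult : ℝ) * log (v b) + (Module.finrank ℚ K : ℝ) * log lam := by
    rw [← hsm, Finset.sum_mul, ← Finset.sum_add_distrib]
    exact Finset.sum_congr rfl fun v _ => by ring
  have l2 : ∑ v ∈ T, (log (v b) + log (v (M : K))) =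
      ∑ v ∈ T, log (v b) + ∑ v ∈ T, log (v (M : K)) := Finset.sum_add_distrib
  have hlogs : log (lam / M) = log lam - log M := log_div hlam.ne' (by exact_mod_cast hM)
  have hR : c * ∑ i, logHeight₁ (y i) =
      ∑ v : InfinitePlace K, (v.mult : ℝ) * (c * ∑ i, log⁺ (v (y i))) +
      ∑ v ∈ T, c * ∑ i, log⁺ (v (y i)) := by
    rw [Finset.sum_congr rfl (fun i _ => logHeight_eq_sum (y i) T (hTy i)),
      Finset.sum_add_distrib, mul_add]
    congr 1
    · rw [Finset.sum_comm, Finset.mul_sum]
      apply Finset.sum_congr rfl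
      intro v _
      rw [← Finset.mul_sum]; ring
    · rw [Finset.sum_comm, Finset.mul_sum]
  rw [hR, hlogs]
  rw [l1] at h1
  rw [l2, p3'] at h2
  linarith

/-- Unicritical maps with moving parameters over a number field. -/
theorem uni_K (d r : ℕ) (hd2 : 2 ≤ d) (ζ : Fin d → K)
    (hX : (X ^ d - 1 : K[X]) = ∏ i, (X - C (ζ i))) (φ : K →+* Qbar) (g h : K[X])
    (hg : g.natDegree ≤ r) (hh : h.natDegree ≤ r)
    (hP : g.natDegree < (g ^ d + h).natDegree) :
    log 2 ≤ (d : ℝ) ^ 2 * ∑ i : Fin ((r * d * d + 1) + (r * d * d + 1)),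
      canonicalHeight (X ^ d + C (φ (h.eval ((nodeVal (r * d * d)
        (2 * (r * d + 1) * 2 ^ (d + 1) * (((r * d * d).factorial) ^ (r * d) * d)) i : ℕ) : K))))
      (φ (g.eval ((nodeVal (r * d * d)
        (2 * (r * d + 1) * 2 ^ (d + 1) * (((r * d * d).factorial) ^ (r * d) * d)) i : ℕ) : K)))
      := by
  set n := r * d * d with hn
  set M := (n.factorial) ^ (r * d) * d with hM
  set q := 2 * (r * d + 1) * 2 ^ (d + 1) * M with hq
  set P := g ^ d + h with hPdef
  have hd0 : d ≠ 0 := by omega
  have hM0 : M ≠ 0 := mul_ne_zero (pow_ne_zero _ (Nat.factorial_ne_zero _)) hd0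
  have hq1 : 1 ≤ q := by
    rw [hq]; exact Nat.one_le_iff_ne_zero.mpr (by positivity)
  set b := P.leadingCoeff with hb
  have hb0 : b ≠ 0 := by
    rw [hb, Ne, leadingCoeff_eq_zero]; intro h0; rw [h0] at hP; simp at hP
  have hδ : P.natDegree ≤ r * d := by
    refine (natDegree_add_le _ _).trans (max_le ?_ ?_)
    · refine natDegree_pow_le.trans ?_
      rw [mul_comm d]; exact Nat.mul_le_mul_right d hg
    · exact hh.trans (Nat.le_mul_of_pos_right r (by omega))
  have hδ1 : 1 ≤ P.natDegree := by omega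
  have hm : d * P.natDegree < n + 1 := by
    have : d * P.natDegree ≤ d * (r * d) := Nat.mul_le_mul_left d hδ
    rw [hn, mul_comm (r * d) d]; omega
  have hdR : (0 : ℝ) < d := by exact_mod_cast (by omega : 0 < d)
  -- the shifted polynomials
  have hQ : ∀ t : K, (P - C t * g).natDegree = P.natDegree ∧ (P - C t * g).leadingCoeff = b := by
    intro t
    have h1 : (C t * g).natDegree < P.natDegree := lt_of_le_of_lt (natDegree_C_mul_le t g) hP
    refine ⟨natDegree_sub_eq_left_of_natDegree_lt h1, ?_⟩
    exact leadingCoeff_sub_of_degree_lt (degree_lt_degree h1)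
  set c : Fin ((n + 1) + (n + 1)) → K := fun i => ((nodeVal n q i : ℕ) : K) with hc
  have hPev : ∀ x : K, P.eval x = (g.eval x) ^ d + h.eval x := by
    intro x; rw [hPdef, eval_add, eval_pow]
  have main : ∀ n0, 2 ≤ n0 → (Module.finrank ℚ K : ℝ) * log 2 ≤
      (d : ℝ) ^ 2 / (d : ℝ) ^ n0 *
        ∑ i, logHeight₁ ((fun y => y ^ d + h.eval (c i))^[n0] (g.eval (c i))) := by
    intro n0 hn0
    set y : Fin ((n + 1) + (n + 1)) → K :=
      fun i => (fun y => y ^ d + h.eval (c i))^[n0] (g.eval (c i)) with hy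
    have hdn : (0 : ℝ) < (d : ℝ) ^ n0 := by positivity
    have h2 : (q : ℝ) / ((r * d + 1) * 2 ^ (d + 1)) / M = 2 := by
      rw [hq]; push_cast; field_simp
    rw [← h2]
    apply assemble ((n + 1) + (n + 1)) y b hb0 M hM0 _ (by positivity)
    · intro v
      have hv : IsNonarchimedean v.val := fun x y => FinitePlace.add_le v x y
      set B := ∑ i, log⁺ (v (y i)) with hB
      have hB0 : 0 ≤ B := Finset.sum_nonneg fun _ _ => posLog_nonneg
      set E := exp (B / (d : ℝ) ^ n0) with hE
      have hE1 : 1 ≤ E := one_le_exp (by positivity)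
      have hEn : E ^ (d ^ n0) = exp B := by
        rw [hE, ← exp_nat_mul]; congr 1; push_cast; field_simp
      have hcol : ∀ i, ∃ k, v.val (d : K) *
          v.val ((g.eval (c i) ^ d + h.eval (c i)) - ζ k * g.eval (c i)) ≤ E ^ (d ^ 2) := by
        intro i
        apply uni_fin v.val hv d hd2 ζ hX (h.eval (c i)) (g.eval (c i)) E hE1 n0 hn0
        rw [hEn]
        refine (le_exp_posLog (v.val.nonneg _)).trans (exp_le_exp.mpr ?_)
        exact Finset.single_le_sum (f := fun i => log⁺ (v (y i)))
          (fun _ _ => posLog_nonneg) (Finset.mem_univ i)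
      choose χ hχ using hcol
      obtain ⟨e, he, hmono⟩ := mono_block (n + 1) d P.natDegree hm
        (fun i => χ (Fin.castAdd (n + 1) i))
      set t := ζ (χ (Fin.castAdd (n + 1) (e 0))) with ht
      obtain ⟨j, hj⟩ := lagr_step v.val hv (P - C t * g) P.natDegree (hQ t).1 hδ1
        (fun i => (((e i : Fin (n + 1)) : ℕ) : K)) (by
          intro i j hij
          apply he; apply Fin.ext
          have hij' : (((e i : Fin (n + 1)) : ℕ) : K) = (((e j : Fin (n + 1)) : ℕ) : K) := hij
          exact_mod_cast hij') 0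
      rw [(hQ t).2, sub_zero] at hj
      have h1 : v.val (d : K) * v.val ((P - C t * g).eval (((e j : Fin (n + 1)) : ℕ) : K)) ≤
          E ^ (d ^ 2) := by
        have h3 := hχ (Fin.castAdd (n + 1) (e j))
        rw [hmono j 0, ← ht] at h3
        have h4 : c (Fin.castAdd (n + 1) (e j)) = (((e j : Fin (n + 1)) : ℕ) : K) := by
          simp only [hc]; rw [nodeVal_left]
        rw [h4, ← hPev] at h3
        rw [eval_sub, eval_mul, eval_C]
        exact h3
      have hfac : ∀ k ∈ univ.erase j, v ((n.factorial : ℕ) : K) ≤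
          v.val ((((e j : Fin (n + 1)) : ℕ) : K) - (((e k : Fin (n + 1)) : ℕ) : K)) := by
        intro k hk
        have hne : e j ≠ e k := fun h => (Finset.ne_of_mem_erase hk) (he h).symm
        have hdvd : (((e j : Fin (n + 1)) : ℕ) : ℤ) - (((e k : Fin (n + 1)) : ℕ) : ℤ) ∣
            ((n.factorial : ℕ) : ℤ) := by
          rw [← Int.natAbs_dvd_natAbs]
          apply Nat.dvd_factorial
          · rw [Int.natAbs_pos]
            intro h0
            apply hne; apply Fin.ext; omega
          · have h1 := (e j).2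
            have h2 := (e k).2
            omega
        obtain ⟨s, hs⟩ := hdvd
        have h2 : ((n.factorial : ℕ) : K) = ((((e j : Fin (n + 1)) : ℕ) : K) -
            (((e k : Fin (n + 1)) : ℕ) : K)) * (s : K) := by
          have := congrArg (fun a : ℤ => (a : K)) hs
          push_cast at this
          exact this
        rw [h2, map_mul]
        exact mul_le_of_le_one_right (v.val.nonneg _) (fin_int_le_one v s)
      have h3 : v ((n.factorial : ℕ) : K) ^ P.natDegree ≤ ∏ k ∈ univ.erase j,
          v.val ((((e j : Fin (n + 1)) : ℕ) : K) - (((e k : Fin (n + 1)) : ℕ) : K)) := by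
        have h4 : v ((n.factorial : ℕ) : K) ^ P.natDegree =
            ∏ k ∈ univ.erase j, v ((n.factorial : ℕ) : K) := by
          rw [Finset.prod_const, Finset.card_erase_of_mem (Finset.mem_univ _), Finset.card_univ,
            Fintype.card_fin, Nat.add_sub_cancel]
        rw [h4]
        exact Finset.prod_le_prod (fun _ _ => apply_nonneg v _) hfac
      have h5 : v ((n.factorial : ℕ) : K) ^ (r * d) ≤ v ((n.factorial : ℕ) : K) ^ P.natDegree := by
        apply pow_le_pow_of_le_one (apply_nonneg v _) _ hδ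
        have := fin_int_le_one v ((n.factorial : ℕ) : ℤ)
        exact_mod_cast this
      have h6 : v b * v (M : K) ≤ E ^ (d ^ 2) := by
        have h7 : v (M : K) = v ((n.factorial : ℕ) : K) ^ (r * d) * v (d : K) := by
          rw [hM]; push_cast; rw [map_mul, map_pow]
        rw [h7]
        calc v b * (v ((n.factorial : ℕ) : K) ^ (r * d) * v (d : K))
            = v (d : K) * (v b * v ((n.factorial : ℕ) : K) ^ (r * d)) := by ring
          _ ≤ v (d : K) * (v b * ∏ k ∈ univ.erase j,
              v.val ((((e j : Fin (n + 1)) : ℕ) : K) - (((e k : Fin (n + 1)) : ℕ) : K))) := by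
              apply mul_le_mul_of_nonneg_left _ (apply_nonneg v _)
              exact mul_le_mul_of_nonneg_left (h5.trans h3) (apply_nonneg v _)
          _ ≤ v (d : K) * v.val ((P - C t * g).eval (((e j : Fin (n + 1)) : ℕ) : K)) :=
              mul_le_mul_of_nonneg_left hj (apply_nonneg v _)
          _ ≤ E ^ (d ^ 2) := h1
      have hvb : 0 < v b := FinitePlace.pos_iff.mpr hb0
      have hvM : 0 < v (M : K) := FinitePlace.pos_iff.mpr (by exact_mod_cast hM0)
      have h8 := log_le_log (by positivity) h6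
      rw [log_mul hvb.ne' hvM.ne', log_pow, hE, log_exp] at h8
      refine h8.trans (le_of_eq ?_)
      push_cast; ring
    · intro v
      have hint : ∀ k : ℤ, v (k : K) = |(k : ℝ)| := by
        intro k
        rw [← InfinitePlace.norm_embedding_eq, map_intCast, Complex.norm_intCast]
      have hvd : v.val (d : K) = d := by
        have h1 := hint (d : ℤ)
        have h2 : (((d : ℤ) : ℤ) : K) = (d : K) := by push_cast; rfl
        rw [h2] at h1
        have h3 : v.val (d : K) = |((d : ℤ) : ℝ)| := h1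
        rw [h3]; simp
      set B := ∑ i, log⁺ (v (y i)) with hB
      have hB0 : 0 ≤ B := Finset.sum_nonneg fun _ _ => posLog_nonneg
      set E := exp (B / (d : ℝ) ^ n0) with hE
      have hE1 : 1 ≤ E := one_le_exp (by positivity)
      have hEn : E ^ (d ^ n0) = exp B := by
        rw [hE, ← exp_nat_mul]; congr 1; push_cast; field_simp
      have hcol : ∀ i, ∃ k,
          v.val ((g.eval (c i) ^ d + h.eval (c i)) - ζ k * g.eval (c i)) ≤
            2 ^ (d + 1) * E ^ (d ^ 2) := by
        intro i
        apply uni_inf v.val d hd2 hvd ζ hX (h.eval (c i)) (g.eval (c i)) E hE1 n0 hn0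
        rw [hEn]
        refine (le_exp_posLog (v.val.nonneg _)).trans (exp_le_exp.mpr ?_)
        exact Finset.single_le_sum (f := fun i => log⁺ (v (y i)))
          (fun _ _ => posLog_nonneg) (Finset.mem_univ i)
      choose χ hχ using hcol
      obtain ⟨e, he, hmono⟩ := mono_block (n + 1) d P.natDegree hm
        (fun i => χ (Fin.natAdd (n + 1) i))
      set t := ζ (χ (Fin.natAdd (n + 1) (e 0))) with ht
      have hdiff : ∀ i j, i ≠ j → (q : ℝ) ≤ v.val (((q * ((e i : Fin (n + 1)) : ℕ) : ℕ) : K) -
          ((q * ((e j : Fin (n + 1)) : ℕ) : ℕ) : K)) := by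
        intro i j hij
        have h1 : (((q * ((e i : Fin (n + 1)) : ℕ) : ℕ) : K) -
          ((q * ((e j : Fin (n + 1)) : ℕ) : ℕ) : K)) =
          (((q : ℤ) * ((((e i : Fin (n + 1)) : ℕ) : ℤ) - (((e j : Fin (n + 1)) : ℕ) : ℤ)) : ℤ) :
            K) := by push_cast; ring
        rw [h1]
        have h2 := hint ((q : ℤ) * ((((e i : Fin (n + 1)) : ℕ) : ℤ) -
          (((e j : Fin (n + 1)) : ℕ) : ℤ)))
        have h3 : v.val (((q : ℤ) * ((((e i : Fin (n + 1)) : ℕ) : ℤ) -
          (((e j : Fin (n + 1)) : ℕ) : ℤ)) : ℤ) : K) = _ := h2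
        rw [h3, Int.cast_mul, abs_mul]
        have h4 : (1 : ℝ) ≤ |(((((e i : Fin (n + 1)) : ℕ) : ℤ) -
          (((e j : Fin (n + 1)) : ℕ) : ℤ) : ℤ) : ℝ)| := by
          have hne : e i ≠ e j := fun h => hij (he h)
          have h5 : (((e i : Fin (n + 1)) : ℕ) : ℤ) - (((e j : Fin (n + 1)) : ℕ) : ℤ) ≠ 0 := by
            intro h0
            apply hne; apply Fin.ext; omega
          have h6 := Int.one_le_abs h5
          exact_mod_cast h6
        have h7 : |((q : ℤ) : ℝ)| = (q : ℝ) := by simp
        rw [h7]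
        have h8 : (0 : ℝ) ≤ (q : ℝ) := Nat.cast_nonneg _
        nlinarith
      have h1 := lagr_arch v.val (P - C t * g) P.natDegree (hQ t).1 hδ1
        (fun i => ((q * ((e i : Fin (n + 1)) : ℕ) : ℕ) : K)) (by
          intro i j hij
          apply he; apply Fin.ext
          have hij' : ((q * ((e i : Fin (n + 1)) : ℕ) : ℕ) : K) =
            ((q * ((e j : Fin (n + 1)) : ℕ) : ℕ) : K) := hij
          have h2 : q * ((e i : Fin (n + 1)) : ℕ) = q * ((e j : Fin (n + 1)) : ℕ) := by
            exact_mod_cast hij'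
          exact Nat.eq_of_mul_eq_mul_left (by omega) h2)
        0 (2 ^ (d + 1) * E ^ (d ^ 2)) q (by exact_mod_cast hq1) (by
          intro j
          have h3 := hχ (Fin.natAdd (n + 1) (e j))
          rw [hmono j 0, ← ht] at h3
          have h4 : c (Fin.natAdd (n + 1) (e j)) =
              ((q * ((e j : Fin (n + 1)) : ℕ) : ℕ) : K) := by
            simp only [hc]; rw [nodeVal_right]
          rw [h4, ← hPev] at h3
          rw [sub_zero, eval_sub, eval_mul, eval_C]
          exact h3) hdiff
      rw [(hQ t).2] at h1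
      have hq0 : (0 : ℝ) < q := by exact_mod_cast (by omega : 0 < q)
      have h3 : ((P.natDegree : ℝ) + 1) ≤ r * d + 1 := by
        have : (P.natDegree : ℝ) ≤ ((r * d : ℕ) : ℝ) := by exact_mod_cast hδ
        push_cast at this
        linarith
      have hE2 : 0 ≤ E ^ (d ^ 2) := by positivity
      have hrd : (0 : ℝ) < (r : ℝ) * d + 1 := by positivity
      have h6 : v b * (q / ((r * d + 1) * 2 ^ (d + 1))) ≤ E ^ (d ^ 2) := by
        have h1' : v b ≤ (P.natDegree + 1) * (2 ^ (d + 1) * E ^ (d ^ 2)) / q := h1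
        calc v b * (q / ((r * d + 1) * 2 ^ (d + 1))) ≤
              ((P.natDegree + 1) * (2 ^ (d + 1) * E ^ (d ^ 2)) / q) *
                (q / ((r * d + 1) * 2 ^ (d + 1))) := by gcongr
          _ = ((P.natDegree + 1) / (r * d + 1)) * E ^ (d ^ 2) := by field_simp
          _ ≤ 1 * E ^ (d ^ 2) := by
            apply mul_le_mul_of_nonneg_right _ hE2
            rw [div_le_one hrd]; exact h3
          _ = E ^ (d ^ 2) := one_mul _
      have hvb : 0 < v b := InfinitePlace.pos_iff.mpr hb0
      have h8 := log_le_log (by positivity) h6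
      rw [log_mul hvb.ne' (by positivity), log_pow, hE, log_exp] at h8
      refine h8.trans (le_of_eq ?_)
      push_cast; ring
  -- the limit
  have hfr : (0 : ℝ) < Module.finrank ℚ K := by exact_mod_cast Module.finrank_pos
  have hlim : Tendsto (fun n0 : ℕ => (d : ℝ) ^ 2 * ∑ i, logHeight₁
      ((fun y => y ^ d + h.eval (c i))^[n0] (g.eval (c i))) / (Module.finrank ℚ K : ℝ) /
        (d : ℝ) ^ n0) atTop (𝓝 ((d : ℝ) ^ 2 * ∑ i,
      canonicalHeight (X ^ d + C (φ (h.eval (c i)))) (φ (g.eval (c i))))) := by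
    apply Tendsto.const_mul
    apply tendsto_finsetSum
    intro i _
    have hnd : (X ^ d + C (h.eval (c i)) : K[X]).natDegree = d := natDegree_X_pow_add_C
    have h1 := tendsto_of_lift (X ^ d + C (h.eval (c i)) : K[X]) φ (by omega) (g.eval (c i))
    rw [hnd] at h1
    have h2 : (fun x => (X ^ d + C (h.eval (c i)) : K[X]).eval x) =
        fun y => y ^ d + h.eval (c i) := by
      funext x; simp
    rw [h2] at h1
    have h3 : (X ^ d + C (h.eval (c i)) : K[X]).map φ = X ^ d + C (φ (h.eval (c i))) := by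
      simp
    rw [h3] at h1
    exact h1
  apply ge_of_tendsto hlim
  filter_upwards [eventually_ge_atTop 2] with n0 hn0
  have h4 := main n0 hn0
  have h5 : log 2 ≤ (d : ℝ) ^ 2 / (d : ℝ) ^ n0 *
        ∑ i, logHeight₁ ((fun y => y ^ d + h.eval (c i))^[n0] (g.eval (c i))) /
        (Module.finrank ℚ K : ℝ) := by
    rw [← Finset.sum_div, ← mul_div_assoc, le_div_iff₀ hfr, mul_comm]; exact h4
  refine h5.trans (le_of_eq ?_)
  rw [← Finset.sum_div, ← Finset.sum_div, ← Finset.sum_div]
  ring

end MPd27c8d
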