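import Mathlib
import Pool.Agent.Lib.MP_d27c8d_nt.UniK
import Pool.Agent.Lib.MP_d27c8d_nt.Select

/-!
Unicritical maps with moving parameters along arbitrary sequences of integers.
-/

open Polynomial Finset NumberField Height Real Filter Topology

namespace MPd27c8d

variable {K : Type*} [Field K] [NumberField K]

/-- Unicritical maps with moving parameters over a number field. -/
theorem uniseq_K (d r n : ℕ) (hd2 : 2 ≤ d) (ζ : Fin d → K)
    (hX : (X ^ d - 1 : K[X]) = ∏ i, (X - C (ζ i))) (φ : K →+* Qbar) (g h : K[X])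
    (hg : g.natDegree ≤ r) (hh : h.natDegree ≤ r)
    (hP : g.natDegree < (g ^ d + h).natDegree) (hn : d * (r * d) < n)
    (a b : Fin n → ℤ) (ha : Function.Injective a) (q : ℝ) (hq1 : 1 ≤ q)
    (hb : ∀ i j, i ≠ j → q ≤ |((b i - b j : ℤ) : ℝ)|) :
    log (q / ((r * d + 1) * 2 ^ (d + 1)) / ((nodeDisc a * d : ℕ) : ℝ)) ≤ (d : ℝ) ^ 2 *
      (∑ i, canonicalHeight (X ^ d + C (φ (h.eval ((a i : ℤ) : K)))) (φ (g.eval ((a i : ℤ) : K))) +
       ∑ i, canonicalHeight (X ^ d + C (φ (h.eval ((b i : ℤ) : K)))) (φ (g.eval ((b i : ℤ) : K))))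
      := by
  set M := nodeDisc a * d with hM
  set P := g ^ d + h with hPdef
  have hd0 : d ≠ 0 := by omega
  have hM0 : M ≠ 0 := mul_ne_zero (nodeDisc_ne_zero a ha) hd0
  have hinj : ∀ x y : ℤ, ((x : ℤ) : K) = ((y : ℤ) : K) → x = y := fun x y h => by exact_mod_cast h
  have hbinj : Function.Injective b := by
    intro i j hij
    by_contra hne
    have := hb i j hne
    rw [hij, sub_self] at this
    norm_num at this
    linarith
  set l := P.leadingCoeff with hl
  have hl0 : l ≠ 0 := by
    rw [hl, Ne, leadingCoeff_eq_zero]; intro h0; rw [h0] at hP; simp at hP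
  have hδ : P.natDegree ≤ r * d := by
    refine (natDegree_add_le _ _).trans (max_le ?_ ?_)
    · refine natDegree_pow_le.trans ?_
      rw [mul_comm d]; exact Nat.mul_le_mul_right d hg
    · exact hh.trans (Nat.le_mul_of_pos_right r (by omega))
  have hδ1 : 1 ≤ P.natDegree := by omega
  have hm : d * P.natDegree < n := lt_of_le_of_lt (Nat.mul_le_mul_left d hδ) hn
  have hdR : (0 : ℝ) < d := by exact_mod_cast (by omega : 0 < d)
  -- the shifted polynomials
  have hQ : ∀ t : K, (P - C t * g).natDegree = P.natDegree ∧ (P - C t * g).leadingCoeff = l := by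
    intro t
    have h1 : (C t * g).natDegree < P.natDegree := lt_of_le_of_lt (natDegree_C_mul_le t g) hP
    refine ⟨natDegree_sub_eq_left_of_natDegree_lt h1, ?_⟩
    exact leadingCoeff_sub_of_degree_lt (degree_lt_degree h1)
  set c : Fin (n + n) → K := Fin.append (fun i => ((a i : ℤ) : K)) (fun i => ((b i : ℤ) : K))
    with hc
  have hPev : ∀ x : K, P.eval x = (g.eval x) ^ d + h.eval x := by
    intro x; rw [hPdef, eval_add, eval_pow]
  have main : ∀ n0, 2 ≤ n0 → (Module.finrank ℚ K : ℝ) *
      log (q / ((r * d + 1) * 2 ^ (d + 1)) / ((M : ℕ) : ℝ)) ≤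
      (d : ℝ) ^ 2 / (d : ℝ) ^ n0 *
        ∑ i, logHeight₁ ((fun y => y ^ d + h.eval (c i))^[n0] (g.eval (c i))) := by
    intro n0 hn0
    set y : Fin (n + n) → K :=
      fun i => (fun y => y ^ d + h.eval (c i))^[n0] (g.eval (c i)) with hy
    have hdn : (0 : ℝ) < (d : ℝ) ^ n0 := by positivity
    apply assemble (n + n) y l hl0 M hM0 _ (by positivity)
    · intro v
      have hv : IsNonarchimedean v.val := fun x y => FinitePlace.add_le v x y
      set B := ∑ i, log⁺ (v (y i)) with hB
      have hB0 : 0 ≤ B := Finset.sum_nonneg fun _ _ => posLog_nonneg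
      set E := exp (B / (d : ℝ) ^ n0) with hE
      have hE1 : 1 ≤ E := one_le_exp (by positivity)
      have hEn : E ^ (d ^ n0) = exp B := by
        rw [hE, ← exp_nat_mul]; congr 1; push_cast; field_simp
      have hcol : ∀ i, ∃ k, v.val (d : K) *
          v.val ((g.eval (c i) ^ d + h.eval (c i)) - ζ k * g.eval (c i)) ≤ E ^ (d ^ 2) := by
        intro i
        apply uni_fin v.val hv d hd2 ζ hX (h.eval (c i)) (g.eval (c i)) E hE1 n0 hn0
        rw [hEn]
        refine (le_exp_posLog (v.val.nonneg _)).trans (exp_le_exp.mpr ?_)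
        exact Finset.single_le_sum (f := fun i => log⁺ (v (y i)))
          (fun _ _ => posLog_nonneg) (Finset.mem_univ i)
      choose χ hχ using hcol
      obtain ⟨e, he, hmono⟩ := mono_block n d P.natDegree hm
        (fun i => χ (Fin.castAdd n i))
      set t := ζ (χ (Fin.castAdd n (e 0))) with ht
      obtain ⟨j, hj⟩ := lagr_step v.val hv (P - C t * g) P.natDegree (hQ t).1 hδ1
        (fun i => ((a (e i) : ℤ) : K)) (by
          intro i j hij
          exact he (ha (hinj _ _ hij))) 0
      rw [(hQ t).2, sub_zero] at hj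
      have h1 : v.val (d : K) * v.val ((P - C t * g).eval ((a (e j) : ℤ) : K)) ≤
          E ^ (d ^ 2) := by
        have h3 := hχ (Fin.castAdd n (e j))
        rw [hmono j 0, ← ht] at h3
        have h4 : c (Fin.castAdd n (e j)) = ((a (e j) : ℤ) : K) := by
          simp only [hc]; rw [Fin.append_left]
        rw [h4, ← hPev] at h3
        rw [eval_sub, eval_mul, eval_C]
        exact h3
      have h6 : v l * v (M : K) ≤ E ^ (d ^ 2) := by
        have h7 : v (M : K) = v ((nodeDisc a : ℕ) : K) * v (d : K) := by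
          rw [hM]; push_cast; rw [map_mul]
        rw [h7]
        calc v l * (v ((nodeDisc a : ℕ) : K) * v (d : K))
            = v (d : K) * (v l * v ((nodeDisc a : ℕ) : K)) := by ring
          _ ≤ v (d : K) * (v l * ∏ k ∈ univ.erase j,
              v.val (((a (e j) : ℤ) : K) - ((a (e k) : ℤ) : K))) := by
              apply mul_le_mul_of_nonneg_left _ (apply_nonneg v _)
              exact mul_le_mul_of_nonneg_left (fin_nodeDisc_le v a e he j) (apply_nonneg v _)
          _ ≤ v (d : K) * v.val ((P - C t * g).eval ((a (e j) : ℤ) : K)) :=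
              mul_le_mul_of_nonneg_left hj (apply_nonneg v _)
          _ ≤ E ^ (d ^ 2) := h1
      have hvb : 0 < v l := FinitePlace.pos_iff.mpr hl0
      have hvM : 0 < v (M : K) := FinitePlace.pos_iff.mpr (by exact_mod_cast hM0)
      have h8 := log_le_log (by positivity) h6
      rw [log_mul hvb.ne' hvM.ne', log_pow, hE, log_exp] at h8
      refine h8.trans (le_of_eq ?_)
      push_cast; ring
    · intro v
      have hint : ∀ k : ℤ, v (k : K) = |(k : ℝ)| := by
        intro k
        rw [← InfinitePlace.norm_embedding_eq, map_intCast, Complex.norm_intCast]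
      have hvd : v.val (d : K) = d := by
        have h1 := hint (d : ℤ)
        have h2 : (((d : ℤ) : ℤ) : K) = (d : K) := by push_cast; rfl
        rw [h2] at h1
        have h3 : v.val (d : K) = |((d : ℤ) : ℝ)| := h1
        rw [h3]; simp
      set B := ∑ i, log⁺ (v (y i)) with hB
      have hB0 : 0 ≤ B := Finset.sum_nonneg fun _ _ => posLog_nonneg
      set E := exp (B / (d : ℝ) ^ n0) with hE
      have hE1 : 1 ≤ E := one_le_exp (by positivity)
      have hEn : E ^ (d ^ n0) = exp B := by
        rw [hE, ← exp_nat_mul]; congr 1; push_cast; field_simp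
      have hcol : ∀ i, ∃ k,
          v.val ((g.eval (c i) ^ d + h.eval (c i)) - ζ k * g.eval (c i)) ≤
            2 ^ (d + 1) * E ^ (d ^ 2) := by
        intro i
        apply uni_inf v.val d hd2 hvd ζ hX (h.eval (c i)) (g.eval (c i)) E hE1 n0 hn0
        rw [hEn]
        refine (le_exp_posLog (v.val.nonneg _)).trans (exp_le_exp.mpr ?_)
        exact Finset.single_le_sum (f := fun i => log⁺ (v (y i)))
          (fun _ _ => posLog_nonneg) (Finset.mem_univ i)
      choose χ hχ using hcol
      obtain ⟨e, he, hmono⟩ := mono_block n d P.natDegree hm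
        (fun i => χ (Fin.natAdd n i))
      set t := ζ (χ (Fin.natAdd n (e 0))) with ht
      have hdiff : ∀ i j, i ≠ j → q ≤ v.val (((b (e i) : ℤ) : K) - ((b (e j) : ℤ) : K)) := by
        intro i j hij
        have h1 := hb (e i) (e j) (fun h => hij (he h))
        have h2 := hint (b (e i) - b (e j))
        have h3 : ((b (e i) - b (e j) : ℤ) : K) = ((b (e i) : ℤ) : K) - ((b (e j) : ℤ) : K) := by
          push_cast; rfl
        rw [h3] at h2
        have h4 : v.val (((b (e i) : ℤ) : K) - ((b (e j) : ℤ) : K)) = _ := h2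
        rw [h4]
        exact h1
      have h1 := lagr_arch v.val (P - C t * g) P.natDegree (hQ t).1 hδ1
        (fun i => ((b (e i) : ℤ) : K)) (by
          intro i j hij
          exact he (hbinj (hinj _ _ hij)))
        0 (2 ^ (d + 1) * E ^ (d ^ 2)) q hq1 (by
          intro j
          have h3 := hχ (Fin.natAdd n (e j))
          rw [hmono j 0, ← ht] at h3
          have h4 : c (Fin.natAdd n (e j)) = ((b (e j) : ℤ) : K) := by
            simp only [hc]; rw [Fin.append_right]
          rw [h4, ← hPev] at h3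
          rw [sub_zero, eval_sub, eval_mul, eval_C]
          exact h3) hdiff
      rw [(hQ t).2] at h1
      have hq0 : (0 : ℝ) < q := by linarith
      have h3 : ((P.natDegree : ℝ) + 1) ≤ r * d + 1 := by
        have : (P.natDegree : ℝ) ≤ ((r * d : ℕ) : ℝ) := by exact_mod_cast hδ
        push_cast at this
        linarith
      have hE2 : 0 ≤ E ^ (d ^ 2) := by positivity
      have hrd : (0 : ℝ) < (r : ℝ) * d + 1 := by positivity
      have h6 : v l * (q / ((r * d + 1) * 2 ^ (d + 1))) ≤ E ^ (d ^ 2) := by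
        have h1' : v l ≤ (P.natDegree + 1) * (2 ^ (d + 1) * E ^ (d ^ 2)) / q := h1
        calc v l * (q / ((r * d + 1) * 2 ^ (d + 1))) ≤
              ((P.natDegree + 1) * (2 ^ (d + 1) * E ^ (d ^ 2)) / q) *
                (q / ((r * d + 1) * 2 ^ (d + 1))) := by gcongr
          _ = ((P.natDegree + 1) / (r * d + 1)) * E ^ (d ^ 2) := by field_simp
          _ ≤ 1 * E ^ (d ^ 2) := by
            apply mul_le_mul_of_nonneg_right _ hE2
            rw [div_le_one hrd]; exact h3
          _ = E ^ (d ^ 2) := one_mul _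
      have hvb : 0 < v l := InfinitePlace.pos_iff.mpr hl0
      have h8 := log_le_log (by positivity) h6
      rw [log_mul hvb.ne' (by positivity), log_pow, hE, log_exp] at h8
      refine h8.trans (le_of_eq ?_)
      push_cast; ring
  -- the limit
  have hsplit : (∑ i, canonicalHeight (X ^ d + C (φ (h.eval (c i)))) (φ (g.eval (c i)))) =
      ∑ i, canonicalHeight (X ^ d + C (φ (h.eval ((a i : ℤ) : K)))) (φ (g.eval ((a i : ℤ) : K))) +
      ∑ i, canonicalHeight (X ^ d + C (φ (h.eval ((b i : ℤ) : K)))) (φ (g.eval ((b i : ℤ) : K)))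
      := by
    rw [Fin.sum_univ_add]
    simp only [hc, Fin.append_left, Fin.append_right]
  rw [← hsplit]
  have hfr : (0 : ℝ) < Module.finrank ℚ K := by exact_mod_cast Module.finrank_pos
  have hlim : Tendsto (fun n0 : ℕ => (d : ℝ) ^ 2 * ∑ i, logHeight₁
      ((fun y => y ^ d + h.eval (c i))^[n0] (g.eval (c i))) / (Module.finrank ℚ K : ℝ) /
        (d : ℝ) ^ n0) atTop (𝓝 ((d : ℝ) ^ 2 * ∑ i,
      canonicalHeight (X ^ d + C (φ (h.eval (c i)))) (φ (g.eval (c i))))) := by
    apply Tendsto.const_mul
    apply tendsto_finsetSum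
    intro i _
    have hnd : (X ^ d + C (h.eval (c i)) : K[X]).natDegree = d := natDegree_X_pow_add_C
    have h1 := tendsto_of_lift (X ^ d + C (h.eval (c i)) : K[X]) φ (by omega) (g.eval (c i))
    rw [hnd] at h1
    have h2 : (fun x => (X ^ d + C (h.eval (c i)) : K[X]).eval x) =
        fun y => y ^ d + h.eval (c i) := by
      funext x; simp
    rw [h2] at h1
    have h3 : (X ^ d + C (h.eval (c i)) : K[X]).map φ = X ^ d + C (φ (h.eval (c i))) := by
      simp
    rw [h3] at h1
    exact h1
  apply ge_of_tendsto hlim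
  filter_upwards [eventually_ge_atTop 2] with n0 hn0
  have h4 := main n0 hn0
  have h5 : log (q / ((r * d + 1) * 2 ^ (d + 1)) / ((M : ℕ) : ℝ)) ≤
      (d : ℝ) ^ 2 / (d : ℝ) ^ n0 *
        ∑ i, logHeight₁ ((fun y => y ^ d + h.eval (c i))^[n0] (g.eval (c i))) /
        (Module.finrank ℚ K : ℝ) := by
    rw [← Finset.sum_div, ← mul_div_assoc, le_div_iff₀ hfr, mul_comm]; exact h4
  refine h5.trans (le_of_eq ?_)
  rw [← Finset.sum_div, ← Finset.sum_div, ← Finset.sum_div]
  ring

end MPd27c8d
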