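import Mathlib
import Pool.Agent.Lib.MP_d27c8d_nt.UniSeq

/-!
Unicritical maps with moving parameters over the algebraic numbers.
-/

open Polynomial Finset NumberField Height Real Filter Topology

namespace MPd27c8d

/-- The roots of `X ^ d - 1` over the algebraic numbers. -/
lemma exists_roots_of_unity (d : ℕ) (hd : 1 ≤ d) :
    ∃ ζ : Fin d → Qbar, (X ^ d - 1 : Qbar[X]) = ∏ i, (X - C (ζ i)) := by
  have hmon : (X ^ d - 1 : Qbar[X]).Monic := by
    have := monic_X_pow_sub_C (1 : Qbar) (by omega : d ≠ 0)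
    simpa using this
  have hdeg : (X ^ d - 1 : Qbar[X]).natDegree = d := by
    have := natDegree_X_pow_sub_C (n := d) (r := (1 : Qbar))
    simpa using this
  have hcard : Multiset.card (X ^ d - 1 : Qbar[X]).roots = d := by
    have h1 := (IsAlgClosed.splits (X ^ d - 1 : Qbar[X]))
    rw [← hdeg]
    conv_rhs => rw [← h1.natDegree_eq_card_roots.symm]
    rw [hdeg]
  set s := (X ^ d - 1 : Qbar[X]).roots with hs
  have hlen : s.toList.length = d := by rw [Multiset.length_toList, hcard]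
  refine ⟨fun i => s.toList.get (i.cast hlen.symm), ?_⟩
  have h1 := prod_multiset_X_sub_C_of_monic_of_roots_card_eq hmon (by rw [hcard, hdeg])
  rw [← h1, ← hs]
  conv_lhs => rw [← Multiset.coe_toList s]
  rw [Multiset.map_coe, Multiset.prod_coe]
  rw [← List.prod_ofFn]
  congr 1
  apply List.ext_get
  · simp [hlen]
  · intro k h2 h3
    simp

/-- Moving unicritical maps with two blocks of nodes over the algebraic numbers. -/
theorem uniseq_Q (d r n : ℕ) (hd2 : 2 ≤ d) (g h : Qbar[X])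
    (hg : g.natDegree ≤ r) (hh : h.natDegree ≤ r)
    (hP : g.natDegree < (g ^ d + h).natDegree) (hn : d * (r * d) < n)
    (a b : Fin n → ℤ) (ha : Function.Injective a) (q : ℝ) (hq1 : 1 ≤ q)
    (hb : ∀ i j, i ≠ j → q ≤ |((b i - b j : ℤ) : ℝ)|) :
    log (q / ((r * d + 1) * 2 ^ (d + 1)) / ((nodeDisc a * d : ℕ) : ℝ)) ≤ (d : ℝ) ^ 2 *
      (∑ i, canonicalHeight (X ^ d + C (h.eval ((a i : ℤ) : Qbar))) (g.eval ((a i : ℤ) : Qbar)) +
       ∑ i, canonicalHeight (X ^ d + C (h.eval ((b i : ℤ) : Qbar))) (g.eval ((b i : ℤ) : Qbar)))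
      := by
  classical
  obtain ⟨ζ, hζ⟩ := exists_roots_of_unity d (by omega)
  obtain ⟨K, hK, hA, ⟨g', hg'⟩, h', hh'⟩ := exists_numberField₂ g h (univ.image ζ)
  have : NumberField K := {}
  have hζK : ∀ i, ζ i ∈ K := fun i => hA _ (Finset.mem_image_of_mem _ (mem_univ i))
  have hinj : Function.Injective (algebraMap K Qbar) := (algebraMap K Qbar).injective
  have hmapinj : Function.Injective (Polynomial.map (algebraMap K Qbar)) :=
    Polynomial.map_injective _ hinj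
  have hX : (X ^ d - 1 : K[X]) = ∏ i, (X - C (⟨ζ i, hζK i⟩ : K)) := by
    apply hmapinj
    rw [Polynomial.map_prod]
    simp only [Polynomial.map_sub, Polynomial.map_pow, map_X, Polynomial.map_one, map_C]
    exact hζ
  have hP' : g'.natDegree < (g' ^ d + h').natDegree := by
    have h1 : (g' ^ d + h').map (algebraMap K Qbar) = g ^ d + h := by
      rw [Polynomial.map_add, Polynomial.map_pow, hg', hh']
    rw [← h1, ← hg', natDegree_map, natDegree_map] at hP
    exact hP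
  have key := uniseq_K d r n hd2 (fun i => (⟨ζ i, hζK i⟩ : K)) hX (algebraMap K Qbar) g' h'
    (by rw [← hg', natDegree_map] at hg; exact hg) (by rw [← hh', natDegree_map] at hh; exact hh)
    hP' hn a b ha q hq1 hb
  have he : ∀ k : ℤ, algebraMap K Qbar (g'.eval (k : K)) = g.eval (k : Qbar) := by
    intro k
    rw [← hg', eval_map, ← eval₂_hom, map_intCast]
  have he2 : ∀ k : ℤ, algebraMap K Qbar (h'.eval (k : K)) = h.eval (k : Qbar) := by
    intro k
    rw [← hh', eval_map, ← eval₂_hom, map_intCast]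
  simp only [he, he2] at key
  exact key

/-- **Moving unicritical maps along an infinite sequence of integers.** -/
theorem moving_theorem (c : ℕ → ℤ) (hc : Function.Injective c) (d r : ℕ) (A : ℝ)
    (hd : 2 ≤ d) :
    ∃ ℓ : ℕ, ∀ (g h : Qbar[X]), g.natDegree ≤ r → h.natDegree ≤ r →
      g.natDegree < (g ^ d + h).natDegree →
      A ≤ ∑ j ∈ range ℓ, canonicalHeight (X ^ d + C (h.eval ((c j : ℤ) : Qbar)))
        (g.eval ((c j : ℤ) : Qbar)) := by
  set n := d * (r * d) + 1 with hn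
  have hdR : (2 : ℝ) ≤ d := by exact_mod_cast hd
  have hrd : (0 : ℝ) < (r : ℝ) * d + 1 := by positivity
  set Q : ℝ := (r * d + 1) * 2 ^ (d + 1) * d * exp (2 * (d : ℝ) ^ 2 * |A|) with hQdef
  have hQ1 : 1 ≤ Q := by
    have h1 : 1 ≤ exp (2 * (d : ℝ) ^ 2 * |A|) := one_le_exp (by positivity)
    have h2 : (0 : ℝ) ≤ r := Nat.cast_nonneg _
    have h3 : (1 : ℝ) ≤ 2 ^ (d + 1) := one_le_pow₀ (by norm_num)
    have h4 : (1 : ℝ) ≤ (r : ℝ) * d + 1 := by nlinarith
    have h5 : (1 : ℝ) ≤ ((r : ℝ) * d + 1) * 2 ^ (d + 1) := one_le_mul_of_one_le_of_one_le h4 h3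
    have h6 : (1 : ℝ) ≤ ((r : ℝ) * d + 1) * 2 ^ (d + 1) * d :=
      one_le_mul_of_one_le_of_one_le h5 (by linarith)
    rw [hQdef]
    exact one_le_mul_of_one_le_of_one_le h6 h1
  have hQ0 : 0 < Q := by linarith
  obtain ⟨ℓ, hℓ⟩ := exists_two_blocks c hc n 1 Q hQ0
  refine ⟨ℓ, ?_⟩
  intro g h hg hh hP
  obtain ⟨t, e₁, e₂, he1, he2, hl1, hl2, -, -, hdist⟩ := hℓ (fun _ => 0)
  set F : ℕ → ℝ := fun j => canonicalHeight (X ^ d + C (h.eval ((c j : ℤ) : Qbar)))
    (g.eval ((c j : ℤ) : Qbar)) with hF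
  have hnn : ∀ j, 0 ≤ F j := fun j =>
    canonicalHeight_nonneg _ (by rw [natDegree_X_pow_add_C]; exact hd) _
  have hM : (1 : ℝ) ≤ (nodeDisc (fun i => c (e₁ i)) : ℕ) := by
    have := Nat.one_le_iff_ne_zero.mpr (nodeDisc_ne_zero (fun i => c (e₁ i))
      (fun i j h => he1 (hc h)))
    exact_mod_cast this
  have key := uniseq_Q d r n hd g h hg hh hP (by omega) (fun i => c (e₁ i))
    (fun i => c (e₂ i)) (fun i j h => he1 (hc h))
    (Q * (nodeDisc (fun i => c (e₁ i)) : ℕ)) (by nlinarith) hdist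
  have h1 : ∑ i, F (e₁ i) ≤ ∑ j ∈ range ℓ, F j := sum_block_le n ℓ e₁ he1 hl1 F hnn
  have h2 : ∑ i, F (e₂ i) ≤ ∑ j ∈ range ℓ, F j := sum_block_le n ℓ e₂ he2 hl2 F hnn
  have h3 : Q * (nodeDisc (fun i => c (e₁ i)) : ℕ) / ((r * d + 1) * 2 ^ (d + 1)) /
      ((nodeDisc (fun i => c (e₁ i)) * d : ℕ) : ℝ) = exp (2 * (d : ℝ) ^ 2 * |A|) := by
    have h4 : (nodeDisc (fun i => c (e₁ i)) : ℝ) ≠ 0 := by linarith
    have h5 : (d : ℝ) ≠ 0 := by linarith
    rw [hQdef]; push_cast; field_simp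
  rw [h3, log_exp] at key
  have key2 : 2 * (d : ℝ) ^ 2 * |A| ≤ (d : ℝ) ^ 2 * (∑ i, F (e₁ i) + ∑ i, F (e₂ i)) := key
  have hd2 : (0 : ℝ) < (d : ℝ) ^ 2 := by positivity
  have key3 : 2 * |A| ≤ ∑ i, F (e₁ i) + ∑ i, F (e₂ i) := by
    have : (d : ℝ) ^ 2 * (2 * |A|) ≤ (d : ℝ) ^ 2 * (∑ i, F (e₁ i) + ∑ i, F (e₂ i)) := by
      linarith
    exact le_of_mul_le_mul_left this hd2
  have h4 := le_abs_self A
  linarith

end MPd27c8d
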