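import Mathlib
import Pool.Agent.Lib.MP_d27c8d_nt.Two
import Pool.Agent.Lib.MP_d27c8d_nt.UniQ
import Pool.Agent.Lib.MP_d27c8d_nt.Matrix
import Pool.Agent.Lib.MP_d27c8d_nt.QuadDefs

/-!
Linear spaces for the quadratic family `z ^ 2 + t`.
-/

open Polynomial Finset NumberField Height Real Filter Topology

namespace MPd27c8d

/-- A coordinate of `y` as a combination of linear forms. -/
lemma combo₁ {F : Type*} [CommRing F] {n r : ℕ} (w : Fin n → F) (D : Fin n → Fin r → F)
    (z : Fin n → F) (y : Fin r → F) (m : F) (k : Fin r)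
    (hz : ∀ i, z i = ∑ l, D i l * y l)
    (hw : ∀ l, ∑ i, w i * D i l = if l = k then m else 0) :
    m * y k = ∑ i, w i * z i := by
  have h1 : ∑ i, w i * z i = ∑ l, ∑ i, w i * D i l * y l := by
    rw [Finset.sum_comm]
    apply Finset.sum_congr rfl
    intro i _
    rw [hz, Finset.mul_sum]
    apply Finset.sum_congr rfl
    intro l _
    ring
  rw [h1]
  have h2 : ∀ l, ∑ i, w i * D i l * y l = (if l = k then m else 0) * y l := by
    intro l
    rw [← hw l, Finset.sum_mul]
  rw [Finset.sum_congr rfl (fun l _ => h2 l)]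
  simp

variable {K : Type*} [Field K] [NumberField K]

/-- The signs as roots of unity. -/
lemma sign_roots : (X ^ 2 - 1 : K[X]) = ∏ i : Fin 2, (X - C ((![1, -1] : Fin 2 → K) i)) := by
  rw [Fin.prod_univ_two]
  simp only [Matrix.cons_val_zero, Matrix.cons_val_one, C_1, C_neg]
  ring

/-- Linear spaces for the quadratic family over a number field. -/
theorem quad_K (φ : K →+* Qbar) (r : ℕ) (Cm : Fin (r + 2) → Fin r → ℤ) (M : ℕ) (hM : M ≠ 0)
    (L : ℝ) (hL : 0 < L) (hgood : GoodQuad Cm M L) (t : K) (y : Fin r → K)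
    (hy : ∃ k, y k ≠ 0) :
    log (L / 8 / ((M * 2 : ℕ) : ℝ)) ≤ 2 * ∑ i, canonicalHeight (X ^ 2 + C (φ t))
      (φ (∑ l, ((Cm i l : ℤ) : K) * y l)) := by
  classical
  obtain ⟨k, hk⟩ := hy
  set z : Fin (r + 2) → K := fun i => ∑ l, ((Cm i l : ℤ) : K) * y l with hz
  have hM2 : M * 2 ≠ 0 := by omega
  have hdiff : ∀ (s : Fin (r + 1) → ℤ) (i : Fin (r + 1)), z i.succ - ((s i : ℤ) : K) * z 0 =
      ∑ l, ((Cm i.succ l - s i * Cm 0 l : ℤ) : K) * y l := by
    intro s i
    simp only [hz]
    rw [Finset.mul_sum, ← Finset.sum_sub_distrib]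
    apply Finset.sum_congr rfl
    intro l _
    push_cast; ring
  -- choice of signs from the local lemma
  have hsign : ∀ i : Fin 2, ∃ s : ℤ, (s = 1 ∨ s = -1) ∧ (![1, -1] : Fin 2 → K) i = (s : K) := by
    intro i
    fin_cases i
    · exact ⟨1, Or.inl rfl, by simp⟩
    · exact ⟨-1, Or.inr rfl, by simp⟩
  have main : ∀ n0, 1 ≤ n0 → (Module.finrank ℚ K : ℝ) * log (L / 8 / ((M * 2 : ℕ) : ℝ)) ≤
      2 / (2 : ℝ) ^ n0 * ∑ i, logHeight₁ ((fun y => y ^ 2 + t)^[n0] (z i)) := by
    intro n0 hn0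
    set u : Fin (r + 2) → K := fun i => (fun y => y ^ 2 + t)^[n0] (z i) with hu
    have hdn : (0 : ℝ) < (2 : ℝ) ^ n0 := by positivity
    apply assemble (r + 2) u (y k) hk (M * 2) hM2 _ (by positivity)
    · intro v
      have hv : IsNonarchimedean v.val := fun x y => FinitePlace.add_le v x y
      set B := ∑ i, log⁺ (v (u i)) with hB
      have hB0 : 0 ≤ B := Finset.sum_nonneg fun _ _ => posLog_nonneg
      set E := exp (B / (2 : ℝ) ^ n0) with hE
      have hE1 : 1 ≤ E := one_le_exp (by positivity)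
      have hEn : E ^ (2 ^ n0) = exp B := by
        rw [hE, ← exp_nat_mul]; congr 1; push_cast; field_simp
      have hbd : ∀ i, v.val (u i) ≤ E ^ (2 ^ n0) := by
        intro i
        rw [hEn]
        refine (le_exp_posLog (v.val.nonneg _)).trans (exp_le_exp.mpr ?_)
        exact Finset.single_le_sum (f := fun i => log⁺ (v (u i)))
          (fun _ _ => posLog_nonneg) (Finset.mem_univ i)
      have hcol : ∀ i : Fin (r + 1), ∃ s : ℤ, (s = 1 ∨ s = -1) ∧
          v.val ((2 : ℕ) : K) * v.val (z i.succ - (s : K) * z 0) ≤ E ^ 2 := by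
        intro i
        obtain ⟨j, hj⟩ := two_fin v.val hv 2 le_rfl _ (sign_roots (K := K)) t (z 0) (z i.succ) E
          hE1 n0 hn0 (hbd 0) (hbd i.succ)
        obtain ⟨s, hs, hs2⟩ := hsign j
        rw [hs2] at hj
        exact ⟨s, hs, hj⟩
      choose s hs hsb using hcol
      obtain ⟨w, hw⟩ := (hgood s hs).1 k
      have h1 : ((M : ℕ) : K) * y k = ∑ i, ((w i : ℤ) : K) * (z i.succ - ((s i : ℤ) : K) * z 0)
          := by
        apply combo₁ (fun i => ((w i : ℤ) : K))
          (fun i l => ((Cm i.succ l - s i * Cm 0 l : ℤ) : K)) _ y _ k (hdiff s)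
        intro l
        have h3 := congrArg (fun a : ℤ => (a : K)) (hw l)
        simp only [Int.cast_sum, Int.cast_mul (w _)] at h3
        rw [h3]
        split_ifs <;> simp
      have h2 : v.val (((2 : ℕ) : K) * (((M : ℕ) : K) * y k)) ≤ E ^ 2 := by
        rw [h1, Finset.mul_sum]
        apply na_sum_le v.val hv _ _ _ (by positivity)
        intro i _
        have h4 : v.val (((2 : ℕ) : K) * (((w i : ℤ) : K) * (z i.succ - ((s i : ℤ) : K) * z 0))) =
            v.val ((w i : ℤ) : K) * (v.val ((2 : ℕ) : K) *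
              v.val (z i.succ - ((s i : ℤ) : K) * z 0)) := by
          rw [map_mul, map_mul]; ring
        rw [h4]
        have h6 : v.val ((w i : ℤ) : K) ≤ 1 := fin_int_le_one v (w i)
        calc v.val ((w i : ℤ) : K) * (v.val ((2 : ℕ) : K) *
              v.val (z i.succ - ((s i : ℤ) : K) * z 0)) ≤ 1 * (v.val ((2 : ℕ) : K) *
              v.val (z i.succ - ((s i : ℤ) : K) * z 0)) :=
              mul_le_mul_of_nonneg_right h6 (mul_nonneg (v.val.nonneg _) (v.val.nonneg _))
          _ ≤ E ^ 2 := by rw [one_mul]; exact hsb i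
      have h6 : v (y k) * v ((M * 2 : ℕ) : K) ≤ E ^ 2 := by
        have h7 : v (y k) * v ((M * 2 : ℕ) : K) =
            v.val (((2 : ℕ) : K) * (((M : ℕ) : K) * y k)) := by
          have h8 : v.val (((2 : ℕ) : K) * (((M : ℕ) : K) * y k)) =
            v.val (y k * ((M * 2 : ℕ) : K)) := by
            congr 1; push_cast; ring
          rw [h8]
          exact (map_mul v _ _).symm
        rw [h7]; exact h2
      have hvb : 0 < v (y k) := FinitePlace.pos_iff.mpr hk
      have hvM : 0 < v ((M * 2 : ℕ) : K) := FinitePlace.pos_iff.mpr (by exact_mod_cast hM2)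
      have h8 := log_le_log (by positivity) h6
      rw [log_mul hvb.ne' hvM.ne', log_pow, hE, log_exp] at h8
      refine h8.trans (le_of_eq ?_)
      push_cast; ring
    · intro v
      have hvd : v.val ((2 : ℕ) : K) = ((2 : ℕ) : ℝ) := by
        have h1 := inf_int v 2
        have h3 : v.val ((2 : ℕ) : K) = v.val ((2 : ℤ) : K) := by norm_num
        rw [h3]
        have h4 : v.val ((2 : ℤ) : K) = |((2 : ℤ) : ℝ)| := h1
        rw [h4]; norm_num
      set B := ∑ i, log⁺ (v (u i)) with hB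
      have hB0 : 0 ≤ B := Finset.sum_nonneg fun _ _ => posLog_nonneg
      set E := exp (B / (2 : ℝ) ^ n0) with hE
      have hE1 : 1 ≤ E := one_le_exp (by positivity)
      have hEn : E ^ (2 ^ n0) = exp B := by
        rw [hE, ← exp_nat_mul]; congr 1; push_cast; field_simp
      have hbd : ∀ i, v.val (u i) ≤ E ^ (2 ^ n0) := by
        intro i
        rw [hEn]
        refine (le_exp_posLog (v.val.nonneg _)).trans (exp_le_exp.mpr ?_)
        exact Finset.single_le_sum (f := fun i => log⁺ (v (u i)))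
          (fun _ _ => posLog_nonneg) (Finset.mem_univ i)
      have hcol : ∀ i : Fin (r + 1), ∃ s : ℤ, (s = 1 ∨ s = -1) ∧
          v.val (z i.succ - (s : K) * z 0) ≤ 8 * E ^ 2 := by
        intro i
        obtain ⟨j, hj⟩ := two_inf v.val 2 le_rfl hvd _ (sign_roots (K := K)) t (z 0) (z i.succ) E
          hE1 n0 hn0 (hbd 0) (hbd i.succ)
        obtain ⟨s, hs, hs2⟩ := hsign j
        rw [hs2] at hj
        refine ⟨s, hs, hj.trans (le_of_eq ?_)⟩
        norm_num
      choose s hs hsb using hcol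
      obtain ⟨w, hw, hwL⟩ := (hgood s hs).2 k
      set e := v.embedding with he
      have hve : ∀ a : K, ‖e a‖ = v a := fun a => InfinitePlace.norm_embedding_eq v a
      have h1 : (1 : ℂ) * e (y k) =
          ∑ i, ((w i : ℝ) : ℂ) * (e (z i.succ - ((s i : ℤ) : K) * z 0)) := by
        apply combo₁ (fun i => ((w i : ℝ) : ℂ))
          (fun i l => ((Cm i.succ l - s i * Cm 0 l : ℤ) : ℂ)) _ (fun l => e (y l)) 1 k
        · intro i
          rw [hdiff, map_sum]
          apply Finset.sum_congr rfl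
          intro l _
          rw [map_mul, map_intCast]
        · intro l
          have h3 := congrArg (fun a : ℝ => (a : ℂ)) (hw l)
          simp only [Complex.ofReal_sum, Complex.ofReal_mul, Complex.ofReal_intCast] at h3
          rw [h3]
          split_ifs <;> simp
      rw [one_mul] at h1
      have h2 : v (y k) ≤ (∑ i, |w i|) * (8 * E ^ 2) := by
        rw [← hve, h1, Finset.sum_mul]
        refine (norm_sum_le _ _).trans (Finset.sum_le_sum fun i _ => ?_)
        rw [norm_mul, Complex.norm_real, Real.norm_eq_abs, hve]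
        exact mul_le_mul_of_nonneg_left (hsb i) (abs_nonneg _)
      have hE2 : 0 < E ^ 2 := by positivity
      have h6 : v (y k) * (L / 8) ≤ E ^ 2 := by
        calc v (y k) * (L / 8) ≤ ((∑ i, |w i|) * (8 * E ^ 2)) * (L / 8) :=
              mul_le_mul_of_nonneg_right h2 (by positivity)
          _ = ((∑ i, |w i|) * L) * E ^ 2 := by ring
          _ ≤ 1 * E ^ 2 := mul_le_mul_of_nonneg_right hwL hE2.le
          _ = E ^ 2 := one_mul _
      have hvb : 0 < v (y k) := InfinitePlace.pos_iff.mpr hk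
      have h8 := log_le_log (by positivity) h6
      rw [log_mul hvb.ne' (by positivity), log_pow, hE, log_exp] at h8
      refine h8.trans (le_of_eq ?_)
      push_cast; ring
  -- the limit
  have hfr : (0 : ℝ) < Module.finrank ℚ K := by exact_mod_cast Module.finrank_pos
  have hlim : Tendsto (fun n0 : ℕ => 2 * ∑ i, logHeight₁
      ((fun y => y ^ 2 + t)^[n0] (z i)) / (Module.finrank ℚ K : ℝ) /
        (2 : ℝ) ^ n0) atTop (𝓝 (2 * ∑ i, canonicalHeight (X ^ 2 + C (φ t)) (φ (z i)))) := by
    apply Tendsto.const_mul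
    apply tendsto_finsetSum
    intro i _
    have hnd : (X ^ 2 + C t : K[X]).natDegree = 2 := natDegree_X_pow_add_C
    have h1 := tendsto_of_lift (X ^ 2 + C t : K[X]) φ (by omega) (z i)
    rw [hnd] at h1
    have h2 : (fun x => (X ^ 2 + C t : K[X]).eval x) = fun y => y ^ 2 + t := by
      funext x; simp
    rw [h2] at h1
    have h3 : (X ^ 2 + C t : K[X]).map φ = X ^ 2 + C (φ t) := by
      simp
    rw [h3] at h1
    exact_mod_cast h1
  apply ge_of_tendsto hlim
  filter_upwards [eventually_ge_atTop 1] with n0 hn0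
  have h4 := main n0 hn0
  have h5 : log (L / 8 / ((M * 2 : ℕ) : ℝ)) ≤ 2 / (2 : ℝ) ^ n0 *
        ∑ i, logHeight₁ ((fun y => y ^ 2 + t)^[n0] (z i)) / (Module.finrank ℚ K : ℝ) := by
    rw [← Finset.sum_div, ← mul_div_assoc, le_div_iff₀ hfr, mul_comm]; exact h4
  refine h5.trans (le_of_eq ?_)
  rw [← Finset.sum_div, ← Finset.sum_div, ← Finset.sum_div]
  ring

/-- Linear spaces for the quadratic family over the algebraic numbers. -/
theorem quad_Q (r : ℕ) (Cm : Fin (r + 2) → Fin r → ℤ) (M : ℕ) (hM : M ≠ 0)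
    (L : ℝ) (hL : 0 < L) (hgood : GoodQuad Cm M L) (t : Qbar) (y : Fin r → Qbar)
    (hy : y ≠ 0) :
    log (L / 8 / ((M * 2 : ℕ) : ℝ)) ≤ 2 * ∑ i, canonicalHeight (X ^ 2 + C t)
      (∑ l, ((Cm i l : ℤ) : Qbar) * y l) := by
  classical
  obtain ⟨K, hK, hA, -⟩ := exists_numberField 0 ({t} ∪ univ.image y)
  have : NumberField K := {}
  have ht : t ∈ K := hA t (by simp)
  have hyK : ∀ l, y l ∈ K := fun l => hA _ (by simp)
  obtain ⟨k, hk⟩ : ∃ k, y k ≠ 0 := by
    by_contra hcon
    push Not at hcon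
    exact hy (funext hcon)
  have h := quad_K (algebraMap K Qbar) r Cm M hM L hL hgood ⟨t, ht⟩
    (fun l => ⟨y l, hyK l⟩) ⟨k, fun h0 => hk (congrArg Subtype.val h0)⟩
  have he : ∀ i, algebraMap K Qbar (∑ l, ((Cm i l : ℤ) : K) * ⟨y l, hyK l⟩) =
      ∑ l, ((Cm i l : ℤ) : Qbar) * y l := by
    intro i
    rw [map_sum]
    apply Finset.sum_congr rfl
    intro l _
    rw [map_mul, map_intCast]
    rfl
  have ht2 : algebraMap K Qbar ⟨t, ht⟩ = t := rfl
  simp only [he, ht2] at h
  exact h

end MPd27c8d
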