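import Mathlib
import Pool.Agent.Lib.MP_d27c8d_nt.Matrix
import Pool.Agent.Lib.MP_d27c8d_nt.Quad
import Pool.Agent.Lib.MP_d27c8d_nt.Star

/-!
Almost all integer linear spaces.
-/

open Polynomial Finset NumberField Height Real Filter Topology Classical

namespace MPd27c8d

/-- Statement of the counting lemma. -/
def StarCount : Prop := ∀ (n r : ℕ) (B δ : ℝ), 0 < δ →
    ∃ M : ℕ, 0 < M ∧ ∃ H₀ : ℕ, ∀ H : ℕ, H₀ ≤ H →
      (((boxM H n r).filter (fun C => ¬ StarGood C M (B * M))).card : ℝ) ≤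
        δ * (2 * (H : ℝ) + 1) ^ (n * r)

/-- Pigeonhole for an assignment of maps. -/
lemma exists_class (m p n : ℕ) (h : m * p < n) (τ : Fin n → Fin m) :
    ∃ (t : Fin m) (e : Fin (p + 1) → Fin n), Function.Injective e ∧ ∀ i, τ (e i) = t := by
  obtain ⟨t, ht⟩ := Fintype.exists_lt_card_fiber_of_mul_lt_card τ (n := p)
    (by rw [Fintype.card_fin, Fintype.card_fin]; exact h)
  obtain ⟨T, hTS, hT⟩ := Finset.exists_subset_card_eq
    (s := (univ : Finset (Fin n)).filter (fun x => τ x = t)) (n := p + 1) (by omega)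
  let e := (T.equivFinOfCardEq hT).symm
  refine ⟨t, fun i => (e i : Fin n), ?_, ?_⟩
  · intro i j hij
    exact e.injective (Subtype.ext hij)
  · intro i
    exact (Finset.mem_filter.mp (hTS (e i).2)).2

/-- Sums over a subfamily. -/
lemma sum_comp_le (n p : ℕ) (e : Fin p → Fin n) (he : Function.Injective e) (F : Fin n → ℝ)
    (hF : ∀ i, 0 ≤ F i) : ∑ i, F (e i) ≤ ∑ i, F i := by
  have h1 : ∑ i, F (e i) = ∑ j ∈ univ.image e, F j := by
    rw [Finset.sum_image]
    intro x _ y _ h; exact he h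
  rw [h1]
  apply Finset.sum_le_sum_of_subset_of_nonneg (Finset.subset_univ _)
  intro j _ _; exact hF j

theorem star_poly {n r : ℕ} (C : Fin n → Fin r → ℤ) (M : ℕ) (hM : 0 < M) (A B : ℝ)
    (hB : B = 16 * exp (2 * |A|)) (h : StarGood C M (B * M)) (d m : ℕ) (hd : 2 ≤ d)
    (hn : m * (d + r) < n) (f : Fin m → Qbar[X]) (τ : Fin n → Fin m) (x : Qbar)
    (y : Fin r → Qbar) (hf : ∀ i, (f i).natDegree = d) (hy : y ≠ 0) :
    A ≤ ∑ i, canonicalHeight (f (τ i)) (x + ∑ l, ((C i l : ℤ) : Qbar) * y l) := by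
  have hB0 : 0 < B := by rw [hB]; positivity
  have hMR : (0 : ℝ) < M := by exact_mod_cast hM
  obtain ⟨t, e, he, hτ⟩ := exists_class m (d + r) n hn τ
  have h1 := (h.comp e he).goodMatrix (by positivity) d (by omega : d + r < d + r + 1)
  have h2 := matrix_Q (f t) d r (d + r + 1) (hf t) hd (fun i => C (e i)) M (by omega) (B * M)
    (by positivity) h1 x y hy
  have h3 := sum_comp_le n (d + r + 1) e he
    (fun i => canonicalHeight (f (τ i)) (x + ∑ l, ((C i l : ℤ) : Qbar) * y l))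
    (fun i => canonicalHeight_nonneg _ (by rw [hf]; exact hd) _)
  simp only [hτ] at h3
  have h4 : 2 * |A| ≤ log (B * M / (8 * M)) := by
    have h5 : B * M / (8 * M) = 2 * exp (2 * |A|) := by rw [hB]; field_simp; ring
    rw [h5, log_mul (by norm_num) (exp_pos _).ne', log_exp]
    have := log_nonneg (by norm_num : (1 : ℝ) ≤ 2)
    linarith
  have h6 := le_abs_self A
  linarith

theorem star_quad {n r : ℕ} (C : Fin n → Fin r → ℤ) (M : ℕ) (hM : 0 < M) (A B : ℝ)
    (hB : B = 16 * exp (2 * |A|)) (h : StarGood C M (B * M)) (m : ℕ)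
    (hn : m * (r + 1) < n) (t : Fin m → Qbar) (τ : Fin n → Fin m)
    (y : Fin r → Qbar) (hy : y ≠ 0) :
    A ≤ ∑ i, canonicalHeight (X ^ 2 + Polynomial.C (t (τ i)))
      (∑ l, ((C i l : ℤ) : Qbar) * y l) := by
  have hB0 : 0 < B := by rw [hB]; positivity
  have hMR : (0 : ℝ) < M := by exact_mod_cast hM
  obtain ⟨u, e, he, hτ⟩ := exists_class m (r + 1) n hn τ
  have h1 := (h.comp e he).goodQuad
  have h2 := quad_Q r (fun i => C (e i)) M (by omega) (B * M)
    (by positivity) h1 (t u) y hy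
  have h3 := sum_comp_le n (r + 2) e he
    (fun i => canonicalHeight (X ^ 2 + Polynomial.C (t (τ i)))
      (∑ l, ((C i l : ℤ) : Qbar) * y l))
    (fun i => canonicalHeight_nonneg _ (by rw [natDegree_X_pow_add_C]) _)
  simp only [hτ] at h3
  have h4 : 2 * |A| ≤ log (B * M / 8 / ((M * 2 : ℕ) : ℝ)) := by
    have h5 : B * M / 8 / ((M * 2 : ℕ) : ℝ) = exp (2 * |A|) := by
      rw [hB]; push_cast; field_simp; ring
    rw [h5, log_exp]
  have h6 := le_abs_self A
  linarith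

/-- Almost all linear spaces containing the diagonal. -/
theorem density_poly (hcount : StarCount) (d r m n : ℕ) (hd : 2 ≤ d) (hn : m * (d + r) < n)
    (A δ : ℝ) (hδ : 0 < δ) :
    ∃ H₀ : ℕ, ∀ H : ℕ, H₀ ≤ H →
      (((Fintype.piFinset fun _ : Fin n => Fintype.piFinset fun _ : Fin r =>
          Finset.Icc (-(H : ℤ)) (H : ℤ)).filter (fun c : Fin n → Fin r → ℤ =>
        ¬ ∀ (f : Fin m → Qbar[X]) (τ : Fin n → Fin m) (x : Qbar) (y : Fin r → Qbar),
          (∀ i, (f i).natDegree = d) → y ≠ 0 →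
          A ≤ ∑ i, canonicalHeight (f (τ i)) (x + ∑ l, ((c i l : ℤ) : Qbar) * y l))).card : ℝ) ≤
        δ * (2 * (H : ℝ) + 1) ^ (n * r) := by
  obtain ⟨M, hM, H₀, h⟩ := hcount n r (16 * exp (2 * |A|)) δ hδ
  refine ⟨H₀, fun H hH => le_trans ?_ (h H hH)⟩
  have hbox : (Fintype.piFinset fun _ : Fin n => Fintype.piFinset fun _ : Fin r =>
      Finset.Icc (-(H : ℤ)) (H : ℤ)) = boxM H n r := rfl
  rw [hbox]
  norm_cast
  apply Finset.card_le_card
  intro c hc
  rw [Finset.mem_filter] at hc ⊢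
  refine ⟨hc.1, fun hgood => hc.2 ?_⟩
  intro f τ x y hf hy
  exact star_poly c M hM A _ rfl hgood d m hd hn f τ x y hf hy

/-- Almost all linear spaces, quadratic family. -/
theorem density_quad (hcount : StarCount) (r m n : ℕ) (hn : m * (r + 1) < n)
    (A δ : ℝ) (hδ : 0 < δ) :
    ∃ H₀ : ℕ, ∀ H : ℕ, H₀ ≤ H →
      (((Fintype.piFinset fun _ : Fin n => Fintype.piFinset fun _ : Fin r =>
          Finset.Icc (-(H : ℤ)) (H : ℤ)).filter (fun c : Fin n → Fin r → ℤ =>
        ¬ ∀ (t : Fin m → Qbar) (τ : Fin n → Fin m) (y : Fin r → Qbar), y ≠ 0 →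
          A ≤ ∑ i, canonicalHeight (X ^ 2 + Polynomial.C (t (τ i)))
            (∑ l, ((c i l : ℤ) : Qbar) * y l))).card : ℝ) ≤
        δ * (2 * (H : ℝ) + 1) ^ (n * r) := by
  obtain ⟨M, hM, H₀, h⟩ := hcount n r (16 * exp (2 * |A|)) δ hδ
  refine ⟨H₀, fun H hH => le_trans ?_ (h H hH)⟩
  have hbox : (Fintype.piFinset fun _ : Fin n => Fintype.piFinset fun _ : Fin r =>
      Finset.Icc (-(H : ℤ)) (H : ℤ)) = boxM H n r := rfl
  rw [hbox]
  norm_cast
  apply Finset.card_le_card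
  intro c hc
  rw [Finset.mem_filter] at hc ⊢
  refine ⟨hc.1, fun hgood => hc.2 ?_⟩
  intro t τ y hy
  exact star_quad c M hM A _ rfl hgood m hn t τ y hy

end MPd27c8d
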