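import Mathlib
import Pool.Agent.Lib.MP_d27c8d_nt.UniQ

/-!
Preperiodic polynomials under unicritical maps over a function field, and the dichotomy for
moving unicritical maps.
-/

open Polynomial Finset NumberField Height Real Filter Topology

namespace MPd27c8d

/-- Two polynomials of the same degree whose `d`-th powers nearly agree. -/
lemma near_power {k : Type*} [Field k] [CharZero k] (d s : ℕ) (hd : 2 ≤ d) (hs : 1 ≤ s)
    (P Q : k[X]) (hP : P.natDegree = s) (hQ : Q.natDegree = s)
    (h : (P ^ d - Q ^ d).natDegree ≤ s) :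
    ∃ ζ : k, ζ ^ d = 1 ∧ (P = C ζ * Q ∨ (d = 2 ∧ ∃ e : k, P = C ζ * Q + C e)) := by
  have hP0 : P ≠ 0 := by rintro rfl; simp at hP; omega
  have hQ0 : Q ≠ 0 := by rintro rfl; simp at hQ; omega
  have ha : P.leadingCoeff ≠ 0 := leadingCoeff_ne_zero.mpr hP0
  have hb : Q.leadingCoeff ≠ 0 := leadingCoeff_ne_zero.mpr hQ0
  have hcP : (P ^ d).coeff (d * s) = P.leadingCoeff ^ d := by
    rw [coeff_pow_of_natDegree_le (le_of_eq hP), ← hP]; rfl
  have hcQ : (Q ^ d).coeff (d * s) = Q.leadingCoeff ^ d := by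
    rw [coeff_pow_of_natDegree_le (le_of_eq hQ), ← hQ]; rfl
  have hds : s < d * s := by nlinarith
  have hpow : P.leadingCoeff ^ d = Q.leadingCoeff ^ d := by
    have h1 : (P ^ d - Q ^ d).coeff (d * s) = 0 :=
      coeff_eq_zero_of_natDegree_lt (lt_of_le_of_lt h hds)
    rw [coeff_sub, hcP, hcQ] at h1
    exact sub_eq_zero.mp h1
  set ζ := P.leadingCoeff / Q.leadingCoeff with hζ
  have hζd : ζ ^ d = 1 := by
    rw [hζ, div_pow, hpow, div_self (pow_ne_zero _ hb)]
  have hζ0 : ζ ≠ 0 := div_ne_zero ha hb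
  refine ⟨ζ, hζd, ?_⟩
  set Q' := C ζ * Q with hQ'
  have hQ'd : Q' ^ d = Q ^ d := by
    rw [hQ', mul_pow, ← C_pow, hζd, C_1, one_mul]
  have hdeg' : Q'.natDegree = s := by rw [hQ', natDegree_C_mul hζ0, hQ]
  have hlc' : Q'.coeff s = P.leadingCoeff := by
    rw [hQ', coeff_C_mul, ← hQ, coeff_natDegree, hζ, div_mul_cancel₀ _ hb]
  have hlcP : P.coeff s = P.leadingCoeff := by rw [← hP]; rfl
  by_cases hE : P - Q' = 0
  · left; exact sub_eq_zero.mp hE
  right
  set S := ∑ i ∈ range d, P ^ i * Q' ^ (d - 1 - i) with hS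
  have hfac : S * (P - Q') = P ^ d - Q ^ d := by
    rw [hS, (Commute.all P Q').geom_sum₂_mul, hQ'd]
  have hScoeff : S.coeff ((d - 1) * s) = d * P.leadingCoeff ^ (d - 1) := by
    rw [hS, finsetSum_coeff]
    have : ∀ i ∈ range d, (P ^ i * Q' ^ (d - 1 - i)).coeff ((d - 1) * s) =
        P.leadingCoeff ^ (d - 1) := by
      intro i hi
      rw [Finset.mem_range] at hi
      have h1 : (d - 1) * s = i * s + (d - 1 - i) * s := by
        rw [← add_mul]; congr 1; omega
      rw [h1, coeff_mul_add_eq_of_natDegree_le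
        (natDegree_pow_le_of_le i (le_of_eq hP)) (natDegree_pow_le_of_le _ (le_of_eq hdeg')),
        coeff_pow_of_natDegree_le (le_of_eq hP), coeff_pow_of_natDegree_le (le_of_eq hdeg'),
        hlcP, hlc', ← pow_add]
      congr 1; omega
    rw [Finset.sum_congr rfl this, Finset.sum_const, Finset.card_range, nsmul_eq_mul]
  have hSne : S.coeff ((d - 1) * s) ≠ 0 := by
    rw [hScoeff]
    exact mul_ne_zero (by exact_mod_cast (by omega : d ≠ 0)) (pow_ne_zero _ ha)
  have hS0 : S ≠ 0 := by rintro h0; rw [h0] at hSne; simp at hSne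
  have hSdeg : (d - 1) * s ≤ S.natDegree := le_natDegree_of_ne_zero hSne
  have hprod : S.natDegree + (P - Q').natDegree ≤ s := by
    rw [← natDegree_mul hS0 hE, hfac]; exact h
  have hd2 : d = 2 := by
    by_contra hne
    have h3 : 2 * s ≤ (d - 1) * s := Nat.mul_le_mul_right s (by omega)
    omega
  have hE0 : (P - Q').natDegree = 0 := by
    have : s ≤ (d - 1) * s := Nat.le_mul_of_pos_left s (by omega)
    omega
  refine ⟨hd2, (P - Q').coeff 0, ?_⟩
  have := eq_C_of_natDegree_eq_zero hE0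
  rw [← this]; ring

/-- Iterates of `z ↦ z ^ d + h` on polynomials. -/
noncomputable def polyOrbit {k : Type*} [Field k] (d : ℕ) (h g : k[X]) (n : ℕ) : k[X] :=
  (fun p => p ^ d + h)^[n] g

lemma polyOrbit_succ {k : Type*} [Field k] (d : ℕ) (h g : k[X]) (n : ℕ) :
    polyOrbit d h g (n + 1) = (polyOrbit d h g n) ^ d + h := by
  rw [polyOrbit, Function.iterate_succ_apply']; rfl

/-- If the degrees never grow, the orbit is preperiodic. -/
lemma orbit_dichotomy {k : Type*} [Field k] [CharZero k] (d : ℕ) (hd : 2 ≤ d) (g h : k[X])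
    (hgh : 1 ≤ g.natDegree ∨ 1 ≤ h.natDegree)
    (hdeg : ∀ n, n ≤ d + 1 →
      (polyOrbit d h g (n + 1)).natDegree ≤ (polyOrbit d h g n).natDegree) :
    polyOrbit d h g 3 = polyOrbit d h g 1 := by
  set P := polyOrbit d h g with hP
  have hsucc : ∀ n, P (n + 1) = P n ^ d + h := polyOrbit_succ d h g
  have hP0 : P 0 = g := rfl
  have h12 : P 2 = P 1 → P 3 = P 1 := by
    intro h
    have h3 : P 3 = P 2 ^ d + _ := hsucc 2
    rw [h, ← hsucc] at h3
    rw [h3]; exact h
  -- `h` is not constant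
  have hh : 1 ≤ h.natDegree := by
    by_contra hcon
    have hh0 : h.natDegree = 0 := by omega
    have hg1 : 1 ≤ g.natDegree := by
      rcases hgh with h1 | h1
      · exact h1
      · omega
    have h1 := hdeg 0 (by omega)
    rw [hsucc, hP0] at h1
    have h2 : (g ^ d + h).natDegree = d * g.natDegree := by
      rw [natDegree_add_eq_left_of_natDegree_lt, natDegree_pow]
      rw [natDegree_pow, hh0]; positivity
    rw [h2] at h1
    nlinarith
  have hexact : ∀ n, n ≤ d + 1 → d * (P n).natDegree = h.natDegree := by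
    intro n hn
    have h1 := hdeg n hn
    change (P (n + 1)).natDegree ≤ (P n).natDegree at h1
    rw [hsucc] at h1
    rcases lt_trichotomy (d * (P n).natDegree) h.natDegree with h2 | h2 | h2
    · exfalso
      have h3 : (P n ^ d + h).natDegree = h.natDegree := by
        rw [natDegree_add_eq_right_of_natDegree_lt]
        rw [natDegree_pow]; exact h2
      rw [h3] at h1
      nlinarith
    · exact h2
    · exfalso
      have h3 : (P n ^ d + h).natDegree = d * (P n).natDegree := by
        rw [natDegree_add_eq_left_of_natDegree_lt, natDegree_pow]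
        rw [natDegree_pow]; exact h2
      rw [h3] at h1
      nlinarith
  set s := g.natDegree with hs
  have hsd : d * s = h.natDegree := by
    have := hexact 0 (by omega)
    rw [hP0] at this; exact this
  have hs1 : 1 ≤ s := by
    by_contra hcon
    have : s = 0 := by omega
    rw [this] at hsd; omega
  have hdegs : ∀ n, n ≤ d + 1 → (P n).natDegree = s := by
    intro n hn
    have h1 := hexact n hn
    rw [← hsd] at h1
    exact Nat.eq_of_mul_eq_mul_left (by omega) h1
  have hnear : ∀ i j, i ≤ d → j ≤ d → (P i ^ d - P j ^ d).natDegree ≤ s := by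
    intro i j hi hj
    have h1 : P i ^ d - P j ^ d = P (i + 1) - P (j + 1) := by
      rw [hsucc, hsucc]; ring
    rw [h1]
    refine (natDegree_sub_le _ _).trans (max_le ?_ ?_)
    · exact le_of_eq (hdegs _ (by omega))
    · exact le_of_eq (hdegs _ (by omega))
  by_cases hd2 : d = 2
  · subst hd2
    obtain ⟨ζ, hζ, h1⟩ := near_power 2 s le_rfl hs1 (P 1) (P 0) (hdegs 1 (by omega))
      (hdegs 0 (by omega)) (hnear 1 0 (by omega) (by omega))
    obtain ⟨ζ', hζ', h2⟩ := near_power 2 s le_rfl hs1 (P 2) (P 0) (hdegs 2 (by omega))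
      (hdegs 0 (by omega)) (hnear 2 0 (by omega) (by omega))
    obtain ⟨e, he⟩ : ∃ e : k, P 1 = C ζ * P 0 + C e := by
      rcases h1 with h1 | ⟨-, e, he⟩
      · exact ⟨0, by rw [h1]; simp⟩
      · exact ⟨e, he⟩
    obtain ⟨e', he'⟩ : ∃ e : k, P 2 = C ζ' * P 0 + C e := by
      rcases h2 with h2 | ⟨-, e, he⟩
      · exact ⟨0, by rw [h2]; simp⟩
      · exact ⟨e, he⟩
    have hh2 : h = P 1 - P 0 ^ 2 := by
      have := hsucc 0
      rw [this]; ring
    have hP2 : P 2 = C (ζ * (2 * e + 1)) * P 0 + C (e ^ 2 + e) := by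
      have h3 : P 2 = P 1 ^ 2 + h := hsucc 1
      rw [h3, hh2, he]
      have h4 : (C ζ : k[X]) ^ 2 = 1 := by rw [← C_pow, hζ, C_1]
      simp only [C_mul, C_add, C_pow, C_1]
      have h5 : (C (2 : k) : k[X]) = 2 := C_ofNat 2
      rw [h5]
      linear_combination (P 0) ^ 2 * h4
    have hlc : ζ' = ζ * (2 * e + 1) := by
      have h3 : (C ζ' * P 0 + C e').coeff s = (C (ζ * (2 * e + 1)) * P 0 + C (e ^ 2 + e)).coeff s := by
        rw [← he', ← hP2]
      rw [coeff_add, coeff_add, coeff_C_mul, coeff_C_mul, coeff_C_of_ne_zero (by omega),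
        coeff_C_of_ne_zero (by omega), add_zero, add_zero] at h3
      have h4 : (P 0).coeff s ≠ 0 := by
        rw [hP0, hs, coeff_natDegree, leadingCoeff_ne_zero]
        rintro h0; rw [h0] at hs; simp at hs; omega
      exact mul_right_cancel₀ h4 h3
    have hcases : e = 0 ∨ e = -1 := by
      have h3 : (2 * e + 1) ^ 2 = 1 := by
        have h4 : (ζ * (2 * e + 1)) ^ 2 = 1 := by rw [← hlc, hζ']
        rw [mul_pow, hζ, one_mul] at h4
        exact h4
      have h5 : e * (e + 1) = 0 := by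
        have : 4 * (e * (e + 1)) = 0 := by linear_combination h3
        rcases mul_eq_zero.mp this with h | h
        · norm_num at h
        · exact h
      rcases mul_eq_zero.mp h5 with h | h
      · left; exact h
      · right; linear_combination h
    have hsqC : (C ζ : k[X]) ^ 2 = 1 := by rw [← C_pow, hζ, C_1]
    rcases hcases with h3 | h3
    · apply h12
      have h4 : P 2 = P 1 ^ 2 + h := hsucc 1
      have h5 : P 1 = P 0 ^ 2 + h := hsucc 0
      rw [h4]
      conv_rhs => rw [h5]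
      rw [he, h3, C_0, add_zero, mul_pow, hsqC, one_mul]
    · have h4 : P 3 = P 2 ^ 2 + h := hsucc 2
      have h5 : P 1 = P 0 ^ 2 + h := hsucc 0
      rw [h4]
      conv_rhs => rw [h5]
      rw [hP2, h3]
      have h6 : (C (ζ * (2 * (-1) + 1)) * P 0 + C ((-1 : k) ^ 2 + (-1)) : k[X]) = - (C ζ * P 0) := by
        have h7 : (ζ * (2 * (-1) + 1) : k) = -ζ := by ring
        have h8 : ((-1 : k) ^ 2 + (-1)) = 0 := by ring
        rw [h7, h8, C_0, C_neg]; ring
      rw [h6, neg_sq, mul_pow, hsqC, one_mul]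
  · have hall : ∀ i, i ≤ d → ∃ ζ : k, ζ ^ d = 1 ∧ P i = C ζ * P 0 := by
      intro i hi
      obtain ⟨ζ, hζ, h1⟩ := near_power d s hd hs1 (P i) (P 0) (hdegs i (by omega))
        (hdegs 0 (by omega)) (hnear i 0 hi (by omega))
      rcases h1 with h1 | ⟨h1, -⟩
      · exact ⟨ζ, hζ, h1⟩
      · exact absurd h1 hd2
    obtain ⟨ζ, hζ, h1⟩ := hall 1 (by omega)
    apply h12
    have h4 : P 2 = P 1 ^ d + h := hsucc 1
    have h5 : P 1 = P 0 ^ d + h := hsucc 0
    rw [h4]
    conv_rhs => rw [h5]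
    rw [h1, mul_pow, ← C_pow, hζ, C_1, one_mul]

end MPd27c8d
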