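import Mathlib
import Pool.Agent.Lib.MP_d27c8d_nt.Density
import Pool.Agent.Lib.MP_d27c8d_nt.CountW
import Pool.Agent.Lib.MP_d27c8d_nt.CountX

/-!
The density theorems.
-/

open Polynomial Finset NumberField Height Real Filter Topology Classical

namespace MPd27c8d

theorem coreOfMinors : CoreOfMinors := by
  intro r E M N θ hN hθ hE h1 h2
  exact core_of_minors r E M N θ hN hθ hE h1 h2

theorem starCount : StarCount := by
  intro n r B δ hδ
  exact star_count_of minorsCount coreOfMinors n r B δ hδ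

/-- **Almost all linear spaces containing the diagonal.** -/
theorem almost_all_poly (d r m n : ℕ) (hd : 2 ≤ d) (hn : m * (d + r) < n)
    (A δ : ℝ) (hδ : 0 < δ) :
    ∃ H₀ : ℕ, ∀ H : ℕ, H₀ ≤ H →
      (((Fintype.piFinset fun _ : Fin n => Fintype.piFinset fun _ : Fin r =>
          Finset.Icc (-(H : ℤ)) (H : ℤ)).filter (fun c : Fin n → Fin r → ℤ =>
        ¬ ∀ (f : Fin m → Qbar[X]) (τ : Fin n → Fin m) (x : Qbar) (y : Fin r → Qbar),
          (∀ i, (f i).natDegree = d) → y ≠ 0 →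
          A ≤ ∑ i, canonicalHeight (f (τ i)) (x + ∑ l, ((c i l : ℤ) : Qbar) * y l))).card : ℝ) ≤
        δ * (2 * (H : ℝ) + 1) ^ (n * r) :=
  density_poly starCount d r m n hd hn A δ hδ

/-- **Almost all linear spaces, quadratic family.** -/
theorem almost_all_quad (r m n : ℕ) (hn : m * (r + 1) < n) (A δ : ℝ) (hδ : 0 < δ) :
    ∃ H₀ : ℕ, ∀ H : ℕ, H₀ ≤ H →
      (((Fintype.piFinset fun _ : Fin n => Fintype.piFinset fun _ : Fin r =>
          Finset.Icc (-(H : ℤ)) (H : ℤ)).filter (fun c : Fin n → Fin r → ℤ =>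
        ¬ ∀ (t : Fin m → Qbar) (τ : Fin n → Fin m) (y : Fin r → Qbar), y ≠ 0 →
          A ≤ ∑ i, canonicalHeight (X ^ 2 + Polynomial.C (t (τ i)))
            (∑ l, ((c i l : ℤ) : Qbar) * y l))).card : ℝ) ≤
        δ * (2 * (H : ℝ) + 1) ^ (n * r) :=
  density_quad starCount r m n hn A δ hδ

end MPd27c8d
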