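import Mathlib
import Pool.Agent.Lib.MP_d27c8d_nt.Final

/-!
The density theorems in limit form.
-/

open Polynomial Finset NumberField Height Real Filter Topology Classical

namespace MPd27c8d

lemma tendsto_proportion (n r : ℕ) (P : (Fin n → Fin r → ℤ) → Prop)
    (h : ∀ δ : ℝ, 0 < δ → ∃ H₀ : ℕ, ∀ H : ℕ, H₀ ≤ H →
      (((Fintype.piFinset fun _ : Fin n => Fintype.piFinset fun _ : Fin r =>
          Finset.Icc (-(H : ℤ)) (H : ℤ)).filter (fun c : Fin n → Fin r → ℤ => ¬ P c)).card : ℝ) ≤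
        δ * (2 * (H : ℝ) + 1) ^ (n * r)) :
    Tendsto (fun H : ℕ => (({c : Fin n → Fin r → ℤ | (∀ i l, |c i l| ≤ (H : ℤ)) ∧ ¬ P c}.ncard :
      ℕ) : ℝ) / (2 * (H : ℝ) + 1) ^ (n * r)) atTop (𝓝 0) := by
  rw [Metric.tendsto_atTop]
  intro ε hε
  obtain ⟨H₀, hH₀⟩ := h (ε / 2) (by positivity)
  refine ⟨H₀, fun H hH => ?_⟩
  have h1 := hH₀ H hH
  have hset : {c : Fin n → Fin r → ℤ | (∀ i l, |c i l| ≤ (H : ℤ)) ∧ ¬ P c} =
      (((Fintype.piFinset fun _ : Fin n => Fintype.piFinset fun _ : Fin r =>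
          Finset.Icc (-(H : ℤ)) (H : ℤ)).filter (fun c : Fin n → Fin r → ℤ => ¬ P c) :
          Finset (Fin n → Fin r → ℤ)) : Set (Fin n → Fin r → ℤ)) := by
    ext c
    simp only [Set.mem_ofPred_eq, Finset.coe_filter, Fintype.mem_piFinset, Finset.mem_Icc, abs_le]
  rw [hset, Set.ncard_coe_finset, Real.dist_eq, sub_zero]
  have hN : (0 : ℝ) < (2 * (H : ℝ) + 1) ^ (n * r) := by positivity
  rw [abs_of_nonneg (by positivity)]
  calc _ ≤ ε / 2 * (2 * (H : ℝ) + 1) ^ (n * r) / (2 * (H : ℝ) + 1) ^ (n * r) :=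
        div_le_div_of_nonneg_right h1 hN.le
    _ = ε / 2 := by field_simp
    _ < ε := by linarith

theorem limit_poly (d r m n : ℕ) (hd : 2 ≤ d) (hn : m * (d + r) < n) (A : ℝ) :
    Tendsto (fun H : ℕ => (({c : Fin n → Fin r → ℤ | (∀ i l, |c i l| ≤ (H : ℤ)) ∧
        ¬ ∀ (f : Fin m → Qbar[X]) (τ : Fin n → Fin m) (x : Qbar) (y : Fin r → Qbar),
          (∀ i, (f i).natDegree = d) → y ≠ 0 →
          A ≤ ∑ i, canonicalHeight (f (τ i)) (x + ∑ l, ((c i l : ℤ) : Qbar) * y l)}.ncard : ℕ) :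
        ℝ) / (2 * (H : ℝ) + 1) ^ (n * r)) atTop (𝓝 0) :=
  tendsto_proportion n r _ fun δ hδ => almost_all_poly d r m n hd hn A δ hδ

theorem limit_quad (r m n : ℕ) (hn : m * (r + 1) < n) (A : ℝ) :
    Tendsto (fun H : ℕ => (({c : Fin n → Fin r → ℤ | (∀ i l, |c i l| ≤ (H : ℤ)) ∧
        ¬ ∀ (t : Fin m → Qbar) (τ : Fin n → Fin m) (y : Fin r → Qbar), y ≠ 0 →
          A ≤ ∑ i, canonicalHeight (X ^ 2 + Polynomial.C (t (τ i)))
            (∑ l, ((c i l : ℤ) : Qbar) * y l)}.ncard : ℕ) : ℝ) /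
        (2 * (H : ℝ) + 1) ^ (n * r)) atTop (𝓝 0) :=
  tendsto_proportion n r _ fun δ hδ => almost_all_quad r m n hn A δ hδ

end MPd27c8d
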