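import Mathlib
import Pool.Agent.Lib.MP_d27c8d_nt.Dichotomy

/-!
The functional equation of the canonical height and the dichotomy for moving unicritical maps.
-/

open Polynomial Finset NumberField Height Real Filter Topology

namespace MPd27c8d

/-- The functional equation of the canonical height. -/
theorem canonicalHeight_eval (f : Qbar[X]) (hd : 2 ≤ f.natDegree) (z : Qbar) :
    canonicalHeight f (f.eval z) = (f.natDegree : ℝ) * canonicalHeight f z := by
  have h1 := tendsto_canonicalHeight f hd (f.eval z)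
  have h2 := ((tendsto_canonicalHeight f hd z).comp (tendsto_add_atTop_nat 1)).const_mul
    (f.natDegree : ℝ)
  have hd0 : (f.natDegree : ℝ) ≠ 0 := by
    have : (f.natDegree : ℝ) ≠ ((0 : ℕ) : ℝ) := by exact_mod_cast (by omega : f.natDegree ≠ 0)
    simpa using this
  refine tendsto_nhds_unique h1 (h2.congr ?_)
  intro n
  simp only [Function.comp_apply, Function.iterate_succ_apply, pow_succ]
  field_simp

lemma canonicalHeight_orbit (d : ℕ) (hd : 2 ≤ d) (g h : Qbar[X]) (x : Qbar) (k : ℕ) :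
    canonicalHeight (X ^ d + C (h.eval x)) ((polyOrbit d h g k).eval x) =
      (d : ℝ) ^ k * canonicalHeight (X ^ d + C (h.eval x)) (g.eval x) := by
  induction k with
  | zero => simp [polyOrbit]
  | succ k ih =>
    have hnd : (X ^ d + C (h.eval x) : Qbar[X]).natDegree = d := natDegree_X_pow_add_C
    have h1 : (polyOrbit d h g (k + 1)).eval x =
        (X ^ d + C (h.eval x) : Qbar[X]).eval ((polyOrbit d h g k).eval x) := by
      rw [polyOrbit_succ]; simp
    rw [h1, canonicalHeight_eval _ (by omega), ih, hnd, pow_succ]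
    ring

lemma polyOrbit_degree_le (d r : ℕ) (hd : 2 ≤ d) (g h : Qbar[X]) (hg : g.natDegree ≤ r)
    (hh : h.natDegree ≤ r) (k : ℕ) : (polyOrbit d h g k).natDegree ≤ r * d ^ k := by
  induction k with
  | zero => simpa [polyOrbit] using hg
  | succ k ih =>
    rw [polyOrbit_succ]
    refine (natDegree_add_le _ _).trans (max_le ?_ ?_)
    · refine natDegree_pow_le.trans ?_
      calc d * (polyOrbit d h g k).natDegree ≤ d * (r * d ^ k) := Nat.mul_le_mul_left d ih
        _ = r * d ^ (k + 1) := by ring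
    · exact hh.trans (Nat.le_mul_of_pos_right r (by positivity))

/-- **Dichotomy for moving unicritical maps.** -/
theorem moving_dichotomy (c : ℕ → ℤ) (hc : Function.Injective c) (d r : ℕ) (A : ℝ)
    (hd : 2 ≤ d) :
    ∃ ℓ : ℕ, ∀ (g h : Qbar[X]), g.natDegree ≤ r → h.natDegree ≤ r →
      (1 ≤ g.natDegree ∨ 1 ≤ h.natDegree) →
      (fun p : Qbar[X] => p ^ d + h)^[3] g = (fun p : Qbar[X] => p ^ d + h)^[1] g ∨
      A ≤ ∑ j ∈ range ℓ, canonicalHeight (X ^ d + C (h.eval ((c j : ℤ) : Qbar)))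
        (g.eval ((c j : ℤ) : Qbar)) := by
  obtain ⟨ℓ, hℓ⟩ := moving_theorem c hc d (r * d ^ (d + 1)) ((d : ℝ) ^ (d + 1) * |A|) hd
  refine ⟨ℓ, ?_⟩
  intro g h hg hh hgh
  by_cases hdeg : ∀ n, n ≤ d + 1 →
      (polyOrbit d h g (n + 1)).natDegree ≤ (polyOrbit d h g n).natDegree
  · left
    exact orbit_dichotomy d hd g h hgh hdeg
  · right
    push Not at hdeg
    obtain ⟨k, hk, hlt⟩ := hdeg
    rw [polyOrbit_succ] at hlt
    have hd1 : 1 ≤ d := by omega
    have h1 := hℓ (polyOrbit d h g k) h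
      ((polyOrbit_degree_le d r hd g h hg hh k).trans
        (Nat.mul_le_mul_left r (Nat.pow_le_pow_right (by omega) hk)))
      (hh.trans (Nat.le_mul_of_pos_right r (by positivity))) hlt
    simp only [canonicalHeight_orbit d hd] at h1
    rw [← Finset.mul_sum] at h1
    have hdR : (1 : ℝ) ≤ d := by exact_mod_cast hd1
    have hk2 : (d : ℝ) ^ k ≤ (d : ℝ) ^ (d + 1) := pow_le_pow_right₀ hdR hk
    have hk3 : (0 : ℝ) < (d : ℝ) ^ k := by positivity
    have h2 : (d : ℝ) ^ k * |A| ≤ (d : ℝ) ^ k * ∑ j ∈ range ℓ,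
        canonicalHeight (X ^ d + C (h.eval ((c j : ℤ) : Qbar))) (g.eval ((c j : ℤ) : Qbar)) :=
      (mul_le_mul_of_nonneg_right hk2 (abs_nonneg A)).trans h1
    exact (le_abs_self A).trans (le_of_mul_le_mul_left h2 hk3)

end MPd27c8d
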